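import Pool.Agent.KAmp.ClsBij
import Pool.Agent.KRing.RatioAll

/-! KP16: polygons that are unknotted outside a short piece at the bottom or at the top. -/

set_option autoImplicit false

open Pool.Agent.LK
open Pool.Agent.LatticeTube (pedges mem_of_mem_pedges)
open scoped ENNReal

namespace Pool.Agent.KAmp

open Pool.Agent.KTube Pool.Agent.KRing Pool.Agent.KLog
open Pool.Agent.KAsym (ln)
open Pool.Agent.KTen (Zt LocAt)

variable {E F : Finset (Sym2 P3)} {k : ℤ} {v : ℤ × ℤ} {l l' r r' f : List P3} {j n : ℕ}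

/-! ### Upper parts -/

private theorem ct_splice_uppEq (hE : IsPolygon E) (hF : IsPolygon F)
    (hc : cross F k = cross E k) : UppEq (KTen.splice F E k) E k := by
  intro u v hu
  rw [KTen.mem_splice]
  constructor
  · rintro (⟨h1, h2⟩ | ⟨h1, -⟩)
    · rcases h2 with h2 | h2
      · omega
      · have hadj := hF.adj u v h1
        obtain ⟨c, e1, e2⟩ := edge_down hadj hu h2
        rw [e1, e2, Sym2.eq_swap] at h1
        rw [e1, e2, Sym2.eq_swap]
        have h3 : c ∈ cross F k := h1
        rw [hc] at h3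
        exact h3
    · exact h1
  · intro h1
    exact Or.inr ⟨h1, Or.inl hu⟩

private theorem ct_uppU (hE : IsPolygon E) (h2 : IsTwo E k) (h : KTen.UppU E k) :
    KRing.UppU E k := by
  obtain ⟨F, hF, hc, hU⟩ := h
  have h2F : IsTwo F k := by
    unfold IsTwo
    rw [hc]
    exact h2
  have hG : IsPolygon (KTen.splice F E k) := KTen.isPolygon_splice hF hE h2F hc.symm
  have hEq := ct_splice_uppEq hE hF hc
  have h2G : IsTwo (KTen.splice F E k) k := by
    unfold IsTwo
    rw [hEq.cross le_rfl]
    exact h2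
  exact ((unknotted_iff hG h2G).1 hU).2.congr hEq

/-! ### Polygons with a short lower part -/

/-- At some section with two edges the upper part is unknotted and the lower part is short. -/
private def CL (E : Finset (Sym2 P3)) (j : ℕ) : Prop :=
  ∃ t : ℤ, IsTwo E t ∧ KRing.UppU E t ∧ (KTen.lowE E t).card ≤ j

private theorem ct_card_mapE {g : P3 → P3} (hg : Function.Injective g) (E : Finset (Sym2 P3)) :
    (mapE g E).card = E.card :=
  Finset.card_image_of_injective _ (Sym2.map.injective hg)

private theorem ct_case (hE : IsPolygon E) (hj : j < E.card) (h : LocAt E j) (h' : ¬ MidAt E j) :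
    CL E j ∨ CL (mapE (flipZ 1) E) j := by
  obtain ⟨s, t, hst, hc, hs, ht⟩ := h
  rcases hs with hs | hs
  · rcases ht with ht | ht
    · exfalso
      have h1 : E ⊆ KTen.midE E s t := by
        intro e
        induction e with
        | _ u w =>
          intro he
          rw [KTen.mem_midE]
          have h2 : u ∈ verts E := ⟨w, he⟩
          have := hs u h2
          have := ht u h2
          exact ⟨he, Or.inl ⟨by omega, by omega⟩⟩
      have := Finset.card_le_card h1
      omega
    · left
      refine ⟨t, ht.1, ct_uppU hE ht.1 ht.2, (Finset.card_le_card ?_).trans hc⟩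
      intro e
      induction e with
      | _ u w =>
        intro he
        rw [KTen.mem_lowE] at he
        rw [KTen.mem_midE]
        obtain ⟨he, h2⟩ := he
        have hu := hs u ⟨w, he⟩
        have hw := hs w ⟨u, by rwa [Sym2.eq_swap]⟩
        refine ⟨he, ?_⟩
        rcases h2 with h2 | h2
        · exact Or.inl ⟨by omega, h2⟩
        · exact Or.inr ⟨by omega, h2⟩
  · rcases ht with ht | ht
    · right
      have hk : (1 : ℤ) - 1 - s = -s := by ring
      refine ⟨-s, ?_, ?_, ?_⟩
      · unfold IsTwo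
        rw [cross_flipZ]
        have : (1 : ℤ) - 1 - -s = s := by ring
        rw [this]
        exact hs.1
      · have h2 := ((KRing.lowU_iff hE hs.1).1 hs.2).flip 1
        rwa [hk] at h2
      · have h3 : KTen.lowE (mapE (flipZ 1) E) (-s) ⊆ mapE (flipZ 1) (KTen.midE E s t) := by
          intro e
          induction e with
          | _ u w =>
            intro he
            rw [KTen.mem_lowE, mem_flipZ] at he
            rw [mem_flipZ, KTen.mem_midE]
            obtain ⟨he, h2⟩ := he
            have hu := ht _ ⟨_, he⟩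
            have hw := ht _ ⟨_, by rwa [Sym2.eq_swap] at he⟩
            simp only [flipZ] at hu hw he ⊢
            refine ⟨he, ?_⟩
            rcases h2 with h2 | h2
            · exact Or.inl ⟨by omega, hu⟩
            · exact Or.inr ⟨by omega, hw⟩
        refine (Finset.card_le_card h3).trans ?_
        rw [ct_card_mapE (flipZ_inj 1)]
        exact hc
    · exact absurd ⟨s, t, hst, hc, hs, ht⟩ h'

private theorem ct_pedges_card (l : List P3) : (pedges l).card ≤ l.length := by
  induction l with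
  | nil => simp [pedges]
  | cons a l ih =>
    cases l with
    | nil => simp [pedges]
    | cons b l =>
      rw [pedges_cons_cons]
      refine (Finset.card_insert_le _ _).trans ?_
      rw [List.length_cons]
      omega

/-- The two halves in normal position. -/
private theorem ct_exists (hE : IsPolygon E) (h : CL E j) :
    ∃ (v : ℤ × ℤ) (l r : List P3) (t : P3), UU 0 0 v r ∧ Lower 0 0 v l ∧ l.length ≤ j ∧
      shift t E = ring (r ++ l) := by
  obtain ⟨k, h2, hU, hc⟩ := h
  obtain ⟨a, a', haa, hcr⟩ := Set.ncard_eq_two.1 h2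
  have ha : a ∈ cross E k := by
    rw [hcr]
    exact Set.mem_insert _ _
  obtain ⟨b, r, l, hab, hr, hl, hrl⟩ := exists_halves hE h2 ha
  have hUU : UU k a b r := ⟨hab, hr, l, hl, by rw [hrl]; exact hU⟩
  have hlen : l.length ≤ j := by
    have h1 : ring (r ++ l) ⊆ KTen.lowE (ring (r ++ l)) k ∪ pedges r := by
      intro e
      induction e with
      | _ u w =>
        intro he
        rw [Finset.mem_union]
        have he' := he
        rw [mem_ring_of hr hl] at he'
        rcases he' with h3 | h3 | h3 | h3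
        · exact Or.inr h3
        · left
          rw [KTen.mem_lowE]
          exact ⟨he, Or.inl (pedges_lev hl.lev h3).1⟩
        · left
          rw [KTen.mem_lowE]
          refine ⟨he, ?_⟩
          unfold leg at h3
          rw [Sym2.eq_iff] at h3
          rcases h3 with ⟨rfl, -⟩ | ⟨-, rfl⟩
          · exact Or.inl le_rfl
          · exact Or.inr le_rfl
        · left
          rw [KTen.mem_lowE]
          refine ⟨he, ?_⟩
          unfold leg at h3
          rw [Sym2.eq_iff] at h3
          rcases h3 with ⟨rfl, -⟩ | ⟨-, rfl⟩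
          · exact Or.inl le_rfl
          · exact Or.inr le_rfl
    have h3 := (Finset.card_le_card h1).trans (Finset.card_union_le _ _)
    rw [(ring_of hab hr hl).card_eq, hrl, List.length_append] at h3
    have h4 := ct_pedges_card r
    omega
  set t : P3 := (-a.1, -a.2, -k) with ht
  have e1 : k + t.2.2 = 0 := by simp [ht]
  have e2 : csh t a = 0 := by
    unfold csh
    refine Prod.ext ?_ ?_ <;> simp [ht]
  have hr' := hUU.shift t
  have hl' := hl.shift t
  rw [e1, e2] at hr' hl'
  refine ⟨csh t b, l.map (· + t), r.map (· + t), t, hr', hl', ?_, ?_⟩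
  · rw [List.length_map]
    exact hlen
  · rw [← List.map_append, ring_map, hrl]

/-! ### Flat halves -/

private theorem ct_flat (hv : v ≠ 0) : ∃ f, LU 0 0 v f ∧ ∀ u ∈ f, u.2.2 = 0 := by
  obtain ⟨r, l, hr, hl, -, hl0, hU⟩ := exists_flat2 hv
  have hP : IsPolygon (ring (r ++ l)) := (ring_of hv.symm hr hl).isPolygon
  have h2 := isTwo_ring_of hv.symm hr hl
  exact ⟨l, ⟨hv.symm, hl, r, hr, ((unknotted_iff hP h2).1 hU).1⟩, hl0⟩

/-- A polygon with a flat lower half determines the upper half. -/
private theorem ct_inj (hv : (0 : ℤ × ℤ) ≠ v) (hf : Lower 0 0 v f) (hf0 : ∀ u ∈ f, u.2.2 = 0)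
    (hr : Upper 0 0 v r) (hr' : Upper 0 0 v r') {s t : P3}
    (h : shift s (ring (r ++ f)) = shift t (ring (r' ++ f))) : r = r' := by
  have h1 : shift (-t + s) (ring (r ++ f)) = ring (r' ++ f) := by
    rw [← shift_shift, h, shift_shift, neg_add_cancel, shift_zero]
  set d := -t + s with hd
  have hemp : ∀ {r : List P3}, Upper 0 0 v r → ∀ j : ℤ, j < 0 → ∀ c, c ∉ cross (ring (r ++ f)) j := by
    intro r hr j hj c hc
    rw [cross_ring_low hr hf hj] at hc
    have := hf0 _ (mem_of_mem_pedges hc).1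
    simp only at this
    omega
  have hp : cross (ring (r ++ f)) 0 = {0, v} := cross_ring_of hr hf
  have hq : cross (ring (r' ++ f)) 0 = {0, v} := cross_ring_of hr' hf
  have hc' : ∀ (j : ℤ) (c : ℤ × ℤ), c ∈ cross (ring (r' ++ f)) j ↔
      (c.1 - d.1, c.2 - d.2.1) ∈ cross (ring (r ++ f)) (j - d.2.2) := by
    intro j c
    rw [← h1, cross_shift']
  have hz : d.2.2 = 0 := by
    rcases lt_trichotomy d.2.2 0 with h3 | h3 | h3
    · exfalso
      have h4 : ((0 : ℤ × ℤ).1 - (-d.1), (0 : ℤ × ℤ).2 - (-d.2.1)) ∈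
          cross (ring (r' ++ f)) d.2.2 := by
        rw [hc', sub_self]
        have e : (((0 : ℤ × ℤ).1 - (-d.1) - d.1, (0 : ℤ × ℤ).2 - (-d.2.1) - d.2.1) : ℤ × ℤ)
            = 0 := by
          refine Prod.ext ?_ ?_ <;> simp
        rw [hp]
        simp only at e ⊢
        rw [e]
        exact Set.mem_insert _ _
      exact hemp hr' _ h3 _ h4
    · exact h3
    · exfalso
      have h4 : (0 : ℤ × ℤ) ∈ cross (ring (r' ++ f)) 0 := by
        rw [hq]
        exact Set.mem_insert _ _
      rw [hc'] at h4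
      exact hemp hr _ (by omega) _ h4
  have hc : ∀ c : ℤ × ℤ, c ∈ cross (ring (r' ++ f)) 0 ↔
      (c.1 - d.1, c.2 - d.2.1) ∈ cross (ring (r ++ f)) 0 := by
    intro c
    rw [hc', hz, sub_zero]
  have e1 : (0 : ℤ × ℤ) = (0 - d.1, 0 - d.2.1) ∨ v = (0 - d.1, 0 - d.2.1) := by
    have := (hc 0).1 (by rw [hq]; exact Set.mem_insert _ _)
    rw [hp, Set.mem_insert_iff, Set.mem_singleton_iff] at this
    exact this.imp Eq.symm Eq.symm
  have e2 : (0 : ℤ × ℤ) = (v.1 - d.1, v.2 - d.2.1) ∨ v = (v.1 - d.1, v.2 - d.2.1) := by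
    have := (hc v).1 (by rw [hq]; exact Set.mem_insert_of_mem _ rfl)
    rw [hp, Set.mem_insert_iff, Set.mem_singleton_iff] at this
    exact this.imp Eq.symm Eq.symm
  have hd0 : d = 0 := by
    have b0 : ∀ {a b c e : ℤ}, (a, b) = (c, e) → a = c ∧ b = e := fun h => Prod.mk.inj h
    have v1 : v = (v.1, v.2) := rfl
    rcases e1 with e1 | e1
    · obtain ⟨a1, a2⟩ := b0 (e1 : ((0 : ℤ), (0 : ℤ)) = _)
      exact Prod.ext (by simp only [Prod.fst_zero]; omega)
        (Prod.ext (by simp only [Prod.snd_zero, Prod.fst_zero]; omega) hz)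
    · exfalso
      rw [v1] at e1
      obtain ⟨a1, a2⟩ := b0 e1
      apply hv
      rcases e2 with e2 | e2
      · obtain ⟨b1, b2⟩ := b0 (e2 : ((0 : ℤ), (0 : ℤ)) = _)
        exact Prod.ext (by simp only [Prod.fst_zero]; omega) (by simp only [Prod.snd_zero]; omega)
      · have e3 : (v.1, v.2) = (v.1 - d.1, v.2 - d.2.1) := e2
        obtain ⟨b1, b2⟩ := b0 e3
        exact Prod.ext (by simp only [Prod.fst_zero]; omega) (by simp only [Prod.snd_zero]; omega)
  rw [hd0, shift_zero] at h1
  obtain ⟨-, h2, -⟩ := halves_unique hv hv hr hf hr' hf h1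
  exact h2

/-! ### Codes -/

/-- Codes: a side, a displacement and a short lower half. -/
private def Cd (j : ℕ) : Set (Bool × (ℤ × ℤ) × List P3) :=
  {c | (0 : ℤ × ℤ) ≠ c.2.1 ∧ Lower 0 0 c.2.1 c.2.2 ∧ c.2.2.length ≤ j}

private theorem ct_isStep_finite : {d : P3 | IsStep d}.Finite := by
  refine (Set.finite_Icc ((-1, -1, -1) : P3) (1, 1, 1)).subset ?_
  intro d hd
  have h : |d.1| + |d.2.1| + |d.2.2| = 1 := hd
  have h1 := abs_nonneg d.1
  have h2 := abs_nonneg d.2.1
  have h3 := abs_nonneg d.2.2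
  have g1 := abs_le.1 (show |d.1| ≤ 1 by omega)
  have g2 := abs_le.1 (show |d.2.1| ≤ 1 by omega)
  have g3 := abs_le.1 (show |d.2.2| ≤ 1 by omega)
  exact ⟨⟨g1.1, g2.1, g3.1⟩, ⟨g1.2, g2.2, g3.2⟩⟩

private theorem ct_cd_finite (j : ℕ) : (Cd j).Finite := by
  have hS : {s : List P3 | (∀ d ∈ s, IsStep d) ∧ s.length ≤ j}.Finite := by
    haveI : Finite {d : P3 // IsStep d} := ct_isStep_finite.to_subtype
    refine ((List.finite_length_le {d : P3 // IsStep d} j).image
      (fun s => s.map Subtype.val)).subset ?_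
    rintro s ⟨h1, h2⟩
    refine ⟨s.attach.map fun d => ⟨d.1, h1 d.1 d.2⟩, ?_, ?_⟩
    · simpa using h2
    · simp only [List.map_map]
      exact List.attach_map_subtype_val s
  have hT := (Set.toFinite (Set.univ : Set Bool)).prod hS
  refine (hT.image fun x : Bool × List P3 =>
    (x.1, hz (0 + x.2.sum), (wk 0 x.2).reverse)).subset ?_
  rintro ⟨b, v, l⟩ ⟨-, hl, hlen⟩
  simp only at hl hlen
  have hh : l.reverse.head? = some (0 : P3) := by
    rw [List.head?_reverse]
    exact hl.last
  obtain ⟨s, hs⟩ := exists_wk l.reverse 0 hh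
  have hl2 : l = (wk 0 s).reverse := by rw [← hs, List.reverse_reverse]
  refine ⟨(b, s), ⟨Set.mem_univ _, ?_, ?_⟩, ?_⟩
  · rw [← chain_wk (p := 0), ← hs]
    rw [List.isChain_reverse]
    exact hl.chain.imp fun _ _ h => h.symm
  · have h3 : l.length = s.length + 1 := by rw [hl2, List.length_reverse, length_wk]
    show s.length ≤ j
    omega
  · have h3 := last_wk 0 s
    rw [← hs, List.getLast?_reverse, hl.head, Option.some.injEq] at h3
    refine Prod.ext rfl (Prod.ext ?_ hl2.symm)
    show hz (0 + s.sum) = v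
    rw [← h3]
    rfl


/-! ### The span -/

private theorem ct_span_flipZ (E : Finset (Sym2 P3)) : span (mapE (flipZ 1) E) = span E := by
  unfold KTube.span
  have h : {k : ℤ | (cross (mapE (flipZ 1) E) k).Nonempty} =
      (fun k : ℤ => -k) '' {k : ℤ | (cross E k).Nonempty} := by
    ext k
    have e : (1 : ℤ) - 1 - k = -k := by ring
    simp only [Set.mem_ofPred_eq, Set.mem_image, cross_flipZ, e]
    constructor
    · intro h
      exact ⟨-k, h, neg_neg k⟩
    · rintro ⟨x, hx, rfl⟩
      rwa [neg_neg]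
  rw [h, Set.ncard_image_of_injective _ neg_injective]

private theorem ct_lspan_le (l : List P3) : lspan l ≤ l.length := by
  unfold lspan
  have h : planes l ⊆ ↑(l.toFinset.image fun u : P3 => u.2.2) := by
    rintro j ⟨c, hc⟩
    rw [Finset.coe_image]
    refine ⟨(c.1, c.2, j), ?_, rfl⟩
    rw [Finset.mem_coe, List.mem_toFinset]
    exact (mem_of_mem_pedges hc).1
  refine (Set.ncard_le_ncard h (Finset.finite_toSet _)).trans ?_
  rw [Set.ncard_coe_finset]
  exact Finset.card_image_le.trans (List.toFinset_card_le l)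

/-- The polygon or its reflection. -/
private def sd (b : Bool) (E : Finset (Sym2 P3)) : Finset (Sym2 P3) :=
  if b then mapE (flipZ 1) E else E

private theorem ct_sd_poly (b : Bool) (hE : IsPolygon E) : IsPolygon (sd b E) := by
  cases b
  · exact hE
  · exact isPolygon_flipZ 1 hE

private theorem ct_sd_span (b : Bool) (E : Finset (Sym2 P3)) : span (sd b E) = span E := by
  cases b
  · rfl
  · exact ct_span_flipZ E

private theorem ct_sd_card (b : Bool) (E : Finset (Sym2 P3)) : (sd b E).card = E.card := by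
  cases b
  · rfl
  · exact ct_card_mapE (flipZ_inj 1) E

private theorem ct_flip_shift (t : P3) (E : Finset (Sym2 P3)) :
    mapE (flipZ 1) (shift t E) = shift (t.1, t.2.1, -t.2.2) (mapE (flipZ 1) E) := by
  refine edge_ext fun u w => ?_
  rw [mem_flipZ, mem_shift, mem_shift, mem_flipZ]
  have e : ∀ u : P3, flipZ 1 u - t = flipZ 1 (u - (t.1, t.2.1, -t.2.2)) := by
    intro u
    refine Prod.ext ?_ (Prod.ext ?_ ?_)
    · simp [flipZ]
    · simp [flipZ]
    · simp only [flipZ, Prod.snd_sub]
      ring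
  rw [e, e]

private theorem ct_sd_inj (b : Bool) {E F : Finset (Sym2 P3)} (hE : Normed E) (hF : Normed F)
    {s t : P3} (h : shift s (sd b E) = shift t (sd b F)) : E = F := by
  cases b
  · exact normed_shift_eq hE hF h
  · have h1 : mapE (flipZ 1) (shift s (mapE (flipZ 1) E)) =
        mapE (flipZ 1) (shift t (mapE (flipZ 1) F)) := by
      have h2 : shift s (mapE (flipZ 1) E) = shift t (mapE (flipZ 1) F) := h
      rw [h2]
    rw [ct_flip_shift, ct_flip_shift, mapE_flipZ_flipZ, mapE_flipZ_flipZ] at h1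
    exact normed_shift_eq hE hF h1

/-- **Short knotted caps.** -/
theorem caps_le {y : ℝ} (hy : 4096 ≤ y) (j : ℕ) : ∃ C : ℝ, 0 ≤ C ∧ ∃ n0 : ℕ, ∀ n ≥ n0,
    Zt y (fun E => LocAt E j ∧ ¬ MidAt E j) n ≤ C * Zt y UClass n := by
  classical
  have hy0 : (0 : ℝ) ≤ y := by linarith
  have hy1 : (1 : ℝ) ≤ y := by linarith
  set s : ℝ := Real.sqrt y with hs
  have hs2 : s ^ 2 = y := Real.sq_sqrt hy0
  have hs64 : 64 ≤ s := by
    rw [hs]
    refine Real.le_sqrt_of_sq_le ?_
    norm_num
    exact hy
  obtain ⟨A, hA, hratio⟩ := ratio_all hs64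
  rw [hs2] at hratio
  haveI : Fintype (Cd j) := (ct_cd_finite j).fintype
  -- flat halves
  have hfl : ∀ c : Cd j, ∃ f, LU 0 0 c.1.2.1 f ∧ ∀ u ∈ f, u.2.2 = 0 := fun c =>
    ct_flat c.2.1.symm
  choose f hf hf0 using hfl
  set m : ℕ → Cd j → ℕ := fun n c => n - c.1.2.2.length + (f c).length with hm
  set T : Finset (Sym2 P3) → Prop := fun E => LocAt E j ∧ ¬ MidAt E j with hT
  set Y : ℝ≥0∞ := ENNReal.ofReal y with hY
  have hY1 : 1 ≤ Y := by
    rw [hY, ← ENNReal.ofReal_one]
    exact ENNReal.ofReal_le_ofReal hy1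
  -- the map
  have hmain : ∀ n, j < n → ZT Y T n ≤ ∑ c : Cd j, Y ^ j * ZT Y Unknotted (m n c) := by
    intro n hn
    have key : ∀ E : PT T n, ∃ (c : Cd j) (r : List P3) (F : PT Unknotted (m n c)),
        UU 0 0 c.1.2.1 r ∧ (∃ t, F.1 = shift t (ring (r ++ f c))) ∧
        ∃ t, shift t (sd c.1.1 E.1) = ring (r ++ c.1.2.2) := by
      rintro ⟨E, hE, hTE, hN, hcard⟩
      obtain ⟨b, hb⟩ : ∃ b : Bool, CL (sd b E) j := by
        rcases ct_case hE (by rw [hcard]; exact hn) hTE.1 hTE.2 with h | h
        · exact ⟨false, h⟩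
        · exact ⟨true, h⟩
      obtain ⟨v, l, r, t, hr, hl, hlen, hsh⟩ := ct_exists (ct_sd_poly b hE) hb
      let c : Cd j := ⟨(b, v, l), hr.1, hl, hlen⟩
      have hPF : IsPolygon (ring (r ++ f c)) := (ring_of hr.1 hr.2.1 (hf c).2.1).isPolygon
      obtain ⟨t', ht'⟩ := exists_normed hPF.verts_nonempty
      have hUF : Unknotted (ring (r ++ f c)) := unknotted_halves hr (hf c)
      have hcardF : (shift t' (ring (r ++ f c))).card = m n c := by
        rw [card_shift, (ring_of hr.1 hr.2.1 (hf c).2.1).card_eq, List.length_append]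
        have h1 : (shift t (sd b E)).card = n := by
          rw [card_shift, ct_sd_card, hcard]
        rw [hsh, (ring_of hr.1 hr.2.1 hl).card_eq, List.length_append] at h1
        have : m n c = n - l.length + (f c).length := rfl
        rw [this]
        omega
      exact ⟨c, r, ⟨shift t' (ring (r ++ f c)), isPolygon_shift hPF _,
        typeClosed_unknotted _ _ (sameType_shift _ _) hUF, ht', hcardF⟩, hr, ⟨t', rfl⟩, ⟨t, hsh⟩⟩
    choose c r F hr hF hE using key
    let Φ : PT T n → Σ c : Cd j, PT Unknotted (m n c) := fun E => ⟨c E, F E⟩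
    have hinj : Function.Injective Φ := by
      intro E E' h
      have h1 : c E = c E' := congrArg Sigma.fst h
      have h2 : (F E).1 = (F E').1 :=
        congrArg (fun x : Σ c : Cd j, PT Unknotted (m n c) => x.2.1) h
      obtain ⟨t1, ht1⟩ := hF E
      obtain ⟨t2, ht2⟩ := hF E'
      obtain ⟨s1, hs1⟩ := hE E
      obtain ⟨s2, hs2⟩ := hE E'
      have hr1 := hr E
      have hr2 := hr E'
      have hft : shift t2 (ring (r E' ++ f (c E'))) = shift t2 (ring (r E' ++ f (c E))) := by
        rw [h1]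
      rw [hft] at ht2
      rw [← h1] at hs2 hr2
      rw [ht1, ht2] at h2
      have h3 : r E = r E' := ct_inj hr1.1 (hf (c E)).2.1 (hf0 (c E)) hr1.2.1 hr2.2.1 h2
      rw [← h3] at hs2
      exact Subtype.ext (ct_sd_inj _ E.2.2.2.1 E'.2.2.2.1 (hs1.trans hs2.symm))
    have hwt : ∀ E : PT T n, Y ^ span E.1 ≤ Y ^ j * Y ^ span (F E).1 := by
      intro E
      obtain ⟨t1, ht1⟩ := hF E
      obtain ⟨s1, hs1⟩ := hE E
      have hr1 := hr E
      have e1 : span E.1 = lspan (c E).1.2.2 + lspan (r E) + 1 := by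
        rw [← ct_sd_span (c E).1.1, ← span_shift' s1, hs1, span_ring hr1.2.1 (c E).2.2.1]
      have e2 : span (F E).1 = lspan (f (c E)) + lspan (r E) + 1 := by
        rw [ht1, span_shift', span_ring hr1.2.1 (hf (c E)).2.1]
      have e3 : lspan (c E).1.2.2 ≤ j := (ct_lspan_le _).trans (c E).2.2.2
      rw [← pow_add, e1, e2]
      exact pow_le_pow_right₀ hY1 (by omega)
    calc ZT Y T n = ∑' E : PT T n, Y ^ span E.1 := rfl
      _ ≤ ∑' E : PT T n, (fun x : Σ c : Cd j, PT Unknotted (m n c) => Y ^ j * Y ^ span x.2.1) (Φ E) :=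
          ENNReal.tsum_le_tsum hwt
      _ ≤ ∑' x : Σ c : Cd j, PT Unknotted (m n c), Y ^ j * Y ^ span x.2.1 :=
          ENNReal.tsum_comp_le_tsum_of_injective hinj _
      _ = ∑' c : Cd j, ∑' F : PT Unknotted (m n c), Y ^ j * Y ^ span F.1 := ENNReal.tsum_sigma' _
      _ = ∑ c : Cd j, Y ^ j * ZT Y Unknotted (m n c) := by
          rw [tsum_fintype]
          exact Finset.sum_congr rfl fun c _ => ENNReal.tsum_mul_left
  refine ⟨∑ c : Cd j, y ^ j * (A * (2 * s) ^ (f c).length), by positivity, j + 4, ?_⟩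
  intro n hn
  by_cases hev : Even n
  · have hU0 : 0 ≤ Zt y UClass n := KTen.zt_nonneg hy0 _ _
    have h1 := hmain n (by omega)
    rw [hY, ZT_eq hy0] at h1
    have h2 : ∑ c : Cd j, ENNReal.ofReal y ^ j * ZT (ENNReal.ofReal y) Unknotted (m n c) ≤
        ENNReal.ofReal ((∑ c : Cd j, y ^ j * (A * (2 * s) ^ (f c).length)) * Zt y UClass n) := by
      rw [Finset.sum_mul, ENNReal.ofReal_sum_of_nonneg fun c _ => by positivity]
      refine Finset.sum_le_sum fun c _ => ?_
      rw [ZT_eq hy0, zt_uclass, ← ENNReal.ofReal_pow hy0, ← ENNReal.ofReal_mul (by positivity)]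
      refine ENNReal.ofReal_le_ofReal ?_
      rw [mul_assoc]
      refine mul_le_mul_of_nonneg_left ?_ (by positivity)
      have hlen := c.2.2.2
      have h3 := hratio n hev (by omega) (m n c) c.1.2.2.length (f c).length (by
        have : m n c = n - c.1.2.2.length + (f c).length := rfl
        omega)
      refine le_trans ?_ h3
      have h4 : 1 ≤ s ^ c.1.2.2.length := one_le_pow₀ (by linarith)
      exact le_mul_of_one_le_right (KTen.zt_nonneg hy0 _ _) h4
    have h5 := h1.trans h2
    exact (ENNReal.ofReal_le_ofReal_iff (by positivity)).1 h5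
  · rw [KTen.u_odd hev, KTen.u_odd hev, mul_zero]

end Pool.Agent.KAmp
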