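import Pool.Agent.KAmp.Sys

/-! KP2: tilted sums over the chains with `m` elements. -/

set_option autoImplicit false

open scoped ENNReal

namespace Pool.Agent.KAmp

open Pool.Agent.KLog (Ker nrm hh)

variable {P H : Type} {S : Sys P H}

private lemma chain_hh_le (v : ℤ × ℤ) : hh v ≤ 1 := by
  unfold hh
  rw [ENNReal.ofReal_le_one]
  have : (0 : ℝ) ≤ (1 / 4) ^ nrm v := by positivity
  linarith

private lemma chain_one_le (v : ℤ × ℤ) (h : v ≠ 0) : 1 ≤ 2 * hh v := by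
  have hn : 1 ≤ nrm v := by
    rcases Nat.eq_zero_or_pos (nrm v) with h0 | h0
    · exfalso
      apply h
      unfold nrm at h0
      ext
      · simp only [Prod.fst_zero]; omega
      · simp only [Prod.snd_zero]; omega
    · exact h0
  have h4 : ((1 : ℝ) / 4) ^ nrm v ≤ 1 / 4 := by
    calc ((1 : ℝ) / 4) ^ nrm v ≤ (1 / 4) ^ 1 :=
          pow_le_pow_of_le_one (by norm_num) (by norm_num) hn
      _ = 1 / 4 := pow_one _
  unfold hh
  have h2 : (2 : ℝ≥0∞) = ENNReal.ofReal 2 := by norm_num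
  rw [h2, ← ENNReal.ofReal_mul (by norm_num)]
  rw [ENNReal.one_le_ofReal]
  linarith

/-- The chains with `m + 1` elements. -/
private def chainEquiv (κ : Ker P) (m : ℕ) (v : ℤ × ℤ) :
    {s : List P // s.length = m + 1 ∧ VC κ v s} ≃
      (Σ p : {p // κ.V v p}, {s : List P // s.length = m ∧ VC κ (v + κ.u p.1) s}) where
  toFun s := match s with
    | ⟨[], h⟩ => absurd h.1 (by simp)
    | ⟨p :: s, h⟩ => ⟨⟨p, h.2.1⟩, ⟨s, by simpa using h.1, h.2.2⟩⟩
  invFun x := ⟨x.1.1 :: x.2.1, by simp [x.2.2.1], x.1.2, x.2.2.2⟩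
  left_inv s := by
    rcases s with ⟨_ | ⟨p, s⟩, h⟩
    · exact absurd h.1 (by simp)
    · rfl
  right_inv x := rfl

/-- The sum over the lists. -/
theorem list_tilt {κ : Ker P} {τ : ℕ → ℤ × ℤ → P → ℝ≥0∞} {Λ : ℕ → ℝ≥0∞}
    (hV : ∀ v p, κ.V v p → v ≠ 0)
    (hτ : ∀ i v, v ≠ 0 → ∑' p : {p // κ.V v p}, κ.wt p.1 * τ i v p.1 * hh (v + κ.u p.1) ≤
      Λ i * hh v) (m i : ℕ) (v : ℤ × ℤ) :
    ∑' s : {s : List P // s.length = m ∧ VC κ v s},
      (s.1.map κ.wt).prod * tp κ τ i v s.1 * hh (ev κ v s.1) ≤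
        (∏ j ∈ Finset.range m, Λ (i + j)) * hh v := by
  induction m generalizing i v with
  | zero =>
    have hu : ∀ s : {s : List P // s.length = 0 ∧ VC κ v s}, s = ⟨[], rfl, trivial⟩ := by
      rintro ⟨s, h1, h2⟩
      have : s = [] := List.length_eq_zero_iff.1 h1
      subst this
      rfl
    rw [tsum_eq_single ⟨[], rfl, trivial⟩ (fun s hs => absurd (hu s) hs)]
    simp [tp, ev]
  | succ m ih =>
    by_cases hv : v = 0
    · have he : IsEmpty {s : List P // s.length = m + 1 ∧ VC κ v s} := by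
        constructor
        rintro ⟨_ | ⟨p, s⟩, h1, h2⟩
        · simp at h1
        · exact hV v p h2.1 hv
      rw [tsum_empty]
      exact zero_le
    rw [← (chainEquiv κ m v).symm.tsum_eq, ENNReal.tsum_sigma']
    have hstep : ∀ p : {p // κ.V v p}, ∑' s : {s : List P // s.length = m ∧
        VC κ (v + κ.u p.1) s},
        ((((chainEquiv κ m v).symm ⟨p, s⟩).1.map κ.wt).prod *
          tp κ τ i v ((chainEquiv κ m v).symm ⟨p, s⟩).1 *
          hh (ev κ v ((chainEquiv κ m v).symm ⟨p, s⟩).1)) ≤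
        (∏ j ∈ Finset.range m, Λ (i + 1 + j)) *
          (κ.wt p.1 * τ i v p.1 * hh (v + κ.u p.1)) := by
      intro p
      have h1 : ∀ s : {s : List P // s.length = m ∧ VC κ (v + κ.u p.1) s},
          ((((chainEquiv κ m v).symm ⟨p, s⟩).1.map κ.wt).prod *
          tp κ τ i v ((chainEquiv κ m v).symm ⟨p, s⟩).1 *
          hh (ev κ v ((chainEquiv κ m v).symm ⟨p, s⟩).1)) =
          (κ.wt p.1 * τ i v p.1) * ((s.1.map κ.wt).prod * tp κ τ (i + 1) (v + κ.u p.1) s.1 *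
            hh (ev κ (v + κ.u p.1) s.1)) := by
        intro s
        change ((p.1 :: s.1).map κ.wt).prod * tp κ τ i v (p.1 :: s.1) *
          hh (ev κ v (p.1 :: s.1)) = _
        have e : ev κ v (p.1 :: s.1) = ev κ (v + κ.u p.1) s.1 := by
          simp only [ev, List.map_cons, List.sum_cons, add_assoc]
        rw [e, List.map_cons, List.prod_cons, tp]
        ring
      rw [tsum_congr h1, ENNReal.tsum_mul_left]
      calc (κ.wt p.1 * τ i v p.1) * _ ≤ (κ.wt p.1 * τ i v p.1) *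
            ((∏ j ∈ Finset.range m, Λ (i + 1 + j)) * hh (v + κ.u p.1)) :=
            mul_le_mul_right (ih (i + 1) (v + κ.u p.1)) _
        _ = _ := by ring
    calc _ ≤ ∑' p : {p // κ.V v p}, (∏ j ∈ Finset.range m, Λ (i + 1 + j)) *
          (κ.wt p.1 * τ i v p.1 * hh (v + κ.u p.1)) := ENNReal.tsum_le_tsum hstep
      _ = (∏ j ∈ Finset.range m, Λ (i + 1 + j)) *
          ∑' p : {p // κ.V v p}, κ.wt p.1 * τ i v p.1 * hh (v + κ.u p.1) :=
          ENNReal.tsum_mul_left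
      _ ≤ (∏ j ∈ Finset.range m, Λ (i + 1 + j)) * (Λ i * hh v) :=
          mul_le_mul_right (hτ i v hv) _
      _ = _ := by
        rw [Finset.prod_range_succ']
        have : ∀ j ∈ Finset.range m, Λ (i + (j + 1)) = Λ (i + 1 + j) := fun j _ => by
          congr 1
          ring
        rw [Finset.prod_congr rfl this, add_zero]
        ring

/-- **The sum over the chains with `m` elements.** -/
theorem chain_tilt (hS : S.Ok) {τ : ℕ → ℤ × ℤ → P → ℝ≥0∞} {Λ : ℕ → ℝ≥0∞} {c : H → ℝ≥0∞}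
    (hτ : ∀ i v, v ≠ 0 → ∑' p : {p // S.κ.V v p}, S.κ.wt p.1 * τ i v p.1 *
      hh (v + S.κ.u p.1) ≤ Λ i * hh v) (m : ℕ) :
    ∑' x : {x : S.Ch // x.1.2.1.length = m}, S.W x.1 *
      (c x.1.1.1 * tp S.κ τ 0 (S.pos x.1.1.1) x.1.1.2.1 * c x.1.1.2.2) ≤
      2 * (∑' h, S.hw h * c h) ^ 2 * ∏ i ∈ Finset.range m, Λ i := by
  let T := Σ h : H, {s : List P // s.length = m ∧ VC S.κ (S.pos h) s} × H
  let g : {x : S.Ch // x.1.2.1.length = m} → T := fun x =>
    ⟨x.1.1.1, ⟨x.1.1.2.1, x.2, x.1.2.1⟩, x.1.1.2.2⟩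
  have hg : Function.Injective g := by
    rintro ⟨⟨⟨h0, s, h1⟩, hx⟩, hm⟩ ⟨⟨⟨h0', s', h1'⟩, hx'⟩, hm'⟩ he
    have e1 : h0 = h0' := congrArg (fun t : T => t.1) he
    subst e1
    have e2 := eq_of_heq (Sigma.mk.inj he).2
    have e3 : s = s' := congrArg (fun t => t.1.1) e2
    have e4 : h1 = h1' := congrArg (fun t => t.2) e2
    subst e3
    subst e4
    rfl
  let F : T → ℝ≥0∞ := fun t => 2 * ((S.hw t.1 * c t.1) *
    (((t.2.1.1.map S.κ.wt).prod * tp S.κ τ 0 (S.pos t.1) t.2.1.1 *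
      hh (ev S.κ (S.pos t.1) t.2.1.1)) * (S.hw t.2.2 * c t.2.2)))
  have h1 : ∀ x : {x : S.Ch // x.1.2.1.length = m}, S.W x.1 *
      (c x.1.1.1 * tp S.κ τ 0 (S.pos x.1.1.1) x.1.1.2.1 * c x.1.1.2.2) ≤ F (g x) := by
    intro x
    have hne : ev S.κ (S.pos x.1.1.1) x.1.1.2.1 ≠ 0 := by
      rw [x.1.2.2]
      exact hS.pos_ne _
    have h2 := chain_one_le _ hne
    change _ ≤ 2 * ((S.hw x.1.1.1 * c x.1.1.1) *
      (((x.1.1.2.1.map S.κ.wt).prod * tp S.κ τ 0 (S.pos x.1.1.1) x.1.1.2.1 *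
      hh (ev S.κ (S.pos x.1.1.1) x.1.1.2.1)) * (S.hw x.1.1.2.2 * c x.1.1.2.2)))
    calc S.W x.1 * (c x.1.1.1 * tp S.κ τ 0 (S.pos x.1.1.1) x.1.1.2.1 * c x.1.1.2.2) =
        S.W x.1 * (c x.1.1.1 * tp S.κ τ 0 (S.pos x.1.1.1) x.1.1.2.1 * c x.1.1.2.2) * 1 := by
          rw [mul_one]
      _ ≤ S.W x.1 * (c x.1.1.1 * tp S.κ τ 0 (S.pos x.1.1.1) x.1.1.2.1 * c x.1.1.2.2) *
          (2 * hh (ev S.κ (S.pos x.1.1.1) x.1.1.2.1)) := mul_le_mul_right h2 _
      _ = _ := by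
        unfold Sys.W
        ring
  calc _ ≤ ∑' x : {x : S.Ch // x.1.2.1.length = m}, F (g x) := ENNReal.tsum_le_tsum h1
    _ ≤ ∑' t : T, F t := ENNReal.tsum_comp_le_tsum_of_injective hg F
    _ = ∑' h : H, ∑' y : {s : List P // s.length = m ∧ VC S.κ (S.pos h) s} × H,
        F ⟨h, y⟩ := ENNReal.tsum_sigma' F
    _ = ∑' h : H, ∑' s : {s : List P // s.length = m ∧ VC S.κ (S.pos h) s}, ∑' h' : H,
        F ⟨h, s, h'⟩ := by
        refine tsum_congr fun h => ?_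
        exact ENNReal.tsum_prod (f := fun s h' => F ⟨h, s, h'⟩)
    _ = ∑' h : H, 2 * ((S.hw h * c h) *
        ((∑' s : {s : List P // s.length = m ∧ VC S.κ (S.pos h) s},
          (s.1.map S.κ.wt).prod * tp S.κ τ 0 (S.pos h) s.1 * hh (ev S.κ (S.pos h) s.1)) *
          ∑' h' : H, S.hw h' * c h')) := by
        refine tsum_congr fun h => ?_
        simp only [F, ENNReal.tsum_mul_left, ENNReal.tsum_mul_right]
    _ ≤ ∑' h : H, 2 * ((S.hw h * c h) * (((∏ i ∈ Finset.range m, Λ i) * 1) *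
          ∑' h' : H, S.hw h' * c h')) := by
        refine ENNReal.tsum_le_tsum fun h => ?_
        have h3 := list_tilt (κ := S.κ) hS.V_ne hτ m 0 (S.pos h)
        simp only [zero_add] at h3
        have h4 : (∏ i ∈ Finset.range m, Λ i) * hh (S.pos h) ≤
            (∏ i ∈ Finset.range m, Λ i) * 1 := mul_le_mul_right (chain_hh_le _) _
        gcongr
        exact h3.trans h4
    _ = 2 * (∑' h, S.hw h * c h) ^ 2 * ∏ i ∈ Finset.range m, Λ i := by
        rw [ENNReal.tsum_mul_left, ENNReal.tsum_mul_right]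
        ring

end Pool.Agent.KAmp
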