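import Pool.Agent.KAmp.Fl
import Pool.Agent.KLog.Caps

/-! KP12: the class of a block. -/

set_option autoImplicit false

open Pool.Agent.LK
open scoped ENNReal

namespace Pool.Agent.KAmp

open Pool.Agent.KTube Pool.Agent.KRing Pool.Agent.KLog
open Pool.Agent.KAsym (ln)

variable {T : Finset (Sym2 P3) → Prop} {v : ℤ × ℤ} {π : PP} {l r : List P3}

/-- The block `π` with displacement `v` is of class `T`: together with some unknotted halves it is
a polygon of class `T`. -/
def Cls (T : Finset (Sym2 P3) → Prop) (v : ℤ × ℤ) (π : PP) : Prop :=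
  Geo v π ∧ ∃ l r, LU 0 0 v l ∧ LU 0 0 (v + dsp π) r ∧ T (ring (flp r ++ glu v l π))

/-- The block is of class `T` far from the origin. -/
def FreeT (T : Finset (Sym2 P3) → Prop) (π : PP) : Prop := ∃ v, nh π < nrm v ∧ Cls T v π

/-- A class of knotted polygons closed under equality of types, with only one prime factor. -/
structure PrimeCl (T : Finset (Sym2 P3) → Prop) : Prop where
  closed : TypeClosed T
  few : ∀ E, T E → KTen.Few 1 E
  knotted : ∀ E, T E → ¬ Unknotted E

/-- Membership in the class depends only on the upper part if the lower part is unknotted. -/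
private theorem good_upp (hT : TypeClosed T) {E F : Finset (Sym2 P3)} {k : ℤ} (hE : IsPolygon E)
    (hF : IsPolygon F) (h2 : IsTwo E k) (hEF : UppEq E F k) (hU : LowU E k) (hU' : LowU F k)
    (h : T E) : T F := by
  have h2' : IsTwo F k := by
    unfold IsTwo
    rw [← hEF.cross le_rfl]
    exact h2
  obtain ⟨C, hC⟩ := exists_uppClose hE h2
  have hC' : UppClose F k C :=
    ⟨hC.1, fun u v hu => (hC.2.1 u v hu).trans (hEF u v hu), hC.2.2⟩
  obtain ⟨A, hA, hAU⟩ := hU
  obtain ⟨A', hA', hAU'⟩ := hU'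
  exact hT _ _ (((split hE h2 hA hC).2.1 hAU).symm.trans ((split hF h2' hA' hC').2.1 hAU')) h

/-- The translation of `glu`. -/
private def gt (π : PP) : P3 := (-(π.1.sum.1), -(π.1.sum.2.1), -(hgt π))

private theorem ring_cls (v : ℤ × ℤ) (π : PP) (l r : List P3) : ring (flp r ++ glu v l π) =
    LK.shift (gt π) (ring ((flp r).map (· + -gt π) ++ (sdB v π ++ (l ++ sdA π)))) := by
  rw [← ring_map, List.map_append, List.map_map]
  have h : ((· + gt π) ∘ (· + -gt π) : P3 → P3) = id := by
    funext u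
    simp
  rw [h, List.map_id]
  rfl

private theorem uu_cls (hr : LU 0 0 (v + dsp π) r) :
    UU (hgt π) (hz π.1.sum) (v + hz π.2.sum) ((flp r).map (· + -gt π)) := by
  have h1 := (UU_flp hr).shift (-gt π)
  have e1 : (0 : ℤ) + (-gt π).2.2 = hgt π := by simp [gt]
  have e2 : csh (-gt π) 0 = hz π.1.sum := by
    refine Prod.ext ?_ ?_
    · simp [csh, gt, hz]
    · simp [csh, gt, hz]
  have e3 : csh (-gt π) (v + dsp π) = v + hz π.2.sum := by
    refine Prod.ext ?_ ?_
    · simp only [csh, gt, hz, dsp, Prod.fst_neg, Prod.fst_add, Prod.fst_sub]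
      ring
    · simp only [csh, gt, hz, dsp, Prod.snd_neg, Prod.fst_neg, Prod.snd_add, Prod.snd_sub]
      ring
  rw [e1, e2, e3] at h1
  exact h1

private theorem t_shift (hT : TypeClosed T) (t : P3) (E : Finset (Sym2 P3)) :
    T (LK.shift t E) ↔ T E :=
  ⟨hT _ _ (sameType_shift t E).symm, hT _ _ (sameType_shift t E)⟩

private theorem cls_change (hT : TypeClosed T) (hg : Geo v π) {l' r' : List P3}
    (hl : LU 0 0 v l) (hl' : LU 0 0 v l') (hr : LU 0 0 (v + dsp π) r)
    (hr' : LU 0 0 (v + dsp π) r') (h : T (ring (flp r ++ glu v l π))) :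
    T (ring (flp r' ++ glu v l' π)) := by
  rw [ring_cls, t_shift hT] at h ⊢
  have h1 := uu_cls hr
  have h2 := uu_cls hr'
  have hb := hg.block
  -- change the upper half
  have h3 : T (ring ((flp r').map (· + -gt π) ++ (sdB v π ++ (l ++ sdA π)))) :=
    hT.good.half _ _ (hgt π) (ring_of h1.1 h1.2.1 (hb.lower hl.2.1)).isPolygon
      (ring_of h2.1 h2.2.1 (hb.lower hl.2.1)).isPolygon
      (isTwo_ring_of h1.1 h1.2.1 (hb.lower hl.2.1))
      (lowEq_ring h1.2.1 h2.2.1 (hb.lower hl.2.1)) (h1.uppU (hb.lower hl.2.1))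
      (h2.uppU (hb.lower hl.2.1)) h
  -- change the lower half
  rw [← hb.ring_rotate h2.2.1 hl.2.1] at h3
  rw [← hb.ring_rotate h2.2.1 hl'.2.1]
  have hu := hb.upper h2.2.1
  exact good_upp hT (ring_of hl.1 hu hl.2.1).isPolygon (ring_of hl.1 hu hl'.2.1).isPolygon
    (isTwo_ring_of hl.1 hu hl.2.1) (uppEq_ring hu hl.2.1 hl'.2.1) (hl.lowU hu) (hl'.lowU hu) h3

/-- The class does not depend on the choice of the halves. -/
theorem cls_iff (hT : TypeClosed T) (hg : Geo v π) (hl : LU 0 0 v l)
    (hr : LU 0 0 (v + dsp π) r) : Cls T v π ↔ T (ring (flp r ++ glu v l π)) := by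
  constructor
  · rintro ⟨-, l', r', hl', hr', h⟩
    exact cls_change hT hg hl' hl hr' hr h
  · exact fun h => ⟨hg, l, r, hl, hr, h⟩

private theorem geo_top (hg : Geo v π) : v + dsp π ≠ 0 := by
  intro h0
  refine hg.ne' ?_
  rw [dsp, add_sub_assoc', sub_eq_zero] at h0
  exact h0.symm

theorem cls_unknotted : Cls Unknotted v π ↔ Valid v π := by
  have key : ∀ hg : Geo v π, Cls Unknotted v π ↔ Unk v π := by
    intro hg
    obtain ⟨l, hl, -⟩ := exists_flat hg.ne
    obtain ⟨r, hr, -⟩ := exists_flat (geo_top hg)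
    rw [cls_iff typeClosed_unknotted hg hl hr, ring_cls, t_shift typeClosed_unknotted,
      unk_iff hg hl (uu_cls hr)]
  constructor
  · exact fun h => ⟨h.1, (key h.1).1 h⟩
  · exact fun h => (key h.1).2 h.2

private theorem steps_parity {s : List P3} (h : Steps s) :
    ((s.length : ℤ) + s.sum.1 + s.sum.2.1 + s.sum.2.2) % 2 = 0 := by
  induction s with
  | nil => simp
  | cons d s ih =>
    obtain ⟨hd, hs⟩ := h.cons
    have h1 := ih hs
    rw [List.sum_cons, List.length_cons]
    simp only [Prod.fst_add, Prod.snd_add]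
    push_cast
    rcases step_cases hd with rfl | rfl | rfl | rfl | rfl | rfl <;> simp only <;> omega

/-- The two strands of a block and the displacement have the same parity. -/
theorem cls_parity (h : Cls T v π) : Even (ln π + nrm (dsp π)) := by
  obtain ⟨hg, -⟩ := h
  have hA := steps_parity hg.stA
  have hB := steps_parity hg.stB
  have h1 : 1 + π.2.sum.2.2 = π.1.sum.2.2 + 1 := by
    have h2 := hg.block.headB
    unfold sdB at h2
    rw [List.head?_reverse, last_wk, Option.some.injEq] at h2
    have h3 := congrArg (fun p : P3 => p.2.2) h2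
    simp only [Prod.snd_add] at h3
    exact h3
  rw [Nat.even_iff]
  unfold ln nrm dsp hz
  simp only [Prod.fst_sub, Prod.snd_sub]
  omega

end Pool.Agent.KAmp
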