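import Pool.Agent.KAmp.Cls
import Pool.Agent.KAsym.CutB
import Pool.Agent.KTen.Loc

/-! KP15: polygons of a prime class whose knotted part is a short block. -/

set_option autoImplicit false

open Pool.Agent.LK
open scoped ENNReal

namespace Pool.Agent.KAmp

open Pool.Agent.KTube Pool.Agent.KRing Pool.Agent.KLog
open Pool.Agent.KAsym (ln)
open Pool.Agent.LatticeTube (pedges)

variable {T : Finset (Sym2 P3) → Prop}

/-- Between two sections with two edges there are at most `j` edges, and the parts outside are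
unknotted. -/
def MidAt (E : Finset (Sym2 P3)) (j : ℕ) : Prop := ∃ s t : ℤ, s < t ∧
  (KTen.midE E s t).card ≤ j ∧ (IsTwo E s ∧ KTen.LowU E s) ∧ (IsTwo E t ∧ KTen.UppU E t)

/-- The polygons of class `T` with a short knotted block. -/
abbrev MP (T : Finset (Sym2 P3) → Prop) (j n : ℕ) : Type :=
  {E : Finset (Sym2 P3) // IsPolygon E ∧ T E ∧ Normed E ∧ E.card = n ∧ MidAt E j}

/-- Blocks of class `T` with two unknotted halves. -/
abbrev BT (T : Finset (Sym2 P3) → Prop) (j n : ℕ) : Type :=
  {i : (ℤ × ℤ) × PP × List P3 × List P3 // Cls T i.1 i.2.1 ∧ ln i.2.1 + 2 ≤ j ∧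
    LU 0 0 i.1 i.2.2.1 ∧ LU 0 0 (i.1 + dsp i.2.1) i.2.2.2 ∧
    i.2.2.1.length + i.2.2.2.length + ln i.2.1 = n}

/-- is the vector lexicographically positive? -/
private def lx (v : ℤ × ℤ) : Bool := decide (0 < v.1 ∨ (v.1 = 0 ∧ 0 < v.2))

private theorem lx_neg {v w : ℤ × ℤ} (hv : (0 : ℤ × ℤ) ≠ v) (h : v + w = 0)
    (he : lx v = lx w) : False := by
  have h1 : v.1 + w.1 = 0 := congrArg Prod.fst h
  have h2 : v.2 + w.2 = 0 := congrArg Prod.snd h
  have h3 : ¬ (v.1 = 0 ∧ v.2 = 0) := fun h => hv (Prod.ext h.1.symm h.2.symm)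
  unfold lx at he
  rw [decide_eq_decide] at he
  omega

private theorem clb_shift_iff (t : P3) (E : Finset (Sym2 P3)) (j : ℤ) :
    IsTwo (LK.shift t E) j ↔ IsTwo E (j - t.2.2) := by
  unfold IsTwo
  rw [ncard_cross_shift']

section

variable {k k' : ℤ} {a b a' b' w : ℤ × ℤ} {r l A B l' : List P3}

private theorem clb_rev_chain {l : List P3} (h : l.IsChain Adj) : l.reverse.IsChain Adj := by
  rw [List.isChain_reverse]
  exact h.imp fun _ _ h => h.symm

private theorem clb_upper_rev (h : Upper k a b r) : Upper k b a r.reverse :=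
  ⟨List.nodup_reverse.2 h.nodup, clb_rev_chain h.chain, by rw [List.head?_reverse]; exact h.last,
    by rw [List.getLast?_reverse]; exact h.head, fun u hu => h.lev u (List.mem_reverse.1 hu)⟩

private theorem clb_lower_rev (h : Lower k a b l) : Lower k b a l.reverse :=
  ⟨List.nodup_reverse.2 h.nodup, clb_rev_chain h.chain, by rw [List.head?_reverse]; exact h.last,
    by rw [List.getLast?_reverse]; exact h.head, fun u hu => h.lev u (List.mem_reverse.1 hu)⟩

private theorem clb_block_rev (h : Block k k' a b a' b' A B) :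
    Block k k' b a b' a' B.reverse A.reverse :=
  ⟨h.lt, List.nodup_reverse.2 h.nodupB, List.nodup_reverse.2 h.nodupA,
    fun u hu hu' => h.disj u (List.mem_reverse.1 hu') (List.mem_reverse.1 hu),
    clb_rev_chain h.chainB, clb_rev_chain h.chainA, by rw [List.head?_reverse]; exact h.lastB,
    by rw [List.getLast?_reverse]; exact h.headB, by rw [List.head?_reverse]; exact h.lastA,
    by rw [List.getLast?_reverse]; exact h.headA,
    fun u hu => h.levB u (List.mem_reverse.1 hu), fun u hu => h.levA u (List.mem_reverse.1 hu)⟩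

private theorem clb_block_shift (h : Block k k' a b a' b' A B) (t : P3) :
    Block (k + t.2.2) (k' + t.2.2) (csh t a) (csh t b) (csh t a') (csh t b')
      (A.map (· + t)) (B.map (· + t)) := by
  have hch : ∀ l : List P3, l.IsChain Adj → (l.map (· + t)).IsChain Adj := by
    intro l hl
    rw [List.isChain_map]
    refine hl.imp fun u v huv => ?_
    simpa [Adj] using huv
  refine ⟨by have := h.lt; omega, h.nodupA.map (add_left_injective t),
    h.nodupB.map (add_left_injective t), ?_, hch _ h.chainA, hch _ h.chainB, ?_, ?_, ?_, ?_,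
    ?_, ?_⟩
  · intro u hu hu'
    obtain ⟨x, hx, rfl⟩ := List.mem_map.1 hu
    obtain ⟨y, hy, hxy⟩ := List.mem_map.1 hu'
    have := add_left_injective t hxy
    subst this
    exact h.disj _ hx hy
  · rw [List.head?_map, h.headA]
    simp only [Option.map_some, Option.some.injEq, csh]
    refine Prod.ext rfl (Prod.ext rfl ?_)
    simp only [Prod.snd_add]; ring
  · rw [List.getLast?_map, h.lastA]
    rfl
  · rw [List.head?_map, h.headB]
    rfl
  · rw [List.getLast?_map, h.lastB]
    simp only [Option.map_some, Option.some.injEq, csh]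
    refine Prod.ext rfl (Prod.ext rfl ?_)
    simp only [Prod.snd_add]; ring
  · intro u hu
    obtain ⟨v, hv, rfl⟩ := List.mem_map.1 hu
    have := h.levA v hv
    simp only [Prod.snd_add]; omega
  · intro u hu
    obtain ⟨v, hv, rfl⟩ := List.mem_map.1 hu
    have := h.levB v hv
    simp only [Prod.snd_add]; omega

private theorem clb_leg_map (t : P3) (l : List P3) (c : ℤ × ℤ) (j : ℤ) :
    leg c j ∈ pedges (l.map (· + t)) ↔ leg (c.1 - t.1, c.2 - t.2.1) (j - t.2.2) ∈ pedges l := by
  rw [pedges_map]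
  have : leg c j ∈ LK.shift t (pedges l) ↔ _ := mem_shift
  refine this.trans ?_
  have e1 : ((c.1, c.2, j + 1) : P3) - t = (c.1 - t.1, c.2 - t.2.1, j - t.2.2 + 1) := by
    refine Prod.ext rfl (Prod.ext rfl ?_)
    simp only [Prod.snd_sub]; ring
  rw [e1]
  rfl

private theorem clb_steps_of {p : P3} {s : List P3} (h : (wk p s).IsChain Adj) : Steps s :=
  chain_wk.1 h

/-- the part of a lower half above its highest section with two edges -/
private theorem clb_exists_top (hw : (0 : ℤ × ℤ) ≠ w) (hl' : Lower 0 0 w l') (hn : nsec l' ≠ 0) :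
    ∃ (k : ℤ) (a b : ℤ × ℤ) (l A B : List P3), a ≠ b ∧ Lower k a b l ∧ Block k 0 a b 0 w A B ∧
      l' = B ++ (l ++ A) ∧
      ∀ j, k < j → j < 0 → {c | leg c j ∈ pedges A ∨ leg c j ∈ pedges B}.ncard ≠ 2 := by
  obtain ⟨r, hr⟩ : ∃ r, Upper 0 0 w r := by
    obtain ⟨r, hr⟩ := exists_UU' (k := 0) hw
    exact ⟨r, hr.2.1⟩
  have hfin : {j : ℤ | {c | leg c j ∈ pedges l'}.ncard = 2}.Finite := Set.finite_of_ncard_ne_zero hn
  have hne : {j : ℤ | {c | leg c j ∈ pedges l'}.ncard = 2}.Nonempty := by
    rw [Set.nonempty_iff_ne_empty]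
    intro h
    apply hn
    unfold nsec
    rw [h, Set.ncard_empty]
  obtain ⟨k, hk2, hmax⟩ := Set.exists_max_image _ id hfin hne
  rw [Set.mem_ofPred_eq] at hk2
  have hk0 : k < 0 := by
    have h1 : {c | leg c k ∈ pedges l'}.Nonempty := by
      rw [Set.nonempty_iff_ne_empty]
      intro h
      rw [h, Set.ncard_empty] at hk2
      omega
    obtain ⟨c, hc⟩ := h1
    have := (pedges_lev hl'.lev hc).2
    simp only at this
    omega
  have hcr : ∀ j : ℤ, j < 0 → cross (ring (r ++ l')) j = {c | leg c j ∈ pedges l'} := by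
    intro j hj
    ext c
    exact cross_ring_low hr hl' hj
  have h2 : IsTwo (ring (r ++ l')) k := by
    unfold IsTwo
    rw [hcr k hk0, hk2]
  have hP : IsPolygon (ring (r ++ l')) := (ring_of hw hr hl').isPolygon
  obtain ⟨a, ha⟩ := two_nonempty h2
  obtain ⟨b, r1, l, hab, hr1, hl, hE⟩ := exists_halves hP h2 ha
  have h20 : IsTwo (ring (r1 ++ l)) 0 := by
    rw [hE]
    exact isTwo_ring_of hw hr hl'
  obtain ⟨a', b', A, r', B, hab', hb, hr', hrA⟩ := exists_block hr1 hl hk0 h20
  subst hrA
  rw [hb.ring_rotate hr' hl] at hE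
  have hthin : ∀ j, k < j → j < 0 →
      {c | leg c j ∈ pedges A ∨ leg c j ∈ pedges B}.ncard ≠ 2 := by
    intro j hj hj' h
    have h3 : {c | leg c j ∈ pedges l'}.ncard = 2 := by
      rw [← hcr j hj', ← hE, ← hb.ring_rotate hr' hl, hb.cross_mid hr' hl hj hj']
      exact h
    have := hmax j h3
    simp only [id] at this
    omega
  have hcross : ({a', b'} : Set (ℤ × ℤ)) = {0, w} := by
    rw [← cross_ring_of hr hl', ← hE, cross_ring_of hr' (hb.lower hl)]
  have ha0 : a' = 0 ∨ a' = w := by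
    have : a' ∈ ({0, w} : Set (ℤ × ℤ)) := by rw [← hcross]; exact Set.mem_insert _ _
    simpa using this
  rcases ha0 with rfl | rfl
  · obtain ⟨h3, -, h4⟩ := halves_unique hab' hw hr' (hb.lower hl) hr hl' hE
    subst h3
    exact ⟨k, a, b, l, A, B, hab, hl, hb, h4.symm, hthin⟩
  · have hb0 : b' = 0 := by
      have : (0 : ℤ × ℤ) ∈ ({a', b'} : Set (ℤ × ℤ)) := by rw [hcross]; exact Set.mem_insert _ _
      rcases this with h | h
      · exact absurd h hw
      · exact h.symm
    subst hb0
    have hbr := clb_block_rev hb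
    have hE2 : ring (r'.reverse ++ (A.reverse ++ (l.reverse ++ B.reverse))) = ring (r ++ l') := by
      rw [← hE]
      ext e
      rw [mem_ring_of (clb_upper_rev hr') (hbr.lower (clb_lower_rev hl)),
        mem_ring_of hr' (hb.lower hl)]
      have e1 : A.reverse ++ (l.reverse ++ B.reverse) = (B ++ (l ++ A)).reverse := by
        simp
      rw [e1, mem_pedges_reverse, mem_pedges_reverse]
      tauto
    obtain ⟨-, -, h4⟩ := halves_unique hw hw (clb_upper_rev hr') (hbr.lower (clb_lower_rev hl)) hr hl' hE2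
    refine ⟨k, b, a, l.reverse, B.reverse, A.reverse, hab.symm, clb_lower_rev hl, hbr, h4.symm, ?_⟩
    intro j hj hj'
    have h5 : {c | leg c j ∈ pedges B.reverse ∨ leg c j ∈ pedges A.reverse} =
        {c | leg c j ∈ pedges A ∨ leg c j ∈ pedges B} := by
      ext c
      simp only [Set.mem_ofPred_eq, mem_pedges_reverse]
      exact or_comm
    rw [h5]
    exact hthin j hj hj'

end

private theorem gluG_surj {w : ℤ × ℤ} {l' : List P3} (hw0 : (0 : ℤ × ℤ) ≠ w)
    (hL' : Lower 0 0 w l') (hn : nsec l' ≠ 0) :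
    ∃ (v : ℤ × ℤ) (l : List P3) (π : PP),
      Lower 0 0 v l ∧ Geo v π ∧ v + dsp π = w ∧ glu v l π = l' := by
  obtain ⟨k, a, b, l, A, B, hab, hl, hb, hl'eq, hthin⟩ := clb_exists_top hw0 hL' hn
  set t : P3 := (-a.1, -a.2, -k) with ht
  have ht1 : t.1 = -a.1 := rfl
  have ht2 : t.2.1 = -a.2 := rfl
  have ht3 : t.2.2 = -k := rfl
  have hbs := clb_block_shift hb t
  have hls := hl.shift t
  have hk0 : k + t.2.2 = 0 := by rw [ht3]; ring
  have hk1 : (0 : ℤ) + t.2.2 = -k := by rw [ht3]; ring
  have ha0 : csh t a = 0 := by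
    unfold csh
    rw [ht1, ht2]
    refine Prod.ext ?_ ?_
    · simp
    · simp
  rw [hk0, hk1, ha0] at hbs
  rw [hk0, ha0] at hls
  set v := csh t b with hv
  obtain ⟨sA, hA⟩ := exists_wk (A.map (· + t)) _ hbs.headA
  obtain ⟨sB, hB⟩ := exists_wk (B.map (· + t)).reverse _
    (by rw [List.head?_reverse]; exact hbs.lastB)
  have hA0 : A.map (· + t) = wk (0, 0, 1) sA := by
    rw [hA]
    rfl
  have hB0 : B.map (· + t) = (wk (v.1, v.2, 1) sB).reverse := by
    rw [← List.reverse_reverse (B.map (· + t)), hB]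
    rfl
  have hstA : Steps sA := by
    refine clb_steps_of (p := (0, 0, 1)) ?_
    rw [← hA0]
    exact hbs.chainA
  have hstB : Steps sB := by
    refine clb_steps_of (p := (v.1, v.2, 1)) ?_
    have h1 := clb_rev_chain hbs.chainB
    rw [hB0, List.reverse_reverse] at h1
    exact h1
  have hsumA : ((0, 0, 1) : P3) + sA.sum = (-a.1, -a.2, -k) := by
    have h1 := hbs.lastA
    rw [hA0, last_wk, Option.some.injEq] at h1
    rw [h1]
    unfold csh
    rw [ht1, ht2]
    simp
  have hsumB : ((v.1, v.2, 1) : P3) + sB.sum = (w.1 - a.1, w.2 - a.2, -k) := by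
    have h1 := hbs.headB
    rw [hB0, List.head?_reverse, last_wk, Option.some.injEq] at h1
    rw [h1]
    unfold csh
    rw [ht1, ht2]
    simp only [sub_eq_add_neg]
  have hA1 : sA.sum.1 = -a.1 := by
    have := congrArg Prod.fst hsumA
    simpa using this
  have hA2 : sA.sum.2.1 = -a.2 := by
    have := congrArg (fun p : P3 => p.2.1) hsumA
    simpa using this
  have hA3 : sA.sum.2.2 + 1 = -k := by
    have := congrArg (fun p : P3 => p.2.2) hsumA
    simp only [Prod.snd_add] at this
    omega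
  have hB1 : v.1 + sB.sum.1 = w.1 - a.1 := by
    have := congrArg Prod.fst hsumB
    simpa using this
  have hB2 : v.2 + sB.sum.2.1 = w.2 - a.2 := by
    have := congrArg (fun p : P3 => p.2.1) hsumB
    simpa using this
  have hgt' : hgt (sA, sB) = -k := hA3
  have hz1 : hz sA.sum = csh t 0 := by
    unfold hz csh
    rw [ht1, ht2, hA1, hA2]
    simp
  have hz2 : v + hz sB.sum = csh t w := by
    unfold csh
    rw [ht1, ht2]
    refine Prod.ext ?_ ?_
    · change v.1 + sB.sum.1 = w.1 + -a.1
      rw [hB1]; ring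
    · change v.2 + sB.sum.2.1 = w.2 + -a.2
      rw [hB2]; ring
  have hsdA : sdA (sA, sB) = A.map (· + t) := hA0.symm
  have hsdB : sdB v (sA, sB) = B.map (· + t) := hB0.symm
  have hv0 : v ≠ 0 := by
    intro h0
    exact csh_ne (t := t) hab.symm (by rw [← hv, h0, ha0])
  have hgeo : Geo v (sA, sB) := by
    refine ⟨hv0, hstA, hstB, ?_, ?_⟩
    · rw [hsdA, hsdB, hgt']
      change Block 0 (-k) 0 v (hz sA.sum) (v + hz sB.sum) _ _
      rw [hz1, hz2]
      exact hbs
    · intro j hj hj'
      rw [hgt'] at hj'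
      have h1 := hthin (j + k) (by omega) (by omega)
      intro h2
      apply h1
      rw [← h2, hsdA, hsdB]
      have h3 : {c | leg c j ∈ pedges (A.map (· + t)) ∨ leg c j ∈ pedges (B.map (· + t))} =
          (fun c : ℤ × ℤ => csh t c) ''
            {c | leg c (j + k) ∈ pedges A ∨ leg c (j + k) ∈ pedges B} := by
        ext c
        have h4 : j - t.2.2 = j + k := by rw [ht3]; ring
        simp only [Set.mem_ofPred_eq, clb_leg_map, h4, Set.mem_image]
        constructor
        · intro h5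
          refine ⟨(c.1 - t.1, c.2 - t.2.1), h5, ?_⟩
          unfold csh
          simp
        · rintro ⟨d, hd, rfl⟩
          unfold csh
          simpa using hd
      rw [h3, Set.ncard_image_of_injective]
      intro c d hcd
      by_contra hne
      exact csh_ne (t := t) hne hcd
  have hsh : l'.map (· + t) = sdB v (sA, sB) ++ (l.map (· + t) ++ sdA (sA, sB)) := by
    rw [hsdA, hsdB, hl'eq]
    simp only [List.map_append]
  refine ⟨v, l.map (· + t), (sA, sB), hls, hgeo, ?_, ?_⟩
  · refine Prod.ext ?_ ?_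
    · change v.1 + (sB.sum.1 - sA.sum.1) = w.1
      rw [hA1]
      linarith
    · change v.2 + (sB.sum.2.1 - sA.sum.2.1) = w.2
      rw [hA2]
      linarith
  · unfold glu
    rw [← hsh, List.map_map]
    have h6 : ((· + (-((sA, sB) : PP).1.sum.1, -((sA, sB) : PP).1.sum.2.1, -(hgt (sA, sB)))) ∘
        (· + t) : P3 → P3) = id := by
      funext u
      simp only [Function.comp_apply, id]
      rw [hgt', hA1, hA2, ht]
      refine Prod.ext ?_ (Prod.ext ?_ ?_)
      · simp
      · simp
      · simp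
    rw [h6, List.map_id]

section

variable {v v' : ℤ × ℤ} {π π' : PP} {l l' : List P3}

private theorem clb_gi_key (t : P3) (l : List P3) (c : ℤ × ℤ) (j : ℤ) :
    leg c j ∈ pedges (l.map (· + t)) ↔
      leg (c.1 - t.1, c.2 - t.2.1) (j - t.2.2) ∈ pedges l := by
  rw [pedges_map]
  have : leg c j ∈ LK.shift t (pedges l) ↔ _ := mem_shift
  refine this.trans ?_
  have e1 : ((c.1, c.2, j + 1) : P3) - t = (c.1 - t.1, c.2 - t.2.1, j - t.2.2 + 1) := by
    refine Prod.ext rfl (Prod.ext rfl ?_)
    simp only [Prod.snd_sub]; ring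
  rw [e1]
  rfl

private theorem clb_gi_map (t : P3) (l : List P3) (j : ℤ) :
    {c | leg c j ∈ pedges (l.map (· + t))}.ncard = {c | leg c (j - t.2.2) ∈ pedges l}.ncard := by
  have h1 : {c | leg c j ∈ pedges (l.map (· + t))} =
      (fun c : ℤ × ℤ => (c.1 + t.1, c.2 + t.2.1)) '' {c | leg c (j - t.2.2) ∈ pedges l} := by
    ext c
    rw [Set.mem_ofPred_eq, clb_gi_key]
    constructor
    · intro h
      exact ⟨_, h, by simp⟩
    · rintro ⟨c', h, rfl⟩
      simpa using h
  rw [h1]
  refine Set.ncard_image_of_injective _ ?_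
  intro c c' h
  simp only [Prod.mk.injEq, add_left_inj] at h
  exact Prod.ext h.1 h.2

private theorem clb_gi_zero (hg : Geo v π) (hl : Lower 0 0 v l) :
    {c | leg c 0 ∈ pedges (sdB v π ++ (l ++ sdA π))}.ncard = 2 := by
  have h1 : {c | leg c 0 ∈ pedges (sdB v π ++ (l ++ sdA π))} = {0, v} := by
    ext c
    rw [Set.mem_ofPred_eq, hg.block.mem_lower hl, Set.mem_insert_iff, Set.mem_singleton_iff]
    constructor
    · rintro (h | h | h | h | h)
      · have := (hg.block.levA _ (LatticeTube.mem_of_mem_pedges h).1).1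
        simp only at this
        omega
      · have := (hg.block.levB _ (LatticeTube.mem_of_mem_pedges h).1).1
        simp only at this
        omega
      · have := hl.lev _ (LatticeTube.mem_of_mem_pedges h).2
        simp only at this
        omega
      · exact Or.inl (leg_inj h).1
      · exact Or.inr (leg_inj h).1
    · rintro (rfl | rfl)
      · exact Or.inr (Or.inr (Or.inr (Or.inl rfl)))
      · exact Or.inr (Or.inr (Or.inr (Or.inr rfl)))
  rw [h1]
  exact Set.ncard_pair hg.ne.symm

private theorem clb_gi_mid (hg : Geo v π) (hl : Lower 0 0 v l) {j : ℤ} (hj : 0 < j)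
    (hj' : j < hgt π) : {c | leg c j ∈ pedges (sdB v π ++ (l ++ sdA π))}.ncard ≠ 2 := by
  have h1 : {c | leg c j ∈ pedges (sdB v π ++ (l ++ sdA π))} =
      {c | leg c j ∈ pedges (sdA π) ∨ leg c j ∈ pedges (sdB v π)} := by
    ext c
    rw [Set.mem_ofPred_eq, hg.block.mem_lower hl, Set.mem_ofPred_eq]
    constructor
    · rintro (h | h | h | h | h)
      · exact Or.inl h
      · exact Or.inr h
      · have := hl.lev _ (LatticeTube.mem_of_mem_pedges h).1
        simp only at this
        omega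
      · have := (leg_inj h).2
        omega
      · have := (leg_inj h).2
        omega
    · rintro (h | h)
      · exact Or.inl h
      · exact Or.inr (Or.inl h)
  rw [h1]
  exact hg.thick j hj hj'

private theorem clb_gi_hgt (hg : Geo v π) (hl : Lower 0 0 v l) (hg' : Geo v' π')
    (hl' : Lower 0 0 v' l') (h : glu v l π = glu v' l' π') : hgt π' ≤ hgt π := by
  by_contra hlt
  rw [not_le] at hlt
  have h0 : (0 : ℤ) < hgt π := hg.block.lt
  have e1 : {c | leg c (-(hgt π)) ∈ pedges (glu v l π)}.ncard = 2 := by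
    unfold glu
    rw [clb_gi_map]
    have : -(hgt π) - -(hgt π) = 0 := by ring
    simp only [this]
    exact clb_gi_zero hg hl
  have e2 : {c | leg c (-(hgt π)) ∈ pedges (glu v' l' π')}.ncard ≠ 2 := by
    unfold glu
    rw [clb_gi_map]
    exact clb_gi_mid hg' hl' (by simp only; omega) (by simp only; omega)
  rw [h] at e1
  exact e2 e1

private theorem gluG_inj (hg : Geo v π) (hL : Lower 0 0 v l) (hg' : Geo v' π')
    (hL' : Lower 0 0 v' l') (h : glu v l π = glu v' l' π') : v = v' ∧ l = l' ∧ π = π' := by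
  have hH : hgt π = hgt π' :=
    le_antisymm (clb_gi_hgt hg' hL' hg hL h.symm) (clb_gi_hgt hg hL hg' hL' h)
  unfold glu at h
  rw [List.map_append, List.map_append, List.map_append, List.map_append] at h
  obtain ⟨t, ht⟩ : ∃ t : P3, t = (-(π.1.sum.1), -(π.1.sum.2.1), -(hgt π)) := ⟨_, rfl⟩
  obtain ⟨t', ht'⟩ : ∃ t' : P3, t' = (-(π'.1.sum.1), -(π'.1.sum.2.1), -(hgt π')) := ⟨_, rfl⟩
  rw [← ht, ← ht'] at h
  have ht3 : t.2.2 = -(hgt π) := by rw [ht]
  have ht3' : t'.2.2 = -(hgt π) := by rw [ht', hH]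
  obtain ⟨h1, h2⟩ := LatticeTube.append_split (fun u : P3 => -(hgt π) < u.2.2) _ _ _ _
    (by
      intro u hu
      obtain ⟨w, hw, rfl⟩ := List.mem_map.1 hu
      have := (hg.block.levB w hw).1
      simp only [Prod.snd_add]
      omega)
    (by
      intro u hu
      obtain ⟨w, hw, rfl⟩ := List.mem_map.1 hu
      have := (hg'.block.levB w hw).1
      simp only [Prod.snd_add]
      omega)
    (by
      intro u hu
      rw [List.head?_append, List.head?_map, hL.head] at hu
      simp only [Option.map_some, Option.some_or, Option.mem_def, Option.some.injEq] at hu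
      subst hu
      simp only [Prod.snd_add]
      omega)
    (by
      intro u hu
      rw [List.head?_append, List.head?_map, hL'.head] at hu
      simp only [Option.map_some, Option.some_or, Option.mem_def, Option.some.injEq] at hu
      subst hu
      simp only [Prod.snd_add]
      omega) h
  obtain ⟨h3, h4⟩ := LatticeTube.append_split (fun u : P3 => u.2.2 ≤ -(hgt π)) _ _ _ _
    (by
      intro u hu
      obtain ⟨w, hw, rfl⟩ := List.mem_map.1 hu
      have := hL.lev w hw
      simp only [Prod.snd_add]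
      omega)
    (by
      intro u hu
      obtain ⟨w, hw, rfl⟩ := List.mem_map.1 hu
      have := hL'.lev w hw
      simp only [Prod.snd_add]
      omega)
    (by
      intro u hu
      rw [List.head?_map, hg.block.headA] at hu
      simp only [Option.map_some, Option.mem_def, Option.some.injEq] at hu
      subst hu
      simp only [Prod.snd_add]
      omega)
    (by
      intro u hu
      rw [List.head?_map, hg'.block.headA] at hu
      simp only [Option.map_some, Option.mem_def, Option.some.injEq] at hu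
      subst hu
      simp only [Prod.snd_add]
      omega) h2
  have htt : t = t' := by
    have h5 := congrArg List.head? h4
    rw [List.head?_map, List.head?_map, hg.block.headA, hg'.block.headA] at h5
    simp only [Option.map_some, Option.some.injEq] at h5
    exact add_left_cancel h5
  subst htt
  have hinj : Function.Injective (fun u : P3 => u + t) := add_left_injective t
  have hlist : Function.Injective (List.map fun u : P3 => u + t) :=
    List.map_injective_iff.2 hinj
  have e1 : sdB v π = sdB v' π' := hlist h1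
  have e2 : l = l' := hlist h3
  have e3 : sdA π = sdA π' := hlist h4
  have e4 : π.1 = π'.1 := wk_inj e3
  unfold sdB at e1
  rw [List.reverse_inj] at e1
  have e5 : v = v' := by
    have h5 := congrArg List.head? e1
    rw [head_wk, head_wk] at h5
    simp only [Option.some.injEq, Prod.mk.injEq, and_true] at h5
    exact Prod.ext h5.1 h5.2
  subst e5
  exact ⟨rfl, e2, Prod.ext e4 (wk_inj e1)⟩

end

private theorem splice_uppEq {E F : Finset (Sym2 P3)} {k : ℤ} (hF : IsPolygon F)
    (hc : cross F k = cross E k) : UppEq (KTen.splice F E k) E k := by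
  intro u v hu
  rw [KTen.mem_splice]
  constructor
  · rintro (⟨h1, h2⟩ | ⟨h1, -⟩)
    · rcases adj_cases k (hF.adj u v h1) with h3 | h3 | ⟨a, b, h3⟩
      · omega
      · omega
      · rw [h3] at h1 ⊢
        have : ((a, b) : ℤ × ℤ) ∈ cross F k := h1
        rw [hc] at this
        exact this
    · exact h1
  · intro h1
    exact Or.inr ⟨h1, Or.inl hu⟩

private theorem uppU_iff' {E : Finset (Sym2 P3)} {k : ℤ} (hE : IsPolygon E) (h2 : IsTwo E k) :
    KTen.UppU E k ↔ UppU E k := by
  constructor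
  · rintro ⟨F, hF, hc, hU⟩
    have h2F : IsTwo F k := by
      unfold IsTwo
      rw [hc]
      exact h2
    have hG := KTen.isPolygon_splice hF hE h2F hc.symm
    have hEq := splice_uppEq (E := E) hF hc
    have h2G : IsTwo (KTen.splice F E k) k := by
      unfold IsTwo
      rw [hEq.cross le_rfl]
      exact h2
    exact ((unknotted_iff hG h2G).1 hU).2.congr hEq
  · rintro ⟨A, hA, hU⟩
    refine ⟨A, hA.1, hA.2.1.cross le_rfl, ?_⟩
    rw [splice_upp_eq hA.2.1]
    exact hU

private theorem lowU_mono {E : Finset (Sym2 P3)} {k k' : ℤ} (h2 : IsTwo E k) (hk : k ≤ k')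
    (h : LowU E k') : LowU E k := by
  obtain ⟨A, hA, hU⟩ := h
  have hEq : LowEq A E k := fun u v hu => hA.2.1 u v (hu.trans hk)
  have h2A : IsTwo A k := by
    unfold IsTwo
    rw [hEq.cross le_rfl]
    exact h2
  exact ((unknotted_iff hA.1 h2A).1 hU).1.congr hEq

private theorem uppU_mono {E : Finset (Sym2 P3)} {k k' : ℤ} (h2 : IsTwo E k) (hk : k' ≤ k)
    (h : UppU E k') : UppU E k := by
  obtain ⟨A, hA, hU⟩ := h
  have hEq : UppEq A E k := fun u v hu => hA.2.1 u v (by omega)
  have h2A : IsTwo A k := by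
    unfold IsTwo
    rw [hEq.cross le_rfl]
    exact h2
  exact ((unknotted_iff hA.1 h2A).1 hU).2.congr hEq

/-- A section of a polygon of a prime class has exactly one knotted side. -/
private theorem sides (hT : PrimeCl T) {E : Finset (Sym2 P3)} (hE : IsPolygon E) (hTE : T E)
    {k : ℤ} (h2 : IsTwo E k) : LowU E k ↔ ¬ UppU E k := by
  constructor
  · intro h h'
    exact hT.knotted E hTE ((unknotted_iff hE h2).2 ⟨h, h'⟩)
  · intro h
    by_contra hl
    have hl' : ¬ KTen.LowU E k := fun h1 => hl ((lowU_iff hE h2).1 h1)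
    have h3 : (cross E k).ncard = 2 := h2
    obtain ⟨a, b, hab, hc⟩ := Set.ncard_eq_two.1 h3
    obtain ⟨G, hG, uG, cG⟩ := KTen.exists_unknot_two hab k
    have hcG : cross G k = cross E k := by rw [cG, hc]
    exact h ((uppU_iff' hE h2).1 ⟨G, hG, hcG, KTen.few_splice hE h2 (hT.few E hTE) hl' hG hcG
      (KTen.lowU_of_unknotted hG uG)⟩)

/-- The lowest section above which the polygon is unknotted. -/
private def Mk (E : Finset (Sym2 P3)) (t : ℤ) : Prop :=
  IsTwo E t ∧ UppU E t ∧ ∀ k < t, IsTwo E k → ¬ UppU E k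

private theorem mk_shift_nonneg {E F : Finset (Sym2 P3)} {d : P3} (h : shift d E = F)
    (hE : Mk E 0) (hF : Mk F 0) : 0 ≤ d.2.2 := by
  by_contra hlt
  rw [not_le] at hlt
  have h1 : IsTwo F d.2.2 := by
    rw [← h, clb_shift_iff, sub_self]
    exact hE.1
  have h2 : UppU F d.2.2 := by
    have h3 := UppU.shift hE.2.1 d
    rwa [zero_add, h] at h3
  exact hF.2.2 _ hlt h1 h2

section

variable {v : ℤ × ℤ} {π : PP} {l r : List P3}

/-- the translation of a block to the normal position -/
private def tw (π : PP) : P3 := (-(π.1.sum.1), -(π.1.sum.2.1), -(hgt π))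

private theorem glu_eq (v : ℤ × ℤ) (l : List P3) (π : PP) :
    glu v l π = (sdB v π ++ (l ++ sdA π)).map (· + tw π) := rfl

private theorem lower_glu (hg : Geo v π) (hl : Lower 0 0 v l) :
    Lower 0 0 (v + dsp π) (glu v l π) := by
  have h4 := (hg.block.lower hl).shift (tw π)
  have e1 : hgt π + (tw π).2.2 = 0 := by
    simp only [tw]
    ring
  have e2 : csh (tw π) (hz π.1.sum) = 0 := by
    refine Prod.ext ?_ ?_
    · simp [csh, hz, tw]
    · simp [csh, hz, tw]
  have e3 : csh (tw π) (v + hz π.2.sum) = v + dsp π := by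
    refine Prod.ext ?_ ?_
    · simp only [csh, hz, dsp, tw, Prod.fst_add, Prod.fst_sub]; ring
    · simp only [csh, hz, dsp, tw, Prod.snd_add, Prod.snd_sub]; ring
  rw [e1, e2, e3] at h4
  exact h4

/-- the reflected half above the block -/
private def rup (π : PP) (r : List P3) : List P3 := (flp r).map (· + -tw π)

private theorem upper_rup (hr : Lower 0 0 (v + dsp π) r) :
    Upper (hgt π) (hz π.1.sum) (v + hz π.2.sum) (rup π r) := by
  have h4 := (upper_flp hr).shift (-tw π)
  have e1 : (0 : ℤ) + (-tw π).2.2 = hgt π := by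
    simp only [tw, Prod.snd_neg]
    ring
  have e2 : csh (-tw π) 0 = hz π.1.sum := by
    refine Prod.ext ?_ ?_
    · simp [csh, hz, tw]
    · simp [csh, hz, tw]
  have e3 : csh (-tw π) (v + dsp π) = v + hz π.2.sum := by
    refine Prod.ext ?_ ?_
    · simp only [csh, hz, dsp, tw, Prod.fst_add, Prod.fst_sub, Prod.fst_neg]; ring
    · simp only [csh, hz, dsp, tw, Prod.snd_add, Prod.snd_sub, Prod.snd_neg, Prod.fst_neg]; ring
  rw [e1, e2, e3] at h4
  exact h4

/-- the polygon of a block and two halves -/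
private def pol (v : ℤ × ℤ) (π : PP) (l r : List P3) : Finset (Sym2 P3) :=
  ring (flp r ++ glu v l π)

/-- the polygon in the position of the block -/
private def pol' (v : ℤ × ℤ) (π : PP) (l r : List P3) : Finset (Sym2 P3) :=
  ring ((sdA π ++ (rup π r ++ sdB v π)) ++ l)

private theorem pol_eq (hg : Geo v π) (hl : Lower 0 0 v l) (hr : Lower 0 0 (v + dsp π) r) :
    pol v π l r = shift (tw π) (pol' v π l r) := by
  unfold pol pol'
  rw [hg.block.ring_rotate (upper_rup hr) hl, ← ring_map, List.map_append, ← glu_eq]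
  congr 2
  unfold rup
  rw [List.map_map]
  have h : ((fun u : P3 => u + tw π) ∘ fun u : P3 => u + -tw π) = id := by
    funext u
    simp
  rw [h, List.map_id]

private theorem isTwo_pol (hg : Geo v π) (hl : Lower 0 0 v l) (hr : Lower 0 0 (v + dsp π) r)
    (j : ℤ) : IsTwo (pol v π l r) j ↔ IsTwo (pol' v π l r) (j + hgt π) := by
  rw [pol_eq hg hl hr, clb_shift_iff]
  have h : j - (tw π).2.2 = j + hgt π := by
    simp only [tw]
    ring
  rw [h]

private theorem pol_two (hg : Geo v π) (hl : Lower 0 0 v l) (hr : Lower 0 0 (v + dsp π) r) :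
    IsTwo (pol v π l r) (-hgt π) := by
  rw [isTwo_pol hg hl hr, neg_add_cancel]
  exact isTwo_ring_of hg.ne.symm (hg.block.upper (upper_rup hr)) hl

private theorem pol_low (hg : Geo v π) (hl : LU 0 0 v l) (hr : Lower 0 0 (v + dsp π) r) :
    LowU (pol v π l r) (-hgt π) := by
  have h1 := LowU.shift (hl.lowU (hg.block.upper (upper_rup hr))) (tw π)
  have h2 : (0 : ℤ) + (tw π).2.2 = -hgt π := by
    simp only [tw]
    ring
  rw [h2] at h1
  rw [pol_eq hg hl.2.1 hr]
  exact h1

private theorem lu_of_pol (hg : Geo v π) (hl : Lower 0 0 v l) (hr : Lower 0 0 (v + dsp π) r)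
    (h : LowU (pol v π l r) (-hgt π)) : LU 0 0 v l := by
  refine ⟨hg.ne.symm, hl, _, hg.block.upper (upper_rup hr), ?_⟩
  rw [pol_eq hg hl hr] at h
  have h1 := LowU.shift h (-tw π)
  rw [shift_shift, neg_add_cancel, shift_zero] at h1
  have h2 : -hgt π + (-tw π).2.2 = 0 := by
    simp only [tw, Prod.snd_neg]
    ring
  rw [h2] at h1
  exact h1

private theorem pol_thick (hg : Geo v π) (hl : Lower 0 0 v l) (hr : Lower 0 0 (v + dsp π) r)
    {j : ℤ} (hj : -hgt π < j) (hj' : j < 0) : ¬ IsTwo (pol v π l r) j := by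
  rw [isTwo_pol hg hl hr]
  unfold IsTwo pol'
  rw [hg.block.cross_mid (upper_rup hr) hl (by omega) (by omega)]
  exact hg.thick _ (by omega) (by omega)

private theorem card_pedges' : ∀ {l : List P3}, l.Nodup → l ≠ [] →
    (pedges l).card + 1 = l.length
  | [], _, h => absurd rfl h
  | [a], _, _ => by simp [LatticeTube.pedges]
  | a :: b :: l, h, _ => by
    have ih := card_pedges' (List.nodup_cons.1 h).2 (List.cons_ne_nil b l)
    have hn : s(a, b) ∉ pedges (b :: l) := fun hm =>
      (List.nodup_cons.1 h).1 (LatticeTube.mem_of_mem_pedges hm).1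
    rw [pedges_cons_cons, Finset.card_insert_of_notMem hn, ih]
    simp

private theorem card_mid' (hg : Geo v π) (hl : Lower 0 0 v l) (hr : Lower 0 0 (v + dsp π) r) :
    (KTen.midE (pol' v π l r) 0 (hgt π)).card = ln π + 2 := by
  classical
  have hb := hg.block
  have hlt := hb.lt
  have hr1 := upper_rup hr
  have hu := hb.upper hr1
  have hmem : ∀ e : Sym2 P3, e ∈ pol' v π l r ↔
      (e ∈ pedges (sdA π) ∨ e ∈ pedges (sdB v π) ∨ e ∈ pedges (rup π r) ∨
        e = leg (hz π.1.sum) (hgt π) ∨ e = leg (v + hz π.2.sum) (hgt π)) ∨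
        e ∈ pedges l ∨ e = leg 0 0 ∨ e = leg v 0 := by
    intro e
    unfold pol'
    rw [mem_ring_of hu hl, hb.mem_upper hr1]
  have hset : KTen.midE (pol' v π l r) 0 (hgt π) =
      pol' v π l r \ (pedges (rup π r) ∪ pedges l) := by
    ext e
    induction e using Sym2.ind with
    | _ x w =>
      rw [KTen.mem_midE, Finset.mem_sdiff, Finset.mem_union]
      constructor
      · rintro ⟨h1, h2⟩
        refine ⟨h1, ?_⟩
        rintro (h3 | h3)
        · obtain ⟨h4, h5⟩ := pedges_lev hr1.lev h3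
          omega
        · obtain ⟨h4, h5⟩ := pedges_lev hl.lev h3
          omega
      · rintro ⟨h1, h2⟩
        refine ⟨h1, ?_⟩
        rw [hmem] at h1
        have hleg : ∀ (c : ℤ × ℤ) (k : ℤ), s(x, w) = leg c k →
            (x.2.2 = k ∧ w.2.2 = k + 1) ∨ (x.2.2 = k + 1 ∧ w.2.2 = k) := by
          intro c k h
          unfold leg at h
          rw [Sym2.eq_iff] at h
          rcases h with ⟨rfl, rfl⟩ | ⟨rfl, rfl⟩
          · exact Or.inl ⟨rfl, rfl⟩
          · exact Or.inr ⟨rfl, rfl⟩
        rcases h1 with (h3 | h3 | h3 | h3 | h3) | h3 | h3 | h3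
        · have h4 := hb.levA _ (LatticeTube.mem_of_mem_pedges h3).1
          omega
        · have h4 := hb.levB _ (LatticeTube.mem_of_mem_pedges h3).1
          omega
        · exact absurd (Or.inl h3) h2
        · have h4 := hleg _ _ h3
          omega
        · have h4 := hleg _ _ h3
          omega
        · exact absurd (Or.inr h3) h2
        · have h4 := hleg _ _ h3
          omega
        · have h4 := hleg _ _ h3
          omega
  have hsub : pedges (rup π r) ∪ pedges l ⊆ pol' v π l r := by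
    intro e he
    rw [hmem]
    rcases Finset.mem_union.1 he with h | h
    · exact Or.inl (Or.inr (Or.inr (Or.inl h)))
    · exact Or.inr (Or.inl h)
  have hdis : Disjoint (pedges (rup π r)) (pedges l) := by
    rw [Finset.disjoint_left]
    intro e h1 h2
    induction e using Sym2.ind with
    | _ x w =>
      have h3 := (pedges_lev hr1.lev h1).1
      have h4 := (pedges_lev hl.lev h2).1
      omega
  have hcard : (pol' v π l r).card =
      (sdA π).length + (rup π r).length + (sdB v π).length + l.length := by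
    unfold pol'
    rw [(ring_of hg.ne.symm hu hl).card_eq]
    simp only [List.length_append]
    ring
  have h1 := card_pedges' hr1.nodup hr1.ne_nil
  have h2 := card_pedges' hl.nodup hl.ne_nil
  have h3 : (sdA π).length = π.1.length + 1 := length_wk _ _
  have h4 : (sdB v π).length = π.2.length + 1 := by
    unfold sdB
    rw [List.length_reverse, length_wk]
  rw [hset, Finset.card_sdiff_of_subset hsub, Finset.card_union_of_disjoint hdis, hcard, h3, h4]
  unfold KAsym.ln
  omega

private theorem card_mid (hg : Geo v π) (hl : Lower 0 0 v l) (hr : Lower 0 0 (v + dsp π) r) :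
    (KTen.midE (pol v π l r) (-hgt π) 0).card = ln π + 2 := by
  have h1 := KTen.midE_shift (tw π) (pol' v π l r) 0 (hgt π)
  have e1 : (0 : ℤ) + (tw π).2.2 = -hgt π := by
    simp only [tw]
    ring
  have e2 : hgt π + (tw π).2.2 = 0 := by
    simp only [tw]
    ring
  rw [e1, e2] at h1
  rw [pol_eq hg hl hr, h1, card_shift, card_mid' hg hl hr]

private theorem card_pol (hg : Geo v π) (hl : Lower 0 0 v l) (hr : LU 0 0 (v + dsp π) r) :
    (pol v π l r).card = l.length + r.length + ln π := by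
  unfold pol
  rw [(ring_of hr.1 (upper_flp hr.2.1) (lower_glu hg hl)).card_eq, List.length_append, length_flp,
    glu_eq]
  simp only [List.length_map, List.length_append, sdA, sdB, List.length_reverse, length_wk]
  unfold KAsym.ln
  omega

private theorem span_pol (hg : Geo v π) (hl : Lower 0 0 v l) (hr : LU 0 0 (v + dsp π) r) :
    span (pol v π l r) = lspan l + lspan r + (hgt π).toNat + 1 := by
  unfold pol
  rw [span_ring (upper_flp hr.2.1) (lower_glu hg hl), lspan_flp, glu_eq, lspan_map_add,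
    lspan_glu hg hl]
  ring

private theorem pol_mk (hT : PrimeCl T) (hC : Cls T v π) (hl : LU 0 0 v l)
    (hr : LU 0 0 (v + dsp π) r) : IsPolygon (pol v π l r) ∧ T (pol v π l r) ∧
      Mk (pol v π l r) 0 := by
  have hg := hC.1
  have hL := lower_glu hg hl.2.1
  have hU := UU_flp hr
  have hP : IsPolygon (pol v π l r) := (ring_of hr.1 hU.2.1 hL).isPolygon
  have hTP : T (pol v π l r) := (cls_iff hT.closed hg hl hr).1 hC
  refine ⟨hP, hTP, isTwo_ring_of hr.1 hU.2.1 hL, hU.uppU hL, ?_⟩
  intro k hk h2 hUk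
  have hle : k ≤ -hgt π := by
    by_contra hcon
    exact pol_thick hg hl.2.1 hr.2.1 (not_le.1 hcon) hk h2
  exact (sides hT hP hTP h2).1 (lowU_mono h2 hle (pol_low hg hl hr.2.1)) hUk

end

private theorem pol_inj (hT : PrimeCl T) {v v' : ℤ × ℤ} {π π' : PP} {l l' r r' : List P3}
    (hC : Cls T v π) (hl : LU 0 0 v l) (hr : LU 0 0 (v + dsp π) r)
    (hC' : Cls T v' π') (hl' : LU 0 0 v' l') (hr' : LU 0 0 (v' + dsp π') r') {s t : P3}
    (h : shift s (pol v π l r) = shift t (pol v' π' l' r'))
    (hb : lx (v + dsp π) = lx (v' + dsp π')) : v = v' ∧ π = π' ∧ l = l' ∧ r = r' := by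
  obtain ⟨-, -, hM⟩ := pol_mk hT hC hl hr
  obtain ⟨-, -, hM'⟩ := pol_mk hT hC' hl' hr'
  have h1 : shift (-t + s) (pol v π l r) = pol v' π' l' r' := by
    rw [← shift_shift, h, shift_shift, neg_add_cancel, shift_zero]
  have h1' : shift (-(-t + s)) (pol v' π' l' r') = pol v π l r := by
    rw [← h1, shift_shift, neg_add_cancel, shift_zero]
  set d := -t + s with hd
  have hz : d.2.2 = 0 := by
    have a1 := mk_shift_nonneg h1 hM hM'
    have a2 := mk_shift_nonneg h1' hM' hM
    have a3 : (-d).2.2 = -d.2.2 := rfl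
    omega
  have hL := lower_glu hC.1 hl.2.1
  have hU := upper_flp hr.2.1
  have hL' := lower_glu hC'.1 hl'.2.1
  have hU' := upper_flp hr'.2.1
  obtain ⟨w, hw⟩ : ∃ w, w = v + dsp π := ⟨_, rfl⟩
  obtain ⟨w', hw'⟩ : ∃ w', w' = v' + dsp π' := ⟨_, rfl⟩
  rw [← hw] at hL hU hb
  rw [← hw'] at hL' hU' hb
  have hw0 : (0 : ℤ × ℤ) ≠ w := by rw [hw]; exact hr.1
  have hw0' : (0 : ℤ × ℤ) ≠ w' := by rw [hw']; exact hr'.1
  have hc : ∀ c : ℤ × ℤ, c ∈ cross (pol v' π' l' r') 0 ↔
      (c.1 - d.1, c.2 - d.2.1) ∈ cross (pol v π l r) 0 := by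
    intro c
    rw [← h1, cross_shift', hz, sub_zero]
  have hp : cross (pol v π l r) 0 = {0, w} := cross_ring_of hU hL
  have hq : cross (pol v' π' l' r') 0 = {0, w'} := cross_ring_of hU' hL'
  have e1 : (0 : ℤ × ℤ) = (0 - d.1, 0 - d.2.1) ∨ w = (0 - d.1, 0 - d.2.1) := by
    have := (hc 0).1 (by rw [hq]; exact Set.mem_insert _ _)
    rw [hp, Set.mem_insert_iff, Set.mem_singleton_iff] at this
    exact this.imp Eq.symm Eq.symm
  have e2 : (0 : ℤ × ℤ) = (w'.1 - d.1, w'.2 - d.2.1) ∨ w = (w'.1 - d.1, w'.2 - d.2.1) := by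
    have := (hc w').1 (by rw [hq]; exact Set.mem_insert_of_mem _ rfl)
    rw [hp, Set.mem_insert_iff, Set.mem_singleton_iff] at this
    exact this.imp Eq.symm Eq.symm
  have hd0 : d = 0 ∧ w = w' := by
    rcases e1 with e1 | e1
    · have a1 : d.1 = 0 := by have := congrArg Prod.fst e1; simp only [Prod.fst_zero] at this; omega
      have a2 : d.2.1 = 0 := by
        have := congrArg Prod.snd e1; simp only [Prod.snd_zero] at this; omega
      refine ⟨Prod.ext a1 (Prod.ext a2 hz), ?_⟩
      rw [a1, a2, sub_zero, sub_zero] at e2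
      rcases e2 with e2 | e2
      · exact absurd e2 hw0'
      · exact e2
    · exfalso
      rcases e2 with e2 | e2
      · refine lx_neg hw0 (w := w') ?_ hb
        rw [e1]
        have b1 := congrArg Prod.fst e2
        have b2 := congrArg Prod.snd e2
        simp only [Prod.fst_zero, Prod.snd_zero] at b1 b2
        refine Prod.ext ?_ ?_
        · simp only [Prod.fst_add, Prod.fst_zero]
          omega
        · simp only [Prod.snd_add, Prod.snd_zero]
          omega
      · apply hw0'
        have b1 := congrArg Prod.fst (e1.symm.trans e2)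
        have b2 := congrArg Prod.snd (e1.symm.trans e2)
        simp only at b1 b2
        exact Prod.ext (by simp only [Prod.fst_zero]; omega) (by simp only [Prod.snd_zero]; omega)
  obtain ⟨hd1, hww⟩ := hd0
  rw [hd1, shift_zero] at h1
  rw [← hww] at hL' hU'
  obtain ⟨-, h2, h3⟩ := halves_unique hw0 hw0 hU hL hU' hL' h1
  obtain ⟨h4, h5, h6⟩ := gluG_inj hC.1 hl.2.1 hC'.1 hl'.2.1 h3
  refine ⟨h4, h6, h5, ?_⟩
  have h7 := congrArg flp h2
  rwa [flp_flp, flp_flp] at h7

private theorem pol_surj (hT : PrimeCl T) {j n : ℕ} (E : MP T j n) (b : Bool) :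
    ∃ (p : BT T j n) (s : P3), shift s E.1 = pol p.1.1 p.1.2.1 p.1.2.2.1 p.1.2.2.2 ∧
      lx (p.1.1 + dsp p.1.2.1) = b := by
  classical
  obtain ⟨E, hE, hTE, hN, hcard, s0, t0, hst, hmid, ⟨h2s, hLs⟩, ⟨h2t, hUt⟩⟩ := E
  rw [lowU_iff hE h2s] at hLs
  rw [uppU_iff' hE h2t] at hUt
  have hfin : {k : ℤ | IsTwo E k ∧ UppU E k}.Finite := (two_finite E).subset fun _ h => h.1
  obtain ⟨t, ⟨h2, hU⟩, hmin⟩ := Set.exists_min_image _ id hfin ⟨t0, h2t, hUt⟩
  have htt0 : t ≤ t0 := hmin _ ⟨h2t, hUt⟩
  have hs0t : s0 < t := by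
    by_contra hcon
    exact hT.knotted E hTE ((unknotted_iff hE h2s).2 ⟨hLs, uppU_mono h2s (not_lt.1 hcon) hU⟩)
  -- the two columns, the first one being the one with the right sign
  obtain ⟨a, a', haa, hcr, hsgn⟩ : ∃ a a' : ℤ × ℤ, a ≠ a' ∧ cross E t = {a, a'} ∧
      lx (a' - a) = b := by
    have h1 : (cross E t).ncard = 2 := h2
    obtain ⟨a, a', haa, hcr⟩ := Set.ncard_eq_two.1 h1
    by_cases hb : lx (a' - a) = b
    · exact ⟨a, a', haa, hcr, hb⟩
    · refine ⟨a', a, haa.symm, by rw [hcr, Set.pair_comm], ?_⟩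
      by_contra hb'
      have h2 : lx (a' - a) = lx (a - a') := by
        cases h3 : lx (a' - a) <;> cases h4 : lx (a - a') <;> cases b <;> simp_all
      exact lx_neg (fun h => haa (sub_eq_zero.1 h.symm).symm) (by abel) h2
  have ha : a ∈ cross E t := by
    rw [hcr]
    exact Set.mem_insert _ _
  obtain ⟨d, hd⟩ : ∃ d : P3, d = (-a.1, -a.2, -t) := ⟨_, rfl⟩
  have hd1 : d.1 = -a.1 := by rw [hd]
  have hd2 : d.2.1 = -a.2 := by rw [hd]
  have hd3 : d.2.2 = -t := by rw [hd]
  have hE' : IsPolygon (shift d E) := isPolygon_shift hE d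
  have hk0 : (0 : ℤ) - d.2.2 = t := by rw [hd3]; ring
  have h2' : IsTwo (shift d E) 0 := by
    rw [clb_shift_iff, hk0]
    exact h2
  have ha' : (0 : ℤ × ℤ) ∈ cross (shift d E) 0 := by
    rw [cross_shift', hk0]
    have h3 : (((0 : ℤ × ℤ).1 - d.1, (0 : ℤ × ℤ).2 - d.2.1) : ℤ × ℤ) = a := by
      rw [hd1, hd2]
      refine Prod.ext ?_ ?_
      · simp
      · simp
    rw [h3]
    exact ha
  obtain ⟨w, r', L, hb, hr, hl, hrl⟩ := exists_halves hE' h2' ha'
  have hv : w = a' - a := by
    have h3 : w ∈ cross (shift d E) 0 := by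
      rw [← hrl, cross_ring_of hr hl]
      exact Set.mem_insert_of_mem _ rfl
    rw [cross_shift', hk0, hcr] at h3
    have h4 : ((w.1 - d.1, w.2 - d.2.1) : ℤ × ℤ) = w + a := by
      rw [hd1, hd2]
      refine Prod.ext ?_ ?_
      · simp
      · simp
    rw [h4] at h3
    rcases h3 with h3 | h3
    · exact absurd (add_eq_right.1 h3).symm hb
    · exact eq_sub_of_add_eq h3
  have h2s' : IsTwo (shift d E) (s0 - t) := by
    rw [clb_shift_iff, hd3]
    have : s0 - t - -t = s0 := by ring
    rw [this]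
    exact h2s
  have hnsec : nsec L ≠ 0 := by
    have hfinL : {j : ℤ | {c | leg c j ∈ pedges L}.ncard = 2}.Finite := by
      refine (planes_finite' L).subset fun j hj => ?_
      have hj' : {c | leg c j ∈ pedges L}.ncard = 2 := hj
      obtain ⟨c, hc⟩ : {c | leg c j ∈ pedges L}.Nonempty := by
        rw [Set.nonempty_iff_ne_empty]
        intro h
        rw [h, Set.ncard_empty] at hj'
        omega
      exact ⟨c, hc⟩
    unfold nsec
    rw [Ne, Set.ncard_eq_zero hfinL, ← Ne, ← Set.nonempty_iff_ne_empty]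
    refine ⟨s0 - t, ?_⟩
    rw [← hrl] at h2s'
    have h3 : cross (ring (r' ++ L)) (s0 - t) = {c | leg c (s0 - t) ∈ pedges L} := by
      ext c
      exact cross_ring_low hr hl (by omega)
    have h4 : (cross (ring (r' ++ L)) (s0 - t)).ncard = 2 := h2s'
    rw [h3] at h4
    exact h4
  obtain ⟨v, l, π, hl1, hg, hw, hglu⟩ := gluG_surj hb hl hnsec
  have hUd : UppU (shift d E) 0 := by
    have h3 := UppU.shift hU d
    have h4 : t + d.2.2 = 0 := by rw [hd3]; ring
    rwa [h4] at h3
  have hUU : UU 0 0 w r' := ⟨hb, hr, L, hl, by rw [hrl]; exact hUd⟩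
  have hLr : LU 0 0 w (flp r') := LU_flp hUU
  have hpol : shift d E = pol v π l (flp r') := by
    unfold pol
    rw [flp_flp, hglu, hrl]
  subst hw
  have hTd : T (shift d E) := hT.closed _ _ (sameType_shift d E) hTE
  have h2h := pol_two hg hl1 hLr.2.1
  have hmin' : ∀ k : ℤ, k < 0 → IsTwo (shift d E) k → ¬ UppU (shift d E) k := by
    intro k hk h5 h6
    rw [clb_shift_iff, hd3] at h5
    have h7 := UppU.shift h6 (-d)
    rw [shift_shift, neg_add_cancel, shift_zero] at h7
    have h8 : k + (-d).2.2 = k - -t := by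
      have : (-d).2.2 = -d.2.2 := rfl
      rw [this, hd3]
      ring
    rw [h8] at h7
    have h9 := hmin _ ⟨h5, h7⟩
    simp only [id] at h9
    omega
  have hlt := hg.block.lt
  have hlow : LowU (pol v π l (flp r')) (-hgt π) := by
    rw [← hpol] at h2h ⊢
    exact (sides hT hE' hTd h2h).2 (hmin' _ (by omega) h2h)
  have hLl : LU 0 0 v l := lu_of_pol hg hl1 hLr.2.1 hlow
  have hTp : T (ring (flp (flp r') ++ glu v l π)) := by
    have : T (pol v π l (flp r')) := by
      rw [← hpol]
      exact hTd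
    exact this
  have hs0 : s0 - t ≤ -hgt π := by
    by_contra hcon
    rw [hpol] at h2s'
    exact pol_thick hg hl1 hLr.2.1 (not_le.1 hcon) (by omega) h2s'
  have hln : ln π + 2 ≤ j := by
    rw [← card_mid hg hl1 hLr.2.1, ← hpol]
    refine le_trans ?_ hmid
    have h3 := KTen.midE_shift d E s0 t0
    have h4 : (KTen.midE (shift d E) (s0 + d.2.2) (t0 + d.2.2)).card =
        (KTen.midE E s0 t0).card := by
      rw [h3, card_shift]
    rw [← h4]
    refine Finset.card_le_card ?_
    intro e he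
    induction e using Sym2.ind with
    | _ x u =>
      rw [KTen.mem_midE] at he ⊢
      refine ⟨he.1, ?_⟩
      have h5 := he.2
      rw [hd3]
      omega
  have hn : l.length + (flp r').length + ln π = n := by
    rw [← card_pol hg hl1 hLr, ← hpol, card_shift, hcard]
  refine ⟨⟨(v, π, l, flp r'), ⟨hg, l, flp r', hLl, hLr, hTp⟩, hln, hLl, hLr, hn⟩, d, hpol, ?_⟩
  rw [← hsgn, ← hv]

/-- **The bijection.** -/
theorem cls_bij (hT : PrimeCl T) (j n : ℕ) : ∃ e : MP T j n × Bool ≃ BT T j n, ∀ x,
    span x.1.1 = lspan (e x).1.2.2.1 + lspan (e x).1.2.2.2 + (hgt (e x).1.2.1).toNat + 1 := by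
  classical
  have hex : ∀ p : BT T j n, ∃ t : P3,
      Normed (shift t (pol p.1.1 p.1.2.1 p.1.2.2.1 p.1.2.2.2)) :=
    fun p => exists_normed (pol_mk hT p.2.1 p.2.2.2.1 p.2.2.2.2.1).1.verts_nonempty
  choose t ht using hex
  have hmidAt : ∀ p : BT T j n, MidAt (pol p.1.1 p.1.2.1 p.1.2.2.1 p.1.2.2.2) j := by
    intro p
    obtain ⟨hP, -, hM⟩ := pol_mk hT p.2.1 p.2.2.2.1 p.2.2.2.2.1
    have hg := p.2.1.1
    have hl := p.2.2.2.1
    have hr := p.2.2.2.2.1
    have h2 := pol_two hg hl.2.1 hr.2.1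
    refine ⟨-hgt p.1.2.1, 0, by have := hg.block.lt; omega, ?_, ⟨h2, ?_⟩, ⟨hM.1, ?_⟩⟩
    · rw [card_mid hg hl.2.1 hr.2.1]
      exact p.2.2.1
    · rw [lowU_iff hP h2]
      exact pol_low hg hl hr.2.1
    · rw [uppU_iff' hP hM.1]
      exact hM.2.1
  have hshift : ∀ (s : P3) (E : Finset (Sym2 P3)), IsPolygon E → MidAt E j →
      MidAt (shift s E) j := by
    rintro s E hE ⟨s0, t0, hst, hc, ⟨h1, h2⟩, ⟨h3, h4⟩⟩
    have hE' := isPolygon_shift hE s
    have k1 : IsTwo (shift s E) (s0 + s.2.2) := by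
      rw [clb_shift_iff, add_sub_cancel_right]
      exact h1
    have k2 : IsTwo (shift s E) (t0 + s.2.2) := by
      rw [clb_shift_iff, add_sub_cancel_right]
      exact h3
    refine ⟨s0 + s.2.2, t0 + s.2.2, by omega, ?_, ⟨k1, ?_⟩, ⟨k2, ?_⟩⟩
    · rw [KTen.midE_shift, card_shift]
      exact hc
    · rw [lowU_iff hE' k1]
      exact LowU.shift ((lowU_iff hE h1).1 h2) s
    · rw [uppU_iff' hE' k2]
      exact UppU.shift ((uppU_iff' hE h3).1 h4) s
  let φ : BT T j n → MP T j n × Bool := fun p =>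
    (⟨shift (t p) (pol p.1.1 p.1.2.1 p.1.2.2.1 p.1.2.2.2),
      isPolygon_shift (pol_mk hT p.2.1 p.2.2.2.1 p.2.2.2.2.1).1 _,
      hT.closed _ _ (sameType_shift _ _) (pol_mk hT p.2.1 p.2.2.2.1 p.2.2.2.2.1).2.1, ht p, by
        rw [card_shift, card_pol p.2.1.1 p.2.2.2.1.2.1 p.2.2.2.2.1]
        exact p.2.2.2.2.2,
      hshift _ _ (pol_mk hT p.2.1 p.2.2.2.1 p.2.2.2.2.1).1 (hmidAt p)⟩,
      lx (p.1.1 + dsp p.1.2.1))
  have hφ1 : Function.Injective φ := by
    intro p q h
    have h1 := congrArg (fun x : MP T j n × Bool => x.1.1) h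
    have h2 := congrArg (fun x : MP T j n × Bool => x.2) h
    obtain ⟨h3, h4, h5, h6⟩ := pol_inj hT p.2.1 p.2.2.2.1 p.2.2.2.2.1 q.2.1 q.2.2.2.1 q.2.2.2.2.1
      h1 h2
    exact Subtype.ext (Prod.ext h3 (Prod.ext h4 (Prod.ext h5 h6)))
  have hφ2 : Function.Surjective φ := by
    rintro ⟨E, b⟩
    obtain ⟨p, s, h1, h2⟩ := pol_surj hT E b
    refine ⟨p, Prod.ext (Subtype.ext ?_) h2⟩
    change shift (t p) (pol p.1.1 p.1.2.1 p.1.2.2.1 p.1.2.2.2) = E.1
    have h3 : shift (0 : P3) (shift (t p) (pol p.1.1 p.1.2.1 p.1.2.2.1 p.1.2.2.2)) =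
        shift (t p + s) E.1 := by
      rw [shift_zero, ← h1, shift_shift]
    exact normed_shift_eq (ht p) E.2.2.2.1 h3
  have hspan : ∀ p, span (φ p).1.1 = lspan p.1.2.2.1 + lspan p.1.2.2.2 +
      (hgt p.1.2.1).toNat + 1 := by
    intro p
    change span (shift (t p) (pol p.1.1 p.1.2.1 p.1.2.2.1 p.1.2.2.2)) = _
    rw [span_shift', span_pol p.2.1.1 p.2.2.2.1.2.1 p.2.2.2.2.1]
  refine ⟨(Equiv.ofBijective φ ⟨hφ1, hφ2⟩).symm, fun x => ?_⟩
  obtain ⟨p, rfl⟩ := hφ2 x
  have h1 : (Equiv.ofBijective φ ⟨hφ1, hφ2⟩).symm (φ p) = p :=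
    (Equiv.ofBijective φ ⟨hφ1, hφ2⟩).symm_apply_apply p
  rw [h1]
  exact hspan p

end Pool.Agent.KAmp
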