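import Pool.Agent.KAmp.Tilt
import Pool.Agent.KAmp.Chain

/-! KP4: exponential estimate for the length of a chain with `m` elements. -/

set_option autoImplicit false

open scoped ENNReal

namespace Pool.Agent.KAmp

open Pool.Agent.KLog (Ker nrm hh)

variable {P H : Type} {S : Sys P H}

private lemma el_pow (x : ℕ) : (1 : ℝ) + 0.2 * x + 0.02 * x * (x - 1) ≤ (6 / 5) ^ x := by
  induction x with
  | zero => norm_num
  | succ x ih =>
    rw [pow_succ]
    push_cast
    rcases Nat.eq_zero_or_pos x with rfl | hx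
    · norm_num
    · have h1 : (1 : ℝ) ≤ x := by exact_mod_cast hx
      nlinarith

private lemma el_half : Real.exp (1 / 2) ≤ 5 / 3 := by
  have h1 : Real.exp (1 / 2) ^ 2 = Real.exp 1 := by
    rw [← Real.exp_nat_mul]
    norm_num
  have h2 := Real.exp_one_lt_d9
  have h3 := Real.exp_pos (1 / 2)
  by_contra hcon
  push Not at hcon
  nlinarith

private lemma el_half' (x : ℕ) : Real.exp (x / 2) ≤ (5 / 3) ^ x := by
  have h1 : Real.exp (x / 2) = Real.exp (1 / 2) ^ x := by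
    rw [← Real.exp_nat_mul]
    congr 1
    ring
  rw [h1]
  exact pow_le_pow_left₀ (Real.exp_pos _).le el_half x

private lemma el_sq (x : ℕ) : (x : ℝ) ^ 2 * Real.exp (x / 2) ≤ 100 * 2 ^ x := by
  have h1 := el_pow x
  have h2 := el_half' x
  have h3 : (2 : ℝ) ^ x = (6 / 5) ^ x * (5 / 3) ^ x := by
    rw [← mul_pow]
    norm_num
  have hx : (0 : ℝ) ≤ x := Nat.cast_nonneg x
  have h4 : (x : ℝ) ^ 2 ≤ 100 * (6 / 5) ^ x := by nlinarith
  rw [h3, ← mul_assoc]
  exact mul_le_mul h4 h2 (Real.exp_pos _).le (by positivity)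

private lemma el_one (x : ℕ) : (x : ℝ) * Real.exp (x / 2) ≤ 100 * 2 ^ x := by
  refine le_trans ?_ (el_sq x)
  refine mul_le_mul_of_nonneg_right ?_ (Real.exp_pos _).le
  exact_mod_cast Nat.le_self_pow two_ne_zero x

private lemma el_a (y : ℝ) : Real.exp y - 1 ≤ y * Real.exp y := by
  have h1 := Real.add_one_le_exp (-y)
  have h2 := Real.exp_pos y
  have h3 : Real.exp (-y) * Real.exp y = 1 := by rw [← Real.exp_add]; simp
  nlinarith

private lemma el_b {y : ℝ} (hy : 0 ≤ y) : Real.exp y ≤ 1 + y + y ^ 2 * Real.exp y := by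
  have h1 := el_a y
  nlinarith [mul_le_mul_of_nonneg_left h1 hy]

private lemma el_c {y : ℝ} (hy : 0 ≤ y) : Real.exp (-y) + y ≤ 1 + y ^ 2 := by
  have h1 := Real.add_one_le_exp y
  have h2 := Real.exp_pos (-y)
  have h3 : Real.exp (-y) * Real.exp y = 1 := by rw [← Real.exp_add]; simp
  have h4 : Real.exp (-y) * (1 + y) ≤ 1 := by
    calc Real.exp (-y) * (1 + y) ≤ Real.exp (-y) * Real.exp y :=
          mul_le_mul_of_nonneg_left (by linarith) h2.le
      _ = 1 := h3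
  have h5 : (1 + y) * (1 - y + y ^ 2) = 1 + y ^ 3 := by ring
  have h6 : 0 ≤ y ^ 3 := by positivity
  have h7 : Real.exp (-y) * (1 + y) ≤ (1 - y + y ^ 2) * (1 + y) := by nlinarith
  have h8 := le_of_mul_le_mul_right h7 (by linarith)
  linarith

/-- the bound of the tilt -/
private lemma el_tilt {θ : ℝ} (h0 : 0 ≤ θ) (h1 : θ ≤ 1 / 2) (x : ℕ) :
    Real.exp (θ * x) - 1 ≤ 100 * θ * 2 ^ x := by
  have hx : (0 : ℝ) ≤ x := Nat.cast_nonneg x
  have h2 := el_a (θ * x)
  have h3 : Real.exp (θ * x) ≤ Real.exp (x / 2) := Real.exp_le_exp.2 (by nlinarith)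
  have h4 := el_one x
  calc Real.exp (θ * x) - 1 ≤ θ * x * Real.exp (θ * x) := h2
    _ ≤ θ * x * Real.exp (x / 2) := mul_le_mul_of_nonneg_left h3 (by positivity)
    _ = θ * (x * Real.exp (x / 2)) := by ring
    _ ≤ θ * (100 * 2 ^ x) := mul_le_mul_of_nonneg_left h4 h0
    _ = 100 * θ * 2 ^ x := by ring

private lemma el_tilt' {θ : ℝ} (h0 : 0 ≤ θ) (x : ℕ) :
    1 - Real.exp (-(θ * x)) ≤ 100 * θ * 2 ^ x := by
  have hx : (0 : ℝ) ≤ x := Nat.cast_nonneg x
  have h2 := Real.add_one_le_exp (-(θ * x))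
  have h3 : (x : ℝ) ≤ 2 ^ x := by exact_mod_cast (Nat.lt_two_pow_self (n := x)).le
  have h4 : θ * x ≤ θ * 2 ^ x := mul_le_mul_of_nonneg_left h3 h0
  have h5 : 0 ≤ θ * 2 ^ x := by positivity
  linarith

private lemma el_sec {θ : ℝ} (h0 : 0 ≤ θ) (h1 : θ ≤ 1 / 2) (x : ℕ) :
    Real.exp (θ * x) ≤ 1 + θ * x + 100 * θ ^ 2 * 2 ^ x := by
  have hx : (0 : ℝ) ≤ x := Nat.cast_nonneg x
  have h2 := el_b (y := θ * x) (by positivity)
  have h3 : Real.exp (θ * x) ≤ Real.exp (x / 2) := Real.exp_le_exp.2 (by nlinarith)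
  have h4 := el_sq x
  have h5 : (θ * x) ^ 2 * Real.exp (θ * x) ≤ 100 * θ ^ 2 * 2 ^ x := by
    calc (θ * x) ^ 2 * Real.exp (θ * x) ≤ (θ * x) ^ 2 * Real.exp (x / 2) :=
          mul_le_mul_of_nonneg_left h3 (by positivity)
      _ = θ ^ 2 * (x ^ 2 * Real.exp (x / 2)) := by ring
      _ ≤ θ ^ 2 * (100 * 2 ^ x) := mul_le_mul_of_nonneg_left h4 (by positivity)
      _ = _ := by ring
  linarith

private lemma el_sec' {θ : ℝ} (h0 : 0 ≤ θ) (x : ℕ) :
    Real.exp (-(θ * x)) + θ * x ≤ 1 + 100 * θ ^ 2 * 2 ^ x := by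
  have hx : (0 : ℝ) ≤ x := Nat.cast_nonneg x
  have h2 := el_c (y := θ * x) (by positivity)
  have h4 := el_sq x
  have h6 : (1 : ℝ) ≤ Real.exp (x / 2) := Real.one_le_exp (by positivity)
  have h7 : (x : ℝ) ^ 2 ≤ x ^ 2 * Real.exp (x / 2) := le_mul_of_one_le_right (by positivity) h6
  have h5 : (θ * x) ^ 2 ≤ 100 * θ ^ 2 * 2 ^ x := by
    calc (θ * x) ^ 2 = θ ^ 2 * x ^ 2 := by ring
      _ ≤ θ ^ 2 * (100 * 2 ^ x) := mul_le_mul_of_nonneg_left (h7.trans h4) (by positivity)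
      _ = _ := by ring
  linarith

/-- sums over the free elements are at most the sums over all elements -/
private lemma el_sub (f : P → ℝ≥0∞) : ∑' p : {p // S.κ.Fr p}, f p.1 ≤
    ∑' p : {p // S.κ.Fr p ∨ ∃ v, S.κ.V v p}, f p.1 := by
  exact ENNReal.tsum_comp_le_tsum_of_injective
    (f := fun p : {p // S.κ.Fr p} => (⟨p.1, Or.inl p.2⟩ : {p // S.κ.Fr p ∨ ∃ v, S.κ.V v p}))
    (fun p q h => Subtype.ext (congrArg (fun x => x.1) h)) fun p => f p.1

private lemma el_two (hS : S.Ok) : ∑' p : {p // S.κ.Fr p}, S.κ.wt p.1 * 2 ^ S.ln p.1 ≠ ⊤ := by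
  refine ne_top_of_le_ne_top hS.fin ((el_sub fun p => S.κ.wt p * 2 ^ S.ln p).trans ?_)
  refine ENNReal.tsum_le_tsum fun p => ?_
  refine le_mul_of_one_le_right' ?_
  exact one_le_pow₀ (by norm_num)

theorem ell_fin (hS : S.Ok) : ∑' p : {p // S.κ.Fr p}, S.κ.wt p.1 * S.ln p.1 ≠ ⊤ := by
  refine ne_top_of_le_ne_top (el_two hS) (ENNReal.tsum_le_tsum fun p => ?_)
  refine mul_le_mul_right ?_ _
  exact_mod_cast (Nat.lt_two_pow_self (n := S.ln p.1)).le

theorem ell_ge (hS : S.Ok) : 2 ≤ S.ell := by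
  have h1 : (2 : ℝ≥0∞) ≤ ∑' p : {p // S.κ.Fr p}, S.κ.wt p.1 * S.ln p.1 := by
    calc (2 : ℝ≥0∞) = (∑' p : {p // S.κ.Fr p}, S.κ.wt p.1) * 2 := by rw [hS.ok.one, one_mul]
      _ = ∑' p : {p // S.κ.Fr p}, S.κ.wt p.1 * 2 := ENNReal.tsum_mul_right.symm
      _ ≤ _ := ENNReal.tsum_le_tsum fun p =>
        mul_le_mul_right (by exact_mod_cast hS.two_le p.1) _
  have h2 := ENNReal.toReal_mono (ell_fin hS) h1
  exact h2

/-- the product of the tilts -/
private lemma el_tp (t : ℝ) (κ : Ker P) (ln : P → ℕ) (s : List P) : ∀ (i : ℕ) (v : ℤ × ℤ),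
    tp κ (fun _ _ p => ENNReal.ofReal (Real.exp (t * ln p))) i v s =
      ENNReal.ofReal (Real.exp (t * ((s.map ln).sum : ℕ))) := by
  induction s with
  | nil => intro i v; simp [tp]
  | cons p s ih =>
    intro i v
    rw [tp, ih, ← ENNReal.ofReal_mul (Real.exp_pos _).le, ← Real.exp_add]
    congr 2
    rw [List.map_cons, List.sum_cons]
    push_cast
    ring

private lemma el_sum_ge (hS : S.Ok) (s : List P) : 2 * s.length ≤ (s.map S.ln).sum := by
  induction s with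
  | nil => simp
  | cons p s ih =>
    rw [List.map_cons, List.sum_cons, List.length_cons]
    have := hS.two_le p
    omega

/-- the bound for one sign: `t = θ` or `t = -θ` -/
private lemma el_main (hS : S.Ok) {t B L : ℝ} {a b : P → ℝ≥0∞}
    (hab0 : ∀ p, ENNReal.ofReal (Real.exp (t * S.ln p)) + b p = 1 + a p)
    (hab : ∑' p : {p // S.κ.Fr p ∨ ∃ v, S.κ.V v p}, S.κ.wt p.1 * (a p.1 + b p.1) * 4 ^ S.κ.l p.1 ≤
      ENNReal.ofReal (S.κ.z / 4))
    (hc : ∑' h, S.hw h * ENNReal.ofReal (Real.exp (t * S.hl h)) ≤ ENNReal.ofReal B)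
    (hL : ∑' p : {p // S.κ.Fr p}, S.κ.wt p.1 * ENNReal.ofReal (Real.exp (t * S.ln p.1)) ≤
      ENNReal.ofReal (Real.exp L)) (n m : ℕ) :
    ∑' x : {x : S.Ch // x.1.2.1.length = m ∧ S.len x = n}, S.W x.1 ≤
      ENNReal.ofReal (2 * B ^ 2 * Real.exp (m * L - t * n)) ∨ B < 0 := by
  rcases lt_or_ge B 0 with hB | hB
  · exact Or.inr hB
  left
  have key := chain_tilt hS (τ := fun _ _ p => ENNReal.ofReal (Real.exp (t * S.ln p)))
    (Λ := fun _ => ENNReal.ofReal (Real.exp L))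
    (c := fun h => ENNReal.ofReal (Real.exp (t * S.hl h)))
    (fun i v hv => (tilt hS.ok hab0 hab hv).trans (mul_le_mul_left hL _)) m
  have h1 : ∑' x : {x : S.Ch // x.1.2.1.length = m ∧ S.len x = n}, S.W x.1 *
      ENNReal.ofReal (Real.exp (t * n)) ≤ ∑' x : {x : S.Ch // x.1.2.1.length = m}, S.W x.1 *
      (ENNReal.ofReal (Real.exp (t * S.hl x.1.1.1)) *
        tp S.κ (fun _ _ p => ENNReal.ofReal (Real.exp (t * S.ln p))) 0 (S.pos x.1.1.1) x.1.1.2.1 *
        ENNReal.ofReal (Real.exp (t * S.hl x.1.1.2.2))) := by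
    refine le_trans (le_of_eq ?_) (ENNReal.tsum_comp_le_tsum_of_injective
      (f := fun x : {x : S.Ch // x.1.2.1.length = m ∧ S.len x = n} =>
        (⟨x.1, x.2.1⟩ : {x : S.Ch // x.1.2.1.length = m}))
      (fun p q h => Subtype.ext (congrArg (fun x => x.1) h)) fun x => S.W x.1 *
      (ENNReal.ofReal (Real.exp (t * S.hl x.1.1.1)) *
        tp S.κ (fun _ _ p => ENNReal.ofReal (Real.exp (t * S.ln p))) 0 (S.pos x.1.1.1) x.1.1.2.1 *
        ENNReal.ofReal (Real.exp (t * S.hl x.1.1.2.2))))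
    refine tsum_congr fun x => ?_
    congr 1
    rw [el_tp, ← ENNReal.ofReal_mul (Real.exp_pos _).le, ← Real.exp_add,
      ← ENNReal.ofReal_mul (Real.exp_pos _).le, ← Real.exp_add]
    congr 2
    have h2 : S.hl x.1.1.1 + (x.1.1.2.1.map S.ln).sum + S.hl x.1.1.2.2 = n := x.2.2
    have h3 : (n : ℝ) = (S.hl x.1.1.1 : ℝ) + ((x.1.1.2.1.map S.ln).sum : ℕ) + S.hl x.1.1.2.2 := by
      exact_mod_cast h2.symm
    linear_combination t * h3
  have h2 : ∑' x : {x : S.Ch // x.1.2.1.length = m ∧ S.len x = n}, S.W x.1 *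
      ENNReal.ofReal (Real.exp (t * n)) ≤
      ENNReal.ofReal (2 * B ^ 2 * Real.exp (m * L)) := by
    refine (h1.trans key).trans ?_
    rw [Finset.prod_const, Finset.card_range, ← ENNReal.ofReal_pow (Real.exp_pos _).le,
      ← Real.exp_nat_mul, ENNReal.ofReal_mul (by positivity), ENNReal.ofReal_mul (by norm_num),
      ENNReal.ofReal_pow hB]
    gcongr
    · simp
  rw [ENNReal.tsum_mul_right] at h2
  have h3 : ∑' x : {x : S.Ch // x.1.2.1.length = m ∧ S.len x = n}, S.W x.1 =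
      (∑' x : {x : S.Ch // x.1.2.1.length = m ∧ S.len x = n}, S.W x.1) *
        ENNReal.ofReal (Real.exp (t * n)) * ENNReal.ofReal (Real.exp (-(t * n))) := by
    rw [mul_assoc, ← ENNReal.ofReal_mul (Real.exp_pos _).le, ← Real.exp_add, add_neg_cancel,
      Real.exp_zero, ENNReal.ofReal_one, mul_one]
  rw [h3]
  refine (mul_le_mul_left h2 _).trans (le_of_eq ?_)
  rw [← ENNReal.ofReal_mul (by positivity), mul_assoc, ← Real.exp_add, sub_eq_add_neg]

/-- **The length.** -/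
theorem exp_len (hS : S.Ok) {ε : ℝ} (hε : 0 < ε) : ∃ C c : ℝ, 0 < c ∧ ∀ n m : ℕ,
    ∑' x : {x : S.Ch // x.1.2.1.length = m ∧ S.len x = n ∧ ε * n ≤ |(n : ℝ) - m * S.ell|},
      S.W x.1 ≤ ENNReal.ofReal (C * Real.exp (-c * n)) := by
  set Fi : ℝ := (∑' p : {p // S.κ.Fr p ∨ ∃ v, S.κ.V v p},
    S.κ.wt p.1 * 2 ^ S.ln p.1 * 4 ^ S.κ.l p.1).toReal with hFi
  set F2 : ℝ := (∑' p : {p // S.κ.Fr p}, S.κ.wt p.1 * 2 ^ S.ln p.1).toReal with hF2
  set C0 : ℝ := (∑' h, S.hw h * 2 ^ S.hl h).toReal with hC0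
  have hFi0 : 0 ≤ Fi := ENNReal.toReal_nonneg
  have hF20 : 0 ≤ F2 := ENNReal.toReal_nonneg
  have hC00 : 0 ≤ C0 := ENNReal.toReal_nonneg
  have hell := ell_ge hS
  have hz : 0 < S.κ.z := hS.ok.z_pos
  -- the choice of `θ`
  obtain ⟨θ, hθ0, hθ1, hθ2, hθ3⟩ : ∃ θ : ℝ, 0 < θ ∧ θ ≤ 1 / 2 ∧ 100 * θ * Fi ≤ S.κ.z / 4 ∧
      100 * θ * F2 ≤ ε / 2 := by
    refine ⟨min (1 / 2) (min (S.κ.z / (400 * (Fi + 1))) (ε / (200 * (F2 + 1)))), ?_, ?_, ?_, ?_⟩
    · refine lt_min (by norm_num) (lt_min (by positivity) (by positivity))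
    · exact min_le_left _ _
    · have h1 : min (1 / 2) (min (S.κ.z / (400 * (Fi + 1))) (ε / (200 * (F2 + 1)))) ≤
          S.κ.z / (400 * (Fi + 1)) := (min_le_right _ _).trans (min_le_left _ _)
      rw [le_div_iff₀ (by positivity)] at h1
      have h2 : 0 < min (1 / 2) (min (S.κ.z / (400 * (Fi + 1))) (ε / (200 * (F2 + 1)))) :=
        lt_min (by norm_num) (lt_min (by positivity) (by positivity))
      nlinarith
    · have h1 : min (1 / 2) (min (S.κ.z / (400 * (Fi + 1))) (ε / (200 * (F2 + 1)))) ≤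
          ε / (200 * (F2 + 1)) := (min_le_right _ _).trans (min_le_right _ _)
      rw [le_div_iff₀ (by positivity)] at h1
      have h2 : 0 < min (1 / 2) (min (S.κ.z / (400 * (Fi + 1))) (ε / (200 * (F2 + 1)))) :=
        lt_min (by norm_num) (lt_min (by positivity) (by positivity))
      nlinarith
  have hFi' : ∑' p : {p // S.κ.Fr p ∨ ∃ v, S.κ.V v p},
      S.κ.wt p.1 * 2 ^ S.ln p.1 * 4 ^ S.κ.l p.1 = ENNReal.ofReal Fi :=
    (ENNReal.ofReal_toReal hS.fin).symm
  have hF2' : ∑' p : {p // S.κ.Fr p}, S.κ.wt p.1 * 2 ^ S.ln p.1 = ENNReal.ofReal F2 :=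
    (ENNReal.ofReal_toReal (el_two hS)).symm
  have hC0' : ∑' h, S.hw h * 2 ^ S.hl h = ENNReal.ofReal C0 :=
    (ENNReal.ofReal_toReal hS.caps).symm
  have hell' : ∑' p : {p // S.κ.Fr p}, S.κ.wt p.1 * S.ln p.1 = ENNReal.ofReal S.ell :=
    (ENNReal.ofReal_toReal (ell_fin hS)).symm
  have hpow : ∀ x : ℕ, ENNReal.ofReal ((2 : ℝ) ^ x) = 2 ^ x := fun x => by
    rw [ENNReal.ofReal_pow (by norm_num)]
    norm_num
  -- a bound of the smallness condition
  have hsm : ∀ a : P → ℝ≥0∞, (∀ p, a p ≤ ENNReal.ofReal (100 * θ * 2 ^ S.ln p)) →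
      ∑' p : {p // S.κ.Fr p ∨ ∃ v, S.κ.V v p}, S.κ.wt p.1 * a p.1 * 4 ^ S.κ.l p.1 ≤
        ENNReal.ofReal (S.κ.z / 4) := by
    intro a ha
    calc ∑' p : {p // S.κ.Fr p ∨ ∃ v, S.κ.V v p}, S.κ.wt p.1 * a p.1 * 4 ^ S.κ.l p.1
        ≤ ∑' p : {p // S.κ.Fr p ∨ ∃ v, S.κ.V v p}, ENNReal.ofReal (100 * θ) *
          (S.κ.wt p.1 * 2 ^ S.ln p.1 * 4 ^ S.κ.l p.1) := by
          refine ENNReal.tsum_le_tsum fun p => ?_
          calc S.κ.wt p.1 * a p.1 * 4 ^ S.κ.l p.1
              ≤ S.κ.wt p.1 * ENNReal.ofReal (100 * θ * 2 ^ S.ln p.1) * 4 ^ S.κ.l p.1 := by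
                gcongr
                exact ha p.1
            _ = _ := by
              rw [ENNReal.ofReal_mul (by positivity), hpow]
              ring
      _ = ENNReal.ofReal (100 * θ * Fi) := by
          rw [ENNReal.tsum_mul_left, hFi', ← ENNReal.ofReal_mul (by positivity)]
      _ ≤ ENNReal.ofReal (S.κ.z / 4) := ENNReal.ofReal_le_ofReal hθ2
  -- the caps
  have hcap : ∀ t : ℝ, t ≤ 1 / 2 →
      ∑' h, S.hw h * ENNReal.ofReal (Real.exp (t * S.hl h)) ≤ ENNReal.ofReal C0 := by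
    intro t ht
    rw [← hC0']
    refine ENNReal.tsum_le_tsum fun h => mul_le_mul_right ?_ _
    rw [← hpow]
    refine ENNReal.ofReal_le_ofReal ?_
    have h1 : Real.exp (t * S.hl h) ≤ Real.exp ((S.hl h : ℕ) / 2) :=
      Real.exp_le_exp.2 (by nlinarith [Nat.cast_nonneg (α := ℝ) (S.hl h)])
    refine (h1.trans (el_half' _)).trans ?_
    exact pow_le_pow_left₀ (by norm_num) (by norm_num) _
  -- plus
  have hplus : ∀ n m : ℕ, ∑' x : {x : S.Ch // x.1.2.1.length = m ∧ S.len x = n}, S.W x.1 ≤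
      ENNReal.ofReal (2 * C0 ^ 2 *
        Real.exp (m * (θ * S.ell + 100 * θ ^ 2 * F2) - θ * n)) := by
    intro n m
    refine (el_main hS (t := θ) (B := C0) (L := θ * S.ell + 100 * θ ^ 2 * F2)
      (a := fun p => ENNReal.ofReal (Real.exp (θ * S.ln p) - 1)) (b := fun _ => 0)
      ?_ ?_ (hcap θ hθ1) ?_ n m).resolve_right (not_lt.2 hC00)
    · intro p
      have h1 : (1 : ℝ) ≤ Real.exp (θ * S.ln p) := Real.one_le_exp (by positivity)
      rw [add_zero, ← ENNReal.ofReal_one, ← ENNReal.ofReal_add (by norm_num) (by linarith)]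
      congr 1
      ring
    · simp only [add_zero]
      exact hsm _ fun p => ENNReal.ofReal_le_ofReal (el_tilt hθ0.le hθ1 _)
    · calc ∑' p : {p // S.κ.Fr p}, S.κ.wt p.1 * ENNReal.ofReal (Real.exp (θ * S.ln p.1))
          ≤ ∑' p : {p // S.κ.Fr p}, (S.κ.wt p.1 + ENNReal.ofReal θ * (S.κ.wt p.1 * S.ln p.1) +
            ENNReal.ofReal (100 * θ ^ 2) * (S.κ.wt p.1 * 2 ^ S.ln p.1)) := by
            refine ENNReal.tsum_le_tsum fun p => ?_
            calc S.κ.wt p.1 * ENNReal.ofReal (Real.exp (θ * S.ln p.1))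
                ≤ S.κ.wt p.1 * ENNReal.ofReal (1 + θ * S.ln p.1 + 100 * θ ^ 2 * 2 ^ S.ln p.1) :=
                  mul_le_mul_right (ENNReal.ofReal_le_ofReal (el_sec hθ0.le hθ1 _)) _
              _ = _ := by
                rw [ENNReal.ofReal_add (by positivity) (by positivity),
                  ENNReal.ofReal_add (by norm_num) (by positivity),
                  ENNReal.ofReal_mul (by positivity), ENNReal.ofReal_mul (by positivity), hpow,
                  ENNReal.ofReal_natCast, ENNReal.ofReal_one]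
                ring
        _ = ENNReal.ofReal (1 + θ * S.ell + 100 * θ ^ 2 * F2) := by
            rw [ENNReal.tsum_add, ENNReal.tsum_add, ENNReal.tsum_mul_left, ENNReal.tsum_mul_left,
              hS.ok.one, hell', hF2', ← ENNReal.ofReal_mul (by positivity),
              ← ENNReal.ofReal_mul (by positivity), ← ENNReal.ofReal_one,
              ← ENNReal.ofReal_add (by norm_num) (by positivity),
              ← ENNReal.ofReal_add (by positivity) (by positivity)]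
        _ ≤ _ := ENNReal.ofReal_le_ofReal (by
            have := Real.add_one_le_exp (θ * S.ell + 100 * θ ^ 2 * F2)
            linarith)
  -- minus
  have hminus : ∀ n m : ℕ, ∑' x : {x : S.Ch // x.1.2.1.length = m ∧ S.len x = n}, S.W x.1 ≤
      ENNReal.ofReal (2 * C0 ^ 2 *
        Real.exp (m * (-(θ * S.ell) + 100 * θ ^ 2 * F2) - (-θ) * n)) := by
    intro n m
    refine (el_main hS (t := -θ) (B := C0) (L := -(θ * S.ell) + 100 * θ ^ 2 * F2)
      (a := fun _ => 0) (b := fun p => ENNReal.ofReal (1 - Real.exp (-(θ * S.ln p))))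
      ?_ ?_ (hcap (-θ) (by linarith)) ?_ n m).resolve_right (not_lt.2 hC00)
    · intro p
      have h1 : Real.exp (-(θ * S.ln p)) ≤ 1 := Real.exp_le_one_iff.2 (by
        have : 0 ≤ θ * (S.ln p : ℝ) := by positivity
        linarith)
      rw [add_zero, neg_mul, ← ENNReal.ofReal_one,
        ← ENNReal.ofReal_add (Real.exp_pos _).le (by linarith)]
      congr 1
      ring
    · simp only [zero_add]
      exact hsm _ fun p => ENNReal.ofReal_le_ofReal (el_tilt' hθ0.le _)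
    · have h1 : ∑' p : {p // S.κ.Fr p}, S.κ.wt p.1 * ENNReal.ofReal (Real.exp (-θ * S.ln p.1)) +
          ENNReal.ofReal (θ * S.ell) ≤ ENNReal.ofReal (1 + 100 * θ ^ 2 * F2) := by
        calc ∑' p : {p // S.κ.Fr p}, S.κ.wt p.1 * ENNReal.ofReal (Real.exp (-θ * S.ln p.1)) +
            ENNReal.ofReal (θ * S.ell)
            = ∑' p : {p // S.κ.Fr p}, (S.κ.wt p.1 * ENNReal.ofReal (Real.exp (-θ * S.ln p.1)) +
              ENNReal.ofReal θ * (S.κ.wt p.1 * S.ln p.1)) := by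
              rw [ENNReal.tsum_add, ENNReal.tsum_mul_left, hell',
                ← ENNReal.ofReal_mul (by positivity)]
          _ ≤ ∑' p : {p // S.κ.Fr p}, (S.κ.wt p.1 +
              ENNReal.ofReal (100 * θ ^ 2) * (S.κ.wt p.1 * 2 ^ S.ln p.1)) := by
              refine ENNReal.tsum_le_tsum fun p => ?_
              calc S.κ.wt p.1 * ENNReal.ofReal (Real.exp (-θ * S.ln p.1)) +
                  ENNReal.ofReal θ * (S.κ.wt p.1 * S.ln p.1)
                  = S.κ.wt p.1 * ENNReal.ofReal (Real.exp (-(θ * S.ln p.1)) + θ * S.ln p.1) := by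
                    rw [ENNReal.ofReal_add (Real.exp_pos _).le (by positivity),
                      ENNReal.ofReal_mul (by positivity), ENNReal.ofReal_natCast, neg_mul]
                    ring
                _ ≤ S.κ.wt p.1 * ENNReal.ofReal (1 + 100 * θ ^ 2 * 2 ^ S.ln p.1) :=
                  mul_le_mul_right (ENNReal.ofReal_le_ofReal (el_sec' hθ0.le _)) _
                _ = _ := by
                  rw [ENNReal.ofReal_add (by norm_num) (by positivity),
                    ENNReal.ofReal_mul (by positivity), hpow, ENNReal.ofReal_one]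
                  ring
          _ = ENNReal.ofReal (1 + 100 * θ ^ 2 * F2) := by
              rw [ENNReal.tsum_add, ENNReal.tsum_mul_left, hS.ok.one, hF2',
                ← ENNReal.ofReal_mul (by positivity), ← ENNReal.ofReal_one,
                ← ENNReal.ofReal_add (by norm_num) (by positivity)]
      have h2 : ENNReal.ofReal (1 + 100 * θ ^ 2 * F2) ≤
          ENNReal.ofReal (Real.exp (-(θ * S.ell) + 100 * θ ^ 2 * F2)) +
            ENNReal.ofReal (θ * S.ell) := by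
        rw [← ENNReal.ofReal_add (Real.exp_pos _).le (by positivity)]
        refine ENNReal.ofReal_le_ofReal ?_
        have := Real.add_one_le_exp (-(θ * S.ell) + 100 * θ ^ 2 * F2)
        linarith
      exact (ENNReal.add_le_add_iff_right ENNReal.ofReal_ne_top).1 (h1.trans h2)
  refine ⟨2 * C0 ^ 2, θ * ε / 2, by positivity, fun n m => ?_⟩
  have hn0 : (0 : ℝ) ≤ n := Nat.cast_nonneg n
  have hm0 : (0 : ℝ) ≤ m := Nat.cast_nonneg m
  by_cases hne : ε * n ≤ |(n : ℝ) - m * S.ell| ∧ 2 * m ≤ n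
  · obtain ⟨h1, h2⟩ := hne
    have hmn : (m : ℝ) ≤ n := by exact_mod_cast (by omega : m ≤ n)
    have hsub : ∑' x : {x : S.Ch // x.1.2.1.length = m ∧ S.len x = n ∧
        ε * n ≤ |(n : ℝ) - m * S.ell|}, S.W x.1 ≤
        ∑' x : {x : S.Ch // x.1.2.1.length = m ∧ S.len x = n}, S.W x.1 :=
      ENNReal.tsum_comp_le_tsum_of_injective
        (f := fun x : {x : S.Ch // x.1.2.1.length = m ∧ S.len x = n ∧
          ε * n ≤ |(n : ℝ) - m * S.ell|} =>
          (⟨x.1, x.2.1, x.2.2.1⟩ : {x : S.Ch // x.1.2.1.length = m ∧ S.len x = n}))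
        (fun p q h => Subtype.ext (congrArg (fun x => x.1) h)) fun x => S.W x.1
    have h3 : 100 * θ ^ 2 * F2 * m ≤ θ * (ε / 2) * n := by
      calc 100 * θ ^ 2 * F2 * m = θ * (100 * θ * F2) * m := by ring
        _ ≤ θ * (ε / 2) * n := mul_le_mul (mul_le_mul_of_nonneg_left hθ3 hθ0.le) hmn hm0
          (by positivity)
    rcases le_total ((m : ℝ) * S.ell) n with h4 | h4
    · rw [abs_of_nonneg (by linarith)] at h1
      refine (hsub.trans (hplus n m)).trans (ENNReal.ofReal_le_ofReal ?_)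
      refine mul_le_mul_of_nonneg_left (Real.exp_le_exp.2 ?_) (by positivity)
      have h5 := mul_le_mul_of_nonneg_left h1 hθ0.le
      nlinarith
    · rw [abs_of_nonpos (by linarith)] at h1
      refine (hsub.trans (hminus n m)).trans (ENNReal.ofReal_le_ofReal ?_)
      refine mul_le_mul_of_nonneg_left (Real.exp_le_exp.2 ?_) (by positivity)
      have h5 := mul_le_mul_of_nonneg_left h1 hθ0.le
      nlinarith
  · have hemp : IsEmpty {x : S.Ch // x.1.2.1.length = m ∧ S.len x = n ∧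
        ε * n ≤ |(n : ℝ) - m * S.ell|} := by
      refine ⟨fun x => hne ⟨x.2.2.2, ?_⟩⟩
      have h1 := el_sum_ge hS x.1.1.2.1
      have h2 : S.hl x.1.1.1 + (x.1.1.2.1.map S.ln).sum + S.hl x.1.1.2.2 = n := x.2.2.1
      rw [x.2.1] at h1
      omega
    rw [tsum_empty]
    exact zero_le

end Pool.Agent.KAmp
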