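import Pool.Agent.KAmp.Tilt
import Pool.Agent.KAmp.Chain

/-! KP5: exponential estimate for the number of elements near the origin, and the total weight of
the chains with `m` elements. -/

set_option autoImplicit false

open scoped ENNReal

namespace Pool.Agent.KAmp

open Pool.Agent.KLog (Ker nrm hh)

variable {P H : Type} {S : Sys P H}

private theorem kp5_caps (hS : S.Ok) : ∑' h, S.hw h ≠ ⊤ := by
  refine ne_top_of_le_ne_top hS.caps (ENNReal.tsum_le_tsum fun h => ?_)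
  calc S.hw h = S.hw h * 1 := (mul_one _).symm
    _ ≤ S.hw h * 2 ^ S.hl h := by
      gcongr
      exact one_le_pow₀ (by norm_num)

private theorem kp5_const (hS : S.Ok) : ∃ C : ℝ, 0 ≤ C ∧
    2 * (∑' h, S.hw h * 1) ^ 2 ≤ ENNReal.ofReal C := by
  have h : 2 * (∑' h, S.hw h * 1) ^ 2 ≠ (⊤ : ℝ≥0∞) := by
    simp only [mul_one]
    exact ENNReal.mul_ne_top (by norm_num) (ENNReal.pow_ne_top (kp5_caps hS))
  refine ⟨(2 * (∑' h, S.hw h * 1) ^ 2).toReal, ENNReal.toReal_nonneg, ?_⟩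
  rw [ENNReal.ofReal_toReal h]

private theorem kp5_tp_one {κ : Ker P} (i : ℕ) (v : ℤ × ℤ) (s : List P) :
    tp κ (fun _ _ _ => 1) i v s = 1 := by
  induction s generalizing i v with
  | nil => rfl
  | cons p s ih => simp [tp, ih]

private theorem kp5_tp {κ : Ker P} (R : ℕ) {θ : ℝ} (i : ℕ) (v : ℤ × ℤ) (s : List P) :
    tp κ (fun _ w _ => if nrm w ≤ R then ENNReal.ofReal (Real.exp θ) else 1) i v s =
      ENNReal.ofReal (Real.exp (θ * (occ κ (fun w _ => nrm w ≤ R) v s : ℝ))) := by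
  induction s generalizing i v with
  | nil => simp [tp, occ]
  | cons p s ih =>
    simp only [tp, occ, ih]
    by_cases h : nrm v ≤ R
    · simp only [h, if_true]
      rw [← ENNReal.ofReal_mul (Real.exp_pos _).le, ← Real.exp_add]
      congr 2
      push_cast
      ring
    · simp only [h, if_false, one_mul, zero_add]

/-- The total weight of the chains with `m` elements. -/
theorem mass_le (hS : S.Ok) : ∃ C : ℝ, ∀ m : ℕ,
    ∑' x : {x : S.Ch // x.1.2.1.length = m}, S.W x.1 ≤ ENNReal.ofReal C := by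
  obtain ⟨C, -, hC⟩ := kp5_const hS
  refine ⟨C, fun m => ?_⟩
  have hτ : ∀ (i : ℕ) (v : ℤ × ℤ), v ≠ 0 → ∑' p : {p // S.κ.V v p},
      S.κ.wt p.1 * (fun (_ : ℕ) (_ : ℤ × ℤ) (_ : P) => (1 : ℝ≥0∞)) i v p.1 *
        hh (v + S.κ.u p.1) ≤ (fun _ : ℕ => (1 : ℝ≥0∞)) i * hh v := by
    intro i v hv
    simp only [mul_one, one_mul]
    exact le_trans le_self_add (Pool.Agent.KLog.super hS.ok hv)
  have h := chain_tilt hS (τ := fun _ _ _ => 1) (Λ := fun _ => 1) (c := fun _ => 1) hτ m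
  simp only [kp5_tp_one, mul_one, Finset.prod_const_one] at h
  simp only [mul_one] at hC
  exact h.trans hC

/-- **Elements near the origin.** -/
theorem exp_near (hS : S.Ok) (R : ℕ) {ε : ℝ} (hε : 0 < ε) : ∃ C c : ℝ, 0 < c ∧ ∀ n m : ℕ,
    ∑' x : {x : S.Ch // x.1.2.1.length = m ∧ ε * n ≤ (S.oc (fun v _ => nrm v ≤ R) x : ℝ)},
      S.W x.1 ≤ ENNReal.ofReal (C * Real.exp (-c * n)) := by
  obtain ⟨C, hC0, hC⟩ := kp5_const hS
  obtain ⟨θ, hθ, hθ'⟩ := tilt_near hS.ok R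
  refine ⟨C, θ * ε, by positivity, fun n m => ?_⟩
  have hτ : ∀ (i : ℕ) (v : ℤ × ℤ), v ≠ 0 → ∑' p : {p // S.κ.V v p},
      S.κ.wt p.1 * (fun (_ : ℕ) (w : ℤ × ℤ) (_ : P) =>
        if nrm w ≤ R then ENNReal.ofReal (Real.exp θ) else 1) i v p.1 *
        hh (v + S.κ.u p.1) ≤ (fun _ : ℕ => (1 : ℝ≥0∞)) i * hh v := by
    intro i v hv
    simp only [one_mul]
    exact hθ' v hv
  have h := chain_tilt hS (τ := fun _ w _ => if nrm w ≤ R then ENNReal.ofReal (Real.exp θ) else 1)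
    (Λ := fun _ => 1) (c := fun _ => 1) hτ m
  simp only [kp5_tp, one_mul, mul_one, Finset.prod_const_one] at h
  simp only [mul_one] at hC
  have h2 : ∑' x : {x : S.Ch // x.1.2.1.length = m ∧
      ε * n ≤ (S.oc (fun v _ => nrm v ≤ R) x : ℝ)}, S.W x.1 ≤
      ∑' x : {x : S.Ch // x.1.2.1.length = m ∧
      ε * n ≤ (S.oc (fun v _ => nrm v ≤ R) x : ℝ)},
        ENNReal.ofReal (Real.exp (-(θ * ε) * n)) * (S.W x.1 *
          ENNReal.ofReal (Real.exp (θ * (occ S.κ (fun w _ => nrm w ≤ R) (S.pos x.1.1.1)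
            x.1.1.2.1 : ℝ)))) := by
    refine ENNReal.tsum_le_tsum fun x => ?_
    have hx : ε * n ≤ (occ S.κ (fun w _ => nrm w ≤ R) (S.pos x.1.1.1) x.1.1.2.1 : ℝ) := x.2.2
    rw [mul_left_comm, ← ENNReal.ofReal_mul (Real.exp_pos _).le, ← Real.exp_add]
    calc S.W x.1 = S.W x.1 * 1 := (mul_one _).symm
      _ ≤ _ := by
        gcongr
        rw [← ENNReal.ofReal_one]
        apply ENNReal.ofReal_le_ofReal
        rw [← Real.exp_zero]
        apply Real.exp_le_exp.mpr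
        nlinarith [mul_le_mul_of_nonneg_left hx hθ.le]
  refine h2.trans ?_
  rw [ENNReal.tsum_mul_left]
  have h3 : ∑' x : {x : S.Ch // x.1.2.1.length = m ∧
      ε * n ≤ (S.oc (fun v _ => nrm v ≤ R) x : ℝ)}, (S.W x.1 *
          ENNReal.ofReal (Real.exp (θ * (occ S.κ (fun w _ => nrm w ≤ R) (S.pos x.1.1.1)
            x.1.1.2.1 : ℝ)))) ≤
      ∑' x : {x : S.Ch // x.1.2.1.length = m}, (S.W x.1 *
          ENNReal.ofReal (Real.exp (θ * (occ S.κ (fun w _ => nrm w ≤ R) (S.pos x.1.1.1)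
            x.1.1.2.1 : ℝ)))) := by
    let j : {x : S.Ch // x.1.2.1.length = m ∧
      ε * n ≤ (S.oc (fun v _ => nrm v ≤ R) x : ℝ)} → {x : S.Ch // x.1.2.1.length = m} :=
      fun x => ⟨x.1, x.2.1⟩
    have hj : Function.Injective j := fun x y hxy => by
      apply Subtype.ext
      exact congrArg (fun z : {x : S.Ch // x.1.2.1.length = m} => z.1) hxy
    exact ENNReal.tsum_comp_le_tsum_of_injective hj (fun x : {x : S.Ch // x.1.2.1.length = m} =>
      (S.W x.1 * ENNReal.ofReal (Real.exp (θ * (occ S.κ (fun w _ => nrm w ≤ R) (S.pos x.1.1.1)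
            x.1.1.2.1 : ℝ)))))
  calc ENNReal.ofReal (Real.exp (-(θ * ε) * n)) * _ ≤
      ENNReal.ofReal (Real.exp (-(θ * ε) * n)) * ENNReal.ofReal C := by
        gcongr
        exact h3.trans (h.trans hC)
    _ = ENNReal.ofReal (C * Real.exp (-(θ * ε) * n)) := by
        rw [← ENNReal.ofReal_mul (Real.exp_pos _).le, mul_comm]

end Pool.Agent.KAmp
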