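import Pool.Agent.KAmp.Tilt
import Pool.Agent.KAmp.Chain

/-! KP3: exponential estimate for the number of occurrences of an element in the first part of a
chain. -/

set_option autoImplicit false

open scoped ENNReal

namespace Pool.Agent.KAmp

open Pool.Agent.KLog (Ker nrm hh)

variable {P H : Type} {S : Sys P H}

theorem wF_nonneg (p : P) : 0 ≤ S.wF p := by
  unfold Sys.wF
  split_ifs
  · exact ENNReal.toReal_nonneg
  · exact le_rfl

private theorem wt_le (hS : S.Ok) {p : P} (h : S.κ.Fr p) : S.κ.wt p ≤ 1 := by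
  rw [← hS.ok.one]
  exact ENNReal.le_tsum (f := fun p : {p // S.κ.Fr p} => S.κ.wt p.1) ⟨p, h⟩

theorem wF_le (hS : S.Ok) (p : P) : S.wF p ≤ 1 := by
  unfold Sys.wF
  split_ifs with h
  · have h1 := ENNReal.toReal_mono ENNReal.one_ne_top (wt_le hS h)
    simpa using h1
  · exact zero_le_one

open Classical in
/-- The tilts. -/
private noncomputable def ta (p0 : P) (θ : ℝ) (p : P) : ℝ≥0∞ :=
  if p = p0 then ENNReal.ofReal (Real.exp θ) else 1

open Classical in
private noncomputable def tj (p0 : P) (θ : ℝ) (j : ℕ) (i : ℕ) (_ : ℤ × ℤ) (p : P) : ℝ≥0∞ :=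
  if i < j then ta p0 θ p else 1

private theorem ta_zero (p0 p : P) : ta p0 0 p = 1 := by
  unfold ta
  split_ifs <;> simp

private theorem tp_eq (κ : Ker P) (p0 : P) (θ : ℝ) (j : ℕ) (s : List P) :
    ∀ (i : ℕ) (v : ℤ × ℤ), tp κ (tj p0 θ j) i v s =
      ENNReal.ofReal (Real.exp (θ * occ κ (fun _ p => p = p0) v (s.take (j - i)))) := by
  induction s with
  | nil => intro i v; simp [tp, occ]
  | cons p s ih =>
    intro i v
    rw [tp, ih]
    unfold tj ta
    by_cases hi : i < j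
    · obtain ⟨k, hk⟩ : ∃ k, j - i = k + 1 := ⟨j - i - 1, by omega⟩
      have hk' : j - (i + 1) = k := by omega
      rw [hk, List.take_succ_cons, occ, hk']
      by_cases hp : p = p0
      · rw [if_pos hi, if_pos hp, if_pos hp, ← ENNReal.ofReal_mul (Real.exp_pos _).le,
          ← Real.exp_add]
        congr 2
        push_cast
        ring
      · rw [if_pos hi, if_neg hp, if_neg hp, one_mul, zero_add]
    · have h1 : j - i = 0 := by omega
      have h2 : j - (i + 1) = 0 := by omega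
      rw [if_neg hi, h1, h2]
      simp [occ]

private theorem sum_ta (hS : S.Ok) (p0 : P) (θ : ℝ) :
    ∑' p : {p // S.κ.Fr p}, S.κ.wt p.1 * ta p0 θ p.1 ≤
      ENNReal.ofReal (Real.exp ((Real.exp θ - 1) * S.wF p0)) := by
  classical
  by_cases hF : S.κ.Fr p0
  · obtain ⟨b, hb⟩ : ∃ b : {p // S.κ.Fr p}, b = ⟨p0, hF⟩ := ⟨_, rfl⟩
    have hsplit : ∀ f : {p // S.κ.Fr p} → ℝ≥0∞,
        ∑' x, f x = f b + ∑' x, (if x = b then 0 else f x) := by
      intro f
      convert ENNReal.tsum_eq_add_tsum_ite b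
    have h1 := hS.ok.one
    rw [hsplit fun p => S.κ.wt p.1] at h1
    rw [hsplit fun p => S.κ.wt p.1 * ta p0 θ p.1]
    have h2 : ∀ x : {p // S.κ.Fr p}, (if x = b then 0 else S.κ.wt x.1 * ta p0 θ x.1) =
        if x = b then 0 else S.κ.wt x.1 := by
      intro x
      split_ifs with hx
      · rfl
      · have h3 : x.1 ≠ p0 := by
          intro h3
          exact hx (by rw [hb]; exact Subtype.ext h3)
        rw [ta, if_neg h3, mul_one]
    rw [tsum_congr h2]
    obtain ⟨R, hR⟩ : ∃ R, R = ∑' x : {p // S.κ.Fr p}, if x = b then 0 else S.κ.wt x.1 :=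
      ⟨_, rfl⟩
    rw [← hR] at h1 ⊢
    have hb1 : b.1 = p0 := by rw [hb]
    rw [hb1] at h1 ⊢
    have hw : S.wF p0 = (S.κ.wt p0).toReal := by rw [Sys.wF, if_pos hF]
    have hw0 : S.κ.wt p0 ≠ ⊤ := ne_top_of_le_ne_top ENNReal.one_ne_top (wt_le hS hF)
    have hR0 : R ≠ ⊤ := by
      intro h
      rw [h, add_top] at h1
      exact ENNReal.top_ne_one h1
    have h4 : (S.κ.wt p0).toReal + R.toReal = 1 := by
      rw [← ENNReal.toReal_add hw0 hR0, h1, ENNReal.toReal_one]
    have h5 : ta p0 θ p0 = ENNReal.ofReal (Real.exp θ) := by rw [ta, if_pos rfl]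
    rw [h5, ← ENNReal.ofReal_toReal hw0, ← ENNReal.ofReal_toReal hR0,
      ← ENNReal.ofReal_mul ENNReal.toReal_nonneg,
      ← ENNReal.ofReal_add (mul_nonneg ENNReal.toReal_nonneg (Real.exp_pos _).le)
        ENNReal.toReal_nonneg]
    refine ENNReal.ofReal_le_ofReal ?_
    refine le_trans (le_of_eq ?_) (Real.add_one_le_exp _)
    rw [hw]
    linear_combination h4
  · have h2 : ∀ x : {p // S.κ.Fr p}, S.κ.wt x.1 * ta p0 θ x.1 = S.κ.wt x.1 := by
      intro x
      have h3 : x.1 ≠ p0 := fun h => hF (h ▸ x.2)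
      rw [ta, if_neg h3, mul_one]
    rw [tsum_congr h2, hS.ok.one, Sys.wF, if_neg hF]
    simp

private theorem tilt_occ (hS : S.Ok) (p0 : P) : ∃ t0 : ℝ, 0 < t0 ∧ t0 ≤ 1 ∧
    ∀ θ : ℝ, |θ| ≤ t0 → ∀ v : ℤ × ℤ, v ≠ 0 →
      ∑' p : {p // S.κ.V v p}, S.κ.wt p.1 * ta p0 θ p.1 * hh (v + S.κ.u p.1) ≤
        ENNReal.ofReal (Real.exp ((Real.exp θ - 1) * S.wF p0)) * hh v := by
  classical
  obtain ⟨K, hK⟩ : ∃ K : ℝ, K = (S.κ.wt p0 * 4 ^ S.κ.l p0).toReal := ⟨_, rfl⟩
  have hK0 : 0 ≤ K := by rw [hK]; exact ENNReal.toReal_nonneg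
  have hz := hS.ok.z_pos
  refine ⟨min 1 (S.κ.z / (8 * (K + 1))), lt_min one_pos (by positivity), min_le_left _ _, ?_⟩
  intro θ hθ v hv
  have hθ1 : |θ| ≤ 1 := hθ.trans (min_le_left _ _)
  have hθ2 : |θ| ≤ S.κ.z / (8 * (K + 1)) := hθ.trans (min_le_right _ _)
  have hexp : |Real.exp θ - 1| ≤ 2 * |θ| := Real.abs_exp_sub_one_le hθ1
  have hsmall : K * |Real.exp θ - 1| ≤ S.κ.z / 4 := by
    rw [le_div_iff₀ (by positivity)] at hθ2
    have h1 : K * |Real.exp θ - 1| ≤ K * (2 * |θ|) := mul_le_mul_of_nonneg_left hexp hK0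
    have h2 := abs_nonneg θ
    nlinarith
  have habs : ∀ x : ℝ, ENNReal.ofReal x + ENNReal.ofReal (-x) = ENNReal.ofReal |x| := by
    intro x
    rcases le_total 0 x with hx | hx
    · rw [ENNReal.ofReal_of_nonpos (neg_nonpos.2 hx), add_zero, abs_of_nonneg hx]
    · rw [ENNReal.ofReal_of_nonpos hx, zero_add, abs_of_nonpos hx]
  refine (tilt hS.ok (τ := ta p0 θ)
    (a := fun p => if p = p0 then ENNReal.ofReal (Real.exp θ - 1) else 0)
    (b := fun p => if p = p0 then ENNReal.ofReal (-(Real.exp θ - 1)) else 0) ?_ ?_ hv).trans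
    (mul_le_mul_left (sum_ta hS p0 θ) _)
  · intro p
    unfold ta
    by_cases hp : p = p0
    · simp only [if_pos hp]
      rcases le_total 0 (Real.exp θ - 1) with hx | hx
      · rw [ENNReal.ofReal_of_nonpos (neg_nonpos.2 hx), add_zero, ← ENNReal.ofReal_one,
          ← ENNReal.ofReal_add zero_le_one hx]
        congr 1
        ring
      · rw [ENNReal.ofReal_of_nonpos hx, add_zero,
          ← ENNReal.ofReal_add (Real.exp_pos _).le (neg_nonneg.2 hx), ← ENNReal.ofReal_one]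
        congr 1
        ring
    · simp [hp]
  · by_cases hX : S.κ.Fr p0 ∨ ∃ v, S.κ.V v p0
    · rw [tsum_eq_single (⟨p0, hX⟩ : {p // S.κ.Fr p ∨ ∃ v, S.κ.V v p})]
      · simp only [if_true]
        rw [habs, mul_right_comm]
        have hfin : S.κ.wt p0 * 4 ^ S.κ.l p0 ≠ ⊤ := by
          refine ne_top_of_le_ne_top hS.fin ?_
          refine le_trans ?_ (ENNReal.le_tsum
            (f := fun p : {p // S.κ.Fr p ∨ ∃ v, S.κ.V v p} =>
              S.κ.wt p.1 * 2 ^ S.ln p.1 * 4 ^ S.κ.l p.1) ⟨p0, hX⟩)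
          refine mul_le_mul_left ?_ _
          exact le_mul_of_one_le_right (zero_le) (one_le_pow₀ (by norm_num))
        rw [← ENNReal.ofReal_toReal hfin, ← hK, ← ENNReal.ofReal_mul hK0]
        exact ENNReal.ofReal_le_ofReal hsmall
      · rintro ⟨p, hp⟩ hne
        have h1 : p ≠ p0 := fun h => hne (Subtype.ext h)
        simp [h1]
    · have h1 : ∀ p : {p // S.κ.Fr p ∨ ∃ v, S.κ.V v p}, S.κ.wt p.1 *
          ((if p.1 = p0 then ENNReal.ofReal (Real.exp θ - 1) else 0) +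
            (if p.1 = p0 then ENNReal.ofReal (-(Real.exp θ - 1)) else 0)) * 4 ^ S.κ.l p.1 = 0 := by
        intro p
        have h2 : p.1 ≠ p0 := fun h => hX (h ▸ p.2)
        simp [h2]
      rw [tsum_congr h1, tsum_zero]
      exact zero_le

/-- The exponential moment. -/
private theorem mom (hS : S.Ok) (p0 : P) {t0 : ℝ} (h0 : 0 < t0)
    (htilt : ∀ θ : ℝ, |θ| ≤ t0 → ∀ v : ℤ × ℤ, v ≠ 0 →
      ∑' p : {p // S.κ.V v p}, S.κ.wt p.1 * ta p0 θ p.1 * hh (v + S.κ.u p.1) ≤
        ENNReal.ofReal (Real.exp ((Real.exp θ - 1) * S.wF p0)) * hh v)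
    {θ : ℝ} (hθ : |θ| ≤ t0) {m j : ℕ} (hj : j ≤ m) :
    ∑' x : {x : S.Ch // x.1.2.1.length = m}, S.W x.1 * ENNReal.ofReal (Real.exp (θ *
      occ S.κ (fun _ p => p = p0) (S.pos x.1.1.1) (x.1.1.2.1.take j))) ≤
      2 * (∑' h, S.hw h) ^ 2 *
        ENNReal.ofReal (Real.exp (j * ((Real.exp θ - 1) * S.wF p0))) := by
  classical
  have h1 := chain_tilt hS (τ := tj p0 θ j)
    (Λ := fun i => if i < j then ENNReal.ofReal (Real.exp ((Real.exp θ - 1) * S.wF p0)) else 1)
    (c := fun _ => 1) (by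
      intro i v hv
      unfold tj
      by_cases hi : i < j
      · simp only [if_pos hi]
        exact htilt θ hθ v hv
      · simp only [if_neg hi]
        have h2 := htilt 0 (by rw [abs_zero]; exact h0.le) v hv
        simp only [ta_zero, Real.exp_zero, sub_self, zero_mul, ENNReal.ofReal_one] at h2
        exact h2) m
  have h2 : ∏ i ∈ Finset.range m, (if i < j then
      ENNReal.ofReal (Real.exp ((Real.exp θ - 1) * S.wF p0)) else 1) =
      ENNReal.ofReal (Real.exp (j * ((Real.exp θ - 1) * S.wF p0))) := by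
    rw [Finset.prod_ite, Finset.prod_const_one, mul_one, Finset.prod_const]
    have h3 : (Finset.range m).filter (fun i => i < j) = Finset.range j := by
      ext i
      simp only [Finset.mem_filter, Finset.mem_range]
      omega
    rw [h3, Finset.card_range, ← ENNReal.ofReal_pow (Real.exp_pos _).le, ← Real.exp_nat_mul]
  rw [h2] at h1
  simp only [mul_one, one_mul] at h1
  refine le_trans (le_of_eq ?_) h1
  refine tsum_congr fun x => ?_
  rw [tp_eq, Nat.sub_zero]

/-- **Occurrences.** -/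
theorem exp_occ (hS : S.Ok) (p0 : P) {ε : ℝ} (hε : 0 < ε) : ∃ C c : ℝ, 0 < c ∧
    ∀ n m j : ℕ, j ≤ m → m ≤ n →
      ∑' x : {x : S.Ch // x.1.2.1.length = m ∧ ε * n ≤
        |(occ S.κ (fun _ p => p = p0) (S.pos x.1.1) (x.1.2.1.take j) : ℝ) - j * S.wF p0|},
        S.W x.1 ≤ ENNReal.ofReal (C * Real.exp (-c * n)) := by
  classical
  obtain ⟨t0, h0, h01, htilt⟩ := tilt_occ hS p0
  obtain ⟨t, ht⟩ : ∃ t, t = min t0 (ε / 2) := ⟨_, rfl⟩
  have htpos : 0 < t := by rw [ht]; exact lt_min h0 (by linarith)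
  have ht0 : t ≤ t0 := by rw [ht]; exact min_le_left _ _
  have ht1 : t ≤ 1 := ht0.trans h01
  have htε : t ≤ ε / 2 := by rw [ht]; exact min_le_right _ _
  obtain ⟨w, hw⟩ : ∃ w, w = S.wF p0 := ⟨_, rfl⟩
  have hw0 : 0 ≤ w := by rw [hw]; exact wF_nonneg p0
  have hw1 : w ≤ 1 := by rw [hw]; exact wF_le hS p0
  have hC0 : ∑' h, S.hw h ≠ ⊤ := by
    refine ne_top_of_le_ne_top hS.caps (ENNReal.tsum_le_tsum fun h => ?_)
    exact le_mul_of_one_le_right (zero_le) (one_le_pow₀ (by norm_num))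
  obtain ⟨C0, hC0'⟩ : ∃ C0 : ℝ, C0 = (∑' h, S.hw h).toReal := ⟨_, rfl⟩
  have hC00 : 0 ≤ C0 := by rw [hC0']; exact ENNReal.toReal_nonneg
  have hC1 : ∑' h, S.hw h = ENNReal.ofReal C0 := by rw [hC0', ENNReal.ofReal_toReal hC0]
  refine ⟨4 * C0 ^ 2, t * ε / 2, by positivity, ?_⟩
  intro n m j hj hm
  obtain ⟨oc, hoc⟩ : ∃ oc : S.Ch → ℝ, oc = fun x : S.Ch =>
    (occ S.κ (fun _ p => p = p0) (S.pos x.1.1) (x.1.2.1.take j) : ℝ) := ⟨_, rfl⟩
  have hjn : (j : ℝ) ≤ n := by exact_mod_cast hj.trans hm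
  have hj0 : (0 : ℝ) ≤ j := Nat.cast_nonneg j
  -- the estimate for one sign
  have key : ∀ θ : ℝ, |θ| = t →
      ∑' x : {x : S.Ch // x.1.2.1.length = m}, S.W x.1 *
        (ENNReal.ofReal (Real.exp (θ * oc x.1)) *
          ENNReal.ofReal (Real.exp (-(θ * (j * w) + t * (ε * n))))) ≤
      ENNReal.ofReal (2 * C0 ^ 2 * Real.exp (-(t * ε / 2) * n)) := by
    intro θ hθ
    have h1 := mom hS p0 h0 htilt (θ := θ) (by rw [hθ]; exact ht0) hj
    rw [← hw, hC1] at h1
    have h2 : ∑' x : {x : S.Ch // x.1.2.1.length = m}, S.W x.1 *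
        (ENNReal.ofReal (Real.exp (θ * oc x.1)) *
          ENNReal.ofReal (Real.exp (-(θ * (j * w) + t * (ε * n))))) =
        (∑' x : {x : S.Ch // x.1.2.1.length = m}, S.W x.1 * ENNReal.ofReal (Real.exp (θ *
          occ S.κ (fun _ p => p = p0) (S.pos x.1.1.1) (x.1.1.2.1.take j)))) *
          ENNReal.ofReal (Real.exp (-(θ * (j * w) + t * (ε * n)))) := by
      rw [← ENNReal.tsum_mul_right]
      refine tsum_congr fun x => ?_
      rw [hoc, mul_assoc]
    rw [h2]
    refine (mul_le_mul_left h1 _).trans ?_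
    have h3 : (2 : ℝ≥0∞) = ENNReal.ofReal 2 := by simp
    rw [h3, ← ENNReal.ofReal_pow hC00, ← ENNReal.ofReal_mul (by norm_num),
      ← ENNReal.ofReal_mul (by positivity), ← ENNReal.ofReal_mul (by positivity), mul_assoc,
      ← Real.exp_add]
    refine ENNReal.ofReal_le_ofReal (mul_le_mul_of_nonneg_left (Real.exp_le_exp.2 ?_)
      (by positivity))
    have h4 : |Real.exp θ - 1 - θ| ≤ θ ^ 2 :=
      Real.abs_exp_sub_one_sub_id_le (by rw [hθ]; exact ht1)
    have h5 : Real.exp θ - 1 - θ ≤ t ^ 2 := by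
      rw [← hθ, sq_abs]
      exact (le_abs_self _).trans h4
    have h6 : (j : ℝ) * w ≤ n := by nlinarith
    have h6' : (0 : ℝ) ≤ j * w := mul_nonneg hj0 hw0
    have h7 : (j : ℝ) * w * (Real.exp θ - 1 - θ) ≤ n * t ^ 2 := by
      have h8 : (j : ℝ) * w * (Real.exp θ - 1 - θ) ≤ j * w * t ^ 2 :=
        mul_le_mul_of_nonneg_left h5 h6'
      exact h8.trans (mul_le_mul_of_nonneg_right h6 (by positivity))
    have h9 : (n : ℝ) * t ^ 2 ≤ n * (t * (ε / 2)) := by
      refine mul_le_mul_of_nonneg_left ?_ (Nat.cast_nonneg n)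
      rw [pow_two]
      exact mul_le_mul_of_nonneg_left htε htpos.le
    nlinarith
  -- the event
  have hev : ∑' x : {x : S.Ch // x.1.2.1.length = m ∧ ε * n ≤ |oc x - j * w|}, S.W x.1 ≤
      ∑' x : {x : S.Ch // x.1.2.1.length = m}, (S.W x.1 *
        (ENNReal.ofReal (Real.exp (t * oc x.1)) *
          ENNReal.ofReal (Real.exp (-(t * (j * w) + t * (ε * n))))) + S.W x.1 *
        (ENNReal.ofReal (Real.exp (-t * oc x.1)) *
          ENNReal.ofReal (Real.exp (-(-t * (j * w) + t * (ε * n)))))) := by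
    refine le_trans ?_ (ENNReal.tsum_comp_le_tsum_of_injective
      (f := fun x : {x : S.Ch // x.1.2.1.length = m ∧ ε * n ≤ |oc x - j * w|} =>
        (⟨x.1, x.2.1⟩ : {x : S.Ch // x.1.2.1.length = m})) ?_ _)
    · refine ENNReal.tsum_le_tsum fun x => ?_
      rw [← mul_add]
      refine le_mul_of_one_le_right (zero_le) ?_
      rw [← ENNReal.ofReal_mul (Real.exp_pos _).le, ← ENNReal.ofReal_mul (Real.exp_pos _).le,
        ← Real.exp_add, ← Real.exp_add]
      have hx := x.2.2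
      rcases le_abs.1 hx with h | h
      · refine le_trans ?_ le_self_add
        rw [ENNReal.one_le_ofReal]
        refine Real.one_le_exp ?_
        have h2 := mul_le_mul_of_nonneg_left h htpos.le
        linarith
      · refine le_trans ?_ le_add_self
        rw [ENNReal.one_le_ofReal]
        refine Real.one_le_exp ?_
        have h2 := mul_le_mul_of_nonneg_left h htpos.le
        linarith
    · intro x y hxy
      exact Subtype.ext (congrArg (fun z : {x : S.Ch // x.1.2.1.length = m} => z.1) hxy)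
  have k1 := key t (abs_of_pos htpos)
  have k2 := key (-t) (by rw [abs_neg, abs_of_pos htpos])
  subst hoc hw
  refine hev.trans ?_
  rw [ENNReal.tsum_add]
  refine (add_le_add k1 k2).trans ?_
  rw [← ENNReal.ofReal_add (by positivity) (by positivity)]
  refine ENNReal.ofReal_le_ofReal (le_of_eq ?_)
  ring

end Pool.Agent.KAmp
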