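import Pool.Agent.KAmp.Rat

/-! KP18b: the pairs of unknotted halves with a given difference of the displacements. -/

set_option autoImplicit false

open Pool.Agent.LK Filter Topology
open scoped ENNReal

namespace Pool.Agent.KAmp

open Pool.Agent.KTube Pool.Agent.KRing Pool.Agent.KLog
open Pool.Agent.KAsym (ln)
open Pool.Agent.KTen (Zt)

variable {y z : ℝ}

/-- The chains with a marked reference block far from the origin. -/
private theorem kp18b_mark {u : ℤ × ℤ} {R : ℕ} (hR : nrm u ≤ R) {ρ : PP} (hd : dsp ρ = u)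
    (hv : ∀ v, nrm u < nrm v → Valid v ρ) (n : ℕ) :
    (sys y z).sum (n + ln ρ)
      (fun x => ((sys y z).oc (fun v p => p = ρ ∧ R < nrm v) x : ℝ≥0∞)) =
      wt (ENNReal.ofReal y) (ENNReal.ofReal z) ρ *
        ∑' v : {v // R < nrm v}, GG y z n v.1 (v.1 + u) := by
  rw [mark_sum, ← ENNReal.tsum_mul_left]
  let e : {v : ℤ × ℤ // R < nrm v} ≃ {i : (ℤ × ℤ) × PP // Valid i.1 i.2 ∧
      (i.2 = ρ ∧ R < nrm i.1) ∧ ln i.2 ≤ n + ln ρ} :=
    { toFun := fun v => ⟨(v.1, ρ), hv v.1 (lt_of_le_of_lt hR v.2), ⟨rfl, v.2⟩,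
        Nat.le_add_left _ _⟩
      invFun := fun i => ⟨i.1.1, i.2.2.1.2⟩
      left_inv := fun v => rfl
      right_inv := fun i => by
        obtain ⟨⟨v, p⟩, h1, ⟨h2, h3⟩, h4⟩ := i
        have h2' : p = ρ := h2
        subst h2'
        rfl }
  rw [← e.tsum_eq]
  refine tsum_congr fun v => ?_
  change wt (ENNReal.ofReal y) (ENNReal.ofReal z) ρ * GG y z (n + ln ρ - ln ρ) v.1 (v.1 + dsp ρ) =
    wt (ENNReal.ofReal y) (ENNReal.ofReal z) ρ * GG y z n v.1 (v.1 + u)
  rw [Nat.add_sub_cancel, hd]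

/-- **Far from the origin.** -/
theorem far_sum (hy : 10 ^ 24 ≤ y) (hz : 0 < z) (hz1 : z ≤ 1 / 10 ^ 12) (hq : y * z ^ 2 ≤ 1)
    (hone : ∑' π : {π // Free π}, wt (ENNReal.ofReal y) (ENNReal.ofReal z) π.1 = 1)
    {u : ℤ × ℤ} {L R : ℕ} (hL : Even (L + nrm u)) (hR : nrm u ≤ R) :
    Tendsto (fun k : ℕ => (∑' v : {v // R < nrm v}, GG y z (2 * k - L) v.1 (v.1 + u)).toReal /
      nT y z (2 * k)) atTop (𝓝 (1 / (sys y z).ell)) := by
  have hy0 : 0 < y := lt_of_lt_of_le (by positivity) hy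
  obtain ⟨ρ, hd, hln, hv⟩ := exists_ref u
  -- the reference block is free
  have hfree : Free ρ := by
    have h1 : nrm (((max (nrm u) (nh ρ) + 1 : ℕ) : ℤ), (0 : ℤ)) = max (nrm u) (nh ρ) + 1 := by
      simp only [nrm]
      omega
    exact ⟨_, by rw [h1]; omega, hv _ (by rw [h1]; omega)⟩
  have hwF : (sys y z).wF ρ = (wt (ENNReal.ofReal y) (ENNReal.ofReal z) ρ).toReal :=
    if_pos (show (sys y z).κ.Fr ρ from hfree)
  have hw0 : (wt (ENNReal.ofReal y) (ENNReal.ofReal z) ρ).toReal ≠ 0 := by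
    have h1 : wt (ENNReal.ofReal y) (ENNReal.ofReal z) ρ =
        ENNReal.ofReal (y ^ (hgt ρ).toNat * z ^ (ρ.1.length + ρ.2.length + 2)) := by
      rw [wt, ENNReal.ofReal_mul (by positivity), ENNReal.ofReal_pow hy0.le,
        ENNReal.ofReal_pow hz.le]
    rw [h1, ENNReal.toReal_ofReal (by positivity)]
    positivity
  -- the law of large numbers
  have h1 := lln_far (sys_ok hy0 hz hz1 hq hone) (gr hy hz hz1 hq hone) ρ R
  have hk : Tendsto (fun k : ℕ => k - L) atTop atTop := tendsto_sub_atTop_nat L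
  have hk' : Tendsto (fun k : ℕ => (2 * k + (nrm u + 2) - L) / 2) atTop atTop := by
    refine tendsto_atTop_mono (fun k => ?_) hk
    omega
  have h2 := h1.comp hk'
  have h3 := nT_shift hy hz hz1 hq hone (a := nrm u + 2) (b := L) (by
    obtain ⟨c, hc⟩ := hL
    exact ⟨c + 1, by omega⟩)
  have h4 : Tendsto (fun k : ℕ => ((sys y z).sum (2 * ((2 * k + (nrm u + 2) - L) / 2))
      (fun x => ((sys y z).oc (fun v p => p = ρ ∧ R < nrm v) x : ℝ≥0∞))).toReal /
      nT y z (2 * ((2 * k + (nrm u + 2) - L) / 2)) /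
      (wt (ENNReal.ofReal y) (ENNReal.ofReal z) ρ).toReal *
      (nT y z (2 * k + (nrm u + 2) - L) / nT y z (2 * k))) atTop (𝓝 (1 / (sys y z).ell)) := by
    have h5 := (h2.div_const (wt (ENNReal.ofReal y) (ENNReal.ofReal z) ρ).toReal).mul h3
    rw [hwF] at h5
    have h6 : (wt (ENNReal.ofReal y) (ENNReal.ofReal z) ρ).toReal / (sys y z).ell /
        (wt (ENNReal.ofReal y) (ENNReal.ofReal z) ρ).toReal * 1 = 1 / (sys y z).ell := by
      rw [mul_one, div_div, mul_comm, ← div_div, div_self hw0]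
    rw [h6] at h5
    exact h5
  refine h4.congr' ?_
  have hne : ∀ᶠ k : ℕ in atTop, nT y z (2 * k + (nrm u + 2) - L) / nT y z (2 * k) ≠ 0 :=
    h3.eventually_ne one_ne_zero
  filter_upwards [hne, eventually_ge_atTop L] with k hk1 hk2
  have e1 : 2 * ((2 * k + (nrm u + 2) - L) / 2) = 2 * k + (nrm u + 2) - L := by
    obtain ⟨c, hc⟩ := hL
    omega
  have e2 : 2 * k + (nrm u + 2) - L = 2 * k - L + ln ρ := by
    rw [hln]
    omega
  have hn : nT y z (2 * k + (nrm u + 2) - L) ≠ 0 := fun h => hk1 (by rw [h, zero_div])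
  rw [e1]
  have e3 : ((sys y z).sum (2 * k + (nrm u + 2) - L)
      (fun x => ((sys y z).oc (fun v p => p = ρ ∧ R < nrm v) x : ℝ≥0∞))).toReal =
      (wt (ENNReal.ofReal y) (ENNReal.ofReal z) ρ).toReal *
      (∑' v : {v // R < nrm v}, GG y z (2 * k - L) v.1 (v.1 + u)).toReal := by
    rw [e2, kp18b_mark hR hd hv, ENNReal.toReal_mul]
  rw [e3]
  field_simp

end Pool.Agent.KAmp
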