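import Pool.Agent.KAmp.FarX
import Pool.Agent.KLog.Far

/-! KP14: far from the origin the class does not depend on the displacement. -/

set_option autoImplicit false

open Pool.Agent.LK
open scoped ENNReal

namespace Pool.Agent.KAmp

open Pool.Agent.KTube Pool.Agent.KRing Pool.Agent.KLog
open Pool.Agent.KAsym (ln)
open Pool.Agent.LatticeTube (pedges mem_pedges mem_of_mem_pedges)

variable {T : Finset (Sym2 P3) → Prop} {v v' : ℤ × ℤ} {π : PP}

/-! ### The rotation of lattice points (as in `KLog/Rot`) -/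

/-- The inverse rotation of a vector. -/
private def ri3 (u : P3) : P3 := (u.2.1, -u.1, u.2.2)

/-- The inverse rotation of a column. -/
private def ri (c : ℤ × ℤ) : ℤ × ℤ := (c.2, -c.1)

private theorem ri3_rt3 (u : P3) : ri3 (rt3 u) = u := by
  refine Prod.ext rfl (Prod.ext ?_ rfl)
  simp [ri3, rt3]

private theorem rt3_ri3 (u : P3) : rt3 (ri3 u) = u := by
  refine Prod.ext ?_ (Prod.ext rfl rfl)
  simp [ri3, rt3]

private theorem ri_rt (c : ℤ × ℤ) : ri (rt c) = c := by
  refine Prod.ext rfl ?_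
  simp [ri, rt]

private theorem rt_ri (c : ℤ × ℤ) : rt (ri c) = c := by
  refine Prod.ext ?_ rfl
  simp [ri, rt]

private theorem rt3_inj : Function.Injective rt3 := fun u w h => by
  have := congrArg ri3 h
  rwa [ri3_rt3, ri3_rt3] at this

private theorem rt_inj : Function.Injective rt := fun u w h => by
  have := congrArg ri h
  rwa [ri_rt, ri_rt] at this

private theorem frame_rt : Frame (0, 1, 0) (-1, 0, 0) (0, 0, 1) :=
  ⟨by simp [dot3], by simp [dot3], by simp [dot3], by simp [dot3], by simp [dot3], by simp [dot3]⟩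

private theorem rt3_eq : rt3 = latIso (0, 0, 0) (0, 1, 0) (-1, 0, 0) (0, 0, 1) := by
  funext u
  refine Prod.ext ?_ (Prod.ext ?_ ?_) <;> simp [latIso, rt3]

private theorem rt3_add (u w : P3) : rt3 (u + w) = rt3 u + rt3 w := by
  refine Prod.ext ?_ (Prod.ext ?_ ?_)
  · simp only [rt3, Prod.fst_add, Prod.snd_add]; ring
  · simp only [rt3, Prod.fst_add, Prod.snd_add]
  · simp only [rt3, Prod.snd_add]

private theorem rt3_zero : rt3 0 = 0 := by
  refine Prod.ext ?_ (Prod.ext ?_ ?_) <;> simp [rt3]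

private theorem sum_rt3 (s : List P3) : (s.map rt3).sum = rt3 s.sum := by
  induction s with
  | nil => simp [rt3_zero]
  | cons d s ih => rw [List.map_cons, List.sum_cons, List.sum_cons, ih, rt3_add]

private theorem wk_rt3 (p : P3) (s : List P3) : (wk p s).map rt3 = wk (rt3 p) (s.map rt3) := by
  induction s generalizing p with
  | nil => rfl
  | cons d s ih =>
    rw [wk_cons, List.map_cons, List.map_cons, wk_cons, ih, rt3_add]

private theorem rt_add (a b : ℤ × ℤ) : rt (a + b) = rt a + rt b := by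
  refine Prod.ext ?_ rfl
  simp only [rt, Prod.fst_add, Prod.snd_add]; ring

private theorem rt_zero : rt 0 = 0 := by
  refine Prod.ext ?_ rfl
  simp [rt]

private theorem rt3_col (c : ℤ × ℤ) (j : ℤ) : rt3 (c.1, c.2, j) = ((rt c).1, (rt c).2, j) := rfl

private theorem adj_rt3 {u w : P3} (h : Adj u w) : Adj (rt3 u) (rt3 w) := by
  rw [rt3_eq]
  exact (latIso_adj frame_rt _ u w).2 h

/-! ### Polygons -/

private theorem mem_rot {E : Finset (Sym2 P3)} {u w : P3} :
    s(u, w) ∈ mapE rt3 E ↔ s(ri3 u, ri3 w) ∈ E := by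
  have := mem_mapE rt3_inj (E := E) (u := ri3 u) (v := ri3 w)
  rwa [rt3_ri3, rt3_ri3] at this

private theorem isPolygon_rot {E : Finset (Sym2 P3)} (hE : IsPolygon E) :
    IsPolygon (mapE rt3 E) := by
  rw [rt3_eq]
  exact isPolygon_latIso frame_rt _ hE

private theorem sameType_rot (E : Finset (Sym2 P3)) : SameType E (mapE rt3 E) := by
  rw [rt3_eq]
  obtain ⟨G, -, hG, hseg⟩ := exists_latHomeo frame_rt (0, 0, 0)
  exact ⟨G, (body_mapE G _ hG hseg E).symm⟩

private theorem ring_rot (c : List P3) : ring (c.map rt3) = mapE rt3 (ring c) := by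
  unfold ring
  rw [← pedges_map, List.map_append, List.getLast?_map]
  congr 2
  cases c.getLast? <;> rfl

private theorem cross_rot {E : Finset (Sym2 P3)} (j : ℤ) :
    cross (mapE rt3 E) j = rt '' cross E j := by
  ext c
  rw [mem_cross, mem_rot, Set.mem_image]
  constructor
  · intro h
    exact ⟨ri c, h, rt_ri c⟩
  · rintro ⟨d, hd, rfl⟩
    have h1 := mem_cross.1 hd
    rw [← rt3_col, ← rt3_col, ri3_rt3, ri3_rt3]
    exact h1

private theorem lowClose_rot {E A : Finset (Sym2 P3)} {k : ℤ} (h : LowClose E k A) :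
    LowClose (mapE rt3 E) k (mapE rt3 A) := by
  refine ⟨isPolygon_rot h.1, ?_, ?_⟩
  · intro u w hu
    rw [mem_rot, mem_rot]
    exact h.2.1 _ _ hu
  · intro j hj h1
    rw [cross_rot] at h1 ⊢
    rw [Set.ncard_image_of_injective _ rt_inj]
    exact h.2.2 j hj (Set.image_nonempty.1 h1)

private theorem lowU_rot {E : Finset (Sym2 P3)} {k : ℤ} (h : LowU E k) :
    LowU (mapE rt3 E) k := by
  obtain ⟨A, hA, hU⟩ := h
  exact ⟨_, lowClose_rot hA, (sameType_rot A).symm.unknotted hU⟩

/-! ### Halves -/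

private theorem chain_rot {l : List P3} (h : l.IsChain Adj) : (l.map rt3).IsChain Adj := by
  rw [List.isChain_map]
  exact h.imp fun u w huw => adj_rt3 huw

private theorem head_rot {l : List P3} {c : ℤ × ℤ} {j : ℤ} (h : l.head? = some (c.1, c.2, j)) :
    (l.map rt3).head? = some ((rt c).1, (rt c).2, j) := by
  rw [List.head?_map, h]
  rfl

private theorem last_rot {l : List P3} {c : ℤ × ℤ} {j : ℤ}
    (h : l.getLast? = some (c.1, c.2, j)) :
    (l.map rt3).getLast? = some ((rt c).1, (rt c).2, j) := by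
  rw [List.getLast?_map, h]
  rfl

private theorem upper_rot {k : ℤ} {a b : ℤ × ℤ} {r : List P3} (h : Upper k a b r) :
    Upper k (rt a) (rt b) (r.map rt3) := by
  refine ⟨h.nodup.map rt3_inj, chain_rot h.chain, head_rot h.head, last_rot h.last, ?_⟩
  intro u hu
  obtain ⟨w, hw, rfl⟩ := List.mem_map.1 hu
  exact h.lev w hw

private theorem lower_rot {k : ℤ} {a b : ℤ × ℤ} {l : List P3} (h : Lower k a b l) :
    Lower k (rt a) (rt b) (l.map rt3) := by
  refine ⟨h.nodup.map rt3_inj, chain_rot h.chain, head_rot h.head, last_rot h.last, ?_⟩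
  intro u hu
  obtain ⟨w, hw, rfl⟩ := List.mem_map.1 hu
  exact h.lev w hw

private theorem lu_rot {k : ℤ} {a b : ℤ × ℤ} {l : List P3} (h : LU k a b l) :
    LU k (rt a) (rt b) (l.map rt3) := by
  obtain ⟨hab, hl, r, hr, hU⟩ := h
  refine ⟨fun h1 => hab (rt_inj h1), lower_rot hl, r.map rt3, upper_rot hr, ?_⟩
  rw [← List.map_append, ring_rot]
  exact lowU_rot hU

private theorem sdA_rot (π : PP) : sdA (rotP π) = (sdA π).map rt3 := by
  unfold sdA
  rw [wk_rt3]
  rfl

private theorem sdB_rot (v : ℤ × ℤ) (π : PP) : sdB (rt v) (rotP π) = (sdB v π).map rt3 := by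
  unfold sdB
  rw [List.map_reverse, wk_rt3]
  rfl

private theorem hgt_rot (π : PP) : hgt (rotP π) = hgt π := by
  unfold KLog.hgt rotP
  rw [sum_rt3]
  rfl

private theorem flp_rot (l : List P3) : flp (l.map rt3) = (flp l).map rt3 := by
  unfold flp
  rw [List.map_reverse, List.map_map, List.map_map]
  rfl

private theorem glu_rot (v : ℤ × ℤ) (l : List P3) (π : PP) :
    glu (rt v) (l.map rt3) (rotP π) = (glu v l π).map rt3 := by
  unfold glu
  rw [sdA_rot, sdB_rot, ← List.map_append, ← List.map_append, List.map_map, List.map_map,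
    hgt_rot]
  refine List.map_congr_left fun u _ => ?_
  simp only [Function.comp_apply]
  rw [rt3_add]
  congr 1
  unfold rotP
  rw [sum_rt3]
  refine Prod.ext ?_ (Prod.ext ?_ rfl)
  · simp [rt3]
  · simp [rt3]

theorem cls_rotP (hT : TypeClosed T) (h : Cls T v π) : Cls T (rt v) (rotP π) := by
  obtain ⟨hg, l, r, hl, hr, hTr⟩ := h
  refine ⟨geo_rotP hg, l.map rt3, r.map rt3, ?_, ?_, ?_⟩
  · have h1 := lu_rot hl
    rwa [rt_zero] at h1
  · have h1 := lu_rot hr
    rw [rt_zero, rt_add, ← dsp_rotP] at h1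
    exact h1
  · rw [flp_rot, glu_rot, ← List.map_append, ring_rot]
    exact hT _ _ (sameType_rot _) hTr

/-! ### The sectors (as in `KLog/Far`) -/

/-- The number of steps in the direction of the second coordinate. -/
private def yst (s : List P3) : ℕ := s.countP fun d => d.2.1 ≠ 0

private theorem far_stp {s : List P3} (h : Steps s) : stp (lets s) = xst s + yst s := by
  induction s with
  | nil => rfl
  | cons d s ih =>
    obtain ⟨hd, hs⟩ := h.cons
    have ih := ih hs
    unfold stp xst yst at ih ⊢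
    rw [lets_cons, List.countP_cons, List.countP_cons, List.countP_cons, ih]
    rcases step_cases hd with rfl | rfl | rfl | rfl | rfl | rfl <;>
      simp [hlet] <;> omega

private theorem far_xst_rt3 (s : List P3) : xst (s.map rt3) = yst s := by
  unfold xst yst
  rw [List.countP_map]
  congr 1
  funext d
  simp [rt3]

private theorem far_yst_rt3 (s : List P3) : yst (s.map rt3) = xst s := by
  unfold xst yst
  rw [List.countP_map]
  rfl

/-- the steps in the first direction -/
private def XX (π : PP) : ℕ := xst π.1 + xst π.2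

/-- the steps in the second direction -/
private def YY (π : PP) : ℕ := yst π.1 + yst π.2

private theorem far_XX (π : PP) : XX (rotP π) = YY π := by
  simp only [XX, YY, rotP, far_xst_rt3]

private theorem far_YY (π : PP) : YY (rotP π) = XX π := by
  simp only [XX, YY, rotP, far_yst_rt3]

private theorem far_nh (hA : Steps π.1) (hB : Steps π.2) : nh π = XX π + YY π := by
  unfold nh XX YY
  rw [far_stp hA, far_stp hB]
  omega

private theorem rt4 (v : ℤ × ℤ) : rt (rt (rt (rt v))) = v := by
  simp [rt]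

private theorem sec0 (hT : PrimeCl T) (h : Cls T v π) (hg' : Geo v' π) (hv : (XX π : ℤ) < v.1)
    (hv' : (XX π : ℤ) < v'.1) : Cls T v' π :=
  cls_x hT h.1 hg' hv hv' h

private theorem sec3 (hT : PrimeCl T) (h : Cls T v π) (hg' : Geo v' π) (hv : (YY π : ℤ) < -v.2)
    (hv' : (YY π : ℤ) < -v'.2) : Cls T v' π := by
  have h1 := sec0 hT (cls_rotP hT.closed h) (geo_rotP hg') (by rw [far_XX]; exact hv)
    (by rw [far_XX]; exact hv')
  have h2 := cls_rotP hT.closed (cls_rotP hT.closed (cls_rotP hT.closed h1))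
  rwa [rt4, rotP_rotP] at h2

private theorem sec2 (hT : PrimeCl T) (h : Cls T v π) (hg' : Geo v' π) (hv : (XX π : ℤ) < -v.1)
    (hv' : (XX π : ℤ) < -v'.1) : Cls T v' π := by
  have h1 := sec3 hT (cls_rotP hT.closed h) (geo_rotP hg') (by rw [far_YY]; exact hv)
    (by rw [far_YY]; exact hv')
  have h2 := cls_rotP hT.closed (cls_rotP hT.closed (cls_rotP hT.closed h1))
  rwa [rt4, rotP_rotP] at h2

private theorem sec1 (hT : PrimeCl T) (h : Cls T v π) (hg' : Geo v' π) (hv : (YY π : ℤ) < v.2)
    (hv' : (YY π : ℤ) < v'.2) : Cls T v' π := by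
  have h1 := sec2 hT (cls_rotP hT.closed h) (geo_rotP hg')
    (by rw [far_XX]; change _ < -(-v.2); rwa [neg_neg])
    (by rw [far_XX]; change _ < -(-v'.2); rwa [neg_neg])
  have h2 := cls_rotP hT.closed (cls_rotP hT.closed (cls_rotP hT.closed h1))
  rwa [rt4, rotP_rotP] at h2

/-- one of the corner displacements is of the class iff any far displacement is -/
private theorem far_corner (hT : PrimeCl T) (h : Cls T v π) (hv : nh π < nrm v)
    (hv' : nh π < nrm v') : Cls T v' π := by
  have hn : nh π = XX π + YY π := far_nh h.1.stA h.1.stB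
  have hgeo : ∀ {w : ℤ × ℤ}, nh π < nrm w → Geo w π := fun hw => geo_far h.1 hv hw
  obtain ⟨X, hX⟩ : ∃ X : ℤ, X = XX π := ⟨_, rfl⟩
  obtain ⟨Y, hY⟩ : ∃ Y : ℤ, Y = YY π := ⟨_, rfl⟩
  have hX0 : 0 ≤ X := by rw [hX]; positivity
  have hY0 : 0 ≤ Y := by rw [hY]; positivity
  have hc : ∀ a b : ℤ, a.natAbs = XX π + 1 → b.natAbs = YY π + 1 → nh π < nrm (a, b) := by
    intro a b ha hb
    unfold nrm
    change nh π < a.natAbs + b.natAbs
    omega
  have c0 : nh π < nrm (X + 1, Y + 1) := hc _ _ (by omega) (by omega)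
  have c1 : nh π < nrm (-(X + 1), Y + 1) := hc _ _ (by omega) (by omega)
  have c3 : nh π < nrm (X + 1, -(Y + 1)) := hc _ _ (by omega) (by omega)
  have key : ∀ {w : ℤ × ℤ}, nh π < nrm w → ((XX π : ℤ) < w.1 ∨ (YY π : ℤ) < w.2 ∨
      (XX π : ℤ) < -w.1 ∨ (YY π : ℤ) < -w.2) := by
    intro w hw
    unfold nrm at hw
    omega
  have h0 : Cls T (X + 1, Y + 1) π := by
    rcases key hv with h1 | h1 | h1 | h1
    · exact sec0 hT h (hgeo c0) h1 (by change _ < X + 1; omega)
    · exact sec1 hT h (hgeo c0) h1 (by change _ < Y + 1; omega)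
    · have h2 := sec2 hT h (hgeo c1) h1 (by change _ < -(-(X + 1)); omega)
      exact sec1 hT h2 (hgeo c0) (by change _ < Y + 1; omega) (by change _ < Y + 1; omega)
    · have h2 := sec3 hT h (hgeo c3) h1 (by change _ < -(-(Y + 1)); omega)
      exact sec0 hT h2 (hgeo c0) (by change _ < X + 1; omega) (by change _ < X + 1; omega)
  rcases key hv' with h1 | h1 | h1 | h1
  · exact sec0 hT h0 (hgeo hv') (by change _ < X + 1; omega) h1
  · exact sec1 hT h0 (hgeo hv') (by change _ < Y + 1; omega) h1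
  · have h2 := sec1 hT h0 (hgeo c1) (by change _ < Y + 1; omega) (by change _ < Y + 1; omega)
    exact sec2 hT h2 (hgeo hv') (by change _ < -(-(X + 1)); omega) h1
  · have h2 := sec0 hT h0 (hgeo c3) (by change _ < X + 1; omega) (by change _ < X + 1; omega)
    exact sec3 hT h2 (hgeo hv') (by change _ < -(-(Y + 1)); omega) h1

/-- **Far invariance.** -/
theorem cls_far (hT : PrimeCl T) (hv : nh π < nrm v) : Cls T v π ↔ FreeT T π :=
  ⟨fun h => ⟨v, hv, h⟩, fun ⟨_, hv', h⟩ => far_corner hT h hv' hv⟩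

end Pool.Agent.KAmp
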