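import Pool.Agent.KAmp.Cls
import Pool.Agent.KLog.UnkX
import Pool.Agent.KRing.Few

/-! KP13: the class of a block whose strands are separated by a plane `x = c`. -/

set_option autoImplicit false

open Pool.Agent.LK hiding sw sw_sw
open scoped ENNReal

namespace Pool.Agent.KAmp

open Pool.Agent.KTube Pool.Agent.KRing Pool.Agent.KLog
open Pool.Agent.KAsym (ln)
open Pool.Agent.LatticeTube (pedges mem_of_mem_pedges)

variable {T : Finset (Sym2 P3) → Prop} {v v' : ℤ × ℤ} {π : PP}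

/-! ### Upper halves above unknotted lower halves -/

/-- The class does not depend on the unknotted lower half. -/
private theorem upper_indep {k : ℤ} {a b : ℤ × ℤ} {r l l' : List P3} (hT : TypeClosed T)
    (hr : Upper k a b r) (hl : LU k a b l) (hl' : LU k a b l') (h : T (ring (r ++ l))) :
    T (ring (r ++ l')) := by
  have hab := hl.1
  have hE : IsPolygon (ring (r ++ l)) := (ring_of hab hr hl.2.1).isPolygon
  have hF : IsPolygon (ring (r ++ l')) := (ring_of hab hr hl'.2.1).isPolygon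
  have h2 := isTwo_ring_of hab hr hl.2.1
  have h2' := isTwo_ring_of hab hr hl'.2.1
  obtain ⟨B, hB⟩ := exists_uppClose hE h2
  have hEF : UppEq (ring (r ++ l)) (ring (r ++ l')) k := uppEq_ring hr hl.2.1 hl'.2.1
  have hB' : UppClose (ring (r ++ l')) k B :=
    ⟨hB.1, fun u v hu => (hB.2.1 u v hu).trans (hEF u v hu), hB.2.2⟩
  obtain ⟨A, hA, hAU⟩ := hl.lowU hr
  obtain ⟨A', hA', hAU'⟩ := hl'.lowU hr
  exact hT _ _ (((split hE h2 hA hB).2.1 hAU).symm.trans ((split hF h2' hA' hB').2.1 hAU')) h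

/-- A thin layer can be moved from the upper half to the lower one. -/
private theorem thin_T {k : ℤ} {a b a' b' : ℤ × ℤ} {A B r l l' : List P3} (hT : TypeClosed T)
    (hb : Block k (k + 1) a b a' b' A B) (hr : Upper (k + 1) a' b' r) (hl : LU k a b l)
    (hl' : LU (k + 1) a' b' l') : T (ring ((A ++ (r ++ B)) ++ l)) ↔ T (ring (r ++ l')) := by
  have hab' := hl'.1
  obtain ⟨r0, hr0⟩ := exists_UU' (k := k + 1) hab'
  have h1 := unknotted_halves (hb.upper_UU hl.1 hr0 hl.2.1 fun j hj hj' => by omega) hl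
  rw [hb.ring_rotate hr0.2.1 hl.2.1] at h1
  have hlow := hb.lower hl.2.1
  have h0 : LU (k + 1) a' b' (B ++ (l ++ A)) :=
    ⟨hab', hlow, r0, hr0.2.1, ((unknotted_iff (ring_of hab' hr0.2.1 hlow).isPolygon
      (isTwo_ring_of hab' hr0.2.1 hlow)).1 h1).1⟩
  rw [hb.ring_rotate hr hl.2.1]
  exact ⟨upper_indep hT hr h0 hl', upper_indep hT hr hl' h0⟩

private theorem map_T {r l : List P3} (hT : TypeClosed T) (t : P3) :
    T (ring (r.map (· + t) ++ l.map (· + t))) ↔ T (ring (r ++ l)) := by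
  rw [← List.map_append, ring_map]
  exact ⟨hT _ _ (sameType_shift t _).symm, hT _ _ (sameType_shift t _)⟩

private theorem exists_LU' {k : ℤ} {a b : ℤ × ℤ} (hab : a ≠ b) : ∃ l, LU k a b l := by
  obtain ⟨l, hl, -⟩ := exists_flat (v := b - a) (sub_ne_zero.2 hab.symm)
  have h2 := hl.shift (a.1, a.2, k)
  have e1 : csh (a.1, a.2, k) 0 = a := by simp [csh]
  have e2 : csh (a.1, a.2, k) (b - a) = b := by simp [csh]
  rw [e1, e2, zero_add] at h2
  exact ⟨_, h2⟩

/-- Two upper halves of the same class above every unknotted lower half. -/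
private def Sim (k : ℤ) (a b : ℤ × ℤ) (r r' : List P3) : Prop :=
  Upper k a b r ∧ Upper k a b r' ∧ ∀ T : Finset (Sym2 P3) → Prop, TypeClosed T →
    ∀ l, LU k a b l → (T (ring (r ++ l)) ↔ T (ring (r' ++ l)))

private theorem Sim.symm {k : ℤ} {a b : ℤ × ℤ} {r r' : List P3} (h : Sim k a b r r') :
    Sim k a b r' r := ⟨h.2.1, h.1, fun T hT l hl => (h.2.2 T hT l hl).symm⟩

private theorem Sim.mp {k : ℤ} {a b : ℤ × ℤ} {r r' l : List P3} (h : Sim k a b r r')
    (hT : PrimeCl T) (hab : a ≠ b) (hl : Lower k a b l) (h1 : T (ring (r ++ l))) :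
    T (ring (r' ++ l)) := by
  obtain ⟨hr, hr', h⟩ := h
  by_cases hL : LU k a b l
  · exact (h T hT.closed l hL).1 h1
  · have hU : UppU (ring (r ++ l)) k := by
      by_contra hn
      obtain ⟨-, r0, hr0, hU0⟩ := passes_few 0 k a b r l hab hr hl (hT.few _ h1) hn
      exact hL ⟨hab, hl, r0, hr0.2.1, ((unknotted_iff (ring_of hab hr0.2.1 hl).isPolygon
        (isTwo_ring_of hab hr0.2.1 hl)).1 hU0).1⟩
    have hUU : UU k a b r := ⟨hab, hr, l, hl, hU⟩
    obtain ⟨l0, hl0⟩ := exists_LU' (k := k) hab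
    have h2 := (h _ typeClosed_unknotted l0 hl0).1 (unknotted_halves hUU hl0)
    have hUU' : UU k a b r' := ⟨hab, hr', l0, hl0.2.1,
      ((unknotted_iff (ring_of hab hr' hl0.2.1).isPolygon (isTwo_ring_of hab hr' hl0.2.1)).1 h2).2⟩
    exact LC.class hT.closed.good ⟨hl, r, hUU, h1⟩ hUU'

private theorem Sim.iff {k : ℤ} {a b : ℤ × ℤ} {r r' l : List P3} (h : Sim k a b r r')
    (hT : PrimeCl T) (hab : a ≠ b) (hl : Lower k a b l) :
    T (ring (r ++ l)) ↔ T (ring (r' ++ l)) :=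
  ⟨h.mp hT hab hl, h.symm.mp hT hab hl⟩

/-! ### Walks with prescribed ends -/

/-- A self-avoiding walk from `x` to `y` whose points have the property `P`. -/
private structure Pth (P : P3 → Prop) (x y : P3) (l : List P3) : Prop where
  nodup : l.Nodup
  chain : l.IsChain Adj
  head : l.head? = some x
  last : l.getLast? = some y
  mem : ∀ u ∈ l, P u

private theorem Pth.mono {P Q : P3 → Prop} {x y : P3} {l : List P3} (h : Pth P x y l)
    (hPQ : ∀ u, P u → Q u) : Pth Q x y l :=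
  ⟨h.nodup, h.chain, h.head, h.last, fun u hu => hPQ u (h.mem u hu)⟩

private theorem Pth.append {P Q R : P3 → Prop} {x y y' z : P3} {l l' : List P3} (h : Pth P x y l)
    (h' : Pth Q y' z l') (ha : Adj y y') (hd : ∀ u, P u → Q u → False)
    (hP : ∀ u, P u → R u) (hQ : ∀ u, Q u → R u) : Pth R x z (l ++ l') := by
  refine ⟨List.nodup_append.2 ⟨h.nodup, h'.nodup, ?_⟩, h.chain.append h'.chain ?_, ?_, ?_, ?_⟩
  · intro u hu v hv huv
    subst huv
    exact hd u (h.mem u hu) (h'.mem u hv)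
  · intro a ha' b hb
    rw [h.last] at ha'
    rw [h'.head] at hb
    simp only [Option.mem_def, Option.some.injEq] at ha' hb
    subst ha' hb
    exact ha
  · rw [List.head?_append, h.head]; rfl
  · rw [List.getLast?_append, h'.last]; rfl
  · intro u hu
    rcases List.mem_append.1 hu with h1 | h1
    · exact hP u (h.mem u h1)
    · exact hQ u (h'.mem u h1)

private theorem adj_symm' {u v : P3} (h : Adj u v) : Adj v u := h.symm

private theorem Pth.rev {P : P3 → Prop} {x y : P3} {l : List P3} (h : Pth P x y l) :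
    Pth P y x l.reverse := by
  refine ⟨List.nodup_reverse.2 h.nodup, ?_, ?_, ?_, ?_⟩
  · rw [List.isChain_reverse]
    exact h.chain.imp fun _ _ h => h.symm
  · rw [List.head?_reverse, h.last]
  · rw [List.getLast?_reverse, h.head]
  · intro u hu
    exact h.mem u (List.mem_reverse.1 hu)

private theorem Pth.map {P Q : P3 → Prop} {x y : P3} {l : List P3} (h : Pth P x y l) {f : P3 → P3}
    (hf : Function.Injective f) (hA : ∀ u v, Adj u v → Adj (f u) (f v))
    (hPQ : ∀ u, P u → Q (f u)) : Pth Q (f x) (f y) (l.map f) := by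
  refine ⟨h.nodup.map hf, ?_, ?_, ?_, ?_⟩
  · rw [List.isChain_map]
    exact h.chain.imp fun u v huv => hA u v huv
  · rw [List.head?_map, h.head]; rfl
  · rw [List.getLast?_map, h.last]; rfl
  · intro u hu
    obtain ⟨v, hv, rfl⟩ := List.mem_map.1 hu
    exact hPQ v (h.mem v hv)

private theorem pth_single {P : P3 → Prop} {x : P3} (h : P x) : Pth P x x [x] :=
  ⟨by simp, by simp, rfl, rfl, by simpa using h⟩

private theorem adj_tr (t u v : P3) (h : Adj u v) : Adj (u + t) (v + t) := by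
  simpa [Adj] using h

private theorem adj_sw (u v : P3) (h : Adj u v) : Adj (sw u) (sw v) := by
  unfold Adj sw at *
  simp only
  omega

private theorem sw_injective : Function.Injective sw := fun u v h => by
  rw [← sw_sw u, ← sw_sw v, h]

private theorem Pth.tr {P Q : P3 → Prop} {x y x' y' : P3} {l : List P3} (h : Pth P x y l) (t : P3)
    (hx : x + t = x') (hy : y + t = y') (hPQ : ∀ u, P u → Q (u + t)) :
    Pth Q x' y' (l.map (· + t)) := by
  subst hx hy
  exact h.map (add_left_injective t) (fun u v => adj_tr t u v) hPQ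

/-- A segment in the direction of the first coordinate. -/
private theorem exists_xline' (y z a : ℤ) (n : ℕ) :
    ∃ l, Pth (fun u => a ≤ u.1 ∧ u.1 ≤ a + n ∧ u.2.1 = y ∧ u.2.2 = z)
      (a, y, z) (a + n, y, z) l := by
  induction n with
  | zero =>
    refine ⟨[(a, y, z)], ?_⟩
    have := pth_single
      (P := fun u : P3 => a ≤ u.1 ∧ u.1 ≤ a + ((0 : ℕ) : ℤ) ∧ u.2.1 = y ∧ u.2.2 = z)
      (x := (a, y, z)) (by simp)
    simpa using this
  | succ n ih =>
    obtain ⟨l, hl⟩ := ih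
    refine ⟨l ++ [(a + ((n + 1 : ℕ) : ℤ), y, z)], hl.append
      (pth_single (P := fun u => u = (a + ((n + 1 : ℕ) : ℤ), y, z)) rfl) ?_ ?_ ?_ ?_⟩
    · unfold Adj
      simp only [sub_self, abs_zero, add_zero]
      rw [show a + (n : ℤ) - (a + ((n + 1 : ℕ) : ℤ)) = -1 by push_cast; ring]
      rfl
    · rintro u ⟨-, h1, -⟩ rfl
      push_cast at h1
      omega
    · rintro u ⟨h1, h2, h3, h4⟩
      refine ⟨h1, ?_, h3, h4⟩
      push_cast
      omega
    · rintro u rfl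
      refine ⟨?_, le_rfl, rfl, rfl⟩
      simp only
      omega

private theorem exists_xline (y z : ℤ) {a b : ℤ} (hab : a ≤ b) :
    ∃ l, Pth (fun u => a ≤ u.1 ∧ u.1 ≤ b ∧ u.2.1 = y ∧ u.2.2 = z) (a, y, z) (b, y, z) l := by
  obtain ⟨l, hl⟩ := exists_xline' y z a (b - a).toNat
  have e : a + ((b - a).toNat : ℤ) = b := by omega
  rw [e] at hl
  exact ⟨l, hl⟩

/-- A segment in the direction of the second coordinate. -/
private theorem exists_yline' (x z a : ℤ) (n : ℕ) :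
    ∃ l, Pth (fun u => a ≤ u.2.1 ∧ u.2.1 ≤ a + n ∧ u.1 = x ∧ u.2.2 = z)
      (x, a, z) (x, a + n, z) l := by
  induction n with
  | zero =>
    refine ⟨[(x, a, z)], ?_⟩
    have := pth_single
      (P := fun u : P3 => a ≤ u.2.1 ∧ u.2.1 ≤ a + ((0 : ℕ) : ℤ) ∧ u.1 = x ∧ u.2.2 = z)
      (x := (x, a, z)) (by simp)
    simpa using this
  | succ n ih =>
    obtain ⟨l, hl⟩ := ih
    refine ⟨l ++ [(x, a + ((n + 1 : ℕ) : ℤ), z)], hl.append
      (pth_single (P := fun u => u = (x, a + ((n + 1 : ℕ) : ℤ), z)) rfl) ?_ ?_ ?_ ?_⟩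
    · unfold Adj
      simp only [sub_self, abs_zero, add_zero, zero_add]
      rw [show a + (n : ℤ) - (a + ((n + 1 : ℕ) : ℤ)) = -1 by push_cast; ring]
      rfl
    · rintro u ⟨-, h1, -⟩ rfl
      push_cast at h1
      omega
    · rintro u ⟨h1, h2, h3, h4⟩
      refine ⟨h1, ?_, h3, h4⟩
      push_cast
      omega
    · rintro u rfl
      refine ⟨?_, le_rfl, rfl, rfl⟩
      simp only
      omega

private theorem exists_yline (x z a b : ℤ) :
    ∃ l, Pth (fun u => u.1 = x ∧ u.2.2 = z) (x, a, z) (x, b, z) l := by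
  rcases le_total a b with h | h
  · obtain ⟨l, hl⟩ := exists_yline' x z a (b - a).toNat
    have e : a + ((b - a).toNat : ℤ) = b := by omega
    rw [e] at hl
    exact ⟨l, hl.mono fun u hu => hu.2.2⟩
  · obtain ⟨l, hl⟩ := exists_yline' x z b (a - b).toNat
    have e : b + ((a - b).toNat : ℤ) = a := by omega
    rw [e] at hl
    exact ⟨l.reverse, (hl.mono fun u hu => hu.2.2).rev⟩

/-! ### Flat halves -/

private theorem Pth.upper {P : P3 → Prop} {k : ℤ} {a b : ℤ × ℤ} {r : List P3}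
    (h : Pth P (a.1, a.2, k + 1) (b.1, b.2, k + 1) r) (hP : ∀ u, P u → k + 1 ≤ u.2.2) :
    Upper k a b r :=
  ⟨h.nodup, h.chain, h.head, h.last, fun u hu => hP u (h.mem u hu)⟩

private theorem Pth.lower {P : P3 → Prop} {k : ℤ} {a b : ℤ × ℤ} {l : List P3}
    (h : Pth P (b.1, b.2, k) (a.1, a.2, k) l) (hP : ∀ u, P u → u.2.2 ≤ k) : Lower k a b l :=
  ⟨h.nodup, h.chain, h.head, h.last, fun u hu => hP u (h.mem u hu)⟩

private theorem flat_pair {k : ℤ} {a b : ℤ × ℤ} (hab : a ≠ b) {r l : List P3}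
    (hr : Upper k a b r) (hl : Lower k a b l) (hr' : ∀ u ∈ r, u.2.2 = k + 1)
    (hl' : ∀ u ∈ l, u.2.2 = k) : UU k a b r ∧ LU k a b l := by
  have hP := (ring_of hab hr hl).isPolygon
  have h0 := cross_ring_of hr hl
  have hU : Unknotted (ring (r ++ l)) := by
    refine unknotted_of_two hP ?_ ⟨k, by rw [h0]; exact ⟨a, by simp⟩⟩
    intro j hj
    rcases lt_trichotomy j k with h | rfl | h
    · exfalso
      obtain ⟨c, hc⟩ := hj
      rw [cross_ring_low hr hl h] at hc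
      have := hl' _ (mem_of_mem_pedges hc).1
      simp only at this
      omega
    · rw [h0]; exact Set.ncard_pair hab
    · exfalso
      obtain ⟨c, hc⟩ := hj
      rw [cross_ring_upp hr hl h] at hc
      have := hr' _ (mem_of_mem_pedges hc).2
      simp only at this
      omega
  have h1 := (unknotted_iff hP (isTwo_ring_of hab hr hl)).1 hU
  exact ⟨⟨hab, hr, l, hl, h1.2⟩, ⟨hab, hl, r, hr, h1.1⟩⟩

private theorem flat_UU {P : P3 → Prop} {k : ℤ} {a b : ℤ × ℤ} (hab : a ≠ b) {r : List P3}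
    (h : Pth P (a.1, a.2, k + 1) (b.1, b.2, k + 1) r) (hP : ∀ u, P u → u.2.2 = k + 1) :
    UU k a b r := by
  have hl : Pth (fun u => u.2.2 = k) (b.1, b.2, k) (a.1, a.2, k)
      ((r.map (· + ((0, 0, -1) : P3))).reverse) := by
    refine (h.tr (0, 0, -1) ?_ ?_ ?_).rev
    · ext <;> simp
    · ext <;> simp
    · intro u hu
      have := hP u hu
      simp only [Prod.snd_add]
      omega
  exact (flat_pair hab (h.upper fun u hu => (hP u hu).ge) (hl.lower fun u hu => hu.le)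
    (fun u hu => hP u (h.mem u hu)) hl.mem).1

private theorem flat_LU {P : P3 → Prop} {k : ℤ} {a b : ℤ × ℤ} (hab : a ≠ b) {l : List P3}
    (h : Pth P (b.1, b.2, k) (a.1, a.2, k) l) (hP : ∀ u, P u → u.2.2 = k) :
    LU k a b l := by
  have hr : Pth (fun u => u.2.2 = k + 1) (a.1, a.2, k + 1) (b.1, b.2, k + 1)
      ((l.map (· + ((0, 0, 1) : P3))).reverse) := by
    refine (h.tr (0, 0, 1) ?_ ?_ ?_).rev
    · ext <;> simp
    · ext <;> simp
    · intro u hu
      have := hP u hu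
      simp only [Prod.snd_add]
      omega
  exact (flat_pair hab (hr.upper fun u hu => hu.ge) (h.lower fun u hu => (hP u hu).le)
    hr.mem (fun u hu => hP u (h.mem u hu))).2

/-! ### Rotation of a closed walk -/

private theorem ring_comm {x y : List P3} (hx : x ≠ []) (hy : y ≠ []) :
    ring (x ++ y) = ring (y ++ x) := by
  have key : ∀ (x y : List P3) (x0 x1 y0 y1 : P3), x.head? = some x0 → x.getLast? = some x1 →
      y.head? = some y0 → y.getLast? = some y1 → ∀ e, e ∈ ring (x ++ y) ↔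
      e = s(y1, x0) ∨ e = s(x1, y0) ∨ e ∈ pedges x ∨ e ∈ pedges y := by
    intro x y x0 x1 y0 y1 h0 h1 h2 h3 e
    have h4 : (x ++ y).getLast? = some y1 := by
      rw [List.getLast?_append, h3]; rfl
    have h5 : (x ++ y).head? = some x0 := by
      rw [List.head?_append, h0]; rfl
    rw [ring_eq h4, ← List.singleton_append, mem_pedges_cat (A := [y1]) (a := y1) rfl h5,
      mem_pedges_cat h1 h2]
    have h6 : e ∉ pedges [y1] := by simp [Pool.Agent.LatticeTube.pedges]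
    tauto
  obtain ⟨x0, hx0⟩ : ∃ u, x.head? = some u := by
    cases x with
    | nil => exact absurd rfl hx
    | cons u x => exact ⟨u, rfl⟩
  obtain ⟨y0, hy0⟩ : ∃ u, y.head? = some u := by
    cases y with
    | nil => exact absurd rfl hy
    | cons u y => exact ⟨u, rfl⟩
  have hx1 : x.getLast? = some (x.getLast hx) := List.getLast?_eq_getLast_of_ne_nil hx
  have hy1 : y.getLast? = some (y.getLast hy) := List.getLast?_eq_getLast_of_ne_nil hy
  ext e
  rw [key x y _ _ _ _ hx0 hx1 hy0 hy1, key y x _ _ _ _ hy0 hy1 hx0 hx1]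
  tauto

/-! ### The range of the first coordinate -/

private theorem step_x {d : P3} (h : IsStep d) : |d.1| ≤ if d.1 ≠ 0 then 1 else 0 := by
  rcases step_cases h with rfl | rfl | rfl | rfl | rfl | rfl <;> simp

private theorem wk_x {x u : P3} {s : List P3} (hs : Steps s) (hu : u ∈ wk x s) :
    x.1 - xst s ≤ u.1 ∧ u.1 ≤ x.1 + xst s := by
  induction s generalizing x with
  | nil =>
    simp only [wk_nil, List.mem_singleton] at hu
    subst hu
    simp [xst]
  | cons d s ih =>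
    have h1 := step_x hs.cons.1
    have h2 : xst (d :: s) = xst s + if d.1 ≠ 0 then 1 else 0 := by
      unfold xst
      rw [List.countP_cons]
      simp
    have h3 : ((xst (d :: s) : ℕ) : ℤ) = xst s + if d.1 ≠ 0 then 1 else 0 := by
      rw [h2]
      push_cast
      rfl
    rw [abs_le] at h1
    rw [wk_cons, List.mem_cons] at hu
    rcases hu with rfl | hu
    · rw [h3]
      constructor <;> omega
    · have := ih hs.cons.2 hu
      simp only [Prod.fst_add] at this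
      rw [h3]
      constructor <;> omega

/-- The second strand of a translated block. -/
private theorem sdB_add (v t : ℤ × ℤ) (π : PP) :
    sdB (v + t) π = (sdB v π).map (· + ((t.1, t.2, 0) : P3)) := by
  unfold sdB
  rw [List.map_reverse, map_wk]
  congr 2

private theorem pth_A (hg : Geo v π) :
    Pth (fun u => 1 ≤ u.2.2 ∧ u.2.2 ≤ hgt π ∧ u.1 ≤ xst π.1) (0, 0, 1)
      ((hz π.1.sum).1, (hz π.1.sum).2, hgt π) (sdA π) := by
  refine ⟨hg.block.nodupA, hg.block.chainA, ?_, hg.block.lastA, ?_⟩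
  · exact hg.block.headA
  · intro u hu
    have h1 := hg.block.levA u hu
    have h2 := wk_x hg.stA hu
    simp only [zero_add] at h1 h2
    exact ⟨h1.1, h1.2, h2.2⟩

private theorem pth_B (hg : Geo v π) :
    Pth (fun u => 1 ≤ u.2.2 ∧ u.2.2 ≤ hgt π ∧ v.1 - xst π.2 ≤ u.1)
      ((v + hz π.2.sum).1, (v + hz π.2.sum).2, hgt π) (v.1, v.2, 1) (sdB v π) := by
  refine ⟨hg.block.nodupB, hg.block.chainB, hg.block.headB, ?_, ?_⟩
  · exact hg.block.lastB
  · intro u hu
    have h1 := hg.block.levB u hu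
    have h2 := wk_x hg.stB (List.mem_reverse.1 hu)
    simp only [zero_add] at h1 h2
    exact ⟨h1.1, h1.2, h2.1⟩

/-! ### The geometric conditions for separated strands -/

private theorem leg_tr {t : ℤ × ℤ} {l : List P3} {c : ℤ × ℤ} {j : ℤ} :
    leg c j ∈ pedges (l.map (· + ((t.1, t.2, 0) : P3))) ↔ leg (c - t) j ∈ pedges l := by
  rw [pedges_map]
  have h : leg c j ∈ LK.shift ((t.1, t.2, 0) : P3) (pedges l) ↔ _ := mem_shift
  refine h.trans ?_
  have e1 : ((c.1, c.2, j) : P3) - (t.1, t.2, 0) = ((c - t).1, (c - t).2, j) := by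
    ext <;> simp
  have e2 : ((c.1, c.2, j + 1) : P3) - (t.1, t.2, 0) = ((c - t).1, (c - t).2, j + 1) := by
    ext <;> simp
  rw [e1, e2]
  rfl

private theorem legs_finite (l : List P3) (j : ℤ) : {c : ℤ × ℤ | leg c j ∈ pedges l}.Finite := by
  refine ((l.toFinset.finite_toSet).image fun u : P3 => (u.1, u.2.1)).subset ?_
  intro c hc
  refine ⟨(c.1, c.2, j), ?_, rfl⟩
  rw [Finset.mem_coe, List.mem_toFinset]
  exact (mem_of_mem_pedges hc).1

private theorem ncard_legs {p : ℤ} {A B : List P3} (hA : ∀ u ∈ A, u.1 ≤ p)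
    (hB : ∀ u ∈ B, p + 1 ≤ u.1) (j : ℤ) :
    {c | leg c j ∈ pedges A ∨ leg c j ∈ pedges B}.ncard =
      {c | leg c j ∈ pedges A}.ncard + {c | leg c j ∈ pedges B}.ncard := by
  rw [show {c | leg c j ∈ pedges A ∨ leg c j ∈ pedges B} =
    {c | leg c j ∈ pedges A} ∪ {c | leg c j ∈ pedges B} from rfl]
  refine Set.ncard_union_eq ?_ (legs_finite A j) (legs_finite B j)
  rw [Set.disjoint_left]
  intro c h1 h2
  have h3 := hA _ (mem_of_mem_pedges h1).1
  have h4 := hB _ (mem_of_mem_pedges h2).1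
  simp only at h3 h4
  omega

private theorem geo_x (hg : Geo v π) (h : ((xst π.1 + xst π.2 : ℕ) : ℤ) < v.1) {w : ℤ × ℤ}
    (hw : ((xst π.1 + xst π.2 : ℕ) : ℤ) < w.1) : Geo w π := by
  push_cast at h hw
  obtain ⟨t, rfl⟩ : ∃ t, w = v + t := ⟨w - v, by abel⟩
  have hA := pth_A hg
  have hB := pth_B hg
  have hB' : Pth (fun u => 1 ≤ u.2.2 ∧ u.2.2 ≤ hgt π ∧ (v + t).1 - xst π.2 ≤ u.1)
      ((v + t + hz π.2.sum).1, (v + t + hz π.2.sum).2, hgt π) ((v + t).1, (v + t).2, 1)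
      (sdB (v + t) π) := by
    rw [sdB_add]
    refine hB.tr _ ?_ ?_ ?_
    · ext <;> simp <;> ring
    · ext <;> simp
    · rintro u ⟨h1, h2, h3⟩
      refine ⟨?_, ?_, ?_⟩
      · simp only [Prod.snd_add]; omega
      · simp only [Prod.snd_add]; omega
      · simp only [Prod.fst_add]; omega
  refine ⟨?_, hg.stA, hg.stB, ?_, ?_⟩
  · intro h0
    rw [h0] at hw
    simp only [Prod.fst_zero] at hw
    omega
  · refine ⟨hg.block.lt, hA.nodup, hB'.nodup, ?_, hA.chain, hB'.chain, hA.head, hA.last, hB'.head,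
      hB'.last, fun u hu => ?_, fun u hu => ?_⟩
    · intro u hu hu'
      have h1 := (hA.mem u hu).2.2
      have h2 := (hB'.mem u hu').2.2
      omega
    · have := hA.mem u hu
      constructor <;> omega
    · have := hB'.mem u hu
      constructor <;> omega
  · intro j hj hj'
    have h1 := hg.thick j hj hj'
    have hA1 : ∀ u ∈ sdA π, u.1 ≤ (xst π.1 : ℤ) := fun u hu => (hA.mem u hu).2.2
    rw [ncard_legs hA1 (fun u hu => by have := (hB.mem u hu).2.2; omega)] at h1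
    rw [ncard_legs hA1 (fun u hu => by have := (hB'.mem u hu).2.2; omega)]
    have h2 : {c | leg c j ∈ pedges (sdB (v + t) π)}.ncard =
        {c | leg c j ∈ pedges (sdB v π)}.ncard := by
      rw [sdB_add]
      have e : {c : ℤ × ℤ | leg c j ∈ pedges ((sdB v π).map (· + ((t.1, t.2, 0) : P3)))} =
          (fun c => c + t) '' {c | leg c j ∈ pedges (sdB v π)} := by
        ext c
        rw [Set.mem_ofPred_eq, leg_tr]
        constructor
        · intro hc
          exact ⟨c - t, hc, by simp⟩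
        · rintro ⟨d, hd, rfl⟩
          simpa using hd
      rw [e]
      exact Set.ncard_image_of_injective _ (add_left_injective t)
    rw [h2]
    exact h1

/-! ### Cutting between the strands -/

private theorem last_A_le (hg : Geo v π) : (hz π.1.sum).1 ≤ xst π.1 :=
  ((pth_A hg).mem _ (List.mem_of_getLast? (pth_A hg).last)).2.2

private theorem head_B_le (hg : Geo v π) : v.1 - xst π.2 ≤ (v + hz π.2.sum).1 :=
  ((pth_B hg).mem _ (List.mem_of_mem_head? (pth_B hg).head)).2.2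

private theorem right_path {p : ℤ} (hg : Geo v π) (hp : p + 1 ≤ v.1 - xst π.2)
    {rR lR : List P3}
    (hrR : Pth (fun u => u.2.2 = hgt π + 1 ∧ p + 1 ≤ u.1) (p + 1, (hz π.1.sum).2, hgt π + 1)
      ((v + hz π.2.sum).1, (v + hz π.2.sum).2, hgt π + 1) rR)
    (hlR : Pth (fun u => u.2.2 = 0 ∧ p + 1 ≤ u.1) (v.1, v.2, 0) (p + 1, 0, 0) lR) :
    Pth (fun u => p + 1 ≤ u.1) (p + 1, (hz π.1.sum).2, hgt π + 1) (p + 1, 0, 0)
      (rR ++ (sdB v π ++ lR)) := by
  have hH := hg.block.lt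
  have h1 : Pth (fun u => u.2.2 ≤ hgt π ∧ p + 1 ≤ u.1)
      ((v + hz π.2.sum).1, (v + hz π.2.sum).2, hgt π) (p + 1, 0, 0) (sdB v π ++ lR) := by
    refine (pth_B hg).append hlR (by simp [Adj]) ?_ ?_ ?_
    · rintro u ⟨h1, -⟩ ⟨h2, -⟩
      omega
    · rintro u ⟨h1, h2, h3⟩
      exact ⟨h2, by omega⟩
    · rintro u ⟨h1, h2⟩
      exact ⟨by omega, h2⟩
  refine hrR.append h1 (by simp [Adj]) ?_ ?_ ?_
  · rintro u ⟨h2, -⟩ ⟨h3, -⟩
    omega
  · exact fun u hu => hu.2
  · exact fun u hu => hu.2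

private theorem sw_eq : sw = latIso 0 (0, 0, 1) (0, 1, 0) (1, 0, 0) := by
  funext u
  obtain ⟨x, y, z⟩ := u
  simp [sw, latIso]

private theorem sw_frame : Frame (0, 0, 1) (0, 1, 0) (1, 0, 0) := by
  constructor <;> simp [dot3]

private theorem ring_map_sw (c : List P3) : ring (c.map sw) = mapE sw (ring c) := by
  unfold ring
  rw [← pedges_map, List.map_append, List.getLast?_map]
  congr 2
  cases c.getLast? <;> rfl

private theorem sameType_sw (c : List P3) : SameType (ring c) (ring (c.map sw)) := by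
  rw [ring_map_sw, sw_eq]
  obtain ⟨G, -, hG, hseg⟩ := exists_latHomeo sw_frame 0
  exact ⟨G, (body_mapE G _ hG hseg _).symm⟩

/-- The class of a block in terms of the upper and the lower half without translation. -/
private theorem cls_iff' (hT : TypeClosed T) (hg : Geo v π) {l r : List P3} (hl : LU 0 0 v l)
    (hr : UU (hgt π) (hz π.1.sum) (v + hz π.2.sum) r) :
    Cls T v π ↔ T (ring (r ++ (sdB v π ++ (l ++ sdA π)))) := by
  set t : P3 := (-(π.1.sum.1), -(π.1.sum.2.1), -(hgt π)) with ht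
  have h1 := hr.shift t
  have e1 : csh t (hz π.1.sum) = 0 := by simp [csh, ht, hz]
  have e2 : csh t (v + hz π.2.sum) = v + dsp π := by
    ext <;> simp [csh, ht, hz, dsp] <;> ring
  have e3 : hgt π + t.2.2 = 0 := by simp [ht]
  rw [e1, e2, e3] at h1
  rw [cls_iff hT hg hl (LU_flp h1), flp_flp]
  exact map_T (l := sdB v π ++ (l ++ sdA π)) hT t

/-- **The block, cut between the strands.** -/
private theorem key (hT : TypeClosed T) (hg : Geo v π)
    (h : ((xst π.1 + xst π.2 : ℕ) : ℤ) < v.1) {p : ℤ}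
    (hp : p = xst π.1) {rL lL rR lR : List P3}
    (hrL : Pth (fun u => u.2.2 = hgt π + 1 ∧ u.1 ≤ p)
      ((hz π.1.sum).1, (hz π.1.sum).2, hgt π + 1) (p, (hz π.1.sum).2, hgt π + 1) rL)
    (hlL : Pth (fun u => u.2.2 = 0 ∧ u.1 ≤ p) (p, 0, 0) (0, 0, 0) lL)
    (hrR : Pth (fun u => u.2.2 = hgt π + 1 ∧ p + 1 ≤ u.1) (p + 1, (hz π.1.sum).2, hgt π + 1)
      ((v + hz π.2.sum).1, (v + hz π.2.sum).2, hgt π + 1) rR)
    (hlR : Pth (fun u => u.2.2 = 0 ∧ p + 1 ≤ u.1) (v.1, v.2, 0) (p + 1, 0, 0) lR) :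
    (Cls T v π ↔
      T (ring ((rR ++ (sdB v π ++ lR)).map sw ++ (lL ++ (sdA π ++ rL)).map sw))) ∧
      Lower p (hgt π + 1, (hz π.1.sum).2) (0, 0) ((lL ++ (sdA π ++ rL)).map sw) := by
  push_cast at h
  have hA := pth_A hg
  have hH := hg.block.lt
  have hab : (0 : ℤ × ℤ) ≠ v := hg.ne.symm
  have hab' : hz π.1.sum ≠ v + hz π.2.sum := by
    intro he
    have h1 := last_A_le hg
    have h2 := head_B_le hg
    rw [← he] at h2
    omega
  have hr : Pth (fun u => u.2.2 = hgt π + 1) ((hz π.1.sum).1, (hz π.1.sum).2, hgt π + 1)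
      ((v + hz π.2.sum).1, (v + hz π.2.sum).2, hgt π + 1) (rL ++ rR) := by
    refine hrL.append hrR (by simp [Adj]) ?_ (fun u hu => hu.1) (fun u hu => hu.1)
    rintro u ⟨-, h1⟩ ⟨-, h2⟩
    omega
  have hl : Pth (fun u => u.2.2 = 0) (v.1, v.2, 0) ((0 : ℤ × ℤ).1, (0 : ℤ × ℤ).2, 0)
      (lR ++ lL) := by
    refine hlR.append hlL (by simp [Adj]) ?_ (fun u hu => hu.1) (fun u hu => hu.1)
    rintro u ⟨-, h1⟩ ⟨-, h2⟩
    omega
  have hR := right_path (p := p) hg (by omega) hrR hlR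
  have hL : Pth (fun u => u.1 ≤ p) (p, 0, 0) (p, (hz π.1.sum).2, hgt π + 1)
      (lL ++ (sdA π ++ rL)) := by
    have h1 : Pth (fun u => 1 ≤ u.2.2 ∧ u.1 ≤ p) (0, 0, 1) (p, (hz π.1.sum).2, hgt π + 1)
        (sdA π ++ rL) := by
      refine hA.append hrL (by simp [Adj]) ?_ ?_ ?_
      · rintro u ⟨h1, h2, -⟩ ⟨h3, -⟩
        omega
      · rintro u ⟨h1, h2, h3⟩
        exact ⟨h1, by omega⟩
      · rintro u ⟨h1, h2⟩
        exact ⟨by omega, h2⟩
    refine hlL.append h1 (by simp [Adj]) ?_ (fun u hu => hu.2) (fun u hu => hu.2)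
    rintro u ⟨h2, -⟩ ⟨h3, -⟩
    omega
  refine ⟨?_, Pth.lower (hL.map (Q := fun u => u.2.2 ≤ p) sw_injective adj_sw fun u hu => hu)
      fun u hu => hu⟩
  rw [cls_iff' hT hg (flat_LU hab hl fun u hu => hu) (flat_UU hab' hr fun u hu => hu)]
  have hrot : ring ((rL ++ rR) ++ (sdB v π ++ ((lR ++ lL) ++ sdA π))) =
      ring ((rR ++ (sdB v π ++ lR)) ++ (lL ++ (sdA π ++ rL))) := by
    have e1 : (rL ++ rR) ++ (sdB v π ++ ((lR ++ lL) ++ sdA π)) =
        rL ++ ((rR ++ (sdB v π ++ lR)) ++ (lL ++ sdA π)) := by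
      simp only [List.append_assoc]
    have h1 : rL ≠ [] := by
      intro h0
      have := hrL.head
      rw [h0] at this
      simp at this
    have h2 : (rR ++ (sdB v π ++ lR)) ++ (lL ++ sdA π) ≠ [] := by
      intro h0
      have := hR.head
      rw [(List.append_eq_nil_iff.1 h0).1] at this
      simp at this
    rw [e1, ring_comm h1 h2]
    simp only [List.append_assoc]
  rw [hrot, ← List.map_append]
  exact ⟨hT _ _ (sameType_sw _), hT _ _ (sameType_sw _).symm⟩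

private theorem map_sw_add (l : List P3) (t : P3) :
    (l.map (· + t)).map sw = (l.map sw).map (· + sw t) := by
  rw [List.map_map, List.map_map]
  rfl

/-- The left paths. -/
private theorem exists_left (hg : Geo v π) : ∃ rL lL,
    Pth (fun u => u.2.2 = hgt π + 1 ∧ u.1 ≤ (xst π.1 : ℤ))
      ((hz π.1.sum).1, (hz π.1.sum).2, hgt π + 1) ((xst π.1 : ℤ), (hz π.1.sum).2, hgt π + 1) rL ∧
    Pth (fun u => u.2.2 = 0 ∧ u.1 ≤ (xst π.1 : ℤ)) ((xst π.1 : ℤ), 0, 0) (0, 0, 0) lL := by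
  obtain ⟨rL, hrL⟩ := exists_xline (hz π.1.sum).2 (hgt π + 1) (last_A_le hg)
  obtain ⟨lL, hlL⟩ := exists_xline 0 0 (a := 0) (b := (xst π.1 : ℤ)) (by positivity)
  exact ⟨rL, lL.reverse, hrL.mono fun u hu => ⟨hu.2.2.2, hu.2.1⟩,
    (hlL.mono fun u hu => ⟨hu.2.2.2, hu.2.1⟩).rev⟩

private theorem exists_right (c y y' z : ℤ) {b : ℤ} (hb : c ≤ b) :
    ∃ l, Pth (fun u => u.2.2 = z ∧ c ≤ u.1) (c, y, z) (b, y', z) l := by
  obtain ⟨l, hl⟩ := exists_yline c z y y'
  rcases eq_or_lt_of_le hb with rfl | h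
  · exact ⟨l, hl.mono fun u hu => ⟨hu.2, hu.1.ge⟩⟩
  · obtain ⟨m, hm⟩ := exists_xline y' z (a := c + 1) (b := b) (by omega)
    refine ⟨l ++ m, hl.append hm (by simp [Adj]) ?_ ?_ ?_⟩
    · rintro u ⟨h1, -⟩ ⟨h2, -⟩
      omega
    · exact fun u hu => ⟨hu.2, hu.1.ge⟩
    · rintro u ⟨h1, -, -, h4⟩
      exact ⟨h4, by omega⟩

/-- A straight layer below an upper half. -/
private theorem sim_shift {k : ℤ} {a b : ℤ × ℤ} {A B r : List P3}
    (hb : Block k (k + 1) a b a b A B) (hr : Upper k a b r) :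
    Sim k a b r (A ++ (r.map (· + ((0, 0, 1) : P3)) ++ B)) := by
  have hcs : ∀ c : ℤ × ℤ, csh (0, 0, 1) c = c := fun c => by
    ext <;> simp [csh]
  have hr1 := hr.shift (0, 0, 1)
  rw [hcs, hcs] at hr1
  refine ⟨hr, hb.upper hr1, fun T hT l hl => ?_⟩
  have hl1 := hl.shift (0, 0, 1)
  rw [hcs, hcs] at hl1
  rw [thin_T hT hb hr1 hl hl1, map_T hT]

/-- Thin layers below translated upper halves. -/
private theorem sim_of_blocks {k : ℤ} {a b a1 b1 a2 b2 : ℤ × ℤ} {A1 B1 A2 B2 r : List P3} (t : P3)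
    (ht : t.2.2 = 0) (e1 : csh t a1 = a2) (e2 : csh t b1 = b2)
    (hb1 : Block k (k + 1) a b a1 b1 A1 B1) (hb2 : Block k (k + 1) a b a2 b2 A2 B2)
    (hab1 : a1 ≠ b1) (hr : Upper (k + 1) a1 b1 r) :
    Sim k a b (A1 ++ (r ++ B1)) (A2 ++ (r.map (· + t) ++ B2)) := by
  subst e1 e2
  have hr1 := hr.shift t
  rw [ht, add_zero] at hr1
  refine ⟨hb1.upper hr, hb2.upper hr1, fun T hT l hl => ?_⟩
  obtain ⟨l1, hl1⟩ := exists_LU' (k := k + 1) hab1
  have hl2 := hl1.shift t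
  rw [ht, add_zero] at hl2
  rw [thin_T hT hb1 hr hl hl1, thin_T hT hb2 hr1 hl hl2, map_T hT]

/-- Translation in the direction of the first coordinate. -/
private theorem stepX (hT : PrimeCl T) (hg : Geo v π)
    (h : ((xst π.1 + xst π.2 : ℕ) : ℤ) < v.1) : Cls T v π ↔ Cls T (v + (1, 0)) π := by
  have h' : ((xst π.1 + xst π.2 : ℕ) : ℤ) < (v + (1, 0)).1 := by
    simp only [Prod.fst_add]
    omega
  have hg' : Geo (v + (1, 0)) π := geo_x hg h h'
  obtain ⟨rL, lL, hrL, hlL⟩ := exists_left hg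
  have hh := h
  push_cast at hh
  have hH := hg.block.lt
  have hb1 := head_B_le hg
  obtain ⟨rR, hrR⟩ := exists_right ((xst π.1 : ℤ) + 1) (hz π.1.sum).2 (v + hz π.2.sum).2 (hgt π + 1)
    (b := (v + hz π.2.sum).1) (by omega)
  obtain ⟨lR', hlR'⟩ := exists_right ((xst π.1 : ℤ) + 1) 0 v.2 0 (b := v.1) (by omega)
  obtain ⟨lR, hlR⟩ : ∃ lR, Pth (fun u => u.2.2 = 0 ∧ (xst π.1 : ℤ) + 1 ≤ u.1) (v.1, v.2, 0)
    ((xst π.1 : ℤ) + 1, 0, 0) lR := ⟨_, hlR'.rev⟩
  set p : ℤ := (xst π.1 : ℤ) with hp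
  have hR := right_path (p := p) hg (by omega) hrR hlR
  -- the new paths
  have hrR2 : Pth (fun u => u.2.2 = hgt π + 1 ∧ p + 1 ≤ u.1) (p + 1, (hz π.1.sum).2, hgt π + 1)
      ((v + (1, 0) + hz π.2.sum).1, (v + (1, 0) + hz π.2.sum).2, hgt π + 1)
      ([(p + 1, (hz π.1.sum).2, hgt π + 1)] ++ rR.map (· + ((1, 0, 0) : P3))) := by
    have h1 : Pth (fun u => u.2.2 = hgt π + 1 ∧ p + 2 ≤ u.1) (p + 1 + 1, (hz π.1.sum).2, hgt π + 1)
        ((v + (1, 0) + hz π.2.sum).1, (v + (1, 0) + hz π.2.sum).2, hgt π + 1)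
        (rR.map (· + ((1, 0, 0) : P3))) := by
      refine hrR.tr _ ?_ ?_ ?_
      · ext <;> simp
      · ext <;> simp <;> ring
      · rintro u ⟨h1, h2⟩
        refine ⟨?_, ?_⟩
        · simp only [Prod.snd_add]; omega
        · simp only [Prod.fst_add]; omega
    refine (pth_single (P := fun u => u = (p + 1, (hz π.1.sum).2, hgt π + 1)) rfl).append h1
      (by simp [Adj]) ?_ ?_ ?_
    · rintro u rfl ⟨-, h2⟩
      simp only at h2
      omega
    · rintro u rfl
      exact ⟨rfl, le_rfl⟩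
    · rintro u ⟨h2, h3⟩
      exact ⟨h2, by omega⟩
  have hlR2 : Pth (fun u => u.2.2 = 0 ∧ p + 1 ≤ u.1) ((v + (1, 0)).1, (v + (1, 0)).2, 0)
      (p + 1, 0, 0) (lR.map (· + ((1, 0, 0) : P3)) ++ [(p + 1, 0, 0)]) := by
    have h1 : Pth (fun u => u.2.2 = 0 ∧ p + 2 ≤ u.1) ((v + (1, 0)).1, (v + (1, 0)).2, 0)
        (p + 1 + 1, 0, 0) (lR.map (· + ((1, 0, 0) : P3))) := by
      refine hlR.tr _ ?_ ?_ ?_
      · ext <;> simp
      · ext <;> simp
      · rintro u ⟨h1, h2⟩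
        refine ⟨?_, ?_⟩
        · simp only [Prod.snd_add]; omega
        · simp only [Prod.fst_add]; omega
    refine h1.append (pth_single (P := fun u => u = (p + 1, 0, 0)) rfl) (by simp [Adj]) ?_ ?_ ?_
    · rintro u ⟨-, h2⟩ rfl
      simp only at h2
      omega
    · rintro u ⟨h2, h3⟩
      exact ⟨h2, by omega⟩
    · rintro u rfl
      exact ⟨rfl, le_rfl⟩
  have hlow := (key hT.closed hg h hp hrL hlL hrR hlR).2
  rw [(key hT.closed hg h hp hrL hlL hrR hlR).1, (key hT.closed hg' h' hp hrL hlL hrR2 hlR2).1]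
  have hlist : (([(p + 1, (hz π.1.sum).2, hgt π + 1)] ++ rR.map (· + ((1, 0, 0) : P3))) ++
      (sdB (v + (1, 0)) π ++ (lR.map (· + ((1, 0, 0) : P3)) ++ [(p + 1, 0, 0)]))).map sw =
      [(hgt π + 1, (hz π.1.sum).2, p + 1)] ++
        (((rR ++ (sdB v π ++ lR)).map sw).map (· + ((0, 0, 1) : P3)) ++ [(0, 0, p + 1)]) := by
    rw [sdB_add]
    have e := map_sw_add (rR ++ (sdB v π ++ lR)) (1, 0, 0)
    rw [show sw (1, 0, 0) = (0, 0, 1) from rfl] at e
    rw [← e]
    simp only [List.map_append, List.append_assoc]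
    rfl
  rw [hlist]
  have hU : Upper p (hgt π + 1, (hz π.1.sum).2) (0, 0) ((rR ++ (sdB v π ++ lR)).map sw) :=
    Pth.upper (hR.map (Q := fun u => p + 1 ≤ u.2.2) sw_injective adj_sw fun u hu => hu)
      fun u hu => hu
  have hne : ((hgt π + 1, (hz π.1.sum).2) : ℤ × ℤ) ≠ (0, 0) := by
    intro h0
    have := congrArg Prod.fst h0
    simp only at this
    omega
  have hb : Block p (p + 1) (hgt π + 1, (hz π.1.sum).2) (0, 0) (hgt π + 1, (hz π.1.sum).2) (0, 0)
      [(hgt π + 1, (hz π.1.sum).2, p + 1)] [(0, 0, p + 1)] := by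
    refine ⟨by omega, by simp, by simp, ?_, by simp, by simp, rfl, rfl, rfl, rfl, ?_, ?_⟩
    · intro u hu hu'
      rw [List.mem_singleton] at hu hu'
      rw [hu] at hu'
      have := congrArg Prod.fst hu'
      simp only at this
      omega
    · intro u hu
      rw [List.mem_singleton] at hu
      rw [hu]
      exact ⟨le_rfl, le_rfl⟩
    · intro u hu
      rw [List.mem_singleton] at hu
      rw [hu]
      exact ⟨le_rfl, le_rfl⟩
  exact (sim_shift hb hU).iff hT hne hlow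

/-- The room for the detour in the second direction. -/
private theorem keyY (hT : TypeClosed T) (hg : Geo v π)
    (h : ((xst π.1 + xst π.2 : ℕ) : ℤ) + 1 < v.1) {p : ℤ}
    (hp : p = xst π.1) {rL lL s1 s2 : List P3}
    (hrL : Pth (fun u => u.2.2 = hgt π + 1 ∧ u.1 ≤ p)
      ((hz π.1.sum).1, (hz π.1.sum).2, hgt π + 1) (p, (hz π.1.sum).2, hgt π + 1) rL)
    (hlL : Pth (fun u => u.2.2 = 0 ∧ u.1 ≤ p) (p, 0, 0) (0, 0, 0) lL)
    (hs1 : Pth (fun u => u.2.2 = hgt π + 1 ∧ p + 1 + 1 ≤ u.1)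
      (p + 1 + 1, (v + hz π.2.sum).2, hgt π + 1)
      ((v + hz π.2.sum).1, (v + hz π.2.sum).2, hgt π + 1) s1)
    (hs2 : Pth (fun u => u.2.2 = 0 ∧ p + 1 + 1 ≤ u.1) (v.1, v.2, 0) (p + 1 + 1, v.2, 0) s2) :
    ∃ A B, Block p (p + 1) (hgt π + 1, (hz π.1.sum).2) (0, 0)
        (hgt π + 1, (v + hz π.2.sum).2) (0, v.2) A B ∧
      Upper (p + 1) (hgt π + 1, (v + hz π.2.sum).2) (0, v.2)
        ((s1 ++ (sdB v π ++ s2)).map sw) ∧
      (Cls T v π ↔ T (ring ((A ++ ((s1 ++ (sdB v π ++ s2)).map sw ++ B)) ++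
        (lL ++ (sdA π ++ rL)).map sw))) ∧
      Lower p (hgt π + 1, (hz π.1.sum).2) (0, 0) ((lL ++ (sdA π ++ rL)).map sw) := by
  have hh := h
  push_cast at hh
  have hH := hg.block.lt
  obtain ⟨J, hJ⟩ := exists_yline (p + 1) (hgt π + 1) (hz π.1.sum).2 (v + hz π.2.sum).2
  obtain ⟨J', hJ'⟩ := exists_yline (p + 1) 0 v.2 0
  have hrR : Pth (fun u => u.2.2 = hgt π + 1 ∧ p + 1 ≤ u.1) (p + 1, (hz π.1.sum).2, hgt π + 1)
      ((v + hz π.2.sum).1, (v + hz π.2.sum).2, hgt π + 1) (J ++ s1) := by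
    refine hJ.append hs1 (by simp [Adj]) ?_ ?_ ?_
    · rintro u ⟨h1, -⟩ ⟨-, h2⟩
      omega
    · exact fun u hu => ⟨hu.2, hu.1.ge⟩
    · rintro u ⟨h1, h2⟩
      exact ⟨h1, by omega⟩
  have hlR : Pth (fun u => u.2.2 = 0 ∧ p + 1 ≤ u.1) (v.1, v.2, 0) (p + 1, 0, 0) (s2 ++ J') := by
    refine hs2.append hJ' (by simp [Adj]) ?_ ?_ ?_
    · rintro u ⟨-, h2⟩ ⟨h1, -⟩
      omega
    · rintro u ⟨h1, h2⟩
      exact ⟨h1, by omega⟩
    · exact fun u hu => ⟨hu.2, hu.1.ge⟩
  obtain ⟨hkey, hlow⟩ := key hT hg (by omega) hp hrL hlL hrR hlR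
  have hlist : ((J ++ s1) ++ (sdB v π ++ (s2 ++ J'))).map sw =
      J.map sw ++ ((s1 ++ (sdB v π ++ s2)).map sw ++ J'.map sw) := by
    simp only [List.map_append, List.append_assoc]
  rw [hlist] at hkey
  have hS : Pth (fun u => p + 1 + 1 ≤ u.1) (p + 1 + 1, (v + hz π.2.sum).2, hgt π + 1)
      (p + 1 + 1, v.2, 0) (s1 ++ (sdB v π ++ s2)) := by
    have h1 : Pth (fun u => u.2.2 ≤ hgt π ∧ p + 1 + 1 ≤ u.1)
        ((v + hz π.2.sum).1, (v + hz π.2.sum).2, hgt π) (p + 1 + 1, v.2, 0) (sdB v π ++ s2) := by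
      refine (pth_B hg).append hs2 (by simp [Adj]) ?_ ?_ ?_
      · rintro u ⟨h1, -⟩ ⟨h2, -⟩
        omega
      · rintro u ⟨h1, h2, h3⟩
        exact ⟨h2, by omega⟩
      · rintro u ⟨h1, h2⟩
        exact ⟨by omega, h2⟩
    refine hs1.append h1 (by simp [Adj]) ?_ ?_ ?_
    · rintro u ⟨h2, -⟩ ⟨h3, -⟩
      omega
    · exact fun u hu => hu.2
    · exact fun u hu => hu.2
  have hU : Upper (p + 1) (hgt π + 1, (v + hz π.2.sum).2) (0, v.2)
      ((s1 ++ (sdB v π ++ s2)).map sw) :=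
    Pth.upper (hS.map (Q := fun u => p + 1 + 1 ≤ u.2.2) sw_injective adj_sw fun u hu => hu)
      fun u hu => hu
  have hJs := hJ.map (Q := fun u => u.2.2 = p + 1 ∧ u.1 = hgt π + 1) sw_injective adj_sw
    fun u hu => hu
  have hJs' := hJ'.map (Q := fun u => u.2.2 = p + 1 ∧ u.1 = 0) sw_injective adj_sw fun u hu => hu
  have hb : Block p (p + 1) (hgt π + 1, (hz π.1.sum).2) (0, 0)
      (hgt π + 1, (v + hz π.2.sum).2) (0, v.2) (J.map sw) (J'.map sw) := by
    refine ⟨by omega, hJs.nodup, hJs'.nodup, ?_, hJs.chain, hJs'.chain, hJs.head, hJs.last,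
      hJs'.head, hJs'.last, ?_, ?_⟩
    · intro u hu hu'
      have h1 := (hJs.mem u hu).2
      have h2 := (hJs'.mem u hu').2
      omega
    · intro u hu
      have h1 := (hJs.mem u hu).1
      constructor <;> omega
    · intro u hu
      have h1 := (hJs'.mem u hu).1
      constructor <;> omega
  exact ⟨_, _, hb, hU, hkey, hlow⟩

/-- Translation in the direction of the second coordinate. -/
private theorem stepY (hT : PrimeCl T) (hg : Geo v π)
    (h : ((xst π.1 + xst π.2 : ℕ) : ℤ) + 1 < v.1) (t : ℤ) :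
    Cls T v π ↔ Cls T (v + (0, t)) π := by
  have h' : ((xst π.1 + xst π.2 : ℕ) : ℤ) + 1 < (v + (0, t)).1 := by
    simp only [Prod.fst_add]
    omega
  have hg' : Geo (v + (0, t)) π := geo_x hg (by omega) (by omega)
  obtain ⟨rL, lL, hrL, hlL⟩ := exists_left hg
  have hh := h
  push_cast at hh
  have hb1 := head_B_le hg
  obtain ⟨s1, hs1'⟩ := exists_xline (v + hz π.2.sum).2 (hgt π + 1) (a := (xst π.1 : ℤ) + 1 + 1)
    (b := (v + hz π.2.sum).1) (by omega)
  obtain ⟨s2', hs2'⟩ := exists_xline v.2 0 (a := (xst π.1 : ℤ) + 1 + 1) (b := v.1) (by omega)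
  obtain ⟨s2, hs2⟩ : ∃ s2, Pth (fun u => u.2.2 = 0 ∧ (xst π.1 : ℤ) + 1 + 1 ≤ u.1) (v.1, v.2, 0)
    ((xst π.1 : ℤ) + 1 + 1, v.2, 0) s2 :=
    ⟨_, (hs2'.mono fun u hu => ⟨hu.2.2.2, hu.1⟩).rev⟩
  set p : ℤ := (xst π.1 : ℤ) with hp
  have hs1 : Pth (fun u => u.2.2 = hgt π + 1 ∧ p + 1 + 1 ≤ u.1)
      (p + 1 + 1, (v + hz π.2.sum).2, hgt π + 1)
      ((v + hz π.2.sum).1, (v + hz π.2.sum).2, hgt π + 1) s1 :=
    hs1'.mono fun u hu => ⟨hu.2.2.2, hu.1⟩
  have ht1 : Pth (fun u => u.2.2 = hgt π + 1 ∧ p + 1 + 1 ≤ u.1)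
      (p + 1 + 1, (v + (0, t) + hz π.2.sum).2, hgt π + 1)
      ((v + (0, t) + hz π.2.sum).1, (v + (0, t) + hz π.2.sum).2, hgt π + 1)
      (s1.map (· + ((0, t, 0) : P3))) := by
    refine hs1.tr _ ?_ ?_ ?_
    · ext <;> simp <;> ring
    · ext <;> simp <;> ring
    · rintro u ⟨h1, h2⟩
      refine ⟨?_, ?_⟩
      · simp only [Prod.snd_add]; omega
      · simp only [Prod.fst_add]; omega
  have ht2 : Pth (fun u => u.2.2 = 0 ∧ p + 1 + 1 ≤ u.1) ((v + (0, t)).1, (v + (0, t)).2, 0)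
      (p + 1 + 1, (v + (0, t)).2, 0) (s2.map (· + ((0, t, 0) : P3))) := by
    refine hs2.tr _ ?_ ?_ ?_
    · ext <;> simp
    · ext <;> simp
    · rintro u ⟨h1, h2⟩
      refine ⟨?_, ?_⟩
      · simp only [Prod.snd_add]; omega
      · simp only [Prod.fst_add]; omega
  obtain ⟨A1, B1, hb1, hU1, hk1, hlow⟩ := keyY hT.closed hg h hp hrL hlL hs1 hs2
  obtain ⟨A2, B2, hb2, hU2, hk2, -⟩ := keyY hT.closed hg' h' hp hrL hlL ht1 ht2
  have hlist : (s1.map (· + ((0, t, 0) : P3)) ++ (sdB (v + (0, t)) π ++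
      s2.map (· + ((0, t, 0) : P3)))).map sw =
      ((s1 ++ (sdB v π ++ s2)).map sw).map (· + ((0, t, 0) : P3)) := by
    rw [sdB_add]
    have e := map_sw_add (s1 ++ (sdB v π ++ s2)) (0, t, 0)
    rw [show sw (0, t, 0) = (0, t, 0) from rfl] at e
    rw [← e]
    simp only [List.map_append]
  rw [hlist] at hk2
  have e1 : csh (0, t, 0) (hgt π + 1, (v + hz π.2.sum).2) =
      (hgt π + 1, (v + (0, t) + hz π.2.sum).2) := by
    ext <;> simp [csh] <;> ring
  have e2 : csh (0, t, 0) (0, v.2) = (0, (v + (0, t)).2) := by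
    ext <;> simp [csh]
  have hne : ∀ y y' : ℤ, ((hgt π + 1, y) : ℤ × ℤ) ≠ (0, y') := by
    intro y y' h0
    have := congrArg Prod.fst h0
    have hH := hg.block.lt
    simp only at this
    omega
  rw [hk1, hk2]
  exact (sim_of_blocks (0, t, 0) rfl e1 e2 hb1 hb2 (hne _ _) hU1).iff hT (hne _ _) hlow

private theorem stepXn (hT : PrimeCl T) (n : ℕ) : ∀ {w : ℤ × ℤ}, Geo w π →
    ((xst π.1 + xst π.2 : ℕ) : ℤ) < w.1 → (Cls T w π ↔ Cls T (w + ((n : ℤ), 0)) π) := by
  induction n with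
  | zero =>
    intro w _ _
    have : w + (((0 : ℕ) : ℤ), 0) = w := by ext <;> simp
    rw [this]
  | succ n ih =>
    intro w hg hw
    have h1 : ((xst π.1 + xst π.2 : ℕ) : ℤ) < (w + ((n : ℤ), 0)).1 := by
      simp only [Prod.fst_add]
      omega
    have hg1 : Geo (w + ((n : ℤ), 0)) π := geo_x hg hw h1
    rw [ih hg hw, stepX hT hg1 h1]
    have : w + ((n : ℤ), 0) + (1, 0) = w + (((n + 1 : ℕ) : ℤ), 0) := by
      ext <;> simp <;> ring
    rw [this]

/-- **Separated strands.** -/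
theorem cls_x (hT : PrimeCl T) (hg : Geo v π) (hg' : Geo v' π)
    (h : ((xst π.1 + xst π.2 : ℕ) : ℤ) < v.1) (h' : ((xst π.1 + xst π.2 : ℕ) : ℤ) < v'.1)
    (hU : Cls T v π) : Cls T v' π := by
  obtain ⟨n, n', hn, hnn, hn1⟩ : ∃ n n' : ℕ, v.1 + n = v'.1 + n' ∧
      ((xst π.1 + xst π.2 : ℕ) : ℤ) + 1 < v.1 + n ∧ True :=
    ⟨(v'.1 - v.1).toNat + 1, (v.1 - v'.1).toNat + 1, by omega, by omega, trivial⟩
  have h1 : ((xst π.1 + xst π.2 : ℕ) : ℤ) + 1 < (v + ((n : ℤ), 0)).1 := by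
    simp only [Prod.fst_add]
    omega
  have h2 : Geo (v + ((n : ℤ), 0)) π := geo_x hg h (by omega)
  have h3 : v + ((n : ℤ), 0) + (0, v'.2 - v.2) = v' + ((n' : ℤ), 0) := by
    ext
    · simpa using hn
    · simp
  rw [stepXn hT n' hg' h', ← h3, ← stepY hT h2 h1, ← stepXn hT n hg h]
  exact hU

end Pool.Agent.KAmp
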