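import Pool.Agent.KAmp.Prime
import Pool.Agent.KAsym.Final
import Pool.Agent.KTen.FinalG

/-! KP21, KP22: the amplitude of a prime knot type. -/

set_option autoImplicit false

open Pool.Agent.LK Filter Topology
open scoped ENNReal

namespace Pool.Agent.KAmp

open Pool.Agent.KTube Pool.Agent.KRing Pool.Agent.KLog
open Pool.Agent.KTen (Zt)

variable {y : ℝ}

theorem primeCl_type {K : Finset (Sym2 P3)} (hK : PrimeKnot K) : PrimeCl (SameType K) := by
  obtain ⟨-, hU, hF⟩ := KTen.primeKnot_iff.1 hK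
  exact ⟨typeClosed_type K, fun E hE => KTen.hinv_few 1 K E hE hF,
    fun E hE h => hU (hE.unknotted h)⟩

/-- A sequence that is close to constants and bounded from below converges. -/
private theorem fin_cauchy {a : ℕ → ℝ} {δ : ℝ} (hδ : 0 < δ) (hlow : ∀ᶠ k in atTop, δ ≤ a k)
    (happ : ∀ ε : ℝ, 0 < ε → ∃ b : ℝ, ∀ᶠ k in atTop, |a k - b| ≤ ε) :
    ∃ A : ℝ, 0 < A ∧ Tendsto a atTop (𝓝 A) := by
  have hc : CauchySeq a := by
    refine Metric.cauchySeq_iff'.2 fun ε hε => ?_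
    obtain ⟨b, hb⟩ := happ (ε / 3) (by positivity)
    obtain ⟨N, hN⟩ := eventually_atTop.1 hb
    refine ⟨N, fun n hn => ?_⟩
    have h1 := abs_le.1 (hN n hn)
    have h2 := abs_le.1 (hN N le_rfl)
    rw [Real.dist_eq, abs_lt]
    constructor <;> linarith [h1.1, h1.2, h2.1, h2.2]
  obtain ⟨A, hA⟩ := cauchySeq_tendsto_of_complete hc
  exact ⟨A, hδ.trans_le (ge_of_tendsto hA hlow), hA⟩

/-- The polygons of type `K` whose knotted part is not a short block. -/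
private theorem fin_diff (hy : 10 ^ 24 ≤ y) {K : Finset (Sym2 P3)} (hK : PrimeKnot K) :
    ∃ B : ℝ, 0 ≤ B ∧ ∀ j : ℕ, ∃ C : ℝ, 0 ≤ C ∧ ∃ n0 : ℕ, ∀ n ≥ n0,
      Zt y (fun E => SameType K E ∧ MidAt E j) n ≤ Zt y (KClass K) n ∧
      Zt y (KClass K) n ≤ Zt y (fun E => SameType K E ∧ MidAt E j) n +
        (B * (1 / 2) ^ j * n + C) * Zt y UClass n := by
  have hy0 : 0 ≤ y := le_trans (by norm_num) hy
  have hy1 : 4096 ≤ y := le_trans (by norm_num) hy
  have hx : (10 : ℝ) ^ 4 ≤ Real.sqrt y := by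
    refine Real.le_sqrt_of_sq_le (le_trans ?_ hy)
    norm_num
  obtain ⟨B, hB, n1, h1⟩ := KTen.localisation hx hK
  rw [Real.sq_sqrt hy0] at h1
  obtain ⟨D, hD, h2⟩ := few_le hy1 1
  refine ⟨B * D, mul_nonneg hB hD, fun j => ?_⟩
  obtain ⟨C, hC, n2, h3⟩ := caps_le hy1 j
  refine ⟨C, hC, max n1 n2, fun n hn => ⟨?_, ?_⟩⟩
  · exact KTen.zt_mono hy0 (fun E hE h => ⟨hE, h.1⟩) n
  · have e1 := KTen.zt_le_add hy0 (KClass K) (fun E => SameType K E ∧ MidAt E j) n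
    have e2 := KTen.zt_le_add hy0 (fun F => KClass K F ∧ ¬ (SameType K F ∧ MidAt F j))
      (fun E => KClass K E ∧ ¬ KTen.LocAt E j) n
    have e3 : Zt y (fun F => (KClass K F ∧ ¬ (SameType K F ∧ MidAt F j)) ∧
        ¬ (KClass K F ∧ ¬ KTen.LocAt F j)) n ≤
        Zt y (fun E => KTen.LocAt E j ∧ ¬ MidAt E j) n := by
      refine KTen.zt_mono hy0 (fun E hE h => ?_) n
      obtain ⟨⟨h4, h5⟩, h6⟩ := h
      refine ⟨?_, fun h7 => h5 ⟨h4.2, h7⟩⟩
      by_contra h7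
      exact h6 ⟨h4, h7⟩
    have e4 := h1 n (le_trans (le_max_left _ _) hn) j
    have e5 := h3 n (le_trans (le_max_right _ _) hn)
    have e6 : Zt y (KClass K) n ≤ Zt y (KTen.Few 1) n :=
      KTen.zt_mono hy0 (fun E _ h => (primeCl_type hK).few E h.2) n
    have e7 := h2 n
    rw [pow_one] at e7
    have e8 : B * (1 / 2) ^ j * Zt y (KClass K) n ≤
        B * (1 / 2) ^ j * (D * n * Zt y UClass n) :=
      mul_le_mul_of_nonneg_left (e6.trans e7) (by positivity)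
    calc Zt y (KClass K) n ≤ Zt y (fun E => SameType K E ∧ MidAt E j) n +
          (B * (1 / 2) ^ j * (D * n * Zt y UClass n) + C * Zt y UClass n) := by linarith
      _ = _ := by ring

/-- KP21: **The amplitude of a prime knot.** -/
theorem prime_lim (hy : 10 ^ 24 ≤ y) {K : Finset (Sym2 P3)} (hK : PrimeKnot K) :
    ∃ A : ℝ, 0 < A ∧ Tendsto (fun k : ℕ => Zt y (KClass K) (2 * k) /
      (((2 * k : ℕ) : ℝ) * Zt y UClass (2 * k))) atTop (𝓝 A) := by
  have hy0 : 0 < y := lt_of_lt_of_le (by norm_num) hy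
  have hy1 : 4096 ≤ y := le_trans (by norm_num) hy
  obtain ⟨z, hz, -, hq, hone⟩ := exists_crit (le_trans (by norm_num) hy : (10 : ℝ) ^ 8 ≤ y)
  have hz1 : z ≤ 1 / 10 ^ 12 := by
    by_contra h
    push Not at h
    have h1 : (1 / 10 ^ 12 : ℝ) ^ 2 < z ^ 2 := pow_lt_pow_left₀ h (by norm_num) (by norm_num)
    have h2 : (10 : ℝ) ^ 24 * (1 / 10 ^ 12) ^ 2 < y * z ^ 2 := by
      calc (10 : ℝ) ^ 24 * (1 / 10 ^ 12) ^ 2 < 10 ^ 24 * z ^ 2 := by
            exact mul_lt_mul_of_pos_left h1 (by norm_num)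
        _ ≤ y * z ^ 2 := mul_le_mul_of_nonneg_right hy (sq_nonneg _)
    norm_num at h2
    linarith
  obtain ⟨hp, hU, -⟩ := KTen.primeKnot_iff.1 hK
  obtain ⟨δ, hδ, n1, hlow⟩ := KRing.lower hy1 hp hU
  obtain ⟨B, hB, hdiff⟩ := fin_diff hy hK
  have hupos : ∀ k : ℕ, 2 ≤ k → 0 < Zt y UClass (2 * k) := fun k hk =>
    KRing.u_pos (le_trans (by norm_num) hy1) (even_two_mul k) (by omega)
  have hnpos : ∀ k : ℕ, 2 ≤ k → (0 : ℝ) < ((2 * k : ℕ) : ℝ) := fun k hk => by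
    exact_mod_cast (by omega : 0 < 2 * k)
  refine fin_cauchy hδ ?_ fun ε hε => ?_
  · filter_upwards [eventually_ge_atTop (max n1 2)] with k hk
    have hk1 : n1 ≤ k := le_trans (le_max_left _ _) hk
    have hk2 : 2 ≤ k := le_trans (le_max_right _ _) hk
    rw [le_div_iff₀ (mul_pos (hnpos k hk2) (hupos k hk2)), ← mul_assoc]
    exact hlow (2 * k) (by omega)
  · obtain ⟨j, hj⟩ : ∃ j : ℕ, B * (1 / 2 : ℝ) ^ j ≤ ε / 3 := by
      have h1 : Tendsto (fun j : ℕ => B * (1 / 2 : ℝ) ^ j) atTop (𝓝 (B * 0)) :=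
        (tendsto_pow_atTop_nhds_zero_of_lt_one (by norm_num) (by norm_num)).const_mul B
      rw [mul_zero] at h1
      obtain ⟨j, hj⟩ := ((h1.eventually (gt_mem_nhds (by positivity : (0 : ℝ) < ε / 3)))).exists
      exact ⟨j, hj.le⟩
    obtain ⟨C, hC, n2, h2⟩ := hdiff j
    have h3 := mid_lim hy hz hz1 hq hone (primeCl_type hK) j
    refine ⟨amp (SameType K) y z j, ?_⟩
    have h4 : ∀ᶠ k : ℕ in atTop, C / ((2 * k : ℕ) : ℝ) ≤ ε / 3 := by
      have h5 : Tendsto (fun k : ℕ => ((2 * k : ℕ) : ℝ)) atTop atTop :=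
        tendsto_natCast_atTop_atTop.comp (tendsto_id.const_mul_atTop' (by norm_num : 0 < 2))
      have h6 := (h5.const_div_atTop C).eventually (gt_mem_nhds (by positivity : (0 : ℝ) < ε / 3))
      filter_upwards [h6] with k hk using hk.le
    have h5 := h3.eventually (Metric.closedBall_mem_nhds _ (by positivity : (0 : ℝ) < ε / 3))
    filter_upwards [h4, h5, eventually_ge_atTop (max n2 2)] with k hk4 hk5 hk
    have hk1 : n2 ≤ k := le_trans (le_max_left _ _) hk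
    have hk2 : 2 ≤ k := le_trans (le_max_right _ _) hk
    obtain ⟨g1, g2⟩ := h2 (2 * k) (by omega)
    have hn := hnpos k hk2
    have hUk := hupos k hk2
    have hnU := mul_pos hn hUk
    rw [Real.dist_eq] at hk5
    have g3 : Zt y (fun E => SameType K E ∧ MidAt E j) (2 * k) /
        (((2 * k : ℕ) : ℝ) * Zt y UClass (2 * k)) ≤ Zt y (KClass K) (2 * k) /
        (((2 * k : ℕ) : ℝ) * Zt y UClass (2 * k)) := div_le_div_of_nonneg_right g1 hnU.le
    have g4 : Zt y (KClass K) (2 * k) / (((2 * k : ℕ) : ℝ) * Zt y UClass (2 * k)) ≤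
        Zt y (fun E => SameType K E ∧ MidAt E j) (2 * k) /
        (((2 * k : ℕ) : ℝ) * Zt y UClass (2 * k)) +
          (B * (1 / 2) ^ j + C / ((2 * k : ℕ) : ℝ)) := by
      rw [div_add' _ _ _ hnU.ne']
      refine div_le_div_of_nonneg_right (g2.trans (le_of_eq ?_)) hnU.le
      field_simp
    obtain ⟨g5, g6⟩ := abs_le.1 hk5
    rw [abs_le]
    constructor <;> linarith

/-- KP22: **Asymptotics of the unknot and of the prime knots.** -/
theorem main {G : Subgroup (R3 ≃ₜ R3)} (hG : ∀ t : R3, Homeomorph.addRight t ∈ G)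
    (hG' : ∀ φ : R3 ≃ₜ R3, φ ∈ G ∨ φ * negY ∈ G) (hy : 10 ^ 24 ≤ y) : ∃ μ : ℝ, 0 < μ ∧
    (∃ A : ℝ, 0 < A ∧ Tendsto (fun k : ℕ => Zt y UClass (2 * k) /
      (μ ^ (2 * k) / (((2 * k : ℕ) : ℝ) * Real.log ((2 * k : ℕ) : ℝ) ^ 2))) atTop (𝓝 A)) ∧
    ∀ K : Finset (Sym2 P3), PrimeKnot K → ∃ A : ℝ, 0 < A ∧
      Tendsto (fun k : ℕ => Zt y (GClass G K) (2 * k) /
        (μ ^ (2 * k) / Real.log ((2 * k : ℕ) : ℝ) ^ 2)) atTop (𝓝 A) := by
  have hy1 : 4096 ≤ y := le_trans (by norm_num) hy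
  obtain ⟨μ, hμ, A, hA, hU⟩ := KAsym.main hy
  refine ⟨μ, hμ, ⟨A, hA, hU⟩, fun K hK => ?_⟩
  obtain ⟨A', hA', hZ⟩ := prime_lim hy hK
  have key : ∀ c : ℝ, 0 < c → (∀ n, Zt y (GClass G K) n = c * Zt y (KClass K) n) →
      ∃ A : ℝ, 0 < A ∧ Tendsto (fun k : ℕ => Zt y (GClass G K) (2 * k) /
        (μ ^ (2 * k) / Real.log ((2 * k : ℕ) : ℝ) ^ 2)) atTop (𝓝 A) := by
    intro c hc h
    refine ⟨c * A' * A, by positivity, ((hZ.const_mul c).mul hU).congr' ?_⟩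
    filter_upwards [eventually_ge_atTop 2] with k hk
    have h1 : 0 < Zt y UClass (2 * k) :=
      KRing.u_pos (le_trans (by norm_num) hy1) (even_two_mul k) (by omega)
    have h2 : (0 : ℝ) < ((2 * k : ℕ) : ℝ) := by exact_mod_cast (by omega : 0 < 2 * k)
    have h3 : (1 : ℝ) < ((2 * k : ℕ) : ℝ) := by exact_mod_cast (by omega : 1 < 2 * k)
    have h4 : 0 < Real.log ((2 * k : ℕ) : ℝ) := Real.log_pos h3
    have h5 : 0 < μ ^ (2 * k) := pow_pos hμ _
    rw [h (2 * k)]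
    generalize Real.log ((2 * k : ℕ) : ℝ) = L at *
    generalize ((2 * k : ℕ) : ℝ) = N at *
    generalize μ ^ (2 * k) = M at *
    field_simp
  rcases KTen.zt_gclass hG hG' K with h | h
  · exact key 1 one_pos fun n => by rw [one_mul]; exact h y n
  · exact key (1 / 2) (by norm_num) fun n => by rw [← h y n]; ring

end Pool.Agent.KAmp
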