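import Pool.Agent.KLog.Flip
import Pool.Agent.KLog.Caps
import Pool.Agent.KAsym.RecB

/-! KP7: reflection of blocks. -/

set_option autoImplicit false

open Pool.Agent.LK
open scoped ENNReal

namespace Pool.Agent.KAmp

open Pool.Agent.KTube Pool.Agent.KRing Pool.Agent.KLog
open Pool.Agent.LatticeTube (pedges)
open Pool.Agent.KAsym (ln)

variable {v : ℤ × ℤ} {π : PP} {l r : List P3}

/-- A step read backwards, after reflection in a horizontal plane. -/
def ns (d : P3) : P3 := (-d.1, -d.2.1, d.2.2)

/-- The block reflected in a horizontal plane, both strands read upwards. -/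
def fl (π : PP) : PP := ((π.1.map ns).reverse, (π.2.map ns).reverse)

/-! ### Steps -/

private theorem ns_ns (d : P3) : ns (ns d) = d := by
  unfold ns
  simp

private theorem ns_add (d e : P3) : ns (d + e) = ns d + ns e := by
  unfold ns
  refine Prod.ext ?_ (Prod.ext ?_ rfl)
  · simp only [Prod.fst_add]; ring
  · simp only [Prod.snd_add, Prod.fst_add]; ring

private theorem sum_ns (s : List P3) : (s.map ns).sum = ns s.sum := by
  induction s with
  | nil => simp [ns]; rfl
  | cons d s ih => rw [List.map_cons, List.sum_cons, List.sum_cons, ih, ns_add]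

private theorem sum_rev_ns (s : List P3) : (s.map ns).reverse.sum = ns s.sum := by
  rw [List.sum_reverse, sum_ns]

private theorem isStep_ns {d : P3} : IsStep (ns d) ↔ IsStep d := by
  unfold IsStep ns
  simp only [abs_neg]

private theorem steps_rev_ns {s : List P3} (h : Steps s) : Steps (s.map ns).reverse := by
  intro d hd
  rw [List.mem_reverse, List.mem_map] at hd
  obtain ⟨e, he, rfl⟩ := hd
  exact isStep_ns.2 (h e he)

private theorem hlet_ns {d : P3} (h : IsStep d) : (hlet (ns d)).isSome = (hlet d).isSome := by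
  rcases step_cases h with rfl | rfl | rfl | rfl | rfl | rfl <;> decide

private theorem stp_rev_ns {s : List P3} (h : Steps s) :
    stp (lets (s.map ns).reverse) = stp (lets s) := by
  unfold stp lets
  rw [List.map_reverse, List.countP_reverse, List.map_map, List.countP_map, List.countP_map]
  refine List.countP_congr fun d hd => ?_
  simp only [Function.comp_apply]
  rw [hlet_ns (h d hd)]

theorem fl_fl (π : PP) : fl (fl π) = π := by
  have h : ∀ s : List P3, (((s.map ns).reverse).map ns).reverse = s := by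
    intro s
    rw [List.map_reverse, List.reverse_reverse, List.map_map]
    have h1 : ns ∘ ns = id := funext ns_ns
    rw [h1, List.map_id]
  exact Prod.ext (h _) (h _)

private theorem sum_fl₁ (π : PP) : (fl π).1.sum = ns π.1.sum := sum_rev_ns _

private theorem sum_fl₂ (π : PP) : (fl π).2.sum = ns π.2.sum := sum_rev_ns _

private theorem hz_ns (d : P3) : hz (ns d) = -hz d := rfl

theorem dsp_fl (π : PP) : dsp (fl π) = -dsp π := by
  unfold dsp
  rw [sum_fl₁, sum_fl₂, hz_ns, hz_ns]
  abel

theorem hgt_fl (π : PP) : hgt (fl π) = hgt π := by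
  unfold Pool.Agent.KLog.hgt
  rw [sum_fl₁]
  rfl

theorem ln_fl (π : PP) : ln (fl π) = ln π := by
  unfold ln fl
  simp only [List.length_reverse, List.length_map]

theorem nh_fl (hA : Steps π.1) (hB : Steps π.2) : nh (fl π) = nh π := by
  unfold nh fl
  rw [stp_rev_ns hA, stp_rev_ns hB]

theorem wt_fl (y z : ℝ≥0∞) (π : PP) : wt y z (fl π) = wt y z π := by
  unfold wt
  rw [hgt_fl]
  have h := ln_fl π
  unfold ln at h
  rw [h]

/-! ### Walks -/

/-- The reflection in the plane `z = (h + 1) / 2`, followed by the translation by `-t`. -/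
private def phi (t : ℤ × ℤ) (h : ℤ) (u : P3) : P3 := (u.1 - t.1, u.2.1 - t.2, h + 1 - u.2.2)

private theorem phi_inj (t : ℤ × ℤ) (h : ℤ) : Function.Injective (phi t h) := by
  intro u w huw
  unfold phi at huw
  simp only [Prod.mk.injEq] at huw
  refine Prod.ext ?_ (Prod.ext ?_ ?_)
  · omega
  · omega
  · omega

private theorem phi_phi (t : ℤ × ℤ) (h : ℤ) (u : P3) : phi (-t) h (phi t h u) = u := by
  unfold phi
  refine Prod.ext ?_ (Prod.ext ?_ ?_)
  · simp
  · simp
  · simp

private theorem phi_eq (t : ℤ × ℤ) (h : ℤ) :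
    phi t h = (· + ((-t.1, -t.2, 0) : P3)) ∘ flipZ (h + 1) := by
  funext u
  unfold phi flipZ
  refine Prod.ext ?_ (Prod.ext ?_ ?_)
  · simp only [Function.comp_apply, Prod.fst_add]; ring
  · simp only [Function.comp_apply, Prod.snd_add, Prod.fst_add]; ring
  · simp only [Function.comp_apply, Prod.snd_add]; ring

private theorem wk_append (s : List P3) (d p : P3) : wk p (s ++ [d]) = wk p s ++ [p + s.sum + d] := by
  induction s generalizing p with
  | nil => simp
  | cons e s ih =>
    rw [List.cons_append, wk_cons, ih, wk_cons, List.cons_append, List.sum_cons, ← add_assoc]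

private theorem wk_rev (t : ℤ × ℤ) (h : ℤ) (s : List P3) : ∀ p : P3,
    wk (phi t h (p + s.sum)) (s.map ns).reverse = ((wk p s).map (phi t h)).reverse := by
  induction s with
  | nil => intro p; simp
  | cons d s ih =>
    intro p
    have e1 : p + (d :: s).sum = (p + d) + s.sum := by rw [List.sum_cons, add_assoc]
    have e2 : phi t h (p + d + s.sum) + (s.map ns).reverse.sum + ns d = phi t h p := by
      rw [sum_rev_ns]
      unfold phi ns
      refine Prod.ext ?_ (Prod.ext ?_ ?_)
      · simp only [Prod.fst_add]; ring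
      · simp only [Prod.snd_add, Prod.fst_add]; ring
      · simp only [Prod.snd_add]; ring
    rw [List.map_cons, List.reverse_cons, wk_append, wk_cons, List.map_cons, List.reverse_cons,
      ← ih (p + d), e1, e2]

private theorem mem_mapPhi {t : ℤ × ℤ} {h : ℤ} {E : Finset (Sym2 P3)} {u w : P3} :
    s(u, w) ∈ mapE (phi t h) E ↔ s(phi (-t) h u, phi (-t) h w) ∈ E := by
  have h1 := mem_mapE (phi_inj t h) (E := E) (u := phi (-t) h u) (v := phi (-t) h w)
  have h2 : ∀ x, phi t h (phi (-t) h x) = x := fun x => by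
    have := phi_phi (-t) h x
    rwa [neg_neg] at this
  rwa [h2, h2] at h1

private theorem sameType_phi (t : ℤ × ℤ) (h : ℤ) (E : Finset (Sym2 P3)) :
    SameType E (mapE (phi t h) E) := by
  have h1 : mapE (phi t h) E = shift (-t.1, -t.2, 0) (mapE (flipZ (h + 1)) E) := by
    refine edge_ext fun u w => ?_
    rw [mem_mapPhi, mem_shift, mem_flipZ]
    have e : ∀ x : P3, phi (-t) h x = flipZ (h + 1) (x - (-t.1, -t.2, 0)) := by
      intro x
      unfold phi flipZ
      refine Prod.ext ?_ (Prod.ext ?_ ?_)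
      · simp
      · simp
      · simp
    rw [e, e]
  rw [h1]
  exact (sameType_flipZ _ _).trans (sameType_shift _ _)

private theorem leg_phi (t c : ℤ × ℤ) (h j : ℤ) {E : Finset (Sym2 P3)} :
    leg c j ∈ mapE (phi t h) E ↔ leg (c + t) (h - j) ∈ E := by
  unfold leg
  rw [mem_mapPhi]
  have e1 : phi (-t) h (c.1, c.2, j) = ((c + t).1, (c + t).2, h - j + 1) := by
    unfold phi
    refine Prod.ext ?_ (Prod.ext ?_ ?_)
    · simp
    · simp
    · simp only; ring
  have e2 : phi (-t) h (c.1, c.2, j + 1) = ((c + t).1, (c + t).2, h - j) := by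
    unfold phi
    refine Prod.ext ?_ (Prod.ext ?_ ?_)
    · simp
    · simp
    · simp only; ring
  rw [e1, e2, Sym2.eq_swap]

private theorem pedges_phi (t : ℤ × ℤ) (h : ℤ) (s : List P3) {e : Sym2 P3} :
    e ∈ pedges ((s.map (phi t h)).reverse) ↔ e ∈ mapE (phi t h) (pedges s) := by
  rw [mem_pedges_reverse, pedges_map]

private theorem adj_phi {t : ℤ × ℤ} {h : ℤ} {u w : P3} : Adj (phi t h u) (phi t h w) ↔ Adj u w := by
  unfold Adj phi
  have e3 : |(h + 1 - u.2.2) - (h + 1 - w.2.2)| = |u.2.2 - w.2.2| := by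
    rw [show (h + 1 - u.2.2) - (h + 1 - w.2.2) = -(u.2.2 - w.2.2) by ring, abs_neg]
  simp only [sub_sub_sub_cancel_right, e3]

private theorem chain_phi {t : ℤ × ℤ} {h : ℤ} {s : List P3} (hs : s.IsChain Adj) :
    ((s.map (phi t h)).reverse).IsChain Adj := by
  rw [List.isChain_reverse, List.isChain_map]
  refine hs.imp fun u w huw => ?_
  rw [adj_phi]
  exact huw.symm

private theorem nodup_phi {t : ℤ × ℤ} {h : ℤ} {s : List P3} (hs : s.Nodup) :
    ((s.map (phi t h)).reverse).Nodup :=
  List.nodup_reverse.2 (hs.map (phi_inj t h))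

/-- The reflected block. -/
private theorem block_phi {h : ℤ} {v a' b' : ℤ × ℤ} {A B : List P3} (hb : Block 0 h 0 v a' b' A B) :
    Block 0 h 0 (b' - a') (-a') (v - a') ((A.map (phi a' h)).reverse)
      ((B.map (phi a' h)).reverse) := by
  have hmem : ∀ {S : List P3} {u : P3}, u ∈ (S.map (phi a' h)).reverse →
      ∃ w ∈ S, phi a' h w = u := fun hu => List.mem_map.1 (List.mem_reverse.1 hu)
  refine ⟨hb.lt, nodup_phi hb.nodupA, nodup_phi hb.nodupB, ?_, chain_phi hb.chainA,
    chain_phi hb.chainB, ?_, ?_, ?_, ?_, ?_, ?_⟩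
  · intro u hu hu'
    obtain ⟨w, hw, rfl⟩ := hmem hu
    obtain ⟨w', hw', h1⟩ := hmem hu'
    rw [phi_inj a' h h1] at hw'
    exact hb.disj w hw hw'
  · rw [List.head?_reverse, List.getLast?_map, hb.lastA]
    simp [phi]
  · rw [List.getLast?_reverse, List.head?_map, hb.headA]
    simp [phi]
  · rw [List.head?_reverse, List.getLast?_map, hb.lastB]
    simp [phi]
  · rw [List.getLast?_reverse, List.head?_map, hb.headB]
    simp [phi]
  · intro u hu
    obtain ⟨w, hw, rfl⟩ := hmem hu
    have := hb.levA w hw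
    simp only [phi]
    omega
  · intro u hu
    obtain ⟨w, hw, rfl⟩ := hmem hu
    have := hb.levB w hw
    simp only [phi]
    omega

private theorem sdA_fl (π : PP) : sdA (fl π) = ((sdA π).map (phi (hz π.1.sum) (hgt π))).reverse := by
  unfold sdA
  rw [← wk_rev]
  have e : ((0, 0, 1) : P3) = phi (hz π.1.sum) (hgt π) ((0, 0, 1) + π.1.sum) := by
    unfold phi hz Pool.Agent.KLog.hgt
    refine Prod.ext ?_ (Prod.ext ?_ ?_)
    · simp
    · simp
    · simp only [Prod.snd_add]; ring
  rw [← e]
  rfl

/-- Both strands end on the same level. -/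
private theorem lev_eq (h : Geo v π) : π.2.sum.2.2 = π.1.sum.2.2 := by
  have h1 := h.block.headB
  unfold sdB at h1
  rw [List.head?_reverse, last_wk] at h1
  simp only [Option.some.injEq] at h1
  have h2 := congrArg (fun u : P3 => u.2.2) h1
  simp only [Prod.snd_add] at h2
  unfold Pool.Agent.KLog.hgt at h2
  omega

private theorem sdB_fl (h : Geo v π) :
    sdB (v + dsp π) (fl π) = ((sdB v π).map (phi (hz π.1.sum) (hgt π))).reverse := by
  unfold sdB
  rw [List.map_reverse, ← wk_rev]
  have e : (((v + dsp π).1, (v + dsp π).2, 1) : P3) =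
      phi (hz π.1.sum) (hgt π) ((v.1, v.2, 1) + π.2.sum) := by
    have h1 := lev_eq h
    unfold phi dsp hz Pool.Agent.KLog.hgt
    refine Prod.ext ?_ (Prod.ext ?_ ?_)
    · simp only [Prod.fst_add, Prod.fst_sub]; ring
    · simp only [Prod.snd_add, Prod.snd_sub, Prod.fst_add]; ring
    · simp only [Prod.snd_add]; omega
  rw [← e]
  rfl

theorem geo_fl (h : Geo v π) : Geo (v + dsp π) (fl π) := by
  have hb := block_phi h.block
  have e1 : v + hz π.2.sum - hz π.1.sum = v + dsp π := by
    unfold dsp
    abel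
  have e2 : (v + dsp π) + hz (fl π).2.sum = v - hz π.1.sum := by
    rw [sum_fl₂, hz_ns]
    unfold dsp
    abel
  have e3 : hz (fl π).1.sum = -hz π.1.sum := by rw [sum_fl₁, hz_ns]
  refine ⟨?_, steps_rev_ns h.stA, steps_rev_ns h.stB, ?_, ?_⟩
  · rw [← e1]
    exact sub_ne_zero.2 (h.ne'.symm)
  · rw [hgt_fl, e2, e3, sdA_fl, sdB_fl h, ← e1]
    exact hb
  · intro j hj hj'
    rw [hgt_fl] at hj'
    have h1 := h.thick (hgt π - j) (by omega) (by omega)
    have h2 : {c | leg c j ∈ pedges (sdA (fl π)) ∨ leg c j ∈ pedges (sdB (v + dsp π) (fl π))} =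
        (fun c : ℤ × ℤ => c - hz π.1.sum) '' {c | leg c (hgt π - j) ∈ pedges (sdA π) ∨
          leg c (hgt π - j) ∈ pedges (sdB v π)} := by
      ext c
      rw [Set.mem_image, Set.mem_ofPred_eq, sdA_fl, sdB_fl h, pedges_phi, pedges_phi, leg_phi,
        leg_phi]
      constructor
      · intro hc
        exact ⟨c + hz π.1.sum, hc, add_sub_cancel_right _ _⟩
      · rintro ⟨x, hx, rfl⟩
        rw [sub_add_cancel]
        exact hx
    rw [h2, Set.ncard_image_of_injective _ (sub_left_injective)]
    exact h1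

private theorem upper_phi {h : ℤ} {a' : ℤ × ℤ} (hl : Lower 0 0 v l) :
    Upper h (-a') (v - a') ((l.map (phi a' h)).reverse) := by
  refine ⟨nodup_phi hl.nodup, chain_phi hl.chain, ?_, ?_, ?_⟩
  · rw [List.head?_reverse, List.getLast?_map, hl.last]
    simp [phi]
  · rw [List.getLast?_reverse, List.head?_map, hl.head]
    simp [phi]
  · intro u hu
    obtain ⟨w, hw, rfl⟩ := List.mem_map.1 (List.mem_reverse.1 hu)
    have := hl.lev w hw
    simp only [phi]
    omega

private theorem lower_phi {h : ℤ} {a' b' : ℤ × ℤ} {R : List P3} (hR : Upper h a' b' R) :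
    Lower 0 0 (b' - a') ((R.map (phi a' h)).reverse) := by
  refine ⟨nodup_phi hR.nodup, chain_phi hR.chain, ?_, ?_, ?_⟩
  · rw [List.head?_reverse, List.getLast?_map, hR.last]
    simp [phi]
  · rw [List.getLast?_reverse, List.head?_map, hR.head]
    simp [phi]
  · intro u hu
    obtain ⟨w, hw, rfl⟩ := List.mem_map.1 (List.mem_reverse.1 hu)
    have := hR.lev w hw
    simp only [phi]
    omega

private theorem leg_eq (t c : ℤ × ℤ) (h j : ℤ) {u w : P3} :
    s(phi (-t) h u, phi (-t) h w) = leg c j ↔ s(u, w) = leg (c - t) (h - j) := by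
  have e1 : phi (-t) h ((c - t).1, (c - t).2, h - j) = (c.1, c.2, j + 1) := by
    unfold phi
    refine Prod.ext ?_ (Prod.ext ?_ ?_)
    · simp
    · simp
    · simp only; ring
  have e2 : phi (-t) h ((c - t).1, (c - t).2, h - j + 1) = (c.1, c.2, j) := by
    unfold phi
    refine Prod.ext ?_ (Prod.ext ?_ ?_)
    · simp
    · simp
    · simp only; ring
  have h1 : Sym2.map (phi (-t) h) (leg (c - t) (h - j)) = leg c j := by
    unfold leg
    rw [Sym2.map_mk, e1, e2, Sym2.eq_swap]
  have h2 : s(phi (-t) h u, phi (-t) h w) = Sym2.map (phi (-t) h) s(u, w) := rfl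
  rw [h2, ← h1]
  exact (Sym2.map.injective (phi_inj (-t) h)).eq_iff

/-- The polygon composed of a half, a block and an upper half, reflected. -/
private theorem ring_core (h : Geo v π) (hl : Lower 0 0 v l) {R : List P3}
    (hR : Upper (hgt π) (hz π.1.sum) (v + hz π.2.sum) R) :
    ring ((l.map (phi (hz π.1.sum) (hgt π))).reverse ++ (sdB (v + dsp π) (fl π) ++
      ((R.map (phi (hz π.1.sum) (hgt π))).reverse ++ sdA (fl π)))) =
    mapE (phi (hz π.1.sum) (hgt π)) (ring (R ++ (sdB v π ++ (l ++ sdA π)))) := by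
  have hb := h.block
  have hb' := block_phi hb
  refine edge_ext fun u w => ?_
  rw [sdA_fl, sdB_fl h, mem_mapPhi, mem_ring_of (upper_phi hl) (hb'.lower (lower_phi hR)),
    hb'.mem_lower (lower_phi hR), mem_ring_of hR (hb.lower hl), hb.mem_lower hl, pedges_phi,
    pedges_phi, pedges_phi, pedges_phi, mem_mapPhi, mem_mapPhi, mem_mapPhi, mem_mapPhi, leg_eq,
    leg_eq, leg_eq, leg_eq, zero_sub, sub_self, sub_self, sub_zero]
  tauto

private theorem shift_flp (r : List P3) (t : ℤ × ℤ) (h : ℤ) :
    (((flp r).map (· + ((t.1, t.2, h) : P3))).map (phi t h)).reverse = r := by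
  rw [List.map_map]
  have h1 : phi t h ∘ (· + ((t.1, t.2, h) : P3)) = flipZ 1 := by
    funext u
    unfold phi flipZ
    refine Prod.ext ?_ (Prod.ext ?_ ?_)
    · simp
    · simp
    · simp only [Function.comp_apply, Prod.snd_add]; ring
  rw [h1]
  exact flp_flp r

private theorem phi_flp (l : List P3) (t : ℤ × ℤ) (h : ℤ) :
    (l.map (phi t h)).reverse = (flp l).map (· + ((-t.1, -t.2, h) : P3)) := by
  rw [flp_eq, List.map_reverse, List.map_map]
  congr 1
  refine List.map_congr_left fun u _ => ?_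
  unfold phi flipZ
  refine Prod.ext ?_ (Prod.ext ?_ ?_)
  · simp only [Function.comp_apply, Prod.fst_add]; ring
  · simp only [Function.comp_apply, Prod.snd_add, Prod.fst_add]; ring
  · simp only [Function.comp_apply, Prod.snd_add]; ring

private theorem map_add_add {s : List P3} {t t' : P3} (h : t + t' = 0) :
    (s.map (· + t)).map (· + t') = s := by
  rw [List.map_map]
  have h1 : (· + t') ∘ (· + t) = (id : P3 → P3) := by
    funext u
    simp only [Function.comp_apply, id_eq]
    rw [add_assoc, h, add_zero]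
  rw [h1, List.map_id]

private theorem csh_zero (a : ℤ × ℤ) (h : ℤ) : csh (a.1, a.2, h) 0 = a := by
  simp [csh]

/-- The shifted reflected half on the top of a block. -/
private theorem upper_top (hr : Lower 0 0 (v + dsp π) r) : Upper (hgt π) (hz π.1.sum)
    (v + hz π.2.sum) ((flp r).map (· + (((hz π.1.sum).1, (hz π.1.sum).2, hgt π) : P3))) := by
  have h1 := (upper_flp hr).shift ((hz π.1.sum).1, (hz π.1.sum).2, hgt π)
  have e : csh ((hz π.1.sum).1, (hz π.1.sum).2, hgt π) (v + dsp π) = v + hz π.2.sum := by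
    unfold csh dsp
    refine Prod.ext ?_ ?_
    · simp only [Prod.fst_add, Prod.fst_sub]; ring
    · simp only [Prod.snd_add, Prod.snd_sub]; ring
  rw [csh_zero, e, zero_add] at h1
  exact h1

private theorem uu_top (hr : LU 0 0 (v + dsp π) r) : UU (hgt π) (hz π.1.sum)
    (v + hz π.2.sum) ((flp r).map (· + (((hz π.1.sum).1, (hz π.1.sum).2, hgt π) : P3))) := by
  have h1 := (UU_flp hr).shift ((hz π.1.sum).1, (hz π.1.sum).2, hgt π)
  have e : csh ((hz π.1.sum).1, (hz π.1.sum).2, hgt π) (v + dsp π) = v + hz π.2.sum := by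
    unfold csh dsp
    refine Prod.ext ?_ ?_
    · simp only [Prod.fst_add, Prod.fst_sub]; ring
    · simp only [Prod.snd_add, Prod.snd_sub]; ring
  rw [csh_zero, e, zero_add] at h1
  exact h1

/-- The polygon that consists of a half, a block and a reflected half, upside down. -/
theorem ring_fl (h : Geo v π) (hl : Lower 0 0 v l) (hr : Lower 0 0 (v + dsp π) r) :
    SameType (ring (flp r ++ glu v l π)) (ring (flp l ++ glu (v + dsp π) r (fl π))) := by
  have hc := ring_core h hl (upper_top hr)
  rw [shift_flp] at hc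
  set R := (flp r).map (· + (((hz π.1.sum).1, (hz π.1.sum).2, hgt π) : P3)) with hRdef
  -- the first polygon
  have h1 : ring (flp r ++ glu v l π) = shift (-(π.1.sum.1), -(π.1.sum.2.1), -(hgt π))
      (ring (R ++ (sdB v π ++ (l ++ sdA π)))) := by
    rw [← ring_map, List.map_append]
    congr 2
    rw [hRdef]
    refine (map_add_add ?_).symm
    refine Prod.ext ?_ (Prod.ext ?_ ?_)
    · simp [hz]
    · simp [hz]
    · simp
  -- the second polygon
  have h2 : ring (flp l ++ glu (v + dsp π) r (fl π)) =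
      shift (-((fl π).1.sum.1), -((fl π).1.sum.2.1), -(hgt (fl π)))
        (ring ((l.map (phi (hz π.1.sum) (hgt π))).reverse ++ (sdB (v + dsp π) (fl π) ++
          (r ++ sdA (fl π))))) := by
    rw [← ring_map, List.map_append]
    congr 2
    rw [phi_flp]
    refine (map_add_add ?_).symm
    rw [sum_fl₁, hgt_fl]
    refine Prod.ext ?_ (Prod.ext ?_ ?_)
    · simp [hz, ns]
    · simp [hz, ns]
    · simp
  rw [h1, h2, hc]
  exact ((sameType_shift _ _).symm.trans (sameType_phi _ _ _)).trans (sameType_shift _ _)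

theorem valid_fl (h : Valid v π) : Valid (v + dsp π) (fl π) := by
  have hg := h.1
  have hg' := geo_fl hg
  obtain ⟨l, hl, -⟩ := exists_flat hg.ne
  obtain ⟨r, hr, -⟩ := exists_flat hg'.ne
  have hR := uu_top (π := π) hr
  have hc := ring_core hg hl.2.1 hR.2.1
  rw [shift_flp, phi_flp] at hc
  have hL := (UU_flp hl).shift (-(hz π.1.sum).1, -(hz π.1.sum).2, hgt π)
  have e1 : csh (-(hz π.1.sum).1, -(hz π.1.sum).2, hgt π) 0 = hz (fl π).1.sum := by
    rw [sum_fl₁, hz_ns]
    simp only [csh, Prod.fst_zero, Prod.snd_zero, zero_add]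
    rfl
  have e2 : csh (-(hz π.1.sum).1, -(hz π.1.sum).2, hgt π) v =
      (v + dsp π) + hz (fl π).2.sum := by
    rw [sum_fl₂, hz_ns]
    unfold csh dsp
    refine Prod.ext ?_ ?_
    · simp only [Prod.fst_add, Prod.fst_sub, Prod.fst_neg]; ring
    · simp only [Prod.snd_add, Prod.snd_sub, Prod.snd_neg]; ring
  rw [e1, e2, zero_add, ← hgt_fl π] at hL
  refine ⟨hg', ?_⟩
  rw [unk_iff hg' hr hL, hgt_fl, hc]
  exact (sameType_phi _ _ _).symm.unknotted ((unk_iff hg hl hR).1 h.2)

end Pool.Agent.KAmp
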