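import Pool.Agent.KAmp.Sys
import Pool.Agent.KAsym.RecB

/-! KP8: unknotted halves as chains of blocks on a half without sections with two edges. -/

set_option autoImplicit false

open Pool.Agent.LK
open scoped ENNReal

namespace Pool.Agent.KAmp

open Pool.Agent.KTube Pool.Agent.KRing Pool.Agent.KLog
open Pool.Agent.KAsym (ln)

variable {y z : ℝ} {n : ℕ} {v : ℤ × ℤ} {l : List P3} {s : List PP}

/-- The halves without sections with two edges. -/
abbrev HT : Type := Σ v : ℤ × ℤ, {l // Half 0 v l}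

/-- The half composed of a half and a chain of blocks. -/
def gl : ℤ × ℤ → List P3 → List PP → List P3
  | _, l, [] => l
  | v, l, π :: s => gl (v + dsp π) (glu v l π) s

private theorem ev_nil (κ : Ker PP) (v : ℤ × ℤ) : ev κ v [] = v := by
  simp [ev]

private theorem ev_cons (κ : Ker PP) (v : ℤ × ℤ) (π : PP) (s : List PP) :
    ev κ v (π :: s) = ev κ (v + κ.u π) s := by
  simp only [ev, List.map_cons, List.sum_cons]
  rw [add_assoc]

private theorem ev_snoc (κ : Ker PP) (v : ℤ × ℤ) (s : List PP) (π : PP) :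
    ev κ v (s ++ [π]) = ev κ v s + κ.u π := by
  simp only [ev, List.map_append, List.map_cons, List.map_nil, List.sum_append, List.sum_cons,
    List.sum_nil, add_zero]
  rw [add_assoc]

private theorem VC_snoc (κ : Ker PP) (s : List PP) (π : PP) (v : ℤ × ℤ) (h : VC κ v s)
    (hπ : κ.V (ev κ v s) π) : VC κ v (s ++ [π]) := by
  induction s generalizing v with
  | nil =>
    rw [ev_nil] at hπ
    exact ⟨hπ, trivial⟩
  | cons ρ s ih =>
    rw [ev_cons] at hπ
    exact ⟨h.1, ih _ h.2 hπ⟩

private theorem gl_snoc (s : List PP) (π : PP) (v : ℤ × ℤ) (l : List P3) :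
    gl v l (s ++ [π]) = glu (ev (ker y z) v s) (gl v l s) π := by
  induction s generalizing v l with
  | nil =>
    rw [ev_nil]
    rfl
  | cons ρ s ih =>
    rw [ev_cons]
    exact ih _ _

theorem gl_half (hl : Half n v l) (hs : VC (ker y z) v s) :
    Half (n + s.length) (ev (ker y z) v s) (gl v l s) := by
  induction s generalizing n v l with
  | nil =>
    rw [ev_nil]
    exact hl
  | cons π s ih =>
    rw [ev_cons]
    have h := ih (glu_half hl hs.1) hs.2
    rw [List.length_cons, Nat.add_comm s.length 1, ← Nat.add_assoc]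
    exact h

theorem length_gl (hl : Half n v l) (hs : VC (ker y z) v s) :
    (gl v l s).length = l.length + (s.map ln).sum := by
  induction s generalizing n v l with
  | nil => simp [gl]
  | cons π s ih =>
    have h := ih (glu_half hl hs.1) hs.2
    have h1 : gl v l (π :: s) = gl (v + dsp π) (glu v l π) s := rfl
    rw [h1, h, Pool.Agent.KAsym.length_glu hl hs.1, List.map_cons, List.sum_cons, Nat.add_assoc]

theorem wl_gl (hl : Half n v l) (hs : VC (ker y z) v s) (a b : ℝ≥0∞) :
    wl a b (gl v l s) = wl a b l * (s.map (wt a b)).prod := by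
  induction s generalizing n v l with
  | nil => simp [gl]
  | cons π s ih =>
    have h := ih (glu_half hl hs.1) hs.2
    have h1 : gl v l (π :: s) = gl (v + dsp π) (glu v l π) s := rfl
    rw [h1, h, wl_glu hl hs.1, List.map_cons, List.prod_cons, mul_assoc]

private theorem gl_inj {s s' : List PP} (hlen : s.length = s'.length) {n n' : ℕ} {v v' : ℤ × ℤ}
    {l l' : List P3} (hl : Half n v l) (hl' : Half n' v' l') (hs : VC (ker y z) v s)
    (hs' : VC (ker y z) v' s') (h : gl v l s = gl v' l' s')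
    (he : ev (ker y z) v s = ev (ker y z) v' s') : v = v' ∧ l = l' ∧ s = s' := by
  induction s generalizing s' n n' v v' l l' with
  | nil =>
    have h0 : s' = [] := List.length_eq_zero_iff.1 hlen.symm
    subst h0
    rw [ev_nil, ev_nil] at he
    exact ⟨he, h, rfl⟩
  | cons π s ih =>
    cases s' with
    | nil => simp at hlen
    | cons π' s' =>
      have hlen' : s.length = s'.length := by simpa using hlen
      rw [ev_cons, ev_cons] at he
      obtain ⟨_, h2, h3⟩ := ih hlen' (glu_half hl hs.1) (glu_half hl' hs'.1) hs.2 hs'.2 h he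
      obtain ⟨h4, h5, h6⟩ := glu_inj hl hs.1 hl' hs'.1 h2
      exact ⟨h4, h5, by rw [h6, h3]⟩

private theorem gl_surj (n : ℕ) {w : ℤ × ℤ} {l' : List P3} (h : Half n w l') :
    ∃ (v : ℤ × ℤ) (l : List P3) (s : List PP), Half 0 v l ∧ VC (ker y z) v s ∧
      ev (ker y z) v s = w ∧ gl v l s = l' := by
  induction n generalizing w l' with
  | zero => exact ⟨w, l', [], h, trivial, ev_nil _ _, rfl⟩
  | succ n ih =>
    obtain ⟨v, l, π, hl, hπ, hw, hl'⟩ := glu_surj h
    obtain ⟨v₀, l₀, s, h1, h2, h3, h4⟩ := ih hl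
    refine ⟨v₀, l₀, s ++ [π], h1, VC_snoc _ _ _ _ h2 ?_, ?_, ?_⟩
    · rw [h3]
      exact hπ
    · rw [ev_snoc, h3]
      exact hw
    · rw [gl_snoc (y := y) (z := z), h3, h4]
      exact hl'

/-- **The bijection.** -/
theorem exists_lu_equiv (y z : ℝ) (w : ℤ × ℤ) : ∃ e :
    {x : HT × List PP // VC (ker y z) x.1.1 x.2 ∧ ev (ker y z) x.1.1 x.2 = w} ≃
      {l // LU 0 0 w l}, ∀ x, (e x).1 = gl x.1.1.1 x.1.1.2.1 x.1.2 := by
  let f : {x : HT × List PP // VC (ker y z) x.1.1 x.2 ∧ ev (ker y z) x.1.1 x.2 = w} →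
      {l // LU 0 0 w l} := fun x => ⟨gl x.1.1.1 x.1.1.2.1 x.1.2, by
    have h := gl_half x.1.1.2.2 x.2.1
    rw [x.2.2] at h
    exact h.1⟩
  have hf : Function.Bijective f := by
    constructor
    · rintro ⟨⟨⟨v, ⟨l, hl⟩⟩, s⟩, hs, he⟩ ⟨⟨⟨v', ⟨l', hl'⟩⟩, s'⟩, hs', he'⟩ h
      have h1 : gl v l s = gl v' l' s' := congrArg Subtype.val h
      have hn := (gl_half hl hs).2
      have hn' := (gl_half hl' hs').2
      have hlen : s.length = s'.length := by
        have h5 : nsec (gl v l s) = nsec (gl v' l' s') := congrArg nsec h1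
        have h6 : nsec (gl v l s) = 0 + s.length := hn
        have h7 : nsec (gl v' l' s') = 0 + s'.length := hn'
        omega
      obtain ⟨rfl, rfl, rfl⟩ := gl_inj hlen hl hl' hs hs' h1 (he.trans he'.symm)
      rfl
    · rintro ⟨l', hl'⟩
      obtain ⟨v, l, s, h1, h2, h3, h4⟩ := gl_surj (y := y) (z := z) (nsec l') ⟨hl', rfl⟩
      exact ⟨⟨⟨⟨v, ⟨l, h1⟩⟩, s⟩, h2, h3⟩, Subtype.ext h4⟩
  exact ⟨Equiv.ofBijective f hf, fun x => rfl⟩

end Pool.Agent.KAmp
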