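import Pool.Agent.KAmp.Tot
import Pool.Agent.KLog.Final

/-! KP10b: the growth of the total weight. -/

set_option autoImplicit false

open Pool.Agent.LK Filter Topology
open scoped ENNReal

namespace Pool.Agent.KAmp

open Pool.Agent.KTube Pool.Agent.KRing Pool.Agent.KLog
open Pool.Agent.KAsym (ln un_strong)
open Pool.Agent.KTen (Zt)

variable {y z : ℝ}

/-- The weights of the unknotted polygons do not decay exponentially. -/
private theorem grow_u (hy : 10 ^ 24 ≤ y) (hz : 0 < z) (hz1 : z ≤ 1 / 10 ^ 12)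
    (hq : y * z ^ 2 ≤ 1)
    (hone : ∑' π : {π // Free π}, wt (ENNReal.ofReal y) (ENNReal.ofReal z) π.1 = 1)
    {δ : ℝ} (hδ : 0 < δ) :
    ∀ᶠ k : ℕ in atTop, Real.exp (-δ * k) ≤ Zt y UClass (2 * k) * z ^ (2 * k) := by
  have hy0 : (0 : ℝ) < y := lt_of_lt_of_le (by norm_num) hy
  have hy1 : (4096 : ℝ) ≤ y := le_trans (by norm_num) hy
  obtain ⟨⟨μ, hμ, hlim, -⟩, -, -⟩ := KRing.main hy1
  obtain ⟨h1, h2⟩ := sums_at hy0 hz (hz1.trans (by norm_num)) hq hone
  have hU : ∀ n, 0 ≤ Zt y UClass n := fun n => KTen.zt_nonneg hy0.le _ n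
  have hodd : ∀ n, ¬ Even n → Zt y UClass n = 0 := fun n hn => KTen.u_odd hn _ _
  have hμz : μ = z⁻¹ := mu_eq hz hμ hU hodd hlim h1 h2
  have h3 := hlim.mul_const z
  rw [hμz, inv_mul_cancel₀ hz.ne'] at h3
  have h4 : Real.exp (-δ / 2) < 1 := by
    rw [Real.exp_lt_one_iff]
    linarith
  filter_upwards [h3.eventually (lt_mem_nhds h4), eventually_ge_atTop 1] with k hk hk1
  have key : (Zt y UClass (2 * k) ^ (((2 * k : ℕ) : ℝ)⁻¹) * z) ^ (2 * k) =
      Zt y UClass (2 * k) * z ^ (2 * k) := by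
    rw [mul_pow, ← Real.rpow_natCast (Zt y UClass (2 * k) ^ (((2 * k : ℕ) : ℝ)⁻¹)),
      ← Real.rpow_mul (hU _), inv_mul_cancel₀, Real.rpow_one]
    exact_mod_cast (by omega : 2 * k ≠ 0)
  rw [← key]
  refine le_trans (le_of_eq ?_) (pow_le_pow_left₀ (Real.exp_pos _).le hk.le (2 * k))
  rw [← Real.exp_nat_mul]
  congr 1
  push_cast
  ring

/-- The part without sections with two edges. -/
private noncomputable def growP (y z : ℝ) (n : ℕ) : ℝ≥0∞ :=
  ∑' E : {E : PN 0 // E.1.card = n},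
    ENNReal.ofReal y ^ span E.1.1 * ENNReal.ofReal z ^ E.1.1.card

private theorem grow_p (hy : 0 < y) (hz : 0 < z) (hz1 : z ≤ 1 / 10 ^ 12) (hq : y * z ^ 2 ≤ 1) :
    ∃ C : ℝ, 0 ≤ C ∧ ∀ n : ℕ, (growP y z n).toReal ≤ C / 2 ^ n := by
  have h := un_strong hy hz hz1 hq
  refine ⟨(∑' E : PN 0, ENNReal.ofReal y ^ span E.1 * ENNReal.ofReal z ^ E.1.card *
    2 ^ E.1.card).toReal, ENNReal.toReal_nonneg, fun n => ?_⟩
  rw [le_div_iff₀ (by positivity)]
  have h2 : ((2 : ℝ) ^ n) = ((2 : ℝ≥0∞) ^ n).toReal := by simp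
  rw [h2, ← ENNReal.toReal_mul]
  refine ENNReal.toReal_mono h ?_
  unfold growP
  rw [← ENNReal.tsum_mul_right]
  have h3 : ∀ E : {E : PN 0 // E.1.card = n},
      ENNReal.ofReal y ^ span E.1.1 * ENNReal.ofReal z ^ E.1.1.card * 2 ^ n =
        (fun E : PN 0 => ENNReal.ofReal y ^ span E.1 * ENNReal.ofReal z ^ E.1.card *
          2 ^ E.1.card) E.1 := by
    intro E
    simp only
    rw [E.2]
  rw [tsum_congr h3]
  exact ENNReal.tsum_comp_le_tsum_of_injective Subtype.val_injective _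

private theorem grow_fin (hy : 0 < y) (hz : 0 < z) (n : ℕ) : (sys y z).tot n ≠ ⊤ := by
  intro h
  have h1 := tot_eq hy hz n
  rw [h, ENNReal.mul_top (ENNReal.ofReal_pos.2 hy).ne', top_add] at h1
  exact ENNReal.mul_ne_top (by norm_num) ENNReal.ofReal_ne_top h1.symm

private theorem grow_eq (hy : 0 < y) (hz : 0 < z) (n : ℕ) :
    y * ((sys y z).tot n).toReal + 2 * (growP y z n).toReal = 2 * (Zt y UClass n * z ^ n) := by
  have h1 := tot_eq hy hz n
  have hP : growP y z n ≠ ⊤ := by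
    intro h
    unfold growP at h
    rw [h, ENNReal.mul_top (by norm_num), add_top] at h1
    exact ENNReal.mul_ne_top (by norm_num) ENNReal.ofReal_ne_top h1.symm
  have h2 : ENNReal.ofReal y * (sys y z).tot n + 2 * growP y z n =
      2 * ENNReal.ofReal (Zt y UClass n * z ^ n) := h1
  have h3 := congrArg ENNReal.toReal h2
  rw [ENNReal.toReal_add (ENNReal.mul_ne_top ENNReal.ofReal_ne_top (grow_fin hy hz n))
    (ENNReal.mul_ne_top (by norm_num) hP), ENNReal.toReal_mul, ENNReal.toReal_mul,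
    ENNReal.toReal_mul, ENNReal.toReal_ofReal hy.le, ENNReal.toReal_ofReal
      (mul_nonneg (KTen.zt_nonneg hy.le _ n) (pow_nonneg hz.le n)), ENNReal.toReal_ofNat] at h3
  exact h3

private theorem grow_lim (hy : 10 ^ 24 ≤ y) (hz : 0 < z) (hz1 : z ≤ 1 / 10 ^ 12)
    (hq : y * z ^ 2 ≤ 1)
    (hone : ∑' π : {π // Free π}, wt (ENNReal.ofReal y) (ENNReal.ofReal z) π.1 = 1) :
    Tendsto (fun k : ℕ => y * ((sys y z).tot (2 * k)).toReal /
      (Zt y UClass (2 * k) * z ^ (2 * k))) atTop (𝓝 2) := by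
  have hy0 : (0 : ℝ) < y := lt_of_lt_of_le (by norm_num) hy
  obtain ⟨C, hC, hP⟩ := grow_p hy0 hz hz1 hq
  have hu := grow_u hy hz hz1 hq hone (δ := 1 / 2) (by norm_num)
  have hlim0 : Tendsto (fun k : ℕ => 2 * C * (1 / 2 : ℝ) ^ k) atTop (𝓝 0) := by
    have := (tendsto_pow_atTop_nhds_zero_of_lt_one (r := (1 / 2 : ℝ)) (by norm_num)
      (by norm_num)).const_mul (2 * C)
    rwa [mul_zero] at this
  have hlim1 : Tendsto (fun k : ℕ => 2 - 2 * C * (1 / 2 : ℝ) ^ k) atTop (𝓝 2) := by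
    have := hlim0.const_sub 2
    rwa [sub_zero] at this
  refine tendsto_of_tendsto_of_tendsto_of_le_of_le' hlim1 tendsto_const_nhds ?_ ?_
  · filter_upwards [hu] with k hk
    have hpos : 0 < Zt y UClass (2 * k) * z ^ (2 * k) := (Real.exp_pos _).trans_le hk
    rw [le_div_iff₀ hpos]
    have h1 := grow_eq hy0 hz (2 * k)
    have h2 := hP (2 * k)
    have h3 : C / 2 ^ (2 * k) ≤ C * (1 / 2) ^ k * (Zt y UClass (2 * k) * z ^ (2 * k)) := by
      have h4 : (1 / 2 : ℝ) ^ k ≤ Real.exp (-(1 / 2) * k) := by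
        have h5 : Real.exp (-(1 / 2) * k) = Real.exp (-(1 / 2)) ^ k := by
          rw [← Real.exp_nat_mul]
          congr 1
          ring
        rw [h5]
        refine pow_le_pow_left₀ (by norm_num) ?_ k
        have := Real.add_one_le_exp (-(1 / 2) : ℝ)
        linarith
      have h5 : C / 2 ^ (2 * k) = C * (1 / 2) ^ k * (1 / 2) ^ k := by
        have h6 : (2 : ℝ) ^ (2 * k) = 2 ^ k * 2 ^ k := by
          rw [two_mul, pow_add]
        rw [h6, one_div_pow]
        field_simp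
      rw [h5]
      exact mul_le_mul_of_nonneg_left (h4.trans hk) (by positivity)
    have h6 : (2 - 2 * C * (1 / 2 : ℝ) ^ k) * (Zt y UClass (2 * k) * z ^ (2 * k)) =
        2 * (Zt y UClass (2 * k) * z ^ (2 * k)) -
          2 * (C * (1 / 2) ^ k * (Zt y UClass (2 * k) * z ^ (2 * k))) := by ring
    rw [h6]
    linarith
  · filter_upwards [hu] with k hk
    have hpos : 0 < Zt y UClass (2 * k) * z ^ (2 * k) := (Real.exp_pos _).trans_le hk
    rw [div_le_iff₀ hpos]
    have h1 := grow_eq hy0 hz (2 * k)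
    have h2 : 0 ≤ (growP y z (2 * k)).toReal := ENNReal.toReal_nonneg
    linarith

/-- The total weight does not decay exponentially. -/
theorem gr (hy : 10 ^ 24 ≤ y) (hz : 0 < z) (hz1 : z ≤ 1 / 10 ^ 12) (hq : y * z ^ 2 ≤ 1)
    (hone : ∑' π : {π // Free π}, wt (ENNReal.ofReal y) (ENNReal.ofReal z) π.1 = 1) :
    (sys y z).Gr := by
  have hy0 : (0 : ℝ) < y := lt_of_lt_of_le (by norm_num) hy
  intro δ hδ
  have hu := grow_u hy hz hz1 hq hone (δ := δ / 2) (by positivity)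
  have hl := grow_lim hy hz hz1 hq hone
  have he : Tendsto (fun k : ℕ => Real.exp (δ / 2 * k)) atTop atTop :=
    Real.tendsto_exp_atTop.comp (tendsto_natCast_atTop_atTop.const_mul_atTop (by positivity))
  filter_upwards [hu, hl.eventually (lt_mem_nhds (by norm_num : (1 : ℝ) < 2)),
    he.eventually_ge_atTop y] with k h1 h2 h3
  have hpos : 0 < Zt y UClass (2 * k) * z ^ (2 * k) := (Real.exp_pos _).trans_le h1
  rw [lt_div_iff₀ hpos, one_mul] at h2
  rw [ENNReal.ofReal_le_iff_le_toReal (grow_fin hy0 hz _)]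
  have h4 : Real.exp (-δ * k) * Real.exp (δ / 2 * k) = Real.exp (-(δ / 2) * k) := by
    rw [← Real.exp_add]
    congr 1
    ring
  have h5 : y * Real.exp (-δ * k) ≤ Real.exp (-(δ / 2) * k) := by
    rw [← h4, mul_comm]
    exact mul_le_mul_of_nonneg_left h3 (Real.exp_pos _).le
  refine le_of_mul_le_mul_left (h5.trans (h1.trans h2.le)) hy0

/-- The total weight is asymptotically twice the partition function of the unknot. -/
theorem tot_asy (hy : 10 ^ 24 ≤ y) (hz : 0 < z) (hz1 : z ≤ 1 / 10 ^ 12) (hq : y * z ^ 2 ≤ 1)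
    (hone : ∑' π : {π // Free π}, wt (ENNReal.ofReal y) (ENNReal.ofReal z) π.1 = 1) :
    Tendsto (fun k : ℕ => y * ((sys y z).tot (2 * k)).toReal /
      (Zt y UClass (2 * k) * z ^ (2 * k))) atTop (𝓝 2) :=
  grow_lim hy hz hz1 hq hone

end Pool.Agent.KAmp
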