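import Pool.Agent.KAmp.ExpOcc
import Pool.Agent.KAmp.ExpLen
import Pool.Agent.KAmp.ExpNear

/-! KP6: laws of large numbers for the chains of length `n`. -/

set_option autoImplicit false

open Filter Topology
open scoped ENNReal

namespace Pool.Agent.KAmp

open Pool.Agent.KLog (Ker nrm hh)

variable {P H : Type} {S : Sys P H}

/-- The length is at least twice the number of elements. -/
theorem two_length_le (hS : S.Ok) (x : S.Ch) : 2 * x.1.2.1.length ≤ S.len x := by
  have h : ∀ s : List P, 2 * s.length ≤ (s.map S.ln).sum := by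
    intro s
    induction s with
    | nil => simp
    | cons p s ih =>
      have := hS.two_le p
      simp only [List.length_cons, List.map_cons, List.sum_cons]
      omega
  have := h x.1.2.1
  unfold Sys.len
  omega

theorem occ_le {κ : Ker P} (A : ℤ × ℤ → P → Prop) (v : ℤ × ℤ) (s : List P) :
    occ κ A v s ≤ s.length := by
  induction s generalizing v with
  | nil => simp [occ]
  | cons p s ih =>
    have := ih (v + κ.u p)
    simp only [occ, List.length_cons]
    split_ifs <;> omega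

private theorem sub_le {p q : S.Ch → Prop} (h : ∀ x, p x → q x) :
    ∑' x : {x : S.Ch // p x}, S.W x.1 ≤ ∑' x : {x : S.Ch // q x}, S.W x.1 :=
  ENNReal.tsum_mono_subtype S.W (s := {x | p x}) (t := {x | q x}) h

private theorem sub_or {p q r : S.Ch → Prop} (h : ∀ x, p x → q x ∨ r x) :
    ∑' x : {x : S.Ch // p x}, S.W x.1 ≤
      ∑' x : {x : S.Ch // q x}, S.W x.1 + ∑' x : {x : S.Ch // r x}, S.W x.1 :=
  (ENNReal.tsum_mono_subtype S.W (s := {x | p x}) (t := {x | q x} ∪ {x | r x}) h).trans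
    (ENNReal.tsum_union_le S.W {x | q x} {x | r x})

private theorem sub_length (hS : S.Ok) (n : ℕ) (B : S.Ch → Prop) :
    ∑' x : {x : S.Ch // S.len x = n ∧ B x}, S.W x.1 ≤
      ∑ m ∈ (Finset.range (n + 1)).filter (fun m => 2 * m ≤ n),
        ∑' x : {x : S.Ch // x.1.2.1.length = m ∧ S.len x = n ∧ B x}, S.W x.1 := by
  refine (ENNReal.tsum_mono_subtype S.W (s := {x | S.len x = n ∧ B x})
    (t := ⋃ m ∈ (Finset.range (n + 1)).filter (fun m => 2 * m ≤ n),
      {x : S.Ch | x.1.2.1.length = m ∧ S.len x = n ∧ B x}) ?_).trans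
    (ENNReal.tsum_biUnion_le S.W _ _)
  intro x hx
  have hx' : S.len x = n ∧ B x := hx
  have h2 := two_length_le hS x
  simp only [Set.mem_iUnion, Finset.mem_filter, Finset.mem_range]
  refine ⟨x.1.2.1.length, ⟨by omega, by omega⟩, ?_⟩
  exact ⟨rfl, hx'⟩

theorem sum_fin (hS : S.Ok) (n : ℕ) {F : S.Ch → ℝ≥0∞} {C : ℝ} (hF : ∀ x, F x ≤ ENNReal.ofReal C) :
    S.sum n F ≠ ⊤ := by
  obtain ⟨D, hD⟩ := mass_le hS
  have h1 : S.sum n F ≤ ∑' x : {x : S.Ch // S.len x = n}, S.W x.1 * ENNReal.ofReal C :=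
    ENNReal.tsum_le_tsum fun x => mul_le_mul_right (hF x.1) _
  rw [ENNReal.tsum_mul_right] at h1
  have h2 : ∑' x : {x : S.Ch // S.len x = n}, S.W x.1 ≤
      ∑ m ∈ (Finset.range (n + 1)).filter (fun m => 2 * m ≤ n), ENNReal.ofReal D := by
    refine (sub_le (q := fun x => S.len x = n ∧ True) fun x hx => ⟨hx, trivial⟩).trans ?_
    refine (sub_length hS n fun _ => True).trans ?_
    refine Finset.sum_le_sum fun m _ => ?_
    exact (sub_le (q := fun x => x.1.2.1.length = m) fun x hx => hx.1).trans (hD m)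
  refine ne_top_of_le_ne_top ?_ h1
  refine ENNReal.mul_ne_top (ne_top_of_le_ne_top ?_ h2) ENNReal.ofReal_ne_top
  exact ENNReal.sum_ne_top.mpr fun _ _ => ENNReal.ofReal_ne_top

private theorem lin_exp {c : ℝ} (hc : 0 < c) (n : ℕ) :
    ((n : ℝ) + 1) * Real.exp (-c * n) ≤ (1 + 2 / c) * Real.exp (-(c / 2) * n) := by
  have h1 : (n : ℝ) + 1 ≤ (1 + 2 / c) * Real.exp (c / 2 * n) := by
    have h2 := Real.add_one_le_exp (c / 2 * n)
    have h3 : (0 : ℝ) ≤ n := Nat.cast_nonneg n
    have h4 : (1 + 2 / c) * (c / 2 * n + 1) ≤ (1 + 2 / c) * Real.exp (c / 2 * n) :=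
      mul_le_mul_of_nonneg_left h2 (by positivity)
    refine le_trans ?_ h4
    have h5 : (1 + 2 / c) * (c / 2 * n + 1) = n + 1 + (c / 2 * n + 2 / c) := by
      field_simp
      ring
    rw [h5]
    have : 0 ≤ c / 2 * n + 2 / c := by positivity
    linarith
  calc ((n : ℝ) + 1) * Real.exp (-c * n) ≤ (1 + 2 / c) * Real.exp (c / 2 * n) * Real.exp (-c * n) :=
        mul_le_mul_of_nonneg_right h1 (Real.exp_pos _).le
    _ = (1 + 2 / c) * Real.exp (-(c / 2) * n) := by
        rw [mul_assoc, ← Real.exp_add]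
        congr 2
        ring

/-- The exceptional chains of length `n`. -/
theorem exp_bad (hS : S.Ok) {B : ℕ → S.Ch → Prop} {C c : ℝ} (hc : 0 < c)
    (h : ∀ n m : ℕ, 2 * m ≤ n → ∑' x : {x : S.Ch // x.1.2.1.length = m ∧ S.len x = n ∧ B n x},
      S.W x.1 ≤ ENNReal.ofReal (C * Real.exp (-c * n))) : ∃ C' c' : ℝ, 0 < c' ∧ ∀ n : ℕ,
    ∑' x : {x : S.Ch // S.len x = n ∧ B n x}, S.W x.1 ≤
      ENNReal.ofReal (C' * Real.exp (-c' * n)) := by
  refine ⟨|C| * (1 + 2 / c), c / 2, by positivity, fun n => ?_⟩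
  refine (sub_length hS n (B n)).trans ?_
  have h1 : ∀ m ∈ (Finset.range (n + 1)).filter (fun m => 2 * m ≤ n),
      ∑' x : {x : S.Ch // x.1.2.1.length = m ∧ S.len x = n ∧ B n x}, S.W x.1 ≤
        ENNReal.ofReal (|C| * Real.exp (-c * n)) := by
    intro m hm
    refine (h n m (Finset.mem_filter.mp hm).2).trans (ENNReal.ofReal_le_ofReal ?_)
    exact mul_le_mul_of_nonneg_right (le_abs_self C) (Real.exp_pos _).le
  refine (Finset.sum_le_sum h1).trans ?_
  rw [Finset.sum_const, nsmul_eq_mul]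
  have h2 : ((((Finset.range (n + 1)).filter (fun m => 2 * m ≤ n)).card : ℕ) : ℝ≥0∞) ≤
      ENNReal.ofReal ((n : ℝ) + 1) := by
    have h3 : ((Finset.range (n + 1)).filter (fun m => 2 * m ≤ n)).card ≤ n + 1 := by
      simpa using Finset.card_filter_le (Finset.range (n + 1)) (fun m => 2 * m ≤ n)
    calc ((((Finset.range (n + 1)).filter (fun m => 2 * m ≤ n)).card : ℕ) : ℝ≥0∞)
        ≤ ((n + 1 : ℕ) : ℝ≥0∞) := by exact_mod_cast h3
      _ = ENNReal.ofReal ((n : ℝ) + 1) := by
        rw [← ENNReal.ofReal_natCast]; push_cast; rfl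
  calc _ ≤ ENNReal.ofReal ((n : ℝ) + 1) * ENNReal.ofReal (|C| * Real.exp (-c * n)) :=
        mul_le_mul_left h2 _
    _ = ENNReal.ofReal (((n : ℝ) + 1) * (|C| * Real.exp (-c * n))) :=
        (ENNReal.ofReal_mul (by positivity)).symm
    _ ≤ _ := by
        apply ENNReal.ofReal_le_ofReal
        have := mul_le_mul_of_nonneg_left (lin_exp hc n) (abs_nonneg C)
        calc ((n : ℝ) + 1) * (|C| * Real.exp (-c * n))
            = |C| * (((n : ℝ) + 1) * Real.exp (-c * n)) := by ring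
          _ ≤ |C| * ((1 + 2 / c) * Real.exp (-(c / 2) * n)) := this
          _ = |C| * (1 + 2 / c) * Real.exp (-(c / 2) * n) := by ring

/-- Exceptional sets: unions. -/
private theorem bad_or {B B1 B2 : ℕ → S.Ch → Prop}
    (h : ∀ n x, S.len x = n → B n x → B1 n x ∨ B2 n x)
    (h1 : ∃ C c : ℝ, 0 < c ∧ ∀ n : ℕ, ∑' x : {x : S.Ch // S.len x = n ∧ B1 n x}, S.W x.1 ≤
      ENNReal.ofReal (C * Real.exp (-c * n)))
    (h2 : ∃ C c : ℝ, 0 < c ∧ ∀ n : ℕ, ∑' x : {x : S.Ch // S.len x = n ∧ B2 n x}, S.W x.1 ≤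
      ENNReal.ofReal (C * Real.exp (-c * n))) :
    ∃ C c : ℝ, 0 < c ∧ ∀ n : ℕ, ∑' x : {x : S.Ch // S.len x = n ∧ B n x}, S.W x.1 ≤
      ENNReal.ofReal (C * Real.exp (-c * n)) := by
  obtain ⟨C1, c1, hc1, h1⟩ := h1
  obtain ⟨C2, c2, hc2, h2⟩ := h2
  refine ⟨|C1| + |C2|, min c1 c2, lt_min hc1 hc2, fun n => ?_⟩
  refine (sub_or (q := fun x => S.len x = n ∧ B1 n x) (r := fun x => S.len x = n ∧ B2 n x)
    ?_).trans ?_
  · rintro x ⟨hx, hB⟩
    rcases h n x hx hB with hB | hB
    · exact Or.inl ⟨hx, hB⟩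
    · exact Or.inr ⟨hx, hB⟩
  refine (add_le_add (h1 n) (h2 n)).trans ?_
  have key : ∀ C' c' : ℝ, min c1 c2 ≤ c' → ENNReal.ofReal (C' * Real.exp (-c' * n)) ≤
      ENNReal.ofReal (|C'| * Real.exp (-(min c1 c2) * n)) := by
    intro C' c' hc'
    apply ENNReal.ofReal_le_ofReal
    have h3 : Real.exp (-c' * n) ≤ Real.exp (-(min c1 c2) * n) := by
      apply Real.exp_le_exp.mpr
      have : (0 : ℝ) ≤ n := Nat.cast_nonneg n
      nlinarith
    calc C' * Real.exp (-c' * n) ≤ |C'| * Real.exp (-c' * n) :=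
          mul_le_mul_of_nonneg_right (le_abs_self C') (Real.exp_pos _).le
      _ ≤ |C'| * Real.exp (-(min c1 c2) * n) := mul_le_mul_of_nonneg_left h3 (abs_nonneg C')
  refine (add_le_add (key C1 c1 (min_le_left _ _)) (key C2 c2 (min_le_right _ _))).trans ?_
  rw [← ENNReal.ofReal_add (by positivity) (by positivity), ← add_mul]

/-- If a quantity is close to a constant up to exceptional chains then its mean converges. -/
theorem mean_lim (hS : S.Ok) (hG : S.Gr) {X : S.Ch → ℝ} (h0 : ∀ x, 0 ≤ X x)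
    (hX : ∀ x, X x ≤ S.len x) {L : ℝ} (h : ∀ ε : ℝ, 0 < ε → ∃ C c : ℝ, 0 < c ∧ ∀ n : ℕ,
      ∑' x : {x : S.Ch // S.len x = n ∧ ε * n ≤ |X x - L * n|}, S.W x.1 ≤
        ENNReal.ofReal (C * Real.exp (-c * n))) :
    Tendsto (fun k : ℕ => (S.sum (2 * k) fun x => ENNReal.ofReal (X x)).toReal /
      (((2 * k : ℕ) : ℝ) * (S.tot (2 * k)).toReal)) atTop (𝓝 L) := by
  classical
  -- the main estimate
  have main : ∀ (ε C c : ℝ), 0 < ε → (∀ n : ℕ,
      ∑' x : {x : S.Ch // S.len x = n ∧ ε * n ≤ |X x - L * n|}, S.W x.1 ≤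
        ENNReal.ofReal (C * Real.exp (-c * n))) → ∀ n : ℕ,
      |(S.sum n fun x => ENNReal.ofReal (X x)).toReal - L * n * (S.tot n).toReal| ≤
        ε * n * (S.tot n).toReal + (1 + |L|) * n * (|C| * Real.exp (-c * n)) := by
    intro ε C c hε hb n
    have hn0 : (0 : ℝ) ≤ n := Nat.cast_nonneg n
    have htot : S.tot n = ∑' x : {x : S.Ch // S.len x = n}, S.W x.1 := by
      unfold Sys.tot Sys.sum
      simp
    have hTfin : ∑' x : {x : S.Ch // S.len x = n}, S.W x.1 ≠ ⊤ := by
      rw [← htot]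
      exact sum_fin hS n (C := 1) (fun x => by simp)
    have hWfin : ∀ x : {x : S.Ch // S.len x = n}, S.W x.1 ≠ ⊤ :=
      ENNReal.ne_top_of_tsum_ne_top hTfin
    have hsum := ENNReal.summable_toReal hTfin
    set w : {x : S.Ch // S.len x = n} → ℝ := fun x => (S.W x.1).toReal with hw
    have hw0 : ∀ x, 0 ≤ w x := fun x => ENNReal.toReal_nonneg
    have hT : (S.tot n).toReal = ∑' x, w x := by
      rw [htot, ENNReal.tsum_toReal_eq hWfin]
    have hXn : ∀ x : {x : S.Ch // S.len x = n}, X x.1 ≤ n := by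
      intro x
      have := hX x.1
      rwa [x.2] at this
    have hSX : (S.sum n fun x => ENNReal.ofReal (X x)).toReal = ∑' x, w x * X x.1 := by
      unfold Sys.sum
      rw [ENNReal.tsum_toReal_eq (fun x => ENNReal.mul_ne_top (hWfin x) ENNReal.ofReal_ne_top)]
      refine tsum_congr fun x => ?_
      rw [ENNReal.toReal_mul, ENNReal.toReal_ofReal (h0 x.1)]
    have hsX : Summable fun x : {x : S.Ch // S.len x = n} => w x * X x.1 := by
      refine Summable.of_nonneg_of_le (fun x => mul_nonneg (hw0 x) (h0 x.1))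
        (fun x => mul_le_mul_of_nonneg_left (hXn x) (hw0 x)) (hsum.mul_right _)
    -- the exceptional chains
    set b : {x : S.Ch // S.len x = n} → ℝ :=
      fun x => if ε * n ≤ |X x.1 - L * n| then w x else 0 with hb'
    have hb0 : ∀ x, 0 ≤ b x := by
      intro x
      simp only [hb']
      split_ifs
      · exact hw0 x
      · exact le_rfl
    have hbw : ∀ x, b x ≤ w x := by
      intro x
      simp only [hb']
      split_ifs
      · exact le_rfl
      · exact hw0 x
    have hbs : Summable b := Summable.of_nonneg_of_le hb0 hbw hsum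
    have hbt : ∑' x, b x ≤ |C| * Real.exp (-c * n) := by
      have h1 : ENNReal.ofReal (∑' x, b x) ≤
          ∑' x : {x : S.Ch // S.len x = n ∧ ε * n ≤ |X x - L * n|}, S.W x.1 := by
        rw [ENNReal.ofReal_tsum_of_nonneg hb0 hbs]
        have h2 : ∀ x : {x : S.Ch // S.len x = n}, ENNReal.ofReal (b x) =
            ({x : {x : S.Ch // S.len x = n} | ε * n ≤ |X x.1 - L * n|}).indicator
              (fun x => S.W x.1) x := by
          intro x
          simp only [hb', Set.indicator_apply, Set.mem_ofPred_eq]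
          split_ifs
          · exact ENNReal.ofReal_toReal (hWfin x)
          · simp
        rw [tsum_congr h2, ← tsum_subtype]
        refine ENNReal.tsum_comp_le_tsum_of_injective (f := fun x :
          {x : {x : S.Ch // S.len x = n} | ε * n ≤ |X x.1 - L * n|} =>
          (⟨x.1.1, x.1.2, x.2⟩ : {x : S.Ch // S.len x = n ∧ ε * n ≤ |X x - L * n|})) ?_
          (fun x => S.W x.1)
        intro x y hxy
        apply Subtype.ext
        apply Subtype.ext
        exact congrArg (fun z => z.1) hxy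
      have h2 := h1.trans (hb n)
      have h3 : ENNReal.ofReal (∑' x, b x) ≤ ENNReal.ofReal (|C| * Real.exp (-c * n)) := by
        refine h2.trans (ENNReal.ofReal_le_ofReal ?_)
        exact mul_le_mul_of_nonneg_right (le_abs_self C) (Real.exp_pos _).le
      exact (ENNReal.ofReal_le_ofReal_iff (by positivity)).mp h3
    rw [hT, hSX, ← tsum_mul_left, ← hsX.tsum_sub (hsum.mul_left _), ← tsum_mul_left]
    have hp : ∀ x : {x : S.Ch // S.len x = n}, ‖w x * X x.1 - L * n * w x‖ ≤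
        ε * n * w x + (1 + |L|) * n * b x := by
      intro x
      have e : w x * X x.1 - L * n * w x = w x * (X x.1 - L * n) := by ring
      rw [e, Real.norm_eq_abs, abs_mul, abs_of_nonneg (hw0 x)]
      by_cases hx : ε * n ≤ |X x.1 - L * n|
      · have hbx : b x = w x := by simp only [hb', if_pos hx]
        rw [hbx]
        have h4 : |X x.1 - L * n| ≤ (1 + |L|) * n := by
          have h5 : |X x.1| ≤ n := by
            rw [abs_of_nonneg (h0 x.1)]
            exact hXn x
          have h6 : |L * n| = |L| * n := by rw [abs_mul, abs_of_nonneg hn0]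
          have := abs_sub (X x.1) (L * n)
          rw [h6] at this
          nlinarith
        have h5 := mul_le_mul_of_nonneg_left h4 (hw0 x)
        have h6 : 0 ≤ ε * n * w x := mul_nonneg (mul_nonneg hε.le hn0) (hw0 x)
        nlinarith
      · have h4 : |X x.1 - L * n| ≤ ε * n := (not_le.mp hx).le
        have h5 := mul_le_mul_of_nonneg_left h4 (hw0 x)
        have h6 : 0 ≤ (1 + |L|) * n * b x :=
          mul_nonneg (mul_nonneg (by positivity) hn0) (hb0 x)
        nlinarith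
    have hps : Summable fun x => ε * n * w x + (1 + |L|) * n * b x :=
      (hsum.mul_left _).add (hbs.mul_left _)
    have hfin := tsum_of_norm_bounded hps.hasSum hp
    rw [Real.norm_eq_abs] at hfin
    refine hfin.trans ?_
    rw [(hsum.mul_left _).tsum_add (hbs.mul_left _), tsum_mul_left, tsum_mul_left]
    have h7 := mul_le_mul_of_nonneg_left hbt (show 0 ≤ (1 + |L|) * (n : ℝ) by positivity)
    linarith
  rw [Metric.tendsto_atTop]
  intro η hη
  obtain ⟨C, c, hc, hb⟩ := h (η / 2) (by positivity)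
  have hmain := main (η / 2) C c (by positivity) hb
  have hGc := hG c hc
  -- the error term goes to zero
  have hlim : Tendsto (fun k : ℕ => (1 + |L|) * (|C| * Real.exp (-c * k))) atTop (𝓝 0) := by
    have h1 : Tendsto (fun k : ℕ => Real.exp (-c * k)) atTop (𝓝 0) := by
      refine Real.tendsto_exp_atBot.comp ?_
      have : Tendsto (fun k : ℕ => c * (k : ℝ)) atTop atTop :=
        tendsto_natCast_atTop_atTop.const_mul_atTop hc
      have h2 := tendsto_neg_atTop_atBot.comp this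
      refine h2.congr fun k => ?_
      simp
    have h2 := (h1.const_mul |C|).const_mul (1 + |L|)
    simpa using h2
  have hlim' := (Metric.tendsto_atTop.mp hlim) (η / 2) (by positivity)
  obtain ⟨N1, hN1⟩ := hlim'
  obtain ⟨N2, hN2⟩ := Filter.eventually_atTop.mp hGc
  refine ⟨max (max N1 N2) 1, fun k hk => ?_⟩
  have hk1 : N1 ≤ k := le_trans (le_trans (le_max_left _ _) (le_max_left _ _)) hk
  have hk2 : N2 ≤ k := le_trans (le_trans (le_max_right _ _) (le_max_left _ _)) hk
  have hk3 : 1 ≤ k := le_trans (le_max_right _ _) hk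
  have hTfin : S.tot (2 * k) ≠ ⊤ := sum_fin hS (2 * k) (C := 1) (fun x => by simp)
  set T := (S.tot (2 * k)).toReal with hTdef
  have hT : Real.exp (-c * k) ≤ T := by
    have := hN2 k hk2
    exact (ENNReal.ofReal_le_iff_le_toReal hTfin).mp this
  have hTpos : 0 < T := lt_of_lt_of_le (Real.exp_pos _) hT
  have hn : (0 : ℝ) < ((2 * k : ℕ) : ℝ) := by
    have : 0 < 2 * k := by omega
    exact_mod_cast this
  have h1 := hmain (2 * k)
  have h2 := hN1 k hk1
  rw [Real.dist_eq, sub_zero, abs_of_nonneg (by positivity)] at h2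
  rw [Real.dist_eq]
  set Y := (S.sum (2 * k) fun x => ENNReal.ofReal (X x)).toReal with hY
  have e1 : Y / (((2 * k : ℕ) : ℝ) * T) - L = (Y - L * ((2 * k : ℕ) : ℝ) * T) /
      (((2 * k : ℕ) : ℝ) * T) := by
    field_simp
  rw [e1, abs_div, abs_of_pos (mul_pos hn hTpos), div_lt_iff₀ (mul_pos hn hTpos)]
  refine lt_of_le_of_lt h1 ?_
  have h3 : Real.exp (-c * ((2 * k : ℕ) : ℝ)) = Real.exp (-c * k) * Real.exp (-c * k) := by
    rw [← Real.exp_add]
    congr 1
    push_cast
    ring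
  have h4 : (1 + |L|) * ((2 * k : ℕ) : ℝ) * (|C| * Real.exp (-c * ((2 * k : ℕ) : ℝ))) ≤
      ((2 * k : ℕ) : ℝ) * (((1 + |L|) * (|C| * Real.exp (-c * k))) * T) := by
    rw [h3]
    have h5 : (1 + |L|) * (|C| * Real.exp (-c * k)) * Real.exp (-c * k) ≤
        (1 + |L|) * (|C| * Real.exp (-c * k)) * T :=
      mul_le_mul_of_nonneg_left hT (by positivity)
    have h6 := mul_le_mul_of_nonneg_left h5 hn.le
    nlinarith
  have h7 : ((1 + |L|) * (|C| * Real.exp (-c * k))) * T < η / 2 * T :=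
    mul_lt_mul_of_pos_right h2 hTpos
  have h8 := mul_lt_mul_of_pos_left h7 hn
  nlinarith

private theorem oc_le_len (hS : S.Ok) (A : ℤ × ℤ → P → Prop) (x : S.Ch) :
    (S.oc A x : ℝ) ≤ S.len x := by
  have h1 := occ_le (κ := S.κ) A (S.pos x.1.1) x.1.2.1
  have h2 := two_length_le hS x
  have h3 : S.oc A x ≤ S.len x := by
    unfold Sys.oc
    omega
  exact_mod_cast h3

private theorem bad_len (hS : S.Ok) {ε : ℝ} (hε : 0 < ε) : ∃ C c : ℝ, 0 < c ∧ ∀ n : ℕ,
    ∑' x : {x : S.Ch // S.len x = n ∧ ε * n ≤ |(x.1.2.1.length : ℝ) - 1 / S.ell * n|}, S.W x.1 ≤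
      ENNReal.ofReal (C * Real.exp (-c * n)) := by
  have hell := ell_ge hS
  have hell0 : (0 : ℝ) < S.ell := by linarith
  obtain ⟨C, c, hc, h⟩ := exp_len hS (ε := ε * S.ell) (by positivity)
  refine exp_bad hS (B := fun n x => ε * n ≤ |(x.1.2.1.length : ℝ) - 1 / S.ell * n|) hc
    (C := C) fun n m _ => ?_
  refine (sub_le ?_).trans (h n m)
  rintro x ⟨hm, hn, hB⟩
  refine ⟨hm, hn, ?_⟩
  rw [hm] at hB
  have e : (n : ℝ) - m * S.ell = -(S.ell * ((m : ℝ) - 1 / S.ell * n)) := by
    field_simp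
    ring
  rw [e, abs_neg, abs_mul, abs_of_pos hell0]
  have := mul_le_mul_of_nonneg_left hB hell0.le
  nlinarith

private theorem bad_near (hS : S.Ok) (R : ℕ) {ε : ℝ} (hε : 0 < ε) : ∃ C c : ℝ, 0 < c ∧ ∀ n : ℕ,
    ∑' x : {x : S.Ch // S.len x = n ∧ ε * n ≤ (S.oc (fun v _ => nrm v ≤ R) x : ℝ)}, S.W x.1 ≤
      ENNReal.ofReal (C * Real.exp (-c * n)) := by
  obtain ⟨C, c, hc, h⟩ := exp_near hS R hε
  refine exp_bad hS (B := fun n x => ε * n ≤ (S.oc (fun v _ => nrm v ≤ R) x : ℝ)) hc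
    (C := C) fun n m _ => ?_
  refine (sub_le ?_).trans (h n m)
  rintro x ⟨hm, _, hB⟩
  exact ⟨hm, hB⟩

private theorem bad_occ (hS : S.Ok) (p0 : P) {ε : ℝ} (hε : 0 < ε) : ∃ C c : ℝ, 0 < c ∧ ∀ n : ℕ,
    ∑' x : {x : S.Ch // S.len x = n ∧
      ε * n ≤ |(S.oc (fun _ p => p = p0) x : ℝ) - S.wF p0 / S.ell * n|}, S.W x.1 ≤
      ENNReal.ofReal (C * Real.exp (-c * n)) := by
  have hell := ell_ge hS
  have hell0 : (0 : ℝ) < S.ell := by linarith
  have hw0 := wF_nonneg (S := S) p0
  have hw1 := wF_le hS p0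
  refine bad_or (B1 := fun n x => ε / 2 * n ≤
      |(S.oc (fun _ p => p = p0) x : ℝ) - x.1.2.1.length * S.wF p0|)
    (B2 := fun n x => ε / 2 * n ≤ |(x.1.2.1.length : ℝ) - 1 / S.ell * n|) ?_ ?_
    (bad_len hS (by positivity))
  · intro n x _ hB
    by_contra hcon
    push Not at hcon
    obtain ⟨h1, h2⟩ := hcon
    have e : (S.oc (fun _ p => p = p0) x : ℝ) - S.wF p0 / S.ell * n =
        ((S.oc (fun _ p => p = p0) x : ℝ) - x.1.2.1.length * S.wF p0) +
          S.wF p0 * ((x.1.2.1.length : ℝ) - 1 / S.ell * n) := by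
      field_simp
      ring
    rw [e] at hB
    have h3 := abs_add_le ((S.oc (fun _ p => p = p0) x : ℝ) - x.1.2.1.length * S.wF p0)
      (S.wF p0 * ((x.1.2.1.length : ℝ) - 1 / S.ell * n))
    rw [abs_mul, abs_of_nonneg hw0] at h3
    have h4 : S.wF p0 * |(x.1.2.1.length : ℝ) - 1 / S.ell * n| ≤
        1 * |(x.1.2.1.length : ℝ) - 1 / S.ell * n| :=
      mul_le_mul_of_nonneg_right hw1 (abs_nonneg _)
    nlinarith
  · obtain ⟨C, c, hc, h⟩ := exp_occ hS p0 (ε := ε / 2) (by positivity)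
    refine exp_bad hS (B := fun n x => ε / 2 * n ≤
      |(S.oc (fun _ p => p = p0) x : ℝ) - x.1.2.1.length * S.wF p0|) hc
      (C := C) fun n m hmn => ?_
    refine (sub_le ?_).trans (h n m m le_rfl (by omega))
    rintro x ⟨hm, _, hB⟩
    refine ⟨hm, ?_⟩
    rw [hm] at hB
    rw [← hm, List.take_length, hm]
    exact hB

/-- **The number of elements.** -/
theorem lln_len (hS : S.Ok) (hG : S.Gr) :
    Tendsto (fun k : ℕ => (S.sum (2 * k) fun x => (x.1.2.1.length : ℝ≥0∞)).toReal /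
      (((2 * k : ℕ) : ℝ) * (S.tot (2 * k)).toReal)) atTop (𝓝 (1 / S.ell)) := by
  have h := mean_lim hS hG (X := fun x => (x.1.2.1.length : ℝ)) (L := 1 / S.ell)
    (fun x => Nat.cast_nonneg _) (fun x => ?_) (fun ε hε => bad_len hS hε)
  · simpa only [ENNReal.ofReal_natCast] using h
  · have := two_length_le hS x
    have h2 : x.1.2.1.length ≤ S.len x := by omega
    exact_mod_cast h2

/-- **The number of elements near the origin.** -/
theorem lln_near (hS : S.Ok) (hG : S.Gr) (R : ℕ) :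
    Tendsto (fun k : ℕ => (S.sum (2 * k) fun x => (S.oc (fun v _ => nrm v ≤ R) x : ℝ≥0∞)).toReal /
      (((2 * k : ℕ) : ℝ) * (S.tot (2 * k)).toReal)) atTop (𝓝 0) := by
  have h := mean_lim hS hG (X := fun x => (S.oc (fun v _ => nrm v ≤ R) x : ℝ)) (L := 0)
    (fun x => Nat.cast_nonneg _) (fun x => oc_le_len hS _ x) (fun ε hε => ?_)
  · simpa only [ENNReal.ofReal_natCast] using h
  · obtain ⟨C, c, hc, h⟩ := bad_near hS R hε
    refine ⟨C, c, hc, fun n => (sub_le ?_).trans (h n)⟩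
    rintro x ⟨hn, hB⟩
    refine ⟨hn, ?_⟩
    rwa [zero_mul, sub_zero, abs_of_nonneg (Nat.cast_nonneg _)] at hB

/-- **The number of occurrences of an element.** -/
theorem lln_occ (hS : S.Ok) (hG : S.Gr) (p0 : P) :
    Tendsto (fun k : ℕ => (S.sum (2 * k) fun x => (S.oc (fun _ p => p = p0) x : ℝ≥0∞)).toReal /
      (((2 * k : ℕ) : ℝ) * (S.tot (2 * k)).toReal)) atTop (𝓝 (S.wF p0 / S.ell)) := by
  have h := mean_lim hS hG (X := fun x => (S.oc (fun _ p => p = p0) x : ℝ))
    (L := S.wF p0 / S.ell)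
    (fun x => Nat.cast_nonneg _) (fun x => oc_le_len hS _ x) (fun ε hε => bad_occ hS p0 hε)
  simpa only [ENNReal.ofReal_natCast] using h

private theorem occ_far_le {κ : Ker P} (p0 : P) (R : ℕ) (v : ℤ × ℤ) (s : List P) :
    occ κ (fun v p => p = p0 ∧ R < nrm v) v s ≤ occ κ (fun _ p => p = p0) v s ∧
      occ κ (fun _ p => p = p0) v s ≤ occ κ (fun v p => p = p0 ∧ R < nrm v) v s +
        occ κ (fun v _ => nrm v ≤ R) v s := by
  induction s generalizing v with
  | nil => simp [occ]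
  | cons p s ih =>
    obtain ⟨h1, h2⟩ := ih (v + κ.u p)
    simp only [occ]
    by_cases hp : p = p0
    · by_cases hv : nrm v ≤ R
      · have hv' : ¬ R < nrm v := by omega
        simp only [hp, hv, hv', and_false, if_true, if_false] at *
        constructor <;> omega
      · have hv' : R < nrm v := by omega
        simp only [hp, hv, hv', and_true, if_true, if_false] at *
        constructor <;> omega
    · simp only [hp, false_and, if_false] at *
      constructor
      · omega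
      · split_ifs <;> omega

/-- **The number of occurrences far from the origin.** -/
theorem lln_far (hS : S.Ok) (hG : S.Gr) (p0 : P) (R : ℕ) :
    Tendsto (fun k : ℕ => (S.sum (2 * k) fun x =>
      (S.oc (fun v p => p = p0 ∧ R < nrm v) x : ℝ≥0∞)).toReal /
      (((2 * k : ℕ) : ℝ) * (S.tot (2 * k)).toReal)) atTop (𝓝 (S.wF p0 / S.ell)) := by
  have h := mean_lim hS hG (X := fun x => (S.oc (fun v p => p = p0 ∧ R < nrm v) x : ℝ))
    (L := S.wF p0 / S.ell)
    (fun x => Nat.cast_nonneg _) (fun x => oc_le_len hS _ x) (fun ε hε => ?_)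
  · simpa only [ENNReal.ofReal_natCast] using h
  · refine bad_or (B1 := fun n x => ε / 2 * n ≤
      |(S.oc (fun _ p => p = p0) x : ℝ) - S.wF p0 / S.ell * n|)
      (B2 := fun n x => ε / 2 * n ≤ (S.oc (fun v _ => nrm v ≤ R) x : ℝ)) ?_
      (bad_occ hS p0 (by positivity)) (bad_near hS R (by positivity))
    intro n x _ hB
    by_contra hcon
    push Not at hcon
    obtain ⟨h1, h2⟩ := hcon
    obtain ⟨h3, h4⟩ := occ_far_le (κ := S.κ) p0 R (S.pos x.1.1) x.1.2.1
    have h3' : (S.oc (fun v p => p = p0 ∧ R < nrm v) x : ℝ) ≤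
        (S.oc (fun _ p => p = p0) x : ℝ) := by
      exact_mod_cast h3
    have h4' : (S.oc (fun _ p => p = p0) x : ℝ) ≤
        (S.oc (fun v p => p = p0 ∧ R < nrm v) x : ℝ) + (S.oc (fun v _ => nrm v ≤ R) x : ℝ) := by
      exact_mod_cast h4
    have h5 := abs_lt.mp h1
    have h6 : |(S.oc (fun v p => p = p0 ∧ R < nrm v) x : ℝ) - S.wF p0 / S.ell * n| < ε * n := by
      rw [abs_lt]
      constructor <;> linarith [h5.1, h5.2]
    exact absurd hB (not_le.mpr h6)

end Pool.Agent.KAmp
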