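import Pool.Agent.KAmp.Model
import Pool.Agent.KAmp.Fl

/-! KP11: chains with a marked element, and pairs of unknotted halves. -/

set_option autoImplicit false

open Pool.Agent.LK
open scoped ENNReal

namespace Pool.Agent.KAmp

open Pool.Agent.KTube Pool.Agent.KRing Pool.Agent.KLog
open Pool.Agent.KAsym (ln)

variable {y z : ℝ}

/-! ### Splittings of lists -/

private theorem mk_vc_append {P : Type} (κ : Ker P) (v : ℤ × ℤ) (s t : List P) :
    VC κ v (s ++ t) ↔ VC κ v s ∧ VC κ (ev κ v s) t := by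
  induction s generalizing v with
  | nil => simp [VC, ev]
  | cons p s ih =>
    have h : ev κ v (p :: s) = ev κ (v + κ.u p) s := by
      simp only [ev, List.map_cons, List.sum_cons]
      rw [add_assoc]
    rw [List.cons_append, h]
    simp only [VC]
    rw [ih, and_assoc]

private theorem mk_ev_append {P : Type} (κ : Ker P) (v : ℤ × ℤ) (s t : List P) :
    ev κ v (s ++ t) = ev κ (ev κ v s) t := by
  simp only [ev, List.map_append, List.sum_append]
  rw [add_assoc]

private theorem mk_ev_cons {P : Type} (κ : Ker P) (v : ℤ × ℤ) (p : P) (t : List P) :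
    ev κ v (p :: t) = ev κ (v + κ.u p) t := by
  simp only [ev, List.map_cons, List.sum_cons]
  rw [add_assoc]

open Classical in
private noncomputable def mkJ {P : Type} (κ : Ker P) (A : ℤ × ℤ → P → Prop) (g : ℝ≥0∞)
    (v : ℤ × ℤ) (s : List P) (k : ℕ) : ℝ≥0∞ :=
  if h : k < s.length then (if A (ev κ v (s.take k)) s[k] then g else 0) else 0

private theorem mk_sumJ {P : Type} (κ : Ker P) (A : ℤ × ℤ → P → Prop) (g : ℝ≥0∞) (v : ℤ × ℤ)
    (s : List P) : ∑' k, mkJ κ A g v s k = g * (occ κ A v s : ℝ≥0∞) := by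
  classical
  induction s generalizing v with
  | nil => simp [mkJ, occ]
  | cons p s ih =>
    rw [tsum_eq_zero_add' ENNReal.summable]
    have h1 : mkJ κ A g v (p :: s) 0 = if A v p then g else 0 := by
      simp [mkJ, ev]
    have h2 : ∀ k, mkJ κ A g v (p :: s) (k + 1) = mkJ κ A g (v + κ.u p) s k := by
      intro k
      simp only [mkJ, List.length_cons, Nat.add_lt_add_iff_right, List.take_succ_cons,
        List.getElem_cons_succ, mk_ev_cons]
    rw [h1, tsum_congr h2, ih]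
    simp only [occ]
    push_cast
    rw [mul_add]
    split_ifs <;> simp

open Classical in
private theorem mk_split {P : Type} (κ : Ker P) (A : ℤ × ℤ → P → Prop) (G : List P → ℝ≥0∞)
    (v : ℤ × ℤ) : ∑' s, G s * (occ κ A v s : ℝ≥0∞) =
      ∑' x : List P × P × List P, if A (ev κ v x.1) x.2.1 then G (x.1 ++ x.2.1 :: x.2.2) else 0 := by
  let i : List P × P × List P → List P × ℕ := fun x => (x.1 ++ x.2.1 :: x.2.2, x.1.length)
  have hi : Function.Injective i := by
    rintro ⟨a, p, b⟩ ⟨c, q, d⟩ h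
    have h1 : a ++ p :: b = c ++ q :: d := congrArg Prod.fst h
    have h2 : a.length = c.length := congrArg Prod.snd h
    obtain ⟨h3, h4⟩ := List.append_inj h1 h2
    rw [List.cons.injEq] at h4
    rw [h3, h4.1, h4.2]
  have hs : Function.support (fun y : List P × ℕ => mkJ κ A (G y.1) v y.1 y.2) ⊆
      Set.range i := by
    rintro ⟨s, k⟩ h
    rw [Function.mem_support] at h
    simp only [mkJ] at h
    split_ifs at h with h1 h2
    · refine ⟨(s.take k, s[k], s.drop (k + 1)), ?_⟩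
      simp only [i]
      rw [List.length_take, min_eq_left h1.le, ← List.drop_eq_getElem_cons h1,
        List.take_append_drop]
    · exact absurd rfl h
    · exact absurd rfl h
  have h1 := hi.tsum_eq hs
  rw [ENNReal.tsum_prod (f := fun s k => mkJ κ A (G s) v s k)] at h1
  rw [tsum_congr fun s => (mk_sumJ κ A (G s) v s).symm, ← h1]
  refine tsum_congr fun x => ?_
  obtain ⟨a, p, b⟩ := x
  simp only [i, mkJ]
  rw [dif_pos (by simp)]
  simp

private theorem mk_split2 {P : Type} (G : List P → ℝ≥0∞) :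
    ∑' s, G s * ((s.length : ℝ≥0∞) + 1) = ∑' x : List P × List P, G (x.1 ++ x.2) := by
  let i : List P × List P → List P × ℕ := fun x => (x.1 ++ x.2, x.1.length)
  have hi : Function.Injective i := by
    rintro ⟨a, b⟩ ⟨c, d⟩ h
    have h1 : a ++ b = c ++ d := congrArg Prod.fst h
    have h2 : a.length = c.length := congrArg Prod.snd h
    obtain ⟨h3, h4⟩ := List.append_inj h1 h2
    rw [h3, h4]
  let H : List P × ℕ → ℝ≥0∞ := fun y => if y.2 ≤ y.1.length then G y.1 else 0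
  have hs : Function.support H ⊆ Set.range i := by
    rintro ⟨s, k⟩ h
    rw [Function.mem_support] at h
    simp only [H] at h
    split_ifs at h with h1
    · refine ⟨(s.take k, s.drop k), ?_⟩
      simp only [i]
      rw [List.length_take, min_eq_left h1, List.take_append_drop]
    · exact absurd rfl h
  have h1 := hi.tsum_eq hs
  rw [ENNReal.tsum_prod (f := fun s k => H (s, k))] at h1
  have h2 : ∀ s : List P, ∑' k, H (s, k) = G s * ((s.length : ℝ≥0∞) + 1) := by
    intro s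
    rw [tsum_eq_sum (s := Finset.range (s.length + 1))]
    · rw [Finset.sum_congr rfl (g := fun _ => G s) fun k hk => ?_]
      · rw [Finset.sum_const, Finset.card_range, nsmul_eq_mul, mul_comm]
        push_cast
        rfl
      · rw [Finset.mem_range] at hk
        exact if_pos (by simp only; omega)
    · intro k hk
      rw [Finset.mem_range] at hk
      exact if_neg (by simp only; omega)
  rw [tsum_congr h2] at h1
  rw [← h1]
  refine tsum_congr fun x => ?_
  simp only [i, H]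
  rw [if_pos (by simp)]

/-! ### Reflection of chains -/

private def mkR (s : List PP) : List PP := (s.map fl).reverse

private theorem mkR_mkR (s : List PP) : mkR (mkR s) = s := by
  unfold mkR
  rw [List.map_reverse, List.reverse_reverse, List.map_map]
  have : fl ∘ fl = id := funext fun π => fl_fl π
  rw [this, List.map_id]

private def mkRe : List PP ≃ List PP := ⟨mkR, mkR, mkR_mkR, mkR_mkR⟩

private theorem mk_vc_R (y z : ℝ) {w p : ℤ × ℤ} {s : List PP} (h : VC (ker y z) w s)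
    (hp : ev (ker y z) w s = p) : VC (ker y z) p (mkR s) ∧ ev (ker y z) p (mkR s) = w := by
  induction s generalizing w with
  | nil =>
    refine ⟨trivial, ?_⟩
    rw [← hp]
    simp [mkR, ev]
  | cons π s ih =>
    have h1 : Valid w π := h.1
    have h2 : VC (ker y z) (w + dsp π) s := h.2
    have h3 : ev (ker y z) (w + dsp π) s = p := by
      rw [← hp, mk_ev_cons]
      rfl
    obtain ⟨h4, h5⟩ := ih h2 h3
    have h6 : mkR (π :: s) = mkR s ++ [fl π] := by
      unfold mkR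
      rw [List.map_cons, List.reverse_cons]
    rw [h6, mk_vc_append, mk_ev_append, h5, mk_ev_cons]
    refine ⟨⟨h4, valid_fl h1, trivial⟩, ?_⟩
    change w + dsp π + dsp (fl π) + 0 = w
    rw [dsp_fl]
    abel

private theorem mk_vc_R_iff (y z : ℝ) {w p : ℤ × ℤ} {s : List PP} :
    (VC (ker y z) p (mkR s) ∧ ev (ker y z) p (mkR s) = w) ↔
      (VC (ker y z) w s ∧ ev (ker y z) w s = p) := by
  refine ⟨fun h => ?_, fun h => mk_vc_R y z h.1 h.2⟩
  have := mk_vc_R y z h.1 h.2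
  rwa [mkR_mkR] at this

private theorem mk_R_wt (a b : ℝ≥0∞) (s : List PP) :
    ((mkR s).map (wt a b)).prod = (s.map (wt a b)).prod := by
  unfold mkR
  rw [List.map_reverse, List.prod_reverse, List.map_map]
  have : wt a b ∘ fl = wt a b := funext fun π => wt_fl a b π
  rw [this]

private theorem mk_R_ln (s : List PP) : ((mkR s).map ln).sum = (s.map ln).sum := by
  unfold mkR
  rw [List.map_reverse, List.sum_reverse, List.map_map]
  have : ln ∘ fl = ln := funext fun π => ln_fl π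
  rw [this]

/-! ### Halves as chains -/

private abbrev HL : Type := HT × List PP

private def mkc (y z : ℝ) (x : HL) (v : ℤ × ℤ) : Prop :=
  VC (ker y z) x.1.1 x.2 ∧ ev (ker y z) x.1.1 x.2 = v

private noncomputable def mkw (y z : ℝ) (x : HL) : ℝ≥0∞ :=
  wl (ENNReal.ofReal y) (ENNReal.ofReal z) x.1.2.1 *
    (x.2.map (wt (ENNReal.ofReal y) (ENNReal.ofReal z))).prod

private def mkl (x : HL) : ℕ := x.1.2.1.length + (x.2.map ln).sum

open Classical in
private theorem mk_GG (y z : ℝ) (n : ℕ) (v w : ℤ × ℤ) : GG y z n v w =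
    ∑' x : HL × HL, if mkc y z x.1 v ∧ mkc y z x.2 w ∧ mkl x.1 + mkl x.2 = n then
      mkw y z x.1 * mkw y z x.2 else 0 := by
  obtain ⟨e, he⟩ := exists_lu_equiv y z v
  obtain ⟨e', he'⟩ := exists_lu_equiv y z w
  let i : {p : List P3 × List P3 // LU 0 0 v p.1 ∧ LU 0 0 w p.2 ∧ p.1.length + p.2.length = n} →
      HL × HL := fun p => ((e.symm ⟨p.1.1, p.2.1⟩).1, (e'.symm ⟨p.1.2, p.2.2.1⟩).1)
  have hw : ∀ (x : HL) (h : mkc y z x v), wl (ENNReal.ofReal y) (ENNReal.ofReal z)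
      (e ⟨x, h⟩).1 = mkw y z x ∧ (e ⟨x, h⟩).1.length = mkl x := by
    intro x h
    rw [he]
    exact ⟨wl_gl x.1.2.2 h.1 _ _, length_gl x.1.2.2 h.1⟩
  have hw' : ∀ (x : HL) (h : mkc y z x w), wl (ENNReal.ofReal y) (ENNReal.ofReal z)
      (e' ⟨x, h⟩).1 = mkw y z x ∧ (e' ⟨x, h⟩).1.length = mkl x := by
    intro x h
    rw [he']
    exact ⟨wl_gl x.1.2.2 h.1 _ _, length_gl x.1.2.2 h.1⟩
  have hi : Function.Injective i := by
    rintro ⟨⟨a, b⟩, ha, hb, hab⟩ ⟨⟨c, d⟩, hc, hd, hcd⟩ h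
    have h1 : (e.symm ⟨a, ha⟩).1 = (e.symm ⟨c, hc⟩).1 := congrArg Prod.fst h
    have h2 : (e'.symm ⟨b, hb⟩).1 = (e'.symm ⟨d, hd⟩).1 := congrArg Prod.snd h
    have h3 := e.symm.injective (Subtype.ext h1)
    have h4 := e'.symm.injective (Subtype.ext h2)
    have h5 : a = c := congrArg (fun x : {l // LU 0 0 v l} => x.1) h3
    have h6 : b = d := congrArg (fun x : {l // LU 0 0 w l} => x.1) h4
    subst h5 h6
    rfl
  have hs : Function.support (fun x : HL × HL =>
      if mkc y z x.1 v ∧ mkc y z x.2 w ∧ mkl x.1 + mkl x.2 = n then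
        mkw y z x.1 * mkw y z x.2 else 0) ⊆ Set.range i := by
    rintro ⟨x, x'⟩ h
    rw [Function.mem_support] at h
    split_ifs at h with h1
    · obtain ⟨h2, h3, h4⟩ := h1
      simp only at h2 h3 h4
      refine ⟨⟨((e ⟨x, h2⟩).1, (e' ⟨x', h3⟩).1), (e ⟨x, h2⟩).2, (e' ⟨x', h3⟩).2, ?_⟩, ?_⟩
      · rw [(hw x h2).2, (hw' x' h3).2, h4]
      · simp only [i]
        rw [Subtype.coe_eta, Subtype.coe_eta, e.symm_apply_apply, e'.symm_apply_apply]
    · exact absurd rfl h
  rw [← hi.tsum_eq hs]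
  unfold GG
  refine tsum_congr fun p => ?_
  obtain ⟨⟨a, b⟩, ha, hb, hab⟩ := p
  simp only at ha hb hab
  simp only [i]
  have h1 := (e.symm ⟨a, ha⟩).2
  have h2 := (e'.symm ⟨b, hb⟩).2
  have h3 := hw _ h1
  have h4 := hw' _ h2
  rw [Subtype.coe_eta, e.apply_symm_apply] at h3
  rw [Subtype.coe_eta, e'.apply_symm_apply] at h4
  simp only at h3 h4
  rw [if_pos ⟨h1, h2, by rw [← h3.2, ← h4.2]; exact hab⟩, ← h3.1, ← h4.1]

/-! ### Sums over chains -/

open Classical in
private noncomputable def mkG (y z : ℝ) (n : ℕ) (h h' : HT) (s : List PP) : ℝ≥0∞ :=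
  if (VC (ker y z) h.1 s ∧ ev (ker y z) h.1 s = h'.1) ∧
      h.2.1.length + (s.map ln).sum + h'.2.1.length = n then
    wl (ENNReal.ofReal y) (ENNReal.ofReal z) h.2.1 *
      (s.map (wt (ENNReal.ofReal y) (ENNReal.ofReal z))).prod *
        wl (ENNReal.ofReal y) (ENNReal.ofReal z) h'.2.1 else 0

private theorem mk_sum (y z : ℝ) (n : ℕ) (F : HT → List PP → ℝ≥0∞) :
    (sys y z).sum n (fun x => F x.1.1 x.1.2.1) =
      ∑' x : HT × HT, ∑' s : List PP, mkG y z n x.1 x.2 s * F x.1 s := by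
  let i : {x : (sys y z).Ch // (sys y z).len x = n} → HT × HT × List PP :=
    fun x => (x.1.1.1, x.1.1.2.2, x.1.1.2.1)
  have hi : Function.Injective i := by
    rintro ⟨⟨⟨a, s, b⟩, h1⟩, h2⟩ ⟨⟨⟨a', s', b'⟩, h1'⟩, h2'⟩ h
    have e1 : a = a' := congrArg (fun x : HT × HT × List PP => x.1) h
    have e2 : b = b' := congrArg (fun x : HT × HT × List PP => x.2.1) h
    have e3 : s = s' := congrArg (fun x : HT × HT × List PP => x.2.2) h
    subst e1 e2 e3
    rfl
  have hs : Function.support (fun x : HT × HT × List PP =>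
      mkG y z n x.1 x.2.1 x.2.2 * F x.1 x.2.2) ⊆ Set.range i := by
    rintro ⟨a, b, s⟩ h
    rw [Function.mem_support] at h
    have h1 := left_ne_zero_of_mul h
    simp only [mkG] at h1
    split_ifs at h1 with h2
    · exact ⟨⟨⟨(a, s, b), h2.1⟩, h2.2⟩, rfl⟩
    · exact absurd rfl h1
  have h1 := hi.tsum_eq hs
  have h2 : ∑' x : HT × HT, ∑' s : List PP, mkG y z n x.1 x.2 s * F x.1 s =
      ∑' x : HT × HT × List PP, mkG y z n x.1 x.2.1 x.2.2 * F x.1 x.2.2 := by
    rw [ENNReal.tsum_prod (f := fun a (b : HT × List PP) => mkG y z n a b.1 b.2 * F a b.2),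
      ENNReal.tsum_prod (f := fun a b => ∑' s : List PP, mkG y z n a b s * F a s)]
    refine tsum_congr fun a => ?_
    rw [ENNReal.tsum_prod (f := fun b s => mkG y z n a b s * F a s)]
  rw [h2, ← h1]
  unfold Sys.sum
  refine tsum_congr fun x => ?_
  obtain ⟨⟨⟨a, s, b⟩, h3⟩, h4⟩ := x
  simp only [i, mkG]
  rw [if_pos ⟨h3, h4⟩]
  rfl

/-- **Marked elements.** -/
theorem mark_sum (y z : ℝ) (A : ℤ × ℤ → PP → Prop) (n : ℕ) :
    (sys y z).sum n (fun x => ((sys y z).oc A x : ℝ≥0∞)) =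
      ∑' i : {i : (ℤ × ℤ) × PP // Valid i.1 i.2 ∧ A i.1 i.2 ∧ ln i.2 ≤ n},
        wt (ENNReal.ofReal y) (ENNReal.ofReal z) i.1.2 *
          GG y z (n - ln i.1.2) i.1.1 (i.1.1 + dsp i.1.2) := by
  classical
  set Y := ENNReal.ofReal y with hY
  set Z := ENNReal.ofReal z with hZ
  -- the right side
  let Ψ : (ℤ × ℤ) × PP × HL × HL → ℝ≥0∞ := fun x =>
    if (Valid x.1 x.2.1 ∧ A x.1 x.2.1 ∧ ln x.2.1 ≤ n) ∧ (mkc y z x.2.2.1 x.1 ∧
      mkc y z x.2.2.2 (x.1 + dsp x.2.1) ∧ mkl x.2.2.1 + mkl x.2.2.2 = n - ln x.2.1) then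
      wt Y Z x.2.1 * (mkw y z x.2.2.1 * mkw y z x.2.2.2) else 0
  have hR : ∑' i : {i : (ℤ × ℤ) × PP // Valid i.1 i.2 ∧ A i.1 i.2 ∧ ln i.2 ≤ n},
      wt Y Z i.1.2 * GG y z (n - ln i.1.2) i.1.1 (i.1.1 + dsp i.1.2) = ∑' x, Ψ x := by
    rw [ENNReal.tsum_prod (f := fun a (b : PP × HL × HL) => Ψ (a, b))]
    have h1 : ∀ v : ℤ × ℤ, ∑' b : PP × HL × HL, Ψ (v, b) = ∑' π : PP,
        if Valid v π ∧ A v π ∧ ln π ≤ n then
          wt Y Z π * GG y z (n - ln π) v (v + dsp π) else 0 := by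
      intro v
      rw [ENNReal.tsum_prod (f := fun a (b : HL × HL) => Ψ (v, a, b))]
      refine tsum_congr fun π => ?_
      split_ifs with h
      · rw [mk_GG, ← ENNReal.tsum_mul_left]
        refine tsum_congr fun b => ?_
        simp only [Ψ]
        by_cases h2 : mkc y z b.1 v ∧ mkc y z b.2 (v + dsp π) ∧ mkl b.1 + mkl b.2 = n - ln π
        · rw [if_pos ⟨h, h2⟩, if_pos h2]
        · rw [if_neg fun h3 => h2 h3.2, if_neg h2, mul_zero]
      · rw [ENNReal.tsum_eq_zero]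
        intro b
        exact if_neg fun h3 => h h3.1
    rw [tsum_congr h1, ← ENNReal.tsum_prod (f := fun v π => if Valid v π ∧ A v π ∧ ln π ≤ n then
          wt Y Z π * GG y z (n - ln π) v (v + dsp π) else 0)]
    let i : {i : (ℤ × ℤ) × PP // Valid i.1 i.2 ∧ A i.1 i.2 ∧ ln i.2 ≤ n} → (ℤ × ℤ) × PP :=
      fun x => x.1
    have hi : Function.Injective i := Subtype.val_injective
    have hs : Function.support (fun p : (ℤ × ℤ) × PP => if Valid p.1 p.2 ∧ A p.1 p.2 ∧
        ln p.2 ≤ n then wt Y Z p.2 * GG y z (n - ln p.2) p.1 (p.1 + dsp p.2) else 0) ⊆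
          Set.range i := by
      intro p hp
      rw [Function.mem_support] at hp
      split_ifs at hp with h
      · exact ⟨⟨p, h⟩, rfl⟩
      · exact absurd rfl hp
    rw [← hi.tsum_eq hs]
    refine tsum_congr fun x => ?_
    simp only [i]
    rw [if_pos x.2]
  rw [hR]
  -- eliminate the position
  let i : HL × HL × PP → (ℤ × ℤ) × PP × HL × HL :=
    fun x => (ev (ker y z) x.1.1.1 x.1.2, x.2.2, x.1, x.2.1)
  have hi : Function.Injective i := by
    rintro ⟨a, b, c⟩ ⟨a', b', c'⟩ h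
    have e1 : a = a' := congrArg (fun x : (ℤ × ℤ) × PP × HL × HL => x.2.2.1) h
    have e2 : b = b' := congrArg (fun x : (ℤ × ℤ) × PP × HL × HL => x.2.2.2) h
    have e3 : c = c' := congrArg (fun x : (ℤ × ℤ) × PP × HL × HL => x.2.1) h
    rw [e1, e2, e3]
  have hs : Function.support Ψ ⊆ Set.range i := by
    rintro ⟨v, π, x, x'⟩ h
    rw [Function.mem_support] at h
    simp only [Ψ] at h
    split_ifs at h with h1
    · refine ⟨(x, x', π), ?_⟩
      simp only [i]
      rw [h1.2.1.2]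
    · exact absurd rfl h
  rw [← hi.tsum_eq hs]
  -- the left side
  have hL := mk_sum y z n fun h s => (occ (ker y z) A h.1 s : ℝ≥0∞)
  have hL' : (sys y z).sum n (fun x => ((sys y z).oc A x : ℝ≥0∞)) =
      (sys y z).sum n (fun x => (occ (ker y z) A x.1.1.1 x.1.2.1 : ℝ≥0∞)) := rfl
  rw [hL', hL]
  have h1 : ∀ x : HT × HT, ∑' s : List PP, mkG y z n x.1 x.2 s *
      (occ (ker y z) A x.1.1 s : ℝ≥0∞) = ∑' t : List PP × PP × List PP,
        if A (ev (ker y z) x.1.1 t.1) t.2.1 then mkG y z n x.1 x.2 (t.1 ++ t.2.1 :: t.2.2) else 0 :=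
    fun x => mk_split (ker y z) A _ _
  rw [tsum_congr h1, ← ENNReal.tsum_prod (f := fun (x : HT × HT) (t : List PP × PP × List PP) =>
    if A (ev (ker y z) x.1.1 t.1) t.2.1 then mkG y z n x.1 x.2 (t.1 ++ t.2.1 :: t.2.2) else 0)]
  let e : (HT × HT) × List PP × PP × List PP ≃ HL × HL × PP :=
    { toFun := fun x => ((x.1.1, x.2.1), (x.1.2, mkR x.2.2.2), x.2.2.1)
      invFun := fun x => ((x.1.1, x.2.1.1), x.1.2, x.2.2, mkR x.2.1.2)
      left_inv := fun x => by simp only [mkR_mkR]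
      right_inv := fun x => by simp only [mkR_mkR] }
  rw [← e.tsum_eq fun c => Ψ (i c)]
  refine tsum_congr fun x => ?_
  obtain ⟨⟨h, h'⟩, s, π, t⟩ := x
  simp only [e, i, Ψ, Equiv.coe_fn_mk, mkG, mkc, mkl, mkw]
  have e1 : VC (ker y z) h.1 (s ++ π :: t) ↔ VC (ker y z) h.1 s ∧
      Valid (ev (ker y z) h.1 s) π ∧ VC (ker y z) (ev (ker y z) h.1 s + dsp π) t := by
    rw [mk_vc_append]
    rfl
  have e2 : ev (ker y z) h.1 (s ++ π :: t) = ev (ker y z) (ev (ker y z) h.1 s + dsp π) t := by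
    rw [mk_ev_append, mk_ev_cons]
    rfl
  have e3 := mk_vc_R_iff y z (w := ev (ker y z) h.1 s + dsp π) (p := h'.1) (s := t)
  by_cases hc : (A (ev (ker y z) h.1 s) π) ∧ (VC (ker y z) h.1 (s ++ π :: t) ∧
      ev (ker y z) h.1 (s ++ π :: t) = h'.1) ∧
      h.2.1.length + ((s ++ π :: t).map ln).sum + h'.2.1.length = n
  · obtain ⟨c1, c2, c3⟩ := hc
    rw [if_pos c1, if_pos ⟨c2, c3⟩]
    rw [e1, e2] at c2
    simp only [List.map_append, List.map_cons, List.sum_append, List.sum_cons] at c3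
    have c4 : ln π ≤ n := by omega
    rw [if_pos]
    · rw [mk_R_wt]
      simp only [List.map_append, List.map_cons, List.prod_append, List.prod_cons]
      ring
    · refine ⟨⟨c2.1.2.1, c1, c4⟩, ⟨c2.1.1, trivial⟩, e3.2 ⟨c2.1.2.2, c2.2⟩, ?_⟩
      rw [mk_R_ln]
      omega
  · have hz : (if A (ev (ker y z) h.1 s) π then
        (if (VC (ker y z) h.1 (s ++ π :: t) ∧ ev (ker y z) h.1 (s ++ π :: t) = h'.1) ∧
          h.2.1.length + ((s ++ π :: t).map ln).sum + h'.2.1.length = n then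
        wl Y Z h.2.1 * ((s ++ π :: t).map (wt Y Z)).prod * wl Y Z h'.2.1 else 0) else 0) = 0 := by
      split_ifs with c1 c2
      · exact absurd ⟨c1, c2⟩ hc
      · rfl
      · rfl
    rw [hz, if_neg]
    rintro ⟨⟨c1, c2, c3⟩, ⟨c4, -⟩, c5, c6⟩
    apply hc
    have c7 := e3.1 c5
    rw [mk_R_ln] at c6
    refine ⟨c2, ⟨e1.2 ⟨c4, c1, c7.1⟩, by rw [e2]; exact c7.2⟩, ?_⟩
    simp only [List.map_append, List.map_cons, List.sum_append, List.sum_cons]
    omega

/-- **Marked sections.** -/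
theorem sec_sum (y z : ℝ) (n : ℕ) :
    (sys y z).sum n (fun x => (x.1.2.1.length : ℝ≥0∞) + 1) = ∑' v, GG y z n v v := by
  classical
  let Ψ : (ℤ × ℤ) × HL × HL → ℝ≥0∞ := fun x =>
    if mkc y z x.2.1 x.1 ∧ mkc y z x.2.2 x.1 ∧ mkl x.2.1 + mkl x.2.2 = n then
      mkw y z x.2.1 * mkw y z x.2.2 else 0
  have hR : ∑' v, GG y z n v v = ∑' x, Ψ x := by
    rw [ENNReal.tsum_prod (f := fun a (b : HL × HL) => Ψ (a, b))]
    exact tsum_congr fun v => mk_GG y z n v v
  rw [hR]
  let i : HL × HL → (ℤ × ℤ) × HL × HL := fun x => (ev (ker y z) x.1.1.1 x.1.2, x.1, x.2)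
  have hi : Function.Injective i := by
    rintro ⟨a, b⟩ ⟨a', b'⟩ h
    have e1 : a = a' := congrArg (fun x : (ℤ × ℤ) × HL × HL => x.2.1) h
    have e2 : b = b' := congrArg (fun x : (ℤ × ℤ) × HL × HL => x.2.2) h
    rw [e1, e2]
  have hs : Function.support Ψ ⊆ Set.range i := by
    rintro ⟨v, x, x'⟩ h
    rw [Function.mem_support] at h
    simp only [Ψ] at h
    split_ifs at h with h1
    · refine ⟨(x, x'), ?_⟩
      simp only [i]
      rw [h1.1.2]
    · exact absurd rfl h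
  rw [← hi.tsum_eq hs, mk_sum y z n fun _ s => (s.length : ℝ≥0∞) + 1]
  rw [tsum_congr fun x : HT × HT => mk_split2 (mkG y z n x.1 x.2),
    ← ENNReal.tsum_prod (f := fun (x : HT × HT) (t : List PP × List PP) =>
      mkG y z n x.1 x.2 (t.1 ++ t.2))]
  let e : (HT × HT) × List PP × List PP ≃ HL × HL :=
    { toFun := fun x => ((x.1.1, x.2.1), (x.1.2, mkR x.2.2))
      invFun := fun x => ((x.1.1, x.2.1), x.1.2, mkR x.2.2)
      left_inv := fun x => by simp only [mkR_mkR]
      right_inv := fun x => by simp only [mkR_mkR] }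
  rw [← e.tsum_eq fun c => Ψ (i c)]
  refine tsum_congr fun x => ?_
  obtain ⟨⟨h, h'⟩, s, t⟩ := x
  simp only [e, i, Ψ, Equiv.coe_fn_mk, mkG, mkc, mkl, mkw]
  have e1 := mk_vc_append (ker y z) h.1 s t
  have e2 := mk_ev_append (ker y z) h.1 s t
  have e3 := mk_vc_R_iff y z (w := ev (ker y z) h.1 s) (p := h'.1) (s := t)
  rw [mk_R_wt, mk_R_ln]
  by_cases hc : (VC (ker y z) h.1 (s ++ t) ∧ ev (ker y z) h.1 (s ++ t) = h'.1) ∧
      h.2.1.length + ((s ++ t).map ln).sum + h'.2.1.length = n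
  · rw [if_pos hc]
    rw [e1, e2] at hc
    obtain ⟨⟨⟨c1, c2⟩, c3⟩, c4⟩ := hc
    simp only [List.map_append, List.sum_append] at c4
    rw [if_pos ⟨⟨c1, trivial⟩, e3.2 ⟨c2, c3⟩, by omega⟩]
    simp only [List.map_append, List.prod_append]
    ring
  · rw [if_neg hc, if_neg]
    rintro ⟨⟨c1, -⟩, c2, c3⟩
    apply hc
    have c4 := e3.1 c2
    refine ⟨⟨e1.2 ⟨c1, c4.1⟩, by rw [e2]; exact c4.2⟩, ?_⟩
    simp only [List.map_append, List.sum_append]
    omega

end Pool.Agent.KAmp
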