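import Pool.Agent.KAmp.Model
import Pool.Agent.KAmp.ClsBij

/-! KP19: the polygons of a prime class with a short knotted block as a sum over blocks. -/

set_option autoImplicit false

open Pool.Agent.LK Filter Topology
open scoped ENNReal

namespace Pool.Agent.KAmp

open Pool.Agent.KTube Pool.Agent.KRing Pool.Agent.KLog
open Pool.Agent.KAsym (ln)
open Pool.Agent.KTen (Zt)

variable {y z : ℝ} {T : Finset (Sym2 P3) → Prop}

private theorem me_zt_tsum (C : Finset (Sym2 P3) → Prop) (hy : 0 ≤ y) (hz : 0 ≤ z) (n : ℕ) :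
    ENNReal.ofReal (Zt y C n * z ^ n) =
      ∑' E : KTen.NSet C n, ENNReal.ofReal y ^ span E.1 * ENNReal.ofReal z ^ E.1.card := by
  classical
  set X := (KTen.nset_finite C n).toFinset with hX
  have hset : KTen.NSet C n = ↑X := by rw [hX, Set.Finite.coe_toFinset]
  rw [zt_sum, ← hX, Finset.sum_mul,
    ENNReal.ofReal_sum_of_nonneg fun E _ => mul_nonneg (pow_nonneg hy _) (pow_nonneg hz _)]
  rw [tsum_congr_set_coe (fun E : Finset (Sym2 P3) => ENNReal.ofReal y ^ span E *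
    ENNReal.ofReal z ^ E.card) hset]
  have h := Finset.tsum_subtype X (fun E : Finset (Sym2 P3) => ENNReal.ofReal y ^ span E *
    ENNReal.ofReal z ^ E.card)
  refine Eq.trans ?_ h.symm
  refine Finset.sum_congr rfl fun E hE => ?_
  have hE' : E ∈ KTen.NSet C n := by
    rw [hX, Set.Finite.mem_toFinset] at hE
    exact hE
  rw [ENNReal.ofReal_mul (pow_nonneg hy _), ENNReal.ofReal_pow hy, ENNReal.ofReal_pow hz,
    hE'.2.2.2]

/-- The indices: short blocks of class `T`. -/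
private abbrev MI (T : Finset (Sym2 P3) → Prop) (j n : ℕ) : Type :=
  {i : (ℤ × ℤ) × PP // Cls T i.1 i.2 ∧ ln i.2 + 2 ≤ j ∧ ln i.2 ≤ n}

/-- The pairs of halves. -/
private abbrev MH (m : ℕ) (v w : ℤ × ℤ) : Type :=
  {p : List P3 × List P3 // LU 0 0 v p.1 ∧ LU 0 0 w p.2 ∧ p.1.length + p.2.length = m}

/-- The marked blocks as a sigma type. -/
private def me_equiv (T : Finset (Sym2 P3) → Prop) (j n : ℕ) :
    BT T j n ≃ (Σ i : MI T j n, MH (n - ln i.1.2) i.1.1 (i.1.1 + dsp i.1.2)) where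
  toFun x := ⟨⟨(x.1.1, x.1.2.1), x.2.1, x.2.2.1, by
      have h := x.2.2.2.2.2
      show ln x.1.2.1 ≤ n
      omega⟩,
    ⟨(x.1.2.2.1, x.1.2.2.2), x.2.2.2.1, x.2.2.2.2.1, by
      have h := x.2.2.2.2.2
      show x.1.2.2.1.length + x.1.2.2.2.length = n - ln x.1.2.1
      omega⟩⟩
  invFun s := ⟨(s.1.1.1, s.1.1.2, s.2.1.1, s.2.1.2), s.1.2.1, s.1.2.2.1, s.2.2.1, s.2.2.2.1, by
    have h1 := s.2.2.2.2
    have h2 := s.1.2.2.2
    show s.2.1.1.length + s.2.1.2.length + ln s.1.1.2 = n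
    omega⟩
  left_inv _ := rfl
  right_inv _ := rfl

/-- KP19: the sum over the blocks of class `T`. -/
theorem mid_eq (hy : 0 < y) (hz : 0 < z) (hT : PrimeCl T) (j n : ℕ) :
    2 * ENNReal.ofReal (Zt y (fun E => T E ∧ MidAt E j) n * z ^ n) =
      ENNReal.ofReal y * ∑' i : {i : (ℤ × ℤ) × PP // Cls T i.1 i.2 ∧ ln i.2 + 2 ≤ j ∧ ln i.2 ≤ n},
        wt (ENNReal.ofReal y) (ENNReal.ofReal z) i.1.2 *
          GG y z (n - ln i.1.2) i.1.1 (i.1.1 + dsp i.1.2) := by
  obtain ⟨e, he⟩ := cls_bij hT j n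
  set Y := ENNReal.ofReal y with hY
  set Z := ENNReal.ofReal z with hZ
  set f : Finset (Sym2 P3) → ℝ≥0∞ := fun E => Y ^ span E * Z ^ n with hf
  -- the left side
  have h1 : ENNReal.ofReal (Zt y (fun E => T E ∧ MidAt E j) n * z ^ n) =
      ∑' E : MP T j n, f E.1 := by
    rw [me_zt_tsum _ hy.le hz.le]
    let e1 : KTen.NSet (fun E => T E ∧ MidAt E j) n ≃ MP T j n :=
      { toFun := fun E => ⟨E.1, E.2.1, E.2.2.1.1, E.2.2.2.1, E.2.2.2.2, E.2.2.1.2⟩
        invFun := fun E => ⟨E.1, E.2.1, ⟨E.2.2.1, E.2.2.2.2.2⟩, E.2.2.2.1, E.2.2.2.2.1⟩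
        left_inv := fun E => rfl
        right_inv := fun E => rfl }
    rw [← e1.tsum_eq (fun E : MP T j n => f E.1)]
    refine tsum_congr fun E => ?_
    show Y ^ span E.1 * Z ^ E.1.card = Y ^ span E.1 * Z ^ n
    rw [E.2.2.2.2]
  have h2 : 2 * ∑' E : MP T j n, f E.1 = ∑' x : MP T j n × Bool, f x.1.1 := by
    rw [ENNReal.tsum_prod' (f := fun x : MP T j n × Bool => f x.1.1), ← ENNReal.tsum_mul_left]
    refine tsum_congr fun E => ?_
    simp only
    rw [tsum_bool, two_mul]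
  -- the weights
  have h3 : ∀ x : MP T j n × Bool, f x.1.1 =
      Y * (wt Y Z (e x).1.2.1 * (wl Y Z (e x).1.2.2.1 * wl Y Z (e x).1.2.2.2)) := by
    intro x
    have hs := he x
    have hn := (e x).2.2.2.2.2
    have hln : ln (e x).1.2.1 = (e x).1.2.1.1.length + (e x).1.2.1.2.length + 2 := rfl
    show Y ^ span x.1.1 * Z ^ n = _
    rw [hs]
    unfold wt wl
    rw [← hln]
    have hZn : Z ^ n = Z ^ ln (e x).1.2.1 * (Z ^ (e x).1.2.2.1.length *
        Z ^ (e x).1.2.2.2.length) := by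
      rw [← pow_add, ← pow_add]
      congr 1
      omega
    rw [hZn, pow_succ, pow_add, pow_add]
    ring
  rw [h1, h2, tsum_congr h3]
  rw [e.tsum_eq (fun i : BT T j n =>
    Y * (wt Y Z i.1.2.1 * (wl Y Z i.1.2.2.1 * wl Y Z i.1.2.2.2)))]
  rw [ENNReal.tsum_mul_left]
  congr 1
  rw [← (me_equiv T j n).symm.tsum_eq (fun i : BT T j n =>
    wt Y Z i.1.2.1 * (wl Y Z i.1.2.2.1 * wl Y Z i.1.2.2.2))]
  rw [ENNReal.tsum_sigma']
  refine tsum_congr fun i => ?_
  unfold GG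
  rw [← ENNReal.tsum_mul_left]
  rfl

private theorem me_step_finite : {d : P3 | IsStep d}.Finite := by
  refine (Set.finite_Icc ((-1, -1, -1) : P3) (1, 1, 1)).subset ?_
  intro d hd
  have h : |d.1| + |d.2.1| + |d.2.2| = 1 := hd
  have h1 := abs_nonneg d.1
  have h2 := abs_nonneg d.2.1
  have h3 := abs_nonneg d.2.2
  have a1 := abs_le.1 (show |d.1| ≤ 1 by omega)
  have a2 := abs_le.1 (show |d.2.1| ≤ 1 by omega)
  have a3 := abs_le.1 (show |d.2.2| ≤ 1 by omega)
  exact ⟨⟨a1.1, a2.1, a3.1⟩, ⟨a1.2, a2.2, a3.2⟩⟩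

private theorem me_words_finite (m : ℕ) : {s : List P3 | Steps s ∧ s.length ≤ m}.Finite := by
  have := me_step_finite.to_subtype
  refine ((List.finite_length_le {d : P3 // d ∈ {d : P3 | IsStep d}} m).image
    (fun s => s.map Subtype.val)).subset ?_
  rintro s ⟨hs, hl⟩
  refine ⟨s.attach.map (fun d => ⟨d.1, hs d.1 d.2⟩), ?_, ?_⟩
  · show (s.attach.map _).length ≤ m
    simpa using hl
  · show (s.attach.map _).map Subtype.val = s
    rw [List.map_map]
    exact List.attach_map_subtype_val s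

/-- There are finitely many short blocks. -/
theorem short_finite (T : Finset (Sym2 P3) → Prop) (j : ℕ) :
    {π : PP | (∃ v, Cls T v π) ∧ ln π + 2 ≤ j}.Finite := by
  refine ((me_words_finite j).prod (me_words_finite j)).subset ?_
  rintro π ⟨⟨v, hg, -⟩, hl⟩
  have hln : ln π = π.1.length + π.2.length + 2 := rfl
  exact ⟨⟨hg.stA, by omega⟩, ⟨hg.stB, by omega⟩⟩

end Pool.Agent.KAmp
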