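import Pool.Agent.KAmp.Gl
import Pool.Agent.KAsym.RestB

/-! KP9: the unknotted polygons as chains of blocks between two caps. -/

set_option autoImplicit false

open Pool.Agent.LK
open scoped ENNReal

namespace Pool.Agent.KAmp

open Pool.Agent.KTube Pool.Agent.KRing Pool.Agent.KLog
open Pool.Agent.KAsym (ln rest_strong)

variable {y z : ℝ}

/-- The system. -/
noncomputable def sys (y z : ℝ) : Sys PP HT where
  κ := ker y z
  ln := ln
  pos := fun h => h.1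
  hw := fun h => wl (ENNReal.ofReal y) (ENNReal.ofReal z) h.2.1
  hl := fun h => h.2.1.length

/-- The pairs of unknotted halves with `n` points and displacements `v` and `w`. -/
noncomputable def GG (y z : ℝ) (n : ℕ) (v w : ℤ × ℤ) : ℝ≥0∞ :=
  ∑' p : {p : List P3 × List P3 // LU 0 0 v p.1 ∧ LU 0 0 w p.2 ∧ p.1.length + p.2.length = n},
    wl (ENNReal.ofReal y) (ENNReal.ofReal z) p.1.1 * wl (ENNReal.ofReal y) (ENNReal.ofReal z) p.1.2

private theorem wt_ne_top (p : PP) : wt (ENNReal.ofReal y) (ENNReal.ofReal z) p ≠ ⊤ := by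
  unfold wt
  exact ENNReal.mul_ne_top (ENNReal.pow_ne_top ENNReal.ofReal_ne_top)
    (ENNReal.pow_ne_top ENNReal.ofReal_ne_top)

private theorem bas_finite : {p : PP | Bas p ∧ (Free p ∨ ∃ v, Valid v p)}.Finite := by
  refine (((Set.finite_singleton (([], []) : PP)).union
    (Set.finite_range fun i : Fin 4 => (([st4 i], []) : PP))).union
    (Set.finite_range fun i : Fin 4 => (([], [st4 i]) : PP))).subset ?_
  rintro p ⟨hb, hf | ⟨v, hv⟩⟩
  · rcases bas_free_iff.1 ⟨hb, hf⟩ with rfl | ⟨i, rfl⟩ | ⟨i, rfl⟩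
    · exact Or.inl (Or.inl rfl)
    · exact Or.inl (Or.inr ⟨i, rfl⟩)
    · exact Or.inr ⟨i, rfl⟩
  · rcases bas_valid_iff.1 ⟨hb, hv⟩ with ⟨rfl, -⟩ | ⟨i, rfl, -⟩ | ⟨i, rfl, -⟩
    · exact Or.inl (Or.inl rfl)
    · exact Or.inl (Or.inr ⟨i, rfl⟩)
    · exact Or.inr ⟨i, rfl⟩

private theorem fin_aux (hy : 0 < y) (hz : 0 < z) (hz1 : z ≤ 1 / 10 ^ 12) (hq : y * z ^ 2 ≤ 1) :
    ∑' p : {p : PP // Free p ∨ ∃ v, Valid v p}, wt (ENNReal.ofReal y) (ENNReal.ofReal z) p.1 *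
      2 ^ ln p.1 * 4 ^ nh p.1 ≠ ⊤ := by
  set g : PP → ℝ≥0∞ := fun p => wt (ENNReal.ofReal y) (ENNReal.ofReal z) p * 2 ^ ln p * 4 ^ nh p
    with hg
  have h1 : ∑' p : {p : PP // Free p ∨ ∃ v, Valid v p}, g p.1 ≤
      ∑' p : ({p : PP | Bas p ∧ (Free p ∨ ∃ v, Valid v p)} ∪
        {p : PP | ¬ Bas p ∧ (Free p ∨ ∃ v, Valid v p)} : Set PP), g p.1 := by
    refine ENNReal.tsum_mono_subtype g (s := {p : PP | Free p ∨ ∃ v, Valid v p}) ?_
    intro p hp
    by_cases hb : Bas p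
    · exact Or.inl ⟨hb, hp⟩
    · exact Or.inr ⟨hb, hp⟩
  refine ne_top_of_le_ne_top ?_ (h1.trans (ENNReal.tsum_union_le g _ _))
  refine ENNReal.add_ne_top.2 ⟨?_, ?_⟩
  · have h2 : ∑' p : {p : PP | Bas p ∧ (Free p ∨ ∃ v, Valid v p)}, g p.1 =
        ∑ p ∈ bas_finite.toFinset, g p := by
      rw [← Finset.tsum_subtype]
      exact (Equiv.subtypeEquivRight fun p => by simp).tsum_eq
        (fun p : {p // p ∈ bas_finite.toFinset} => g p.1)
    rw [h2]
    refine ENNReal.sum_ne_top.2 fun p _ => ?_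
    exact ENNReal.mul_ne_top (ENNReal.mul_ne_top (wt_ne_top p)
      (ENNReal.pow_ne_top (by norm_num))) (ENNReal.pow_ne_top (by norm_num))
  · refine ne_top_of_le_ne_top ?_ ((ENNReal.tsum_le_tsum fun p => ?_).trans
      (rest_strong hy hz hz1 hq))
    · exact ENNReal.ofReal_ne_top
    · simp only [hg, ln]
      gcongr
      norm_num

private theorem caps_aux (hy : 0 < y) (hz : 0 < z) (hz1 : z ≤ 1 / 10 ^ 12) (hq : y * z ^ 2 ≤ 1) :
    ∑' h : HT, wl (ENNReal.ofReal y) (ENNReal.ofReal z) h.2.1 * 2 ^ h.2.1.length ≠ ⊤ := by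
  rw [ENNReal.tsum_sigma']
  refine ne_top_of_le_ne_top (KAsym.cap_strong hy hz hz1 hq) ?_
  refine ENNReal.tsum_le_tsum fun v => ENNReal.tsum_le_tsum fun l => ?_
  exact le_mul_of_one_le_right zero_le (one_le_pow₀ (by norm_num))

theorem sys_ok (hy : 0 < y) (hz : 0 < z) (hz1 : z ≤ 1 / 10 ^ 12) (hq : y * z ^ 2 ≤ 1)
    (hone : ∑' π : {π // Free π}, wt (ENNReal.ofReal y) (ENNReal.ofReal z) π.1 = 1) :
    (sys y z).Ok where
  ok := ker_ok hy hz (hz1.trans (by norm_num)) hq hone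
  pos_ne h h0 := h.2.2.1.1 h0.symm
  V_ne _ _ h := h.1.ne
  two_le p := by
    show 2 ≤ p.1.length + p.2.length + 2
    omega
  fin := fin_aux hy hz hz1 hq
  caps := caps_aux hy hz hz1 hq

end Pool.Agent.KAmp
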