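import Pool.Agent.KAmp.Rat
import Pool.Agent.KLog.BasicV

/-! KP18c: the pairs of unknotted halves with given displacements. -/

set_option autoImplicit false

open Pool.Agent.LK Filter Topology
open scoped ENNReal

namespace Pool.Agent.KAmp

open Pool.Agent.KTube Pool.Agent.KRing Pool.Agent.KLog
open Pool.Agent.KAsym (ln)
open Pool.Agent.KTen (Zt)

variable {y z : ℝ}

/-- Gluing a valid block to the first half. -/
private theorem GG_step {v : ℤ × ℤ} {π : PP} (hπ : Valid v π) (n : ℕ)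
    (x : ℤ × ℤ) : GG y z n v x * wt (ENNReal.ofReal y) (ENNReal.ofReal z) π ≤
      GG y z (n + ln π) (v + dsp π) x := by
  have hh : ∀ l, LU 0 0 v l → Half (nsec l) v l := fun l hl => ⟨hl, rfl⟩
  let f : {p : List P3 × List P3 // LU 0 0 v p.1 ∧ LU 0 0 x p.2 ∧
      p.1.length + p.2.length = n} →
      {p : List P3 × List P3 // LU 0 0 (v + dsp π) p.1 ∧ LU 0 0 x p.2 ∧
        p.1.length + p.2.length = n + ln π} := fun p =>
    ⟨(glu v p.1.1 π, p.1.2), (glu_half (hh _ p.2.1) hπ).1, p.2.2.1, by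
      have h := Pool.Agent.KAsym.length_glu (hh _ p.2.1) hπ
      have h2 := p.2.2.2
      simp only
      rw [h]
      omega⟩
  have hf : Function.Injective f := by
    intro p q hpq
    have h1 : (glu v p.1.1 π, p.1.2) = (glu v q.1.1 π, q.1.2) := congrArg Subtype.val hpq
    have h2 := (Prod.mk.inj h1).1
    have h3 := (Prod.mk.inj h1).2
    obtain ⟨-, h4, -⟩ := glu_inj (hh _ p.2.1) hπ (hh _ q.2.1) hπ h2
    exact Subtype.ext (Prod.ext h4 h3)
  unfold GG
  rw [← ENNReal.tsum_mul_right]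
  refine le_trans (le_of_eq (tsum_congr fun p => ?_))
    (ENNReal.tsum_comp_le_tsum_of_injective hf (fun p =>
      wl (ENNReal.ofReal y) (ENNReal.ofReal z) p.1.1 *
        wl (ENNReal.ofReal y) (ENNReal.ofReal z) p.1.2))
  have h := wl_glu (y := ENNReal.ofReal y) (z := ENNReal.ofReal z) (hh _ p.2.1) hπ
  change _ = wl _ _ (glu v p.1.1 π) * wl _ _ p.1.2
  rw [h]
  ring

/-- Comparability of the displacements. -/
private def Cmp (y z : ℝ) (v w : ℤ × ℤ) : Prop :=
  ∃ (C : ℝ≥0∞) (a : ℕ), C ≠ ⊤ ∧ ∀ n x, GG y z n v x ≤ C * GG y z (n + a) w x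

private theorem cmp_refl (v : ℤ × ℤ) : Cmp y z v v :=
  ⟨1, 0, by simp, fun n x => by simp⟩

private theorem cmp_trans {u v w : ℤ × ℤ} (h : Cmp y z u v) (h' : Cmp y z v w) : Cmp y z u w := by
  obtain ⟨C, a, hC, h⟩ := h
  obtain ⟨C', a', hC', h'⟩ := h'
  refine ⟨C * C', a + a', ENNReal.mul_ne_top hC hC', fun n x => ?_⟩
  refine (h n x).trans ?_
  rw [mul_assoc]
  gcongr
  have := h' (n + a) x
  rwa [add_assoc] at this

private theorem wt_ne (hy : 0 < y) (hz : 0 < z) (π : PP) :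
    wt (ENNReal.ofReal y) (ENNReal.ofReal z) π ≠ 0 := by
  unfold wt
  exact mul_ne_zero (pow_ne_zero _ (by simpa using hy)) (pow_ne_zero _ (by simpa using hz))

private theorem wt_top (π : PP) :
    wt (ENNReal.ofReal y) (ENNReal.ofReal z) π ≠ ⊤ := by
  unfold wt
  exact ENNReal.mul_ne_top (ENNReal.pow_ne_top ENNReal.ofReal_ne_top)
    (ENNReal.pow_ne_top ENNReal.ofReal_ne_top)

private theorem cmp_of_valid (hy : 0 < y) (hz : 0 < z) {v : ℤ × ℤ} {π : PP} (hπ : Valid v π) :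
    Cmp y z v (v + dsp π) := by
  refine ⟨(wt (ENNReal.ofReal y) (ENNReal.ofReal z) π)⁻¹, ln π,
    ENNReal.inv_ne_top.2 (wt_ne hy hz π), fun n x => ?_⟩
  have h := GG_step (y := y) (z := z) hπ n x
  rw [mul_comm (_)⁻¹]
  exact (ENNReal.le_div_iff_mul_le (Or.inl (wt_ne hy hz π)) (Or.inl (wt_top π))).2 h

private theorem cmp_e4 (hy : 0 < y) (hz : 0 < z) {v : ℤ × ℤ} (i : Fin 4) (hv : v ≠ 0)
    (hv' : v + e4 i ≠ 0) : Cmp y z v (v + e4 i) := by
  have h := cmp_of_valid hy hz ((valid_right i).2 ⟨hv, hv'⟩)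
  have hd : dsp ([], [st4 i]) = e4 i := by
    simp [dsp, KLog.hz, st4]
  rwa [hd] at h

private theorem cmp_a (hy : 0 < y) (hz : 0 < z) {a b a' b' : ℤ} (h : (a, b) ≠ (0 : ℤ × ℤ))
    (h' : (a', b') ≠ (0 : ℤ × ℤ))
    (hs : (a' = a + 1 ∧ b' = b) ∨ (a' = a - 1 ∧ b' = b) ∨ (a' = a ∧ b' = b + 1) ∨
      (a' = a ∧ b' = b - 1)) : Cmp y z (a, b) (a', b') := by
  rcases hs with ⟨rfl, rfl⟩ | ⟨rfl, rfl⟩ | ⟨rfl, rfl⟩ | ⟨rfl, rfl⟩
  · have e : ((a + 1, b') : ℤ × ℤ) = (a, b') + e4 0 := by simp [e4]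
    rw [e] at h' ⊢
    exact cmp_e4 hy hz 0 h h'
  · have e : ((a - 1, b') : ℤ × ℤ) = (a, b') + e4 1 := by simp [e4, sub_eq_add_neg]
    rw [e] at h' ⊢
    exact cmp_e4 hy hz 1 h h'
  · have e : ((a', b + 1) : ℤ × ℤ) = (a', b) + e4 2 := by simp [e4]
    rw [e] at h' ⊢
    exact cmp_e4 hy hz 2 h h'
  · have e : ((a', b - 1) : ℤ × ℤ) = (a', b) + e4 3 := by simp [e4, sub_eq_add_neg]
    rw [e] at h' ⊢
    exact cmp_e4 hy hz 3 h h'

private theorem ne_mk {a b : ℤ} (h : a ≠ 0 ∨ b ≠ 0) : (a, b) ≠ (0 : ℤ × ℤ) := by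
  intro h'
  have h1 := (Prod.mk.inj h').1
  have h2 := (Prod.mk.inj h').2
  tauto

/-- Everything is comparable with `(1, 0)`, in both directions. -/
private theorem cmp_one (hy : 0 < y) (hz : 0 < z) : ∀ (n : ℕ) (a b : ℤ),
    a.natAbs + b.natAbs = n → (a ≠ 0 ∨ b ≠ 0) →
    Cmp y z (a, b) (1, 0) ∧ Cmp y z (1, 0) (a, b) := by
  intro n
  induction n with
  | zero => intro a b h h'; omega
  | succ n ih =>
    intro a b h h'
    have two : ∀ a' b' : ℤ, a'.natAbs + b'.natAbs = n → (a' ≠ 0 ∨ b' ≠ 0) →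
        ((a' = a + 1 ∧ b' = b) ∨ (a' = a - 1 ∧ b' = b) ∨ (a' = a ∧ b' = b + 1) ∨
          (a' = a ∧ b' = b - 1)) → Cmp y z (a, b) (1, 0) ∧ Cmp y z (1, 0) (a, b) := by
      intro a' b' h1 h2 h3
      obtain ⟨i1, i2⟩ := ih a' b' h1 h2
      refine ⟨cmp_trans (cmp_a hy hz (ne_mk h') (ne_mk h2) h3) i1,
        cmp_trans i2 (cmp_a hy hz (ne_mk h2) (ne_mk h') ?_)⟩
      omega
    by_cases hn : n = 0
    · subst hn
      have hh : (a = 1 ∧ b = 0) ∨ (a = -1 ∧ b = 0) ∨ (a = 0 ∧ b = 1) ∨ (a = 0 ∧ b = -1) := by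
        omega
      have c1 : Cmp y z (0, 1) (1, 0) ∧ Cmp y z (1, 0) (0, 1) :=
        ⟨cmp_trans (cmp_a hy hz (ne_mk (by omega)) (a' := 1) (b' := 1) (ne_mk (by omega))
            (by omega)) (cmp_a hy hz (ne_mk (by omega)) (ne_mk (by omega)) (by omega)),
          cmp_trans (cmp_a hy hz (ne_mk (by omega)) (a' := 1) (b' := 1) (ne_mk (by omega))
            (by omega)) (cmp_a hy hz (ne_mk (by omega)) (ne_mk (by omega)) (by omega))⟩
      have c2 : Cmp y z (0, -1) (1, 0) ∧ Cmp y z (1, 0) (0, -1) :=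
        ⟨cmp_trans (cmp_a hy hz (ne_mk (by omega)) (a' := 1) (b' := -1) (ne_mk (by omega))
            (by omega)) (cmp_a hy hz (ne_mk (by omega)) (ne_mk (by omega)) (by omega)),
          cmp_trans (cmp_a hy hz (ne_mk (by omega)) (a' := 1) (b' := -1) (ne_mk (by omega))
            (by omega)) (cmp_a hy hz (ne_mk (by omega)) (ne_mk (by omega)) (by omega))⟩
      have c3 : Cmp y z (-1, 0) (0, 1) ∧ Cmp y z (0, 1) (-1, 0) :=
        ⟨cmp_trans (cmp_a hy hz (ne_mk (by omega)) (a' := -1) (b' := 1) (ne_mk (by omega))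
            (by omega)) (cmp_a hy hz (ne_mk (by omega)) (ne_mk (by omega)) (by omega)),
          cmp_trans (cmp_a hy hz (ne_mk (by omega)) (a' := -1) (b' := 1) (ne_mk (by omega))
            (by omega)) (cmp_a hy hz (ne_mk (by omega)) (ne_mk (by omega)) (by omega))⟩
      rcases hh with ⟨rfl, rfl⟩ | ⟨rfl, rfl⟩ | ⟨rfl, rfl⟩ | ⟨rfl, rfl⟩
      · exact ⟨cmp_refl _, cmp_refl _⟩
      · exact ⟨cmp_trans c3.1 c1.1, cmp_trans c1.2 c3.2⟩
      · exact c1
      · exact c2
    · by_cases ha : a = 0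
      · rcases lt_or_gt_of_ne (show b ≠ 0 by omega) with hb | hb
        · exact two a (b + 1) (by omega) (by omega) (by omega)
        · exact two a (b - 1) (by omega) (by omega) (by omega)
      · rcases lt_or_gt_of_ne ha with ha | ha
        · exact two (a + 1) b (by omega) (by omega) (by omega)
        · exact two (a - 1) b (by omega) (by omega) (by omega)

private theorem cmp_all (hy : 0 < y) (hz : 0 < z) {v w : ℤ × ℤ} (hv : v ≠ 0) (hw : w ≠ 0) :
    Cmp y z v w := by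
  obtain ⟨a, b⟩ := v
  obtain ⟨c, d⟩ := w
  have h1 : a ≠ 0 ∨ b ≠ 0 := by
    by_contra h
    push Not at h
    exact hv (Prod.ext h.1 h.2)
  have h2 : c ≠ 0 ∨ d ≠ 0 := by
    by_contra h
    push Not at h
    exact hw (Prod.ext h.1 h.2)
  exact cmp_trans (cmp_one hy hz _ a b rfl h1).1 (cmp_one hy hz _ c d rfl h2).2

private theorem ln_nil : ln (([], []) : PP) = 2 := rfl

private theorem dsp_nil' : dsp (([], []) : PP) = 0 := by simp [dsp]

/-- The diagonal terms are counted by the marked empty blocks near the origin. -/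
private theorem GG_diag (w : ℤ × ℤ) (hw : w ≠ 0) (n : ℕ) :
    wt (ENNReal.ofReal y) (ENNReal.ofReal z) ([], []) * GG y z n w w ≤
      (sys y z).sum (n + 2) fun x => ((sys y z).oc (fun v _ => nrm v ≤ nrm w) x : ℝ≥0∞) := by
  rw [mark_sum]
  have h := ENNReal.le_tsum (f := fun i : {i : (ℤ × ℤ) × PP // Valid i.1 i.2 ∧
      nrm i.1 ≤ nrm w ∧ ln i.2 ≤ n + 2} =>
        wt (ENNReal.ofReal y) (ENNReal.ofReal z) i.1.2 *
          GG y z (n + 2 - ln i.1.2) i.1.1 (i.1.1 + dsp i.1.2))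
    ⟨(w, ([], [])), valid_nil.2 hw, le_refl _, by rw [ln_nil]; omega⟩
  simp only [ln_nil, dsp_nil', add_zero] at h
  exact h

/-- **Near the origin.** -/
theorem near_sum (hy : 10 ^ 24 ≤ y) (hz : 0 < z) (hz1 : z ≤ 1 / 10 ^ 12) (hq : y * z ^ 2 ≤ 1)
    (hone : ∑' π : {π // Free π}, wt (ENNReal.ofReal y) (ENNReal.ofReal z) π.1 = 1)
    {v w : ℤ × ℤ} (hv : v ≠ 0) (hw : w ≠ 0) (L : ℕ) :
    Tendsto (fun k : ℕ => (GG y z (2 * k - L) v w).toReal / nT y z (2 * k)) atTop (𝓝 0) := by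
  have hy0 : 0 < y := lt_of_lt_of_le (by norm_num) hy
  have hok := sys_ok hy0 hz hz1 hq hone
  have hgr := gr hy hz hz1 hq hone
  obtain ⟨C, a0, hC, hcmp⟩ := cmp_all (y := y) (z := z) hy0 hz hv hw
  set W0 := wt (ENNReal.ofReal y) (ENNReal.ofReal z) ([], []) with hW0
  set S : ℕ → ℝ≥0∞ := fun n =>
    (sys y z).sum n fun x => ((sys y z).oc (fun v _ => nrm v ≤ nrm w) x : ℝ≥0∞) with hS
  -- the bound
  have hb : ∀ n, GG y z n v w ≤ C * W0⁻¹ * S (n + a0 + 2) := by
    intro n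
    refine (hcmp n w).trans ?_
    rw [mul_assoc]
    gcongr
    rw [mul_comm W0⁻¹]
    refine (ENNReal.le_div_iff_mul_le (Or.inl (wt_ne hy0 hz _)) (Or.inl (wt_top _))).2 ?_
    rw [mul_comm]
    exact GG_diag w hw (n + a0)
  have hfin : ∀ n, S n ≠ ⊤ := by
    intro n
    have h : S n = (sys y z).sum n fun x =>
        min ((sys y z).oc (fun v _ => nrm v ≤ nrm w) x : ℝ≥0∞) (ENNReal.ofReal n) := by
      simp only [hS, Sys.sum]
      refine tsum_congr fun x => ?_
      congr 1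
      rw [min_eq_left]
      rw [ENNReal.ofReal_natCast]
      have h1 : (sys y z).oc (fun v _ => nrm v ≤ nrm w) x.1 ≤ x.1.1.2.1.length := occ_le _ _ _
      have h2 := two_length_le hok x.1
      rw [x.2] at h2
      exact_mod_cast (show (sys y z).oc (fun v _ => nrm v ≤ nrm w) x.1 ≤ n by omega)
    rw [h]
    exact sum_fin hok n (C := n) fun x => min_le_right _ _
  have hCW : C * W0⁻¹ ≠ ⊤ := ENNReal.mul_ne_top hC (ENNReal.inv_ne_top.2 (wt_ne hy0 hz _))
  -- in real numbers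
  have hbr : ∀ n, (GG y z n v w).toReal ≤ (C * W0⁻¹).toReal * (S (n + a0 + 2)).toReal := by
    intro n
    rw [← ENNReal.toReal_mul]
    exact ENNReal.toReal_mono (ENNReal.mul_ne_top hCW (hfin _)) (hb n)
  have hnT0 : ∀ n, 0 ≤ nT y z n := fun n => by unfold nT; positivity
  rcases Nat.even_or_odd (a0 + 2 + L) with he | ho
  · -- even
    obtain ⟨c, hc⟩ := he
    have hshift := nT_shift hy hz hz1 hq hone (a := a0 + 2) (b := L) ⟨c, hc⟩
    have hnear := lln_near hok hgr (nrm w)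
    have hidx : Tendsto (fun k : ℕ => k + c - L) atTop atTop := by
      refine tendsto_atTop.2 fun m => ?_
      filter_upwards [eventually_ge_atTop (m + L)] with k hk
      omega
    have h2 := (hnear.comp hidx).const_mul (C * W0⁻¹).toReal
    have h3 := h2.mul hshift
    rw [mul_zero, zero_mul] at h3
    have hpos : ∀ᶠ k : ℕ in atTop, 0 < nT y z (2 * (k + c - L)) := by
      have h4 := hidx.eventually (hgr 1 one_pos)
      filter_upwards [h4, hidx.eventually (eventually_gt_atTop 0)] with k h5 h6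
      unfold nT
      have h7 : (sys y z).tot (2 * (k + c - L)) ≠ ⊤ := by
        have := sum_fin hok (2 * (k + c - L)) (F := fun _ => 1) (C := 1) (fun x => by simp)
        exact this
      have h8 : 0 < ((sys y z).tot (2 * (k + c - L))).toReal := by
        refine ENNReal.toReal_pos ?_ h7
        intro h9
        rw [h9] at h5
        have := Real.exp_pos (-1 * ((k + c - L : ℕ) : ℝ))
        simp only [nonpos_iff_eq_zero, ENNReal.ofReal_eq_zero] at h5
        linarith
      have h10 : (0 : ℝ) < ((2 * (k + c - L) : ℕ) : ℝ) := by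
        exact_mod_cast (show 0 < 2 * (k + c - L) by omega)
      positivity
    refine squeeze_zero' (Eventually.of_forall fun k => div_nonneg ENNReal.toReal_nonneg (hnT0 _))
      ?_ h3
    filter_upwards [hpos, eventually_ge_atTop (L + L)] with k hk hk2
    have e1 : 2 * k - L + a0 + 2 = 2 * (k + c - L) := by omega
    have e2 : 2 * k + (a0 + 2) - L = 2 * (k + c - L) := by omega
    have h5 := hbr (2 * k - L)
    rw [e1] at h5
    simp only [Function.comp]
    rw [e2]
    change _ ≤ (C * W0⁻¹).toReal * ((S (2 * (k + c - L))).toReal / nT y z (2 * (k + c - L))) *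
      (nT y z (2 * (k + c - L)) / nT y z (2 * k))
    have e3 : (C * W0⁻¹).toReal * ((S (2 * (k + c - L))).toReal / nT y z (2 * (k + c - L))) *
        (nT y z (2 * (k + c - L)) / nT y z (2 * k)) =
        (C * W0⁻¹).toReal * (S (2 * (k + c - L))).toReal / nT y z (2 * k) := by
      field_simp
    rw [e3]
    exact div_le_div_of_nonneg_right h5 (hnT0 _)
  · -- odd: everything vanishes
    have h0 : ∀ n, Odd n → S n = 0 := by
      intro n hn
      have ht : (sys y z).tot n = 0 := by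
        have h := tot_eq hy0 hz n
        rw [Pool.Agent.KTen.u_odd (by simpa using hn), zero_mul, ENNReal.ofReal_zero,
          mul_zero] at h
        have h1 := (add_eq_zero.1 h).1
        rcases mul_eq_zero.1 h1 with h2 | h2
        · rw [ENNReal.ofReal_eq_zero] at h2
          linarith
        · exact h2
      unfold Sys.tot Sys.sum at ht
      rw [ENNReal.tsum_eq_zero] at ht
      simp only [hS, Sys.sum]
      rw [ENNReal.tsum_eq_zero]
      intro x
      have h1 := ht x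
      rw [mul_one] at h1
      rw [h1, zero_mul]
    refine (tendsto_congr' ?_).2 tendsto_const_nhds
    filter_upwards [eventually_ge_atTop L] with k hk
    have h5 := hbr (2 * k - L)
    have h6 : Odd (2 * k - L + a0 + 2) := by
      obtain ⟨c, hc⟩ := ho
      exact ⟨k + c - L, by omega⟩
    rw [h0 _ h6, ENNReal.toReal_zero, mul_zero] at h5
    have h7 : (GG y z (2 * k - L) v w).toReal = 0 := le_antisymm h5 ENNReal.toReal_nonneg
    rw [h7, zero_div]

end Pool.Agent.KAmp
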