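import Pool.Agent.KAmp.MidE
import Pool.Agent.KAmp.FarS
import Pool.Agent.KAmp.NearS
import Pool.Agent.KAmp.FarT
import Pool.Agent.KAmp.CapsT

/-! KP20: the number of the polygons of a prime class with a short knotted block. -/

set_option autoImplicit false

open Pool.Agent.LK Filter Topology
open scoped ENNReal

namespace Pool.Agent.KAmp

open Pool.Agent.KTube Pool.Agent.KRing Pool.Agent.KLog
open Pool.Agent.KAsym (ln)
open Pool.Agent.KTen (Zt)

variable {y z : ℝ} {T : Finset (Sym2 P3) → Prop}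

/-- The amplitude of the blocks with at most `j` edges. -/
noncomputable def amp (T : Finset (Sym2 P3) → Prop) (y z : ℝ) (j : ℕ) : ℝ :=
  (∑' π : {π // FreeT T π ∧ ln π + 2 ≤ j},
    wt (ENNReal.ofReal y) (ENNReal.ofReal z) π.1).toReal / (sys y z).ell

/-- The pairs of unknotted halves around the block `π` of class `T`. -/
private noncomputable def kp_S (T : Finset (Sym2 P3) → Prop) (y z : ℝ) (π : PP) (n : ℕ) : ℝ≥0∞ :=
  ∑' v : {v // Cls T v π}, GG y z (n - ln π) v.1 (v.1 + dsp π)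

private theorem kp_sum (T : Finset (Sym2 P3) → Prop) (y z : ℝ) (j n : ℕ) (hn : j ≤ n) :
    ∑' i : {i : (ℤ × ℤ) × PP // Cls T i.1 i.2 ∧ ln i.2 + 2 ≤ j ∧ ln i.2 ≤ n},
        wt (ENNReal.ofReal y) (ENNReal.ofReal z) i.1.2 *
          GG y z (n - ln i.1.2) i.1.1 (i.1.1 + dsp i.1.2) =
      ∑ π ∈ (short_finite T j).toFinset,
        wt (ENNReal.ofReal y) (ENNReal.ofReal z) π * kp_S T y z π n := by
  classical
  have h1 := tsum_subtype {i : (ℤ × ℤ) × PP | Cls T i.1 i.2 ∧ ln i.2 + 2 ≤ j ∧ ln i.2 ≤ n}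
    (fun i => wt (ENNReal.ofReal y) (ENNReal.ofReal z) i.2 *
          GG y z (n - ln i.2) i.1 (i.1 + dsp i.2))
  refine h1.trans ?_
  rw [ENNReal.tsum_prod', ENNReal.tsum_comm, tsum_eq_sum (s := (short_finite T j).toFinset)]
  · refine Finset.sum_congr rfl fun π hπ => ?_
    rw [Set.Finite.mem_toFinset] at hπ
    have h2 := tsum_subtype {v : ℤ × ℤ | Cls T v π}
      (fun v => wt (ENNReal.ofReal y) (ENNReal.ofReal z) π * GG y z (n - ln π) v (v + dsp π))
    rw [kp_S, ← ENNReal.tsum_mul_left]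
    refine Eq.trans ?_ h2.symm
    refine tsum_congr fun v => ?_
    have hπ' : ln π + 2 ≤ j := hπ.2
    by_cases hv : Cls T v π
    · rw [Set.indicator_of_mem (show (v, π) ∈ {i : (ℤ × ℤ) × PP | Cls T i.1 i.2 ∧
          ln i.2 + 2 ≤ j ∧ ln i.2 ≤ n} from ⟨hv, hπ', by show ln π ≤ n; omega⟩),
        Set.indicator_of_mem (show v ∈ {v : ℤ × ℤ | Cls T v π} from hv)]
    · rw [Set.indicator_of_notMem (fun h => hv h.1),
        Set.indicator_of_notMem (show v ∉ {v : ℤ × ℤ | Cls T v π} from hv)]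
  · intro π hπ
    rw [ENNReal.tsum_eq_zero]
    intro v
    apply Set.indicator_of_notMem
    rintro ⟨h1, h2, -⟩
    exact hπ ((short_finite T j).mem_toFinset.2 ⟨⟨v, h1⟩, h2⟩)

private theorem kp_near_finite (R : ℕ) (C : ℤ × ℤ → Prop) :
    {v : ℤ × ℤ | nrm v ≤ R ∧ C v}.Finite := by
  refine (Set.finite_Icc ((-(R : ℤ), -(R : ℤ)) : ℤ × ℤ) ((R : ℤ), (R : ℤ))).subset ?_
  rintro ⟨a, b⟩ ⟨h, -⟩
  simp only [nrm] at h
  refine ⟨⟨?_, ?_⟩, ⟨?_, ?_⟩⟩ <;> simp only <;> omega

private theorem kp_split (hT : PrimeCl T) (π : PP) (R : ℕ) (hR : nh π ≤ R) (g : ℤ × ℤ → ℝ≥0∞) :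
    ∑' v : {v // Cls T v π}, g v.1 =
      (open Classical in if FreeT T π then ∑' v : {v // R < nrm v}, g v.1 else 0) +
        ∑ v ∈ (kp_near_finite R fun v => Cls T v π).toFinset, g v := by
  classical
  have h1 := tsum_subtype {v : ℤ × ℤ | Cls T v π} g
  refine h1.trans ?_
  have h2 : ∀ v, Set.indicator {v : ℤ × ℤ | Cls T v π} g v =
      Set.indicator {v : ℤ × ℤ | R < nrm v ∧ Cls T v π} g v +
        Set.indicator {v : ℤ × ℤ | nrm v ≤ R ∧ Cls T v π} g v := by
    intro v
    by_cases hv : Cls T v π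
    · rw [Set.indicator_of_mem (show v ∈ {v : ℤ × ℤ | Cls T v π} from hv)]
      rcases le_or_gt (nrm v) R with h | h
      · rw [Set.indicator_of_mem (show v ∈ {v : ℤ × ℤ | nrm v ≤ R ∧ Cls T v π} from ⟨h, hv⟩),
          Set.indicator_of_notMem (fun h' => absurd h'.1 (not_lt.2 h)), zero_add]
      · rw [Set.indicator_of_mem (show v ∈ {v : ℤ × ℤ | R < nrm v ∧ Cls T v π} from ⟨h, hv⟩),
          Set.indicator_of_notMem (fun h' => absurd h'.1 (not_le.2 h)), add_zero]
    · rw [Set.indicator_of_notMem (show v ∉ {v : ℤ × ℤ | Cls T v π} from hv),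
        Set.indicator_of_notMem (show v ∉ {v : ℤ × ℤ | R < nrm v ∧ Cls T v π} from
          fun h => hv h.2),
        Set.indicator_of_notMem (show v ∉ {v : ℤ × ℤ | nrm v ≤ R ∧ Cls T v π} from
          fun h => hv h.2), add_zero]
  rw [tsum_congr h2, ENNReal.tsum_add]
  congr 1
  · split_ifs with hf
    · have h3 := tsum_subtype {v : ℤ × ℤ | R < nrm v} g
      refine Eq.trans ?_ h3.symm
      refine tsum_congr fun v => ?_
      have h4 : v ∈ {v : ℤ × ℤ | R < nrm v ∧ Cls T v π} ↔ v ∈ {v : ℤ × ℤ | R < nrm v} :=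
        ⟨fun h => h.1, fun h => ⟨h, (cls_far hT (lt_of_le_of_lt hR h)).2 hf⟩⟩
      by_cases h : R < nrm v
      · rw [Set.indicator_of_mem (h4.2 h), Set.indicator_of_mem (show v ∈ {v : ℤ × ℤ | R < nrm v}
          from h)]
      · rw [Set.indicator_of_notMem (fun h' => h h'.1),
          Set.indicator_of_notMem (show v ∉ {v : ℤ × ℤ | R < nrm v} from h)]
    · rw [ENNReal.tsum_eq_zero]
      intro v
      apply Set.indicator_of_notMem
      rintro ⟨h, h'⟩
      exact hf ((cls_far hT (lt_of_le_of_lt hR h)).1 h')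
  · rw [tsum_eq_sum (s := (kp_near_finite R fun v => Cls T v π).toFinset)]
    · refine Finset.sum_congr rfl fun v hv => ?_
      exact Set.indicator_of_mem ((Set.Finite.mem_toFinset _).1 hv) _
    · intro v hv
      exact Set.indicator_of_notMem (fun h => hv ((Set.Finite.mem_toFinset _).2 h)) _

private theorem kp_lim (hy : 10 ^ 24 ≤ y) (hz : 0 < z) (hz1 : z ≤ 1 / 10 ^ 12)
    (hq : y * z ^ 2 ≤ 1)
    (hone : ∑' π : {π // Free π}, wt (ENNReal.ofReal y) (ENNReal.ofReal z) π.1 = 1)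
    (hT : PrimeCl T) (π : PP) (hπ : ∃ v, Cls T v π)
    (hfin : ∀ᶠ k : ℕ in atTop, kp_S T y z π (2 * k) ≠ ⊤) :
    Tendsto (fun k : ℕ => (kp_S T y z π (2 * k)).toReal / nT y z (2 * k)) atTop
      (𝓝 ((open Classical in if FreeT T π then 1 / (sys y z).ell else 0))) := by
  classical
  obtain ⟨v0, hv0⟩ := hπ
  have hpar := cls_parity hv0
  have hR1 : nh π ≤ max (nh π) (nrm (dsp π)) := le_max_left _ _
  have hR2 : nrm (dsp π) ≤ max (nh π) (nrm (dsp π)) := le_max_right _ _
  generalize max (nh π) (nrm (dsp π)) = R at hR1 hR2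
  have hA := far_sum hy hz hz1 hq hone hpar hR2
  have hB : ∀ v ∈ (kp_near_finite R fun v => Cls T v π).toFinset,
      Tendsto (fun k : ℕ => (GG y z (2 * k - ln π) v (v + dsp π)).toReal / nT y z (2 * k)) atTop
        (𝓝 0) := by
    intro v hv
    rw [Set.Finite.mem_toFinset] at hv
    have hg := hv.2.1
    refine near_sum hy hz hz1 hq hone hg.ne ?_ _
    intro h0
    apply hg.ne'
    rw [dsp, ← add_sub_assoc, sub_eq_zero] at h0
    exact h0.symm
  have hB' := tendsto_finsetSum _ hB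
  rw [Finset.sum_const_zero] at hB'
  have hA' : Tendsto (fun k : ℕ => (if FreeT T π then
      ∑' v : {v // R < nrm v}, GG y z (2 * k - ln π) v.1 (v.1 + dsp π) else 0).toReal /
        nT y z (2 * k)) atTop (𝓝 (if FreeT T π then 1 / (sys y z).ell else 0)) := by
    split_ifs with hf
    · exact hA
    · simp
  have h := hA'.add hB'
  rw [add_zero] at h
  refine Tendsto.congr' ?_ (by convert h)
  filter_upwards [hfin] with k hk
  have h1 := kp_split hT π R hR1 (fun v => GG y z (2 * k - ln π) v (v + dsp π))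
  have h2 : kp_S T y z π (2 * k) = _ := h1
  rw [h2] at hk ⊢
  have h3 := ENNReal.add_ne_top.1 hk
  rw [ENNReal.toReal_add h3.1 h3.2, ENNReal.toReal_sum (ENNReal.sum_ne_top.1 h3.2), add_div,
    Finset.sum_div]

/-- KP20: **The polygons with a short knotted block.** -/
theorem mid_lim (hy : 10 ^ 24 ≤ y) (hz : 0 < z) (hz1 : z ≤ 1 / 10 ^ 12) (hq : y * z ^ 2 ≤ 1)
    (hone : ∑' π : {π // Free π}, wt (ENNReal.ofReal y) (ENNReal.ofReal z) π.1 = 1)
    (hT : PrimeCl T) (j : ℕ) :
    Tendsto (fun k : ℕ => Zt y (fun E => T E ∧ MidAt E j) (2 * k) /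
      (((2 * k : ℕ) : ℝ) * Zt y UClass (2 * k))) atTop (𝓝 (amp T y z j)) := by
  classical
  have hy0 : 0 < y := lt_of_lt_of_le (by norm_num) hy
  have hwt : ∀ π, wt (ENNReal.ofReal y) (ENNReal.ofReal z) π ≠ ⊤ := fun π =>
    ENNReal.mul_ne_top (ENNReal.pow_ne_top ENNReal.ofReal_ne_top)
      (ENNReal.pow_ne_top ENNReal.ofReal_ne_top)
  have hwt0 : ∀ π, wt (ENNReal.ofReal y) (ENNReal.ofReal z) π ≠ 0 := fun π =>
    mul_ne_zero (pow_ne_zero _ (ENNReal.ofReal_pos.2 hy0).ne')
      (pow_ne_zero _ (ENNReal.ofReal_pos.2 hz).ne')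
  have hkey : ∀ k, j ≤ 2 * k →
      2 * ENNReal.ofReal (Zt y (fun E => T E ∧ MidAt E j) (2 * k) * z ^ (2 * k)) =
        ENNReal.ofReal y * ∑ π ∈ (short_finite T j).toFinset,
          wt (ENNReal.ofReal y) (ENNReal.ofReal z) π * kp_S T y z π (2 * k) := by
    intro k hk
    rw [mid_eq hy0 hz hT, kp_sum T y z j (2 * k) hk]
  have hfs : ∀ k, j ≤ 2 * k → ∑ π ∈ (short_finite T j).toFinset,
      wt (ENNReal.ofReal y) (ENNReal.ofReal z) π * kp_S T y z π (2 * k) ≠ ⊤ := by
    intro k hk h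
    have h1 := hkey k hk
    rw [h, ENNReal.mul_top (ENNReal.ofReal_pos.2 hy0).ne'] at h1
    exact ENNReal.mul_ne_top (by simp) ENNReal.ofReal_ne_top h1
  have hfin : ∀ k, j ≤ 2 * k → ∀ π ∈ (short_finite T j).toFinset,
      kp_S T y z π (2 * k) ≠ ⊤ := by
    intro k hk π hπ h
    have h3 := (ENNReal.sum_ne_top.1 (hfs k hk)) π hπ
    rw [h, ENNReal.mul_top (hwt0 π)] at h3
    exact h3 rfl
  have hreal : ∀ k, j ≤ 2 * k →
      2 * (Zt y (fun E => T E ∧ MidAt E j) (2 * k) * z ^ (2 * k)) =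
        y * ∑ π ∈ (short_finite T j).toFinset,
          (wt (ENNReal.ofReal y) (ENNReal.ofReal z) π).toReal *
            (kp_S T y z π (2 * k)).toReal := by
    intro k hk
    have h := congrArg ENNReal.toReal (hkey k hk)
    rw [ENNReal.toReal_mul, ENNReal.toReal_mul, ENNReal.toReal_sum
      (ENNReal.sum_ne_top.1 (hfs k hk)), ENNReal.toReal_ofReal (mul_nonneg
        (Pool.Agent.KTen.zt_nonneg hy0.le _ _) (pow_nonneg hz.le _)),
      ENNReal.toReal_ofReal hy0.le, ENNReal.toReal_ofNat] at h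
    rw [h]
    simp only [ENNReal.toReal_mul]
  have hlim : Tendsto (fun k : ℕ => (y * ∑ π ∈ (short_finite T j).toFinset,
      (wt (ENNReal.ofReal y) (ENNReal.ofReal z) π).toReal *
        (kp_S T y z π (2 * k)).toReal) / nT y z (2 * k)) atTop
      (𝓝 (y * ∑ π ∈ (short_finite T j).toFinset,
        (wt (ENNReal.ofReal y) (ENNReal.ofReal z) π).toReal *
          (if FreeT T π then 1 / (sys y z).ell else 0))) := by
    have h1 : ∀ π ∈ (short_finite T j).toFinset, Tendsto (fun k : ℕ =>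
        (wt (ENNReal.ofReal y) (ENNReal.ofReal z) π).toReal *
          ((kp_S T y z π (2 * k)).toReal / nT y z (2 * k))) atTop
        (𝓝 ((wt (ENNReal.ofReal y) (ENNReal.ofReal z) π).toReal *
          (if FreeT T π then 1 / (sys y z).ell else 0))) := by
      intro π hπ
      refine Tendsto.const_mul _ ?_
      have h2 := kp_lim hy hz hz1 hq hone hT π
        ((short_finite T j).mem_toFinset.1 hπ).1 (by
          filter_upwards [eventually_ge_atTop j] with k hk
          exact hfin k (by omega) π hπ)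
      convert h2
    have h2 := (tendsto_finsetSum _ h1).const_mul y
    refine h2.congr fun k => ?_
    rw [mul_div_assoc, Finset.sum_div]
    congr 1
    refine Finset.sum_congr rfl fun π _ => ?_
    rw [mul_div_assoc]
  have hamp : ∑ π ∈ (short_finite T j).toFinset,
      (wt (ENNReal.ofReal y) (ENNReal.ofReal z) π).toReal *
        (if FreeT T π then 1 / (sys y z).ell else 0) = amp T y z j := by
    rw [amp]
    have h1 := tsum_subtype {π : PP | FreeT T π ∧ ln π + 2 ≤ j}
      (fun π => wt (ENNReal.ofReal y) (ENNReal.ofReal z) π)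
    have h2 : ∑' π : {π // FreeT T π ∧ ln π + 2 ≤ j},
        wt (ENNReal.ofReal y) (ENNReal.ofReal z) π.1 =
        ∑ π ∈ (short_finite T j).toFinset,
          if FreeT T π then wt (ENNReal.ofReal y) (ENNReal.ofReal z) π else 0 := by
      refine h1.trans ?_
      rw [tsum_eq_sum (s := (short_finite T j).toFinset)]
      · refine Finset.sum_congr rfl fun π hπ => ?_
        rw [Set.Finite.mem_toFinset] at hπ
        by_cases hf : FreeT T π
        · rw [if_pos hf, Set.indicator_of_mem (show π ∈ {π : PP | FreeT T π ∧ ln π + 2 ≤ j}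
            from ⟨hf, hπ.2⟩)]
        · rw [if_neg hf, Set.indicator_of_notMem (fun h => hf h.1)]
      · intro π hπ
        apply Set.indicator_of_notMem
        rintro ⟨⟨v, _, hv⟩, h⟩
        exact hπ ((short_finite T j).mem_toFinset.2 ⟨⟨v, hv⟩, h⟩)
    rw [h2, ENNReal.toReal_sum, Finset.sum_div]
    · refine Finset.sum_congr rfl fun π _ => ?_
      split_ifs
      · rw [mul_one_div]
      · simp
    · intro π _
      split_ifs
      · exact hwt π
      · simp
  rw [hamp] at hlim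
  have h2 := tot_asy hy hz hz1 hq hone
  have h3 := (hlim.mul h2).div_const (2 * y)
  have h4 : y * amp T y z j * 2 / (2 * y) = amp T y z j := by
    field_simp
  rw [h4] at h3
  refine h3.congr' ?_
  filter_upwards [eventually_ge_atTop j, eventually_ge_atTop 1,
    h2.eventually_ne (by norm_num : (2 : ℝ) ≠ 0)] with k hk hk1 hne
  have hU : Zt y UClass (2 * k) * z ^ (2 * k) ≠ 0 := fun h => hne (by rw [h, div_zero])
  have htot : ((sys y z).tot (2 * k)).toReal ≠ 0 := fun h => hne (by rw [h, mul_zero, zero_div])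
  rw [← hreal k (by omega), nT]
  have hU1 : Zt y UClass (2 * k) ≠ 0 := left_ne_zero_of_mul hU
  have hk2 : ((2 * k : ℕ) : ℝ) ≠ 0 := by
    have : (2 * k : ℕ) ≠ 0 := by omega
    exact_mod_cast this
  have hz2 : z ^ (2 * k) ≠ 0 := pow_ne_zero _ hz.ne'
  field_simp

end Pool.Agent.KAmp
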