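import Pool.Agent.KAmp.Fl
import Pool.Agent.KLog.BasicV

/-! KP17: an unknotted block with given displacement. -/

set_option autoImplicit false

open Pool.Agent.LK
open scoped ENNReal

namespace Pool.Agent.KAmp

open Pool.Agent.KTube Pool.Agent.KRing Pool.Agent.KLog
open Pool.Agent.KAsym (ln)

/-- A block with one level is unknotted. -/
private theorem ref_unk {v : ℤ × ℤ} {π : PP} (hg : Geo v π) (h1 : hgt π = 1) : Unk v π := by
  obtain ⟨l, hl, -⟩ := exists_flat hg.ne
  have hb := hg.block
  have hne : hz π.1.sum ≠ v + hz π.2.sum := by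
    intro h
    have hA := List.mem_of_getLast? hb.lastA
    have hB := List.mem_of_head? hb.headB
    rw [h] at hA
    exact hb.disj _ hA hB
  obtain ⟨r, hr⟩ := exists_UU' (k := hgt π) hne
  rw [unk_iff hg hl hr, ← hb.ring_rotate hr.2.1 hl.2.1]
  refine hb.unknotted hr hl fun j hj hj' => ?_
  rw [h1] at hj'
  omega

/-- A monotone horizontal path. -/
private theorem ref_path : ∀ (n : ℕ) (u : ℤ × ℤ), nrm u = n → ∃ s : List P3, s.length = n ∧
    Steps s ∧ s.sum = (u.1, u.2, 0) ∧
    ∀ A B : List P3, s = A ++ B → A.sum.2.2 = 0 ∧ nrm (A.sum.1, A.sum.2.1) = A.length := by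
  intro n
  induction n with
  | zero =>
    rintro ⟨x, y⟩ hv
    simp only [nrm, Nat.add_eq_zero_iff, Int.natAbs_eq_zero] at hv
    obtain ⟨rfl, rfl⟩ := hv
    refine ⟨[], rfl, fun d hd => by simp at hd, rfl, ?_⟩
    intro A B h
    have hA : A = [] := (List.append_eq_nil_iff.1 h.symm).1
    subst hA
    simp [nrm]
  | succ n ih =>
    rintro ⟨x, y⟩ hv
    obtain ⟨⟨x', y'⟩, hw, hst⟩ : ∃ w : ℤ × ℤ, nrm w = n ∧
        IsStep (x - w.1, y - w.2, (0 : ℤ)) := by
      simp only [nrm] at hv
      rcases lt_trichotomy x 0 with h | h | h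
      · exact ⟨(x + 1, y), by simp only [nrm]; omega, by simp [IsStep]⟩
      · rcases lt_trichotomy y 0 with h' | h' | h'
        · exact ⟨(x, y + 1), by simp only [nrm]; omega, by simp [IsStep]⟩
        · omega
        · exact ⟨(x, y - 1), by simp only [nrm]; omega, by simp [IsStep]⟩
      · exact ⟨(x - 1, y), by simp only [nrm]; omega, by simp [IsStep]⟩
    obtain ⟨s, h1, h2, h3, h4⟩ := ih (x', y') hw
    have hsum : (s ++ [((x - x', y - y', 0) : P3)]).sum = (x, y, 0) := by
      rw [List.sum_append, h3, List.sum_singleton]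
      simp
    refine ⟨s ++ [(x - x', y - y', 0)], by simp [h1], ?_, hsum, ?_⟩
    · intro d hd
      rcases List.mem_append.1 hd with h | h
      · exact h2 d h
      · rw [List.mem_singleton] at h
        rw [h]
        exact hst
    · intro A B h
      rcases List.eq_nil_or_concat B with rfl | ⟨B', d, rfl⟩
      · rw [List.append_nil] at h
        rw [← h, hsum]
        refine ⟨rfl, ?_⟩
        rw [List.length_append, h1]
        exact hv
      · rw [List.concat_eq_append, ← List.append_assoc] at h
        have h5 := List.append_inj_left' h (by simp)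
        exact h4 A B' h5

/-- **Reference blocks.** -/
theorem exists_ref (u : ℤ × ℤ) : ∃ ρ : PP, dsp ρ = u ∧ ln ρ = nrm u + 2 ∧
    ∀ v, nrm u < nrm v → Valid v ρ := by
  obtain ⟨s, h1, h2, h3, h4⟩ := ref_path _ u rfl
  have hgt1 : KLog.hgt ([], s) = 1 := by simp [KLog.hgt]
  have hz0 : hz ([] : List P3).sum = 0 := rfl
  have hzs : hz s.sum = u := by rw [h3]; rfl
  refine ⟨([], s), ?_, ?_, ?_⟩
  · show hz s.sum - hz ([] : List P3).sum = u
    rw [hz0, hzs, sub_zero]
  · simp [ln, h1]
  intro v hv
  have hv0 : v ≠ 0 := by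
    rintro rfl
    simp [nrm] at hv
  have hmem : ∀ w ∈ wk (v.1, v.2, 1) s, w.2.2 = 1 ∧ w ≠ (0, 0, 1) := by
    intro w hw
    obtain ⟨A, B, hAB, rfl⟩ := mem_wk.1 hw
    obtain ⟨h5, h6⟩ := h4 A B hAB
    refine ⟨by simp [h5], ?_⟩
    intro h0
    have hA : A.length ≤ s.length := by rw [hAB]; simp
    have e1 := congrArg (fun q : P3 => q.1) h0
    have e2 := congrArg (fun q : P3 => q.2.1) h0
    simp only [Prod.fst_add, Prod.snd_add] at e1 e2
    have : nrm v = nrm (A.sum.1, A.sum.2.1) := by
      simp only [nrm]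
      omega
    omega
  have hg : Geo v ([], s) := by
    refine ⟨hv0, fun d hd => by simp at hd, h2, ?_, ?_⟩
    · rw [hgt1]
      have hs : sdA ([], s) = [(0, 0, 1)] := rfl
      have hs' : sdB v ([], s) = (wk (v.1, v.2, 1) s).reverse := rfl
      rw [hs, hs']
      refine ⟨by norm_num, by simp, ?_, ?_, by simp, ?_, rfl, rfl, ?_, ?_, ?_, ?_⟩
      · rw [List.nodup_reverse, nodup_wk]
        intro A w B hAB hw h0
        obtain ⟨-, h6⟩ := h4 A (w ++ B) hAB
        obtain ⟨-, h7⟩ := h4 (A ++ w) B (by rw [hAB, List.append_assoc])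
        rw [List.sum_append, h0, add_zero, h6, List.length_append] at h7
        have : w.length ≠ 0 := fun h => hw (List.length_eq_zero_iff.1 h)
        omega
      · intro w hw hw'
        rw [List.mem_singleton] at hw
        rw [List.mem_reverse] at hw'
        exact (hmem w hw').2 hw
      · rw [List.isChain_reverse]
        exact (chain_wk.2 h2).imp fun a b h => h.symm
      · rw [List.head?_reverse, last_wk, h3]
        simp [hz]
      · rw [List.getLast?_reverse, head_wk]
        rfl
      · intro w hw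
        rw [List.mem_singleton] at hw
        subst hw
        simp
      · intro w hw
        rw [List.mem_reverse] at hw
        rw [(hmem w hw).1]
        simp
    · intro j hj hj'
      rw [hgt1] at hj'
      omega
  exact ⟨hg, ref_unk hg hgt1⟩

end Pool.Agent.KAmp
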