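import Pool.Agent.KAmp.Lln
import Pool.Agent.KAmp.Grow
import Pool.Agent.KAmp.Mark
import Pool.Agent.KAmp.Ref
import Pool.Agent.KLog.Far

/-! KP18: consecutive total weights. -/

set_option autoImplicit false

open Pool.Agent.LK Filter Topology
open scoped ENNReal

namespace Pool.Agent.KAmp

open Pool.Agent.KTube Pool.Agent.KRing Pool.Agent.KLog
open Pool.Agent.KAsym (ln)
open Pool.Agent.KTen (Zt)

variable {y z : ℝ}

/-- `n` times the total weight of the chains of length `n`. -/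
noncomputable def nT (y z : ℝ) (n : ℕ) : ℝ := (n : ℝ) * ((sys y z).tot n).toReal

/-- The mean length of a free element is positive. -/
theorem ell_pos {P H : Type} {S : Sys P H} (hS : S.Ok) : 0 < S.ell := by
  unfold Sys.ell
  rw [ENNReal.toReal_pos_iff]
  constructor
  · have h1 := hS.ok.one
    have h2 : ∑' p : {p // S.κ.Fr p}, S.κ.wt p.1 ≤
        ∑' p : {p // S.κ.Fr p}, S.κ.wt p.1 * (S.ln p.1 : ℝ≥0∞) := by
      refine ENNReal.tsum_le_tsum fun p => ?_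
      have h3 : (1 : ℝ≥0∞) ≤ (S.ln p.1 : ℝ≥0∞) := by
        have := hS.two_le p.1
        exact_mod_cast (by omega : 1 ≤ S.ln p.1)
      calc S.κ.wt p.1 = S.κ.wt p.1 * 1 := (mul_one _).symm
        _ ≤ _ := mul_le_mul_right h3 _
    rw [h1] at h2
    exact lt_of_lt_of_le one_pos h2
  · rw [lt_top_iff_ne_top]
    refine ne_top_of_le_ne_top hS.fin ?_
    have h1 : ∀ p : P, S.κ.wt p * (S.ln p : ℝ≥0∞) ≤ S.κ.wt p * 2 ^ S.ln p * 4 ^ S.κ.l p := by
      intro p
      have h2 : (S.ln p : ℝ≥0∞) ≤ 2 ^ S.ln p := by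
        have : S.ln p ≤ 2 ^ S.ln p := Nat.lt_two_pow_self.le
        exact_mod_cast this
      have h3 : (1 : ℝ≥0∞) ≤ 4 ^ S.κ.l p := one_le_pow_of_one_le' (by norm_num) _
      calc S.κ.wt p * (S.ln p : ℝ≥0∞) ≤ S.κ.wt p * 2 ^ S.ln p := mul_le_mul_right h2 _
        _ = S.κ.wt p * 2 ^ S.ln p * 1 := (mul_one _).symm
        _ ≤ _ := mul_le_mul_right h3 _
    let i : {p // S.κ.Fr p} → {p // S.κ.Fr p ∨ ∃ v, S.κ.V v p} := fun p => ⟨p.1, Or.inl p.2⟩
    have hi : Function.Injective i := by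
      intro p q h
      exact Subtype.ext (congrArg (fun x : {p // S.κ.Fr p ∨ ∃ v, S.κ.V v p} => x.1) h)
    have h4 : ∑' p : {p // S.κ.Fr p}, S.κ.wt p.1 * (S.ln p.1 : ℝ≥0∞) ≤
        ∑' p : {p // S.κ.Fr p}, S.κ.wt p.1 * 2 ^ S.ln p.1 * 4 ^ S.κ.l p.1 :=
      ENNReal.tsum_le_tsum fun p => h1 p.1
    exact h4.trans
      (ENNReal.tsum_comp_le_tsum_of_injective hi
        (fun p : {p // S.κ.Fr p ∨ ∃ v, S.κ.V v p} => S.κ.wt p.1 * 2 ^ S.ln p.1 * 4 ^ S.κ.l p.1))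

private theorem wtn_pos (hy : 0 < y) (hz : 0 < z) :
    0 < (wt (ENNReal.ofReal y) (ENNReal.ofReal z) ([], [])).toReal := by
  rw [ENNReal.toReal_pos_iff]
  unfold wt
  have h1 : 0 < ENNReal.ofReal y := ENNReal.ofReal_pos.2 hy
  have h2 : 0 < ENNReal.ofReal z := ENNReal.ofReal_pos.2 hz
  constructor
  · exact ENNReal.mul_pos (pow_ne_zero _ h1.ne') (pow_ne_zero _ h2.ne')
  · exact ENNReal.mul_lt_top (ENNReal.pow_lt_top ENNReal.ofReal_lt_top)
      (ENNReal.pow_lt_top ENNReal.ofReal_lt_top)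

private theorem gg_zero (n : ℕ) : GG y z n 0 0 = 0 := by
  unfold GG
  have : IsEmpty {p : List P3 × List P3 // LU 0 0 (0 : ℤ × ℤ) p.1 ∧ LU 0 0 (0 : ℤ × ℤ) p.2 ∧
      p.1.length + p.2.length = n} := ⟨fun p => p.2.1.1 rfl⟩
  exact tsum_empty

/-- The marked empty blocks. -/
private theorem mark_nil (y z : ℝ) (n : ℕ) :
    (sys y z).sum (n + 2) (fun x => ((sys y z).oc (fun _ p => p = ([], [])) x : ℝ≥0∞)) =
      wt (ENNReal.ofReal y) (ENNReal.ofReal z) ([], []) *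
        (sys y z).sum n (fun x => (x.1.2.1.length : ℝ≥0∞) + 1) := by
  rw [mark_sum, sec_sum, ← ENNReal.tsum_mul_left]
  have hln : ln (([], []) : PP) = 2 := rfl
  have hd : dsp (([], []) : PP) = 0 := by simp [dsp]
  let e : {v : ℤ × ℤ // v ≠ 0} ≃
      {i : (ℤ × ℤ) × PP // Valid i.1 i.2 ∧ i.2 = ([], []) ∧ ln i.2 ≤ n + 2} :=
    { toFun := fun v => ⟨(v.1, ([], [])), valid_nil.2 v.2, rfl, by
        change ln (([], []) : PP) ≤ n + 2
        rw [hln]
        omega⟩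
      invFun := fun i => ⟨i.1.1, by
        have h1 := i.2.1
        rw [i.2.2.1] at h1
        exact valid_nil.1 h1⟩
      left_inv := fun v => rfl
      right_inv := fun i => Subtype.ext (Prod.ext rfl i.2.2.1.symm) }
  rw [← e.tsum_eq]
  have h1 : ∀ v : {v : ℤ × ℤ // v ≠ 0}, wt (ENNReal.ofReal y) (ENNReal.ofReal z) (e v).1.2 *
      GG y z (n + 2 - ln (e v).1.2) (e v).1.1 ((e v).1.1 + dsp (e v).1.2) =
      wt (ENNReal.ofReal y) (ENNReal.ofReal z) ([], []) * GG y z n v.1 v.1 := by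
    intro v
    change wt (ENNReal.ofReal y) (ENNReal.ofReal z) ([], []) *
      GG y z (n + 2 - ln (([], []) : PP)) v.1 (v.1 + dsp (([], []) : PP)) = _
    rw [hln, hd, add_zero, Nat.add_sub_cancel]
  rw [tsum_congr h1]
  have h2 : ∑' v : {v : ℤ × ℤ // v ≠ 0},
      wt (ENNReal.ofReal y) (ENNReal.ofReal z) ([], []) * GG y z n v.1 v.1 =
      ∑' v : ℤ × ℤ, {v : ℤ × ℤ | v ≠ 0}.indicator (fun v =>
        wt (ENNReal.ofReal y) (ENNReal.ofReal z) ([], []) * GG y z n v v) v :=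
    tsum_subtype {v : ℤ × ℤ | v ≠ 0} (fun v =>
      wt (ENNReal.ofReal y) (ENNReal.ofReal z) ([], []) * GG y z n v v)
  rw [h2]
  refine tsum_congr fun v => ?_
  by_cases hv : v = 0
  · subst hv
    rw [Set.indicator_of_notMem (by simp), gg_zero, mul_zero]
  · rw [Set.indicator_of_mem (by exact hv)]

private theorem tot_fin {P H : Type} {S : Sys P H} (hS : S.Ok) (n : ℕ) : S.tot n ≠ ⊤ :=
  sum_fin hS n (C := 1) fun _ => by rw [ENNReal.ofReal_one]

private theorem len_fin {P H : Type} {S : Sys P H} (hS : S.Ok) (n : ℕ) :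
    S.sum n (fun x => (x.1.2.1.length : ℝ≥0∞)) ≠ ⊤ := by
  have h1 : S.sum n (fun x => (x.1.2.1.length : ℝ≥0∞)) ≤ n * S.tot n := by
    unfold Sys.tot Sys.sum
    rw [← ENNReal.tsum_mul_left]
    refine ENNReal.tsum_le_tsum fun x => ?_
    have h2 := two_length_le hS x.1
    rw [x.2] at h2
    have h3 : ((x.1.1.2.1.length : ℕ) : ℝ≥0∞) ≤ (n : ℝ≥0∞) := by
      exact_mod_cast (by omega : x.1.1.2.1.length ≤ n)
    calc S.W x.1 * ((x.1.1.2.1.length : ℕ) : ℝ≥0∞) ≤ S.W x.1 * (n : ℝ≥0∞) := mul_le_mul_right h3 _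
      _ = n * (S.W x.1 * 1) := by rw [mul_one, mul_comm]
  exact ne_top_of_le_ne_top (ENNReal.mul_ne_top (ENNReal.natCast_ne_top n) (tot_fin hS n)) h1

private theorem len_add {P H : Type} {S : Sys P H} (n : ℕ) :
    S.sum n (fun x => (x.1.2.1.length : ℝ≥0∞) + 1) =
      S.sum n (fun x => (x.1.2.1.length : ℝ≥0∞)) + S.tot n := by
  unfold Sys.tot Sys.sum
  rw [← ENNReal.tsum_add]
  exact tsum_congr fun x => by rw [mul_add]

private theorem ratio_shift {t : ℕ → ℝ} (h : Tendsto (fun k => t (k + 1) / t k) atTop (𝓝 1))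
    (m : ℕ) : Tendsto (fun k => t (k + m) / t k) atTop (𝓝 1) := by
  have hne : ∀ᶠ k in atTop, t k ≠ 0 := by
    filter_upwards [h.eventually_ne one_ne_zero] with k hk h0
    rw [h0, div_zero] at hk
    exact hk rfl
  induction m with
  | zero =>
    refine Tendsto.congr' ?_ tendsto_const_nhds
    filter_upwards [hne] with k hk
    rw [add_zero, div_self hk]
  | succ m ih =>
    have h1 : Tendsto (fun k => t (k + m + 1) / t (k + m)) atTop (𝓝 1) :=
      h.comp (tendsto_add_atTop_nat m)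
    have h2 := h1.mul ih
    rw [one_mul] at h2
    refine h2.congr' ?_
    filter_upwards [(tendsto_add_atTop_nat m).eventually hne] with k hk
    rw [div_mul_div_cancel₀ hk, add_assoc]

private theorem lin_ratio : Tendsto (fun k : ℕ => (((2 * k : ℕ) : ℝ)) / ((2 * (k + 1) : ℕ) : ℝ))
    atTop (𝓝 1) := by
  have h1 : Tendsto (fun k : ℕ => (k : ℝ) / (k + 1 : ℝ)) atTop (𝓝 1) :=
    tendsto_natCast_div_add_atTop (1 : ℝ)
  refine h1.congr fun k => ?_
  push_cast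
  rw [mul_div_mul_left _ _ (two_ne_zero)]

/-- Consecutive total weights have the same size. -/
theorem tot_ratio (hy : 10 ^ 24 ≤ y) (hz : 0 < z) (hz1 : z ≤ 1 / 10 ^ 12) (hq : y * z ^ 2 ≤ 1)
    (hone : ∑' π : {π // Free π}, wt (ENNReal.ofReal y) (ENNReal.ofReal z) π.1 = 1) :
    Tendsto (fun k : ℕ => ((sys y z).tot (2 * (k + 1))).toReal / ((sys y z).tot (2 * k)).toReal)
      atTop (𝓝 1) := by
  have hy0 : 0 < y := lt_of_lt_of_le (by positivity) hy
  have hS := sys_ok hy0 hz hz1 hq hone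
  have hG := gr hy hz hz1 hq hone
  have hell := ell_pos hS
  have hw := wtn_pos hy0 hz
  set w : ℝ := (wt (ENNReal.ofReal y) (ENNReal.ofReal z) ([], [])).toReal with hwdef
  set t : ℕ → ℝ := fun k => ((sys y z).tot (2 * k)).toReal with ht
  set A : ℕ → ℝ := fun k => ((sys y z).sum (2 * k) fun x =>
    ((sys y z).oc (fun _ p => p = ([], [])) x : ℝ≥0∞)).toReal with hA
  set B : ℕ → ℝ := fun k => ((sys y z).sum (2 * k) fun x =>
    (x.1.2.1.length : ℝ≥0∞)).toReal with hB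
  have hwF : (sys y z).wF (([], []) : PP) = w := by
    unfold Sys.wF
    rw [if_pos (show (sys y z).κ.Fr ([], []) from (bas_free_iff.2 (Or.inl rfl)).2)]
    rfl
  have h1 : Tendsto (fun k : ℕ => A k / (((2 * k : ℕ) : ℝ) * t k)) atTop
      (𝓝 (w / (sys y z).ell)) := by
    rw [← hwF]
    exact lln_occ hS hG ([], [])
  have h2 : Tendsto (fun k : ℕ => B k / (((2 * k : ℕ) : ℝ) * t k)) atTop
      (𝓝 (1 / (sys y z).ell)) := lln_len hS hG
  have hrel : ∀ k, A (k + 1) = w * (B k + t k) := by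
    intro k
    have h3 := mark_nil y z (2 * k)
    have h4 : 2 * k + 2 = 2 * (k + 1) := by ring
    rw [h4] at h3
    rw [hA]
    simp only
    rw [h3, ENNReal.toReal_mul, len_add, ENNReal.toReal_add (len_fin hS _) (tot_fin hS _)]
  have h1' : Tendsto (fun k : ℕ => A (k + 1) / (((2 * (k + 1) : ℕ) : ℝ) * t (k + 1))) atTop
      (𝓝 (w / (sys y z).ell)) := h1.comp (tendsto_add_atTop_nat 1)
  have hinv : Tendsto (fun k : ℕ => 1 / ((2 * k : ℕ) : ℝ)) atTop (𝓝 0) := by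
    have h3 : Tendsto (fun k : ℕ => ((2 * k : ℕ) : ℝ)) atTop atTop :=
      tendsto_natCast_atTop_atTop.comp (tendsto_id.const_mul_atTop' (by norm_num))
    refine h3.inv_tendsto_atTop.congr fun k => ?_
    rw [Pi.inv_apply, one_div]
  have h3 : Tendsto (fun k : ℕ => w * (B k / (((2 * k : ℕ) : ℝ) * t k) + 1 / ((2 * k : ℕ) : ℝ)) *
      ((((2 * k : ℕ) : ℝ)) / ((2 * (k + 1) : ℕ) : ℝ)) /
      (A (k + 1) / (((2 * (k + 1) : ℕ) : ℝ) * t (k + 1)))) atTop
      (𝓝 (w * (1 / (sys y z).ell + 0) * 1 / (w / (sys y z).ell))) :=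
    (((h2.add hinv).const_mul w).mul lin_ratio).div h1' (by positivity)
  have h4 : w * (1 / (sys y z).ell + 0) * 1 / (w / (sys y z).ell) = 1 := by
    rw [add_zero, mul_one, mul_one_div, div_self (by positivity)]
  rw [h4] at h3
  refine h3.congr' ?_
  have hne1 : ∀ᶠ k : ℕ in atTop, B k / (((2 * k : ℕ) : ℝ) * t k) ≠ 0 :=
    h2.eventually_ne (by positivity)
  have hne2 : ∀ᶠ k : ℕ in atTop, A (k + 1) / (((2 * (k + 1) : ℕ) : ℝ) * t (k + 1)) ≠ 0 :=
    h1'.eventually_ne (by positivity)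
  filter_upwards [hne1, hne2] with k hk1 hk2
  rw [div_ne_zero_iff, mul_ne_zero_iff] at hk1 hk2
  obtain ⟨-, hk, htk⟩ := hk1
  obtain ⟨hA0, hk', htk'⟩ := hk2
  rw [hrel k] at hA0 ⊢
  have hBt : B k + t k ≠ 0 := (mul_ne_zero_iff.1 hA0).2
  have hgoal : w * (B k / (((2 * k : ℕ) : ℝ) * t k) + 1 / ((2 * k : ℕ) : ℝ)) *
      ((((2 * k : ℕ) : ℝ)) / ((2 * (k + 1) : ℕ) : ℝ)) /
      (w * (B k + t k) / (((2 * (k + 1) : ℕ) : ℝ) * t (k + 1))) = t (k + 1) / t k := by
    have hw0 : w ≠ 0 := hw.ne'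
    field_simp
  exact hgoal

theorem nT_shift (hy : 10 ^ 24 ≤ y) (hz : 0 < z) (hz1 : z ≤ 1 / 10 ^ 12) (hq : y * z ^ 2 ≤ 1)
    (hone : ∑' π : {π // Free π}, wt (ENNReal.ofReal y) (ENNReal.ofReal z) π.1 = 1)
    {a b : ℕ} (hab : Even (a + b)) :
    Tendsto (fun k : ℕ => nT y z (2 * k + a - b) / nT y z (2 * k)) atTop (𝓝 1) := by
  have h0 := tot_ratio hy hz hz1 hq hone
  have h1 : Tendsto (fun k : ℕ => nT y z (2 * (k + 1)) / nT y z (2 * k)) atTop (𝓝 1) := by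
    have h2 := (lin_ratio.inv₀ one_ne_zero).mul h0
    rw [inv_one, one_mul] at h2
    refine h2.congr fun k => ?_
    unfold nT
    rw [inv_div, div_mul_div_comm]
  have h2 := fun m => ratio_shift (t := fun k => nT y z (2 * k)) h1 m
  rcases le_total b a with hba | hba
  · obtain ⟨m, hm⟩ : ∃ m, a = b + 2 * m := by
      obtain ⟨r, hr⟩ := hab
      exact ⟨r - b, by omega⟩
    refine (h2 m).congr fun k => ?_
    have h5 : 2 * k + a - b = 2 * (k + m) := by omega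
    rw [h5]
  · obtain ⟨m, hm⟩ : ∃ m, b = a + 2 * m := by
      obtain ⟨r, hr⟩ := hab
      exact ⟨r - a, by omega⟩
    rw [← tendsto_add_atTop_iff_nat m]
    have h3 := (h2 m).inv₀ one_ne_zero
    rw [inv_one] at h3
    refine h3.congr fun k => ?_
    have h5 : 2 * (k + m) + a - b = 2 * k := by omega
    rw [h5, inv_div]

end Pool.Agent.KAmp
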