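import Pool.Agent.KLog.SeqA

/-! Chains of elements of a kernel between two caps: definitions. -/

set_option autoImplicit false

open scoped ENNReal

namespace Pool.Agent.KAmp

open Pool.Agent.KLog (Ker nrm hh)

variable {P H : Type}

/-- The end of the chain `s` that starts at `v`. -/
def ev (κ : Ker P) (v : ℤ × ℤ) (s : List P) : ℤ × ℤ := v + (s.map κ.u).sum

/-- The elements of the chain `s` that starts at `v` are allowed. -/
def VC (κ : Ker P) : ℤ × ℤ → List P → Prop
  | _, [] => True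
  | v, p :: s => κ.V v p ∧ VC κ (v + κ.u p) s

open Classical in
/-- The number of the elements `p` of the chain, at `w`, with `A w p`. -/
noncomputable def occ (κ : Ker P) (A : ℤ × ℤ → P → Prop) : ℤ × ℤ → List P → ℕ
  | _, [] => 0
  | v, p :: s => (if A v p then 1 else 0) + occ κ A (v + κ.u p) s

/-- The product of the tilts along the chain; `τ i w p` is the tilt of the element `p` at `w` with
index `i`. -/
noncomputable def tp (κ : Ker P) (τ : ℕ → ℤ × ℤ → P → ℝ≥0∞) : ℕ → ℤ × ℤ → List P → ℝ≥0∞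
  | _, _, [] => 1
  | i, v, p :: s => τ i v p * tp κ τ (i + 1) (v + κ.u p) s

/-- A kernel with lengths of the elements, and caps `h` with positions, weights and lengths. -/
structure Sys (P H : Type) where
  κ : Ker P
  ln : P → ℕ
  pos : H → ℤ × ℤ
  hw : H → ℝ≥0∞
  hl : H → ℕ

/-- The hypotheses. -/
structure Sys.Ok (S : Sys P H) : Prop where
  ok : S.κ.Ok
  pos_ne : ∀ h, S.pos h ≠ 0
  V_ne : ∀ v p, S.κ.V v p → v ≠ 0
  two_le : ∀ p, 2 ≤ S.ln p
  fin : ∑' p : {p // S.κ.Fr p ∨ ∃ v, S.κ.V v p}, S.κ.wt p.1 * 2 ^ S.ln p.1 * 4 ^ S.κ.l p.1 ≠ ⊤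
  caps : ∑' h, S.hw h * 2 ^ S.hl h ≠ ⊤

/-- The chains between two caps. -/
abbrev Sys.Ch (S : Sys P H) : Type :=
  {x : H × List P × H // VC S.κ (S.pos x.1) x.2.1 ∧ ev S.κ (S.pos x.1) x.2.1 = S.pos x.2.2}

/-- The weight. -/
noncomputable def Sys.W (S : Sys P H) (x : S.Ch) : ℝ≥0∞ :=
  S.hw x.1.1 * (x.1.2.1.map S.κ.wt).prod * S.hw x.1.2.2

/-- The length. -/
def Sys.len (S : Sys P H) (x : S.Ch) : ℕ :=
  S.hl x.1.1 + (x.1.2.1.map S.ln).sum + S.hl x.1.2.2

/-- The number of elements with the property `A`. -/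
noncomputable def Sys.oc (S : Sys P H) (A : ℤ × ℤ → P → Prop) (x : S.Ch) : ℕ :=
  occ S.κ A (S.pos x.1.1) x.1.2.1

/-- The weighted sum over the chains of length `n`. -/
noncomputable def Sys.sum (S : Sys P H) (n : ℕ) (F : S.Ch → ℝ≥0∞) : ℝ≥0∞ :=
  ∑' x : {x : S.Ch // S.len x = n}, S.W x.1 * F x.1

/-- The total weight of the chains of length `n`. -/
noncomputable def Sys.tot (S : Sys P H) (n : ℕ) : ℝ≥0∞ := S.sum n fun _ => 1

/-- The weight of a free element, zero for the others. -/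
noncomputable def Sys.wF (S : Sys P H) (p : P) : ℝ := open Classical in
  if S.κ.Fr p then (S.κ.wt p).toReal else 0

/-- The mean length of a free element. -/
noncomputable def Sys.ell (S : Sys P H) : ℝ :=
  (∑' p : {p // S.κ.Fr p}, S.κ.wt p.1 * S.ln p.1).toReal

/-- The total weight does not decay exponentially. -/
def Sys.Gr (S : Sys P H) : Prop :=
  ∀ δ : ℝ, 0 < δ → ∀ᶠ k : ℕ in Filter.atTop, ENNReal.ofReal (Real.exp (-δ * k)) ≤ S.tot (2 * k)

end Pool.Agent.KAmp
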