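import Pool.Agent.KAmp.Sys

/-! KP1: tilted kernels have the same superharmonic function. -/

set_option autoImplicit false

open scoped ENNReal

namespace Pool.Agent.KAmp

open Pool.Agent.KLog (Ker nrm hh super)

variable {P H : Type} {κ : Ker P}

private theorem hh_le_one (w : ℤ × ℤ) : hh w ≤ 1 := by
  unfold hh
  rw [ENNReal.ofReal_le_one]
  have : (0 : ℝ) < (1 / 4) ^ nrm w := by positivity
  linarith

private theorem hh_add (v : ℤ × ℤ) : hh v + ENNReal.ofReal ((1 / 4) ^ nrm v) = 1 := by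
  unfold hh
  have h1 : (1 / 4 : ℝ) ^ nrm v ≤ 1 := pow_le_one₀ (by norm_num) (by norm_num)
  have h2 : (0 : ℝ) < (1 / 4) ^ nrm v := by positivity
  rw [← ENNReal.ofReal_add (by linarith) h2.le, sub_add_cancel, ENNReal.ofReal_one]

private theorem four_pow (l : ℕ) : (4 : ℝ≥0∞) ^ l = ENNReal.ofReal (4 ^ l) := by
  rw [ENNReal.ofReal_pow (by norm_num)]
  norm_num

private theorem nrm_sub (v u : ℤ × ℤ) : nrm v ≤ nrm (v + u) + nrm u := by
  obtain ⟨a, b⟩ := v
  obtain ⟨c, d⟩ := u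
  simp only [nrm, Prod.mk_add_mk]
  omega

/-- `1 ≤ 4 ^ l * 4 ^ (- nrm v)` if `nrm v ≤ l`. -/
private theorem one_le_t {v : ℤ × ℤ} {l : ℕ} (h : nrm v ≤ l) :
    1 ≤ 4 ^ l * ENNReal.ofReal ((1 / 4) ^ nrm v) := by
  rw [four_pow, ← ENNReal.ofReal_mul (by positivity), ← ENNReal.ofReal_one]
  apply ENNReal.ofReal_le_ofReal
  calc (1 : ℝ) = 4 ^ nrm v * (1 / 4) ^ nrm v := by
        rw [← mul_pow]
        norm_num
    _ ≤ 4 ^ l * (1 / 4) ^ nrm v :=
        mul_le_mul_of_nonneg_right (pow_le_pow_right₀ (by norm_num) h) (by positivity)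

private theorem hh_le_a (v u : ℤ × ℤ) (l : ℕ) :
    hh (v + u) ≤ hh v + 4 ^ l * ENNReal.ofReal ((1 / 4) ^ nrm v) := by
  calc hh (v + u) ≤ 1 := hh_le_one _
    _ = hh v + ENNReal.ofReal ((1 / 4) ^ nrm v) := (hh_add v).symm
    _ ≤ _ := by
      gcongr
      exact le_mul_of_one_le_left' (one_le_pow_of_one_le' (by norm_num) _)

private theorem hh_le_b {v u : ℤ × ℤ} {l : ℕ} (hu : nrm u ≤ l) :
    hh v ≤ hh (v + u) + 4 ^ l * ENNReal.ofReal ((1 / 4) ^ nrm v) := by
  calc hh v ≤ 1 := hh_le_one _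
    _ = hh (v + u) + ENNReal.ofReal ((1 / 4) ^ nrm (v + u)) := (hh_add _).symm
    _ ≤ _ := by
      gcongr
      rw [four_pow, ← ENNReal.ofReal_mul (by positivity)]
      apply ENNReal.ofReal_le_ofReal
      have h1 : nrm v ≤ nrm (v + u) + l := (nrm_sub v u).trans (by omega)
      have h2 : (1 / 4 : ℝ) ^ (nrm (v + u) + l) ≤ (1 / 4) ^ nrm v :=
        pow_le_pow_of_le_one (by norm_num) (by norm_num) h1
      calc (1 / 4 : ℝ) ^ nrm (v + u) = 4 ^ l * (1 / 4) ^ (nrm (v + u) + l) := by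
            rw [pow_add, mul_comm ((1 / 4 : ℝ) ^ nrm (v + u)), ← mul_assoc, ← mul_pow]
            norm_num
        _ ≤ 4 ^ l * (1 / 4) ^ nrm v := mul_le_mul_of_nonneg_left h2 (by positivity)

private theorem sub_ind (C : P → Prop) (f : P → ℝ≥0∞) :
    ∑' p : {p // C p}, f p.1 = ∑' p, Set.indicator {p | C p} f p :=
  tsum_subtype {p | C p} f

/-- **Tilting.** If the tilt `τ = 1 + a - b` is close to one then the superharmonic function grows at
most by the factor `∑ wt τ` over the free elements. -/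
theorem tilt (hκ : κ.Ok) {τ a b : P → ℝ≥0∞} (h : ∀ p, τ p + b p = 1 + a p)
    (hab : ∑' p : {p // κ.Fr p ∨ ∃ v, κ.V v p}, κ.wt p.1 * (a p.1 + b p.1) * 4 ^ κ.l p.1 ≤
      ENNReal.ofReal (κ.z / 4)) {v : ℤ × ℤ} (hv : v ≠ 0) :
    ∑' p : {p // κ.V v p}, κ.wt p.1 * τ p.1 * hh (v + κ.u p.1) ≤
      (∑' p : {p // κ.Fr p}, κ.wt p.1 * τ p.1) * hh v := by
  have hz := hκ.z_pos
  set t : ℝ≥0∞ := ENNReal.ofReal ((1 / 4) ^ nrm v) with ht
  have ht1 : t ≤ 1 := by
    rw [ht, ENNReal.ofReal_le_one]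
    exact pow_le_one₀ (by norm_num) (by norm_num)
  -- the sums
  set SVt := ∑' p : {p // κ.V v p}, κ.wt p.1 * τ p.1 * hh (v + κ.u p.1) with hSVt
  set SVb := ∑' p : {p // κ.V v p}, κ.wt p.1 * b p.1 * hh (v + κ.u p.1) with hSVb
  set SVa := ∑' p : {p // κ.V v p}, κ.wt p.1 * a p.1 * hh (v + κ.u p.1) with hSVa
  set SFt := ∑' p : {p // κ.Fr p}, κ.wt p.1 * τ p.1 with hSFt
  set SFa := ∑' p : {p // κ.Fr p}, κ.wt p.1 * a p.1 with hSFa
  set SFb := ∑' p : {p // κ.Fr p}, κ.wt p.1 * b p.1 with hSFb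
  set SXa := ∑' p : {p // κ.Fr p ∨ ∃ v, κ.V v p}, κ.wt p.1 * a p.1 * 4 ^ κ.l p.1 with hSXa
  set SXb := ∑' p : {p // κ.Fr p ∨ ∃ v, κ.V v p}, κ.wt p.1 * b p.1 * 4 ^ κ.l p.1 with hSXb
  have hX : SXa + SXb ≤ ENNReal.ofReal (κ.z / 4) := by
    refine le_trans (le_of_eq ?_) hab
    rw [hSXa, hSXb, ← ENNReal.tsum_add]
    refine tsum_congr fun p => ?_
    rw [mul_add, add_mul]
  have hXt : SXa ≠ ⊤ ∧ SXb ≠ ⊤ := by
    have : SXa + SXb ≠ ⊤ := ne_top_of_le_ne_top ENNReal.ofReal_ne_top hX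
    exact ENNReal.add_ne_top.1 this
  -- comparison (A)
  have hA : SVa ≤ SFa * hh v + SXa * t := by
    rw [hSVa, hSFa, hSXa, ← ENNReal.tsum_mul_right, ← ENNReal.tsum_mul_right,
      sub_ind (fun p => κ.V v p) (fun p => κ.wt p * a p * hh (v + κ.u p)),
      sub_ind κ.Fr (fun p => κ.wt p * a p * hh v),
      sub_ind (fun p => κ.Fr p ∨ ∃ v, κ.V v p) (fun p => κ.wt p * a p * 4 ^ κ.l p * t),
      ← ENNReal.tsum_add]
    refine ENNReal.tsum_le_tsum fun p => ?_
    by_cases hV : κ.V v p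
    · have hXp : κ.Fr p ∨ ∃ v, κ.V v p := Or.inr ⟨v, hV⟩
      by_cases hF : κ.Fr p
      · rw [Set.indicator_of_mem (show p ∈ {p | κ.V v p} from hV),
          Set.indicator_of_mem (show p ∈ {p | κ.Fr p} from hF),
          Set.indicator_of_mem (show p ∈ {p | κ.Fr p ∨ ∃ v, κ.V v p} from hXp),
          mul_assoc (κ.wt p * a p) (4 ^ κ.l p) t, ← mul_add]
        gcongr
        exact hh_le_a _ _ _
      · rw [Set.indicator_of_mem (show p ∈ {p | κ.V v p} from hV),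
          Set.indicator_of_mem (show p ∈ {p | κ.Fr p ∨ ∃ v, κ.V v p} from hXp),
          mul_assoc (κ.wt p * a p) (4 ^ κ.l p) t]
        refine le_trans ?_ le_add_self
        gcongr
        have hl : nrm v ≤ κ.l p := by
          by_contra hlt
          exact hF ((hκ.far v p (not_le.1 hlt)).1 hV)
        exact (hh_le_one _).trans (one_le_t hl)
    · rw [Set.indicator_of_notMem (show p ∉ {p | κ.V v p} from hV)]
      exact zero_le
  -- comparison (B)
  have hB : SFb * hh v ≤ SVb + SXb * t := by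
    rw [hSVb, hSFb, hSXb, ← ENNReal.tsum_mul_right, ← ENNReal.tsum_mul_right,
      sub_ind (fun p => κ.V v p) (fun p => κ.wt p * b p * hh (v + κ.u p)),
      sub_ind κ.Fr (fun p => κ.wt p * b p * hh v),
      sub_ind (fun p => κ.Fr p ∨ ∃ v, κ.V v p) (fun p => κ.wt p * b p * 4 ^ κ.l p * t),
      ← ENNReal.tsum_add]
    refine ENNReal.tsum_le_tsum fun p => ?_
    by_cases hF : κ.Fr p
    · have hXp : κ.Fr p ∨ ∃ v, κ.V v p := Or.inl hF
      by_cases hV : κ.V v p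
      · rw [Set.indicator_of_mem (show p ∈ {p | κ.V v p} from hV),
          Set.indicator_of_mem (show p ∈ {p | κ.Fr p} from hF),
          Set.indicator_of_mem (show p ∈ {p | κ.Fr p ∨ ∃ v, κ.V v p} from hXp),
          mul_assoc (κ.wt p * b p) (4 ^ κ.l p) t, ← mul_add]
        gcongr
        exact hh_le_b (hκ.u_le p hXp)
      · rw [Set.indicator_of_mem (show p ∈ {p | κ.Fr p} from hF),
          Set.indicator_of_mem (show p ∈ {p | κ.Fr p ∨ ∃ v, κ.V v p} from hXp),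
          mul_assoc (κ.wt p * b p) (4 ^ κ.l p) t]
        refine le_trans ?_ le_add_self
        gcongr
        have hl : nrm v ≤ κ.l p := by
          by_contra hlt
          exact hV ((hκ.far v p (not_le.1 hlt)).2 hF)
        exact (hh_le_one _).trans (one_le_t hl)
    · rw [Set.indicator_of_notMem (show p ∉ {p | κ.Fr p} from hF)]
      exact zero_le
  -- the identities
  have hV1 : SVt + SVb = κ.B hh v + SVa := by
    rw [hSVt, hSVb, hSVa]
    unfold Ker.B
    rw [← ENNReal.tsum_add, ← ENNReal.tsum_add]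
    refine tsum_congr fun p => ?_
    rw [← add_mul, ← mul_add, h p.1, mul_add, mul_one, add_mul]
  have hF1 : SFt + SFb = 1 + SFa := by
    rw [hSFt, hSFb, hSFa, ← hκ.one, ← ENNReal.tsum_add, ← ENNReal.tsum_add]
    refine tsum_congr fun p => ?_
    rw [← mul_add, h p.1, mul_add, mul_one]
  have hs := super hκ hv
  -- finiteness
  have hbF : SFb * hh v ≠ ⊤ := by
    have h1 : SFb ≤ SXb := by
      rw [hSFb, hSXb]
      refine Pool.Agent.KLog.tsum_mono_sub (A := κ.Fr) (B := fun p => κ.Fr p ∨ ∃ v, κ.V v p)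
        (f := fun p => κ.wt p * b p) (g := fun p => κ.wt p * b p * 4 ^ κ.l p)
        fun p hp => ⟨Or.inl hp, ?_⟩
      exact le_mul_of_one_le_right' (one_le_pow_of_one_le' (by norm_num) _)
    exact ENNReal.mul_ne_top (ne_top_of_le_ne_top hXt.2 h1)
      (ne_top_of_le_ne_top ENNReal.one_ne_top (hh_le_one v))
  have hbV : SVb ≠ ⊤ := by
    have h1 : SVb ≤ SXb := by
      rw [hSVb, hSXb]
      refine Pool.Agent.KLog.tsum_mono_sub (A := fun p => κ.V v p)
        (B := fun p => κ.Fr p ∨ ∃ v, κ.V v p)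
        (f := fun p => κ.wt p * b p * hh (v + κ.u p))
        (g := fun p => κ.wt p * b p * 4 ^ κ.l p)
        fun p hp => ⟨Or.inr ⟨v, hp⟩, ?_⟩
      gcongr
      exact (hh_le_one _).trans (one_le_pow_of_one_le' (by norm_num) _)
    exact ne_top_of_le_ne_top hXt.2 h1
  have hr : ENNReal.ofReal (κ.z / 2 * (1 / 4) ^ nrm v) ≠ ⊤ := ENNReal.ofReal_ne_top
  have hr2 : (SXa + SXb) * t ≤ ENNReal.ofReal (κ.z / 2 * (1 / 4) ^ nrm v) := by
    calc (SXa + SXb) * t ≤ ENNReal.ofReal (κ.z / 4) * t := by gcongr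
      _ = ENNReal.ofReal (κ.z / 4 * (1 / 4) ^ nrm v) := by
        rw [ht, ← ENNReal.ofReal_mul (by positivity)]
      _ ≤ _ := by
        apply ENNReal.ofReal_le_ofReal
        have : (0 : ℝ) < (1 / 4) ^ nrm v := by positivity
        nlinarith
  set r : ℝ≥0∞ := ENNReal.ofReal (κ.z / 2 * (1 / 4) ^ nrm v) with hrdef
  -- the final chain
  have key : SVt + (SVb + (SFb * hh v + r)) ≤ SFt * hh v + (SVb + (SFb * hh v + r)) := by
    calc SVt + (SVb + (SFb * hh v + r)) = (SVt + SVb) + (SFb * hh v + r) := by ring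
      _ = (κ.B hh v + r) + (SVa + SFb * hh v) := by rw [hV1]; ring
      _ ≤ hh v + ((SFa * hh v + SXa * t) + (SVb + SXb * t)) := by
        gcongr
      _ = (1 + SFa) * hh v + (SVb + (SXa + SXb) * t) := by ring
      _ = SFt * hh v + (SVb + (SFb * hh v + (SXa + SXb) * t)) := by rw [← hF1]; ring
      _ ≤ _ := by gcongr
  have hfin : SVb + (SFb * hh v + r) ≠ ⊤ :=
    ENNReal.add_ne_top.2 ⟨hbV, ENNReal.add_ne_top.2 ⟨hbF, hr⟩⟩
  exact (ENNReal.add_le_add_iff_right hfin).1 key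

/-- **Tilting near the origin.** -/
theorem tilt_near (hκ : κ.Ok) (R : ℕ) : ∃ θ : ℝ, 0 < θ ∧ ∀ v : ℤ × ℤ, v ≠ 0 →
    ∑' p : {p // κ.V v p}, κ.wt p.1 * (if nrm v ≤ R then ENNReal.ofReal (Real.exp θ) else 1) *
      hh (v + κ.u p.1) ≤ hh v := by
  have hz := hκ.z_pos
  have hz' := hκ.z_le
  set δ : ℝ := κ.z / 2 * (1 / 4) ^ R with hδ
  have hδ0 : 0 < δ := by positivity
  have hδ1 : δ < 1 := by
    have h1 : (1 / 4 : ℝ) ^ R ≤ 1 := pow_le_one₀ (by norm_num) (by norm_num)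
    have h2 : (0 : ℝ) < (1 / 4) ^ R := by positivity
    nlinarith
  have h1δ : 0 < 1 - δ := by linarith
  refine ⟨-Real.log (1 - δ), ?_, ?_⟩
  · have := Real.log_neg h1δ (by linarith)
    linarith
  intro v hv
  have hs := super hκ hv
  have e : ∀ c : ℝ≥0∞, ∑' p : {p // κ.V v p}, κ.wt p.1 * c * hh (v + κ.u p.1) =
      c * κ.B hh v := by
    intro c
    unfold Ker.B
    rw [← ENNReal.tsum_mul_left]
    refine tsum_congr fun p => ?_
    ring
  rw [e]
  split_ifs with hR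
  · have hx0 : (0 : ℝ) < (1 / 4) ^ nrm v := by positivity
    have hδv : δ ≤ κ.z / 2 * (1 / 4) ^ nrm v := by
      have : (1 / 4 : ℝ) ^ R ≤ (1 / 4) ^ nrm v :=
        pow_le_pow_of_le_one (by norm_num) (by norm_num) hR
      rw [hδ]
      exact mul_le_mul_of_nonneg_left this (by positivity)
    have hB : κ.B hh v + ENNReal.ofReal δ ≤ ENNReal.ofReal (1 - (1 / 4) ^ nrm v) := by
      refine le_trans ?_ hs
      gcongr
    have hB2 : κ.B hh v ≤ ENNReal.ofReal (1 - (1 / 4) ^ nrm v - δ) := by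
      rw [ENNReal.ofReal_sub _ hδ0.le]
      exact ENNReal.le_sub_of_add_le_right ENNReal.ofReal_ne_top hB
    calc ENNReal.ofReal (Real.exp (-Real.log (1 - δ))) * κ.B hh v
        ≤ ENNReal.ofReal (Real.exp (-Real.log (1 - δ))) *
          ENNReal.ofReal (1 - (1 / 4) ^ nrm v - δ) := by gcongr
      _ = ENNReal.ofReal ((1 - δ)⁻¹ * (1 - (1 / 4) ^ nrm v - δ)) := by
        rw [← ENNReal.ofReal_mul (Real.exp_pos _).le, Real.exp_neg, Real.exp_log h1δ]
      _ ≤ hh v := by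
        unfold hh
        apply ENNReal.ofReal_le_ofReal
        rw [inv_mul_le_iff₀ h1δ]
        nlinarith
  · rw [one_mul]
    exact le_trans le_self_add hs

end Pool.Agent.KAmp
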