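import Pool.Agent.KAmp.Model
import Pool.Agent.KAsym.CutB

/-! KP10: the total weight of the chains of length `n` is twice the partition function. -/

set_option autoImplicit false

open Pool.Agent.LK Filter Topology
open scoped ENNReal

namespace Pool.Agent.KAmp

open Pool.Agent.KTube Pool.Agent.KRing Pool.Agent.KLog
open Pool.Agent.KAsym (ln)
open Pool.Agent.KTen (Zt)

variable {y z : ℝ}

open Classical in
/-- The indicator of length `n`. -/
private noncomputable def ind (n k : ℕ) : ℝ≥0∞ := if k = n then 1 else 0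

private theorem tsum_ind {α : Type*} (k : α → ℕ) (n : ℕ) (f : α → ℝ≥0∞) :
    ∑' x : {x : α // k x = n}, f x.1 = ∑' x, ind n (k x) * f x := by
  have h1 : ∑' x : {x : α // k x = n}, f x.1 = ∑' x, Set.indicator {x | k x = n} f x :=
    tsum_subtype {x | k x = n} f
  rw [h1]
  refine tsum_congr fun x => ?_
  unfold ind
  by_cases h : k x = n
  · rw [Set.indicator_of_mem (by exact h), if_pos h, one_mul]
  · rw [Set.indicator_of_notMem (by exact h), if_neg h, zero_mul]

private theorem tsum_fib {α : Type} (P : α → Prop) (k : α → ℕ) (f : α → ℝ≥0∞) :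
    ∑' n : ℕ, ∑' E : {E // P E ∧ k E = n}, f E.1 = ∑' E : {E // P E}, f E.1 := by
  rw [← ENNReal.tsum_fiberwise (fun E : {E // P E} => f E.1) (fun E => k E.1)]
  refine tsum_congr fun n => ?_
  let e : {E // P E ∧ k E = n} ≃ ((fun E : {E // P E} => k E.1) ⁻¹' {n}) :=
    { toFun := fun E => ⟨⟨E.1, E.2.1⟩, E.2.2⟩
      invFun := fun E => ⟨E.1.1, E.1.2, E.2⟩
      left_inv := fun E => rfl
      right_inv := fun E => rfl }
  exact e.tsum_eq (fun E : ((fun E : {E // P E} => k E.1) ⁻¹' {n}) => f E.1.1)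

/-- The chains, regrouped. -/
private theorem tot_chains (y z : ℝ) (n : ℕ) :
    (sys y z).tot n = ∑' v : ℤ × ℤ, ∑' r : {l // Half 0 v l}, ∑' l : {l // LU 0 0 v l},
      ind n (l.1.length + r.1.length) *
        (wl (ENNReal.ofReal y) (ENNReal.ofReal z) l.1 *
          wl (ENNReal.ofReal y) (ENNReal.ofReal z) r.1) := by
  choose e he using exists_lu_equiv y z
  have h0 : (sys y z).tot n = ∑' x : {x : (sys y z).Ch // (sys y z).len x = n},
      (sys y z).W x.1 := by
    unfold Sys.tot Sys.sum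
    simp only [mul_one]
  rw [h0, tsum_ind (fun x => (sys y z).len x) n (fun x => (sys y z).W x)]
  let E : (Σ h : HT, {x : HT × List PP // VC (ker y z) x.1.1 x.2 ∧
      ev (ker y z) x.1.1 x.2 = h.1}) ≃ (sys y z).Ch :=
    { toFun := fun q => ⟨(q.2.1.1, q.2.1.2, q.1), q.2.2⟩
      invFun := fun x => ⟨x.1.2.2, ⟨(x.1.1, x.1.2.1), x.2⟩⟩
      left_inv := fun x => rfl
      right_inv := fun x => rfl }
  rw [← E.tsum_eq, ENNReal.tsum_sigma', ENNReal.tsum_sigma']
  refine tsum_congr fun v => tsum_congr fun r => ?_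
  rw [← (e v).tsum_eq]
  refine tsum_congr fun x => ?_
  rw [he]
  have hl : ((sys y z).len (E ⟨⟨v, r⟩, x⟩)) =
      (gl x.1.1.1 x.1.1.2.1 x.1.2).length + r.1.length := by
    rw [length_gl x.1.1.2.2 x.2.1]
    rfl
  have hw : ((sys y z).W (E ⟨⟨v, r⟩, x⟩)) =
      wl (ENNReal.ofReal y) (ENNReal.ofReal z) (gl x.1.1.1 x.1.1.2.1 x.1.2) *
        wl (ENNReal.ofReal y) (ENNReal.ofReal z) r.1 := by
    rw [wl_gl x.1.1.2.2 x.2.1]
    rfl
  rw [hl, hw]

/-- The polygons, regrouped. -/
private theorem tot_poly (y z : ℝ) (n m : ℕ) :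
    2 * ∑' E : PN (m + 1), ind n E.1.card *
      (ENNReal.ofReal y ^ span E.1 * ENNReal.ofReal z ^ E.1.card) =
    ENNReal.ofReal y * ∑' v : ℤ × ℤ, ∑' r : {l // Half 0 v l}, ∑' l : {l // Half m v l},
      ind n (l.1.length + r.1.length) *
        (wl (ENNReal.ofReal y) (ENNReal.ofReal z) l.1 *
          wl (ENNReal.ofReal y) (ENNReal.ofReal z) r.1) := by
  obtain ⟨e, he⟩ := Pool.Agent.KAsym.cut_bij m
  set F : PN (m + 1) → ℝ≥0∞ := fun E => ind n E.1.card *
      (ENNReal.ofReal y ^ span E.1 * ENNReal.ofReal z ^ E.1.card) with hF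
  have h1 : 2 * ∑' E, F E = ∑' x : PN (m + 1) × Bool, F x.1 := by
    rw [ENNReal.tsum_prod', ← ENNReal.tsum_mul_left]
    refine tsum_congr fun E => ?_
    rw [tsum_fintype, Fintype.sum_bool, two_mul]
  set G : (Σ v : ℤ × ℤ, {l // Half m v l} × {l // Half 0 v l}) → ℝ≥0∞ := fun p =>
    ENNReal.ofReal y * (ind n (p.2.1.1.length + p.2.2.1.length) *
        (wl (ENNReal.ofReal y) (ENNReal.ofReal z) p.2.1.1 *
          wl (ENNReal.ofReal y) (ENNReal.ofReal z) p.2.2.1)) with hG
  have h2 : ∀ x : PN (m + 1) × Bool, F x.1 = G (e x) := by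
    intro x
    obtain ⟨hx1, hx2⟩ := he x
    simp only [hF, hG]
    rw [hx1, hx2]
    unfold wl
    ring
  rw [h1, tsum_congr h2, e.tsum_eq G, ENNReal.tsum_sigma', ← ENNReal.tsum_mul_left]
  refine tsum_congr fun v => ?_
  rw [ENNReal.tsum_prod', ENNReal.tsum_comm, ← ENNReal.tsum_mul_left]
  refine tsum_congr fun r => ?_
  rw [← ENNReal.tsum_mul_left]

/-- **The total weight.** -/
theorem tot_eq (hy : 0 < y) (hz : 0 < z) (n : ℕ) :
    ENNReal.ofReal y * (sys y z).tot n +
      2 * ∑' E : {E : PN 0 // E.1.card = n},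
        ENNReal.ofReal y ^ span E.1.1 * ENNReal.ofReal z ^ E.1.1.card =
      2 * ENNReal.ofReal (Zt y UClass n * z ^ n) := by
  have h0 : ENNReal.ofReal (Zt y UClass n * z ^ n) =
      ∑' N, ∑' E : PN N, ind n E.1.card * (ENNReal.ofReal y ^ span E.1 *
        ENNReal.ofReal z ^ E.1.card) := by
    rw [← gen_eq hy.le hz.le (ind n), tsum_eq_single n]
    · unfold ind
      rw [if_pos rfl, one_mul]
    · intro k hk
      unfold ind
      rw [if_neg hk, zero_mul]
  have h1 : ∑' E : {E : PN 0 // E.1.card = n},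
        ENNReal.ofReal y ^ span E.1.1 * ENNReal.ofReal z ^ E.1.1.card =
      ∑' E : PN 0, ind n E.1.card * (ENNReal.ofReal y ^ span E.1 *
        ENNReal.ofReal z ^ E.1.card) :=
    tsum_ind (fun E : PN 0 => E.1.card) n (fun E : PN 0 => ENNReal.ofReal y ^ span E.1 *
        ENNReal.ofReal z ^ E.1.card)
  rw [h0, h1, tsum_eq_zero_add' ENNReal.summable, mul_add, add_comm]
  congr 1
  rw [← ENNReal.tsum_mul_left, tsum_congr (tot_poly y z n), ENNReal.tsum_mul_left, tot_chains]
  congr 1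
  symm
  rw [ENNReal.tsum_comm]
  refine tsum_congr fun v => ?_
  rw [ENNReal.tsum_comm]
  refine tsum_congr fun r => ?_
  exact tsum_fib (fun l => LU 0 0 v l) nsec (fun l => ind n (l.length + r.1.length) *
        (wl (ENNReal.ofReal y) (ENNReal.ofReal z) l *
          wl (ENNReal.ofReal y) (ENNReal.ofReal z) r.1))

end Pool.Agent.KAmp
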